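import Mathlib

/-!
EX-A6: free groups of finite rank are residually finite (sequence form).
-/

namespace Pool.Agent.Helper59.EX

/-- the ball of radius `n` in the free group -/
abbrev h82_B (I : Type) [DecidableEq I] (n : ℕ) : Type := {w : FreeGroup I // w.norm ≤ n}

lemma h82_finite (I : Type) [DecidableEq I] [Finite I] (n : ℕ) : Finite (h82_B I n) := by
  have h := List.finite_length_le (I × Bool) n
  have : Finite {l : List (I × Bool) | l.length ≤ n} := h
  refine Finite.of_injective (β := {l : List (I × Bool) | l.length ≤ n})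
    (fun w => ⟨w.1.toWord, w.2⟩) ?_
  intro w w' hw
  exact Subtype.ext (FreeGroup.toWord_injective (congrArg Subtype.val hw))

/-- the partial left multiplication by a generator -/
def h82_e (I : Type) [DecidableEq I] (n : ℕ) (i : I) :
    {x : h82_B I n // (FreeGroup.of i * x.1).norm ≤ n} ≃
      {x : h82_B I n // ((FreeGroup.of i)⁻¹ * x.1).norm ≤ n} where
  toFun x := ⟨⟨FreeGroup.of i * x.1.1, x.2⟩, by
    change ((FreeGroup.of i)⁻¹ * (FreeGroup.of i * x.1.1)).norm ≤ n
    rw [inv_mul_cancel_left]; exact x.1.2⟩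
  invFun x := ⟨⟨(FreeGroup.of i)⁻¹ * x.1.1, x.2⟩, by
    change (FreeGroup.of i * ((FreeGroup.of i)⁻¹ * x.1.1)).norm ≤ n
    rw [mul_inv_cancel_left]; exact x.1.2⟩
  left_inv x := by
    apply Subtype.ext
    apply Subtype.ext
    exact inv_mul_cancel_left _ _
  right_inv x := by
    apply Subtype.ext
    apply Subtype.ext
    exact mul_inv_cancel_left _ _

open Classical in
/-- the permutation of the ball extending left multiplication -/
noncomputable def h82_p (I : Type) [DecidableEq I] [Finite I] (n : ℕ) (i : I) : Equiv.Perm (h82_B I n) :=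
  haveI : Fintype (h82_B I n) := @Fintype.ofFinite _ (h82_finite I n)
  (h82_e I n i).extendSubtype

lemma h82_p_apply (I : Type) [DecidableEq I] [Finite I] (n : ℕ) (i : I) (x : h82_B I n)
    (hx : (FreeGroup.of i * x.1).norm ≤ n) :
    (h82_p I n i x).1 = FreeGroup.of i * x.1 := by
  classical
  let _ : Fintype (h82_B I n) := @Fintype.ofFinite _ (h82_finite I n)
  have h := Equiv.extendSubtype_apply_of_mem (h82_e I n i) x hx
  exact congrArg Subtype.val h

/-- the action of the free group on the ball -/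
noncomputable def h82_t (I : Type) [DecidableEq I] [Finite I] (n : ℕ) :
    FreeGroup I →* Equiv.Perm (h82_B I n) :=
  FreeGroup.lift (h82_p I n)

/-- the centre of the ball -/
def h82_o (I : Type) [DecidableEq I] (n : ℕ) : h82_B I n :=
  ⟨1, by rw [FreeGroup.norm_one]; exact Nat.zero_le n⟩

lemma h82_key (I : Type) [DecidableEq I] [Finite I] (n : ℕ) (L : List (I × Bool))
    (hL : L.length ≤ n) : (h82_t I n (FreeGroup.mk L) (h82_o I n)).1 = FreeGroup.mk L := by
  induction L with
  | nil =>
    have h1 : (FreeGroup.mk ([] : List (I × Bool))) = 1 := rfl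
    rw [h1, map_one]
    rfl
  | cons a L ih =>
    obtain ⟨i, b⟩ := a
    have hL' : L.length ≤ n := by
      rw [List.length_cons] at hL
      omega
    have h0 : FreeGroup.mk ((i, b) :: L) = FreeGroup.mk [(i, b)] * FreeGroup.mk L := by
      rw [FreeGroup.mul_mk]; rfl
    have hnorm : (FreeGroup.mk ((i, b) :: L)).norm ≤ n := FreeGroup.norm_mk_le.trans hL
    have h1 := ih hL'
    obtain ⟨x, hx⟩ : ∃ x, x = h82_t I n (FreeGroup.mk L) (h82_o I n) := ⟨_, rfl⟩
    rw [← hx] at h1
    have hxn : x.1.norm ≤ n := x.2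
    rw [h0] at hnorm ⊢
    rw [map_mul, Equiv.Perm.mul_apply, ← hx]
    rw [← h1] at hnorm ⊢
    cases b with
    | true =>
      have h2 : FreeGroup.mk [(i, true)] = FreeGroup.of i := rfl
      rw [h2] at hnorm ⊢
      rw [h82_t, FreeGroup.lift_apply_of, h82_p_apply I n i _ hnorm]
    | false =>
      have h2 : FreeGroup.mk [(i, false)] = (FreeGroup.of i)⁻¹ := rfl
      rw [h2] at hnorm ⊢
      rw [map_inv, h82_t, FreeGroup.lift_apply_of]
      have h3 : h82_p I n i ⟨(FreeGroup.of i)⁻¹ * x.1, hnorm⟩ = x := by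
        apply Subtype.ext
        rw [h82_p_apply I n i _ (by
          change (FreeGroup.of i * ((FreeGroup.of i)⁻¹ * x.1)).norm ≤ n
          rw [mul_inv_cancel_left]
          exact hxn)]
        exact mul_inv_cancel_left _ _
      have h4 : (h82_p I n i)⁻¹ x = ⟨(FreeGroup.of i)⁻¹ * x.1, hnorm⟩ := by
        rw [Equiv.Perm.inv_eq_iff_eq]
        exact h3.symm
      rw [h4]

theorem exists_finite_quotients (I : Type) [Finite I] :
    ∃ (Q : ℕ → Type) (_ : ∀ n, Group (Q n)) (_ : ∀ n, Finite (Q n))
      (θ : ∀ n, FreeGroup I →* Q n),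
      ∀ γ : FreeGroup I, γ ≠ 1 → ∀ᶠ n in Filter.atTop, θ n γ ≠ 1 := by
  classical
  refine ⟨fun n => Equiv.Perm (h82_B I n), fun n => inferInstance, fun n => ?_,
    fun n => h82_t I n, fun γ hγ => ?_⟩
  · have := h82_finite I n
    infer_instance
  · filter_upwards [Filter.eventually_ge_atTop γ.norm] with n hn h1
    apply hγ
    have h2 := h82_key I n γ.toWord hn
    rw [FreeGroup.mk_toWord, h1] at h2
    exact h2.symm

end Pool.Agent.Helper59.EX
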