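import Pool.Agent.Helper59.EX.Betti

/-!
EX-P1: the space of coboundaries of an infinite group has dimension at least one.
-/

open scoped InnerProductSpace ComplexOrder

namespace Pool.Agent.Helper59.EX

section

variable {G I : Type}

/-- restriction to the edges of label `i` -/
private noncomputable def p1_res (i : I) : L2 (G × I) →L[ℂ] L2 G :=
  LinearMap.mkContinuous
    { toFun := fun f => ⟨fun x => f (x, i), by
        have h := lp.memℓp f
        rw [memℓp_gen_iff (by norm_num)] at h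
        have h2 : Memℓp (fun x : G => f (x, i)) 2 := by
          rw [memℓp_gen_iff (by norm_num)]
          exact h.comp_injective (i := fun x : G => (x, i)) (Prod.mk_left_injective i)
        exact h2⟩
      map_add' := fun f g => by ext x; rfl
      map_smul' := fun c f => by ext x; rfl } 1 (fun f => by
        rw [one_mul, lp.norm_eq_tsum_rpow (by norm_num), lp.norm_eq_tsum_rpow (by norm_num)]
        have h := lp.memℓp f
        rw [memℓp_gen_iff (by norm_num)] at h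
        refine Real.rpow_le_rpow (tsum_nonneg fun x => by positivity) ?_ (by positivity)
        exact tsum_comp_le_tsum_of_inj h (fun x => by positivity)
          (i := fun x : G => (x, i)) (Prod.mk_left_injective i))

private theorem p1_res_apply (i : I) (f : L2 (G × I)) (x : G) : p1_res i f x = f (x, i) := rfl

variable [Group G] [Fintype I] (s : I → G)

/-- the divergence -/
private noncomputable def p1_Ds : L2 (G × I) →L[ℂ] L2 G :=
  ∑ i, ((rightReg (s i)⁻¹ : L2 G →L[ℂ] L2 G) ∘L p1_res i - p1_res i)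

/-- the gradient -/
private noncomputable def p1_D : L2 G →L[ℂ] L2 (G × I) :=
  ContinuousLinearMap.adjoint (p1_Ds s)

/-- the Laplacian -/
private noncomputable def p1_X : L2 G →L[ℂ] L2 G :=
  ∑ i, ((1 - (rightReg (s i)⁻¹ : L2 G →L[ℂ] L2 G)) + (1 - (rightReg (s i) : L2 G →L[ℂ] L2 G)))

omit [Fintype I] in
private theorem p1_sum_apply {X : Type} (t : Finset I) (f : I → L2 X) (x : X) :
    (∑ i ∈ t, f i : L2 X) x = ∑ i ∈ t, f i x := by
  rw [lp.coeFn_sum]
  simp

private theorem p1_Ds_apply (h : L2 (G × I)) (x : G) :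
    p1_Ds s h x = ∑ i, (h (x * (s i)⁻¹, i) - h (x, i)) := by
  rw [p1_Ds, sum_apply, p1_sum_apply]
  rfl

private theorem p1_Ds_star (h : L2 (G × I)) (g : G) :
    p1_Ds s h g = ⟪starVec s g, h⟫_ℂ := by
  rw [p1_Ds_apply, starVec, sum_inner]
  refine Finset.sum_congr rfl fun i _ => ?_
  rw [inner_sub_left, inner_delta_left, inner_delta_left]

private theorem p1_Ds_delta (x : G) (i : I) :
    p1_Ds s (delta (x, i)) = delta (x * s i) - delta x := by
  classical
  ext g
  rw [p1_Ds_apply]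
  simp only [delta_apply, Prod.mk.injEq, lp.coeFn_sub, Pi.sub_apply]
  rw [Finset.sum_sub_distrib]
  congr 1
  · rw [Finset.sum_eq_single i]
    · simp [mul_inv_eq_iff_eq_mul]
    · intro j _ hj
      rw [if_neg (fun h => hj h.2)]
    · intro h; exact absurd (Finset.mem_univ _) h
  · rw [Finset.sum_eq_single i]
    · simp
    · intro j _ hj
      rw [if_neg (fun h => hj h.2)]
    · intro h; exact absurd (Finset.mem_univ _) h

private theorem p1_D_apply (w : L2 G) (x : G) (i : I) :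
    p1_D s w (x, i) = w (x * s i) - w x := by
  rw [← inner_delta_left (x, i), p1_D, ContinuousLinearMap.adjoint_inner_right, p1_Ds_delta,
    inner_sub_left, inner_delta_left, inner_delta_left]

private theorem p1_X_apply (w : L2 G) (x : G) :
    p1_X s w x = ∑ i, ((w x - w (x * (s i)⁻¹)) + (w x - w (x * s i))) := by
  rw [p1_X, sum_apply, p1_sum_apply]
  rfl

private theorem p1_DsD (w : L2 G) : p1_Ds s (p1_D s w) = p1_X s w := by
  ext x
  rw [p1_Ds_apply, p1_X_apply]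
  refine Finset.sum_congr rfl fun i _ => ?_
  rw [p1_D_apply, p1_D_apply, inv_mul_cancel_right]
  ring

private theorem p1_X_inner (v w : L2 G) : ⟪v, p1_X s w⟫_ℂ = ⟪p1_D s v, p1_D s w⟫_ℂ := by
  rw [← p1_DsD]
  conv_rhs => rw [p1_D, ContinuousLinearMap.adjoint_inner_left]
  rfl

private theorem p1_X_symm (v w : L2 G) : ⟪v, p1_X s w⟫_ℂ = ⟪p1_X s v, w⟫_ℂ := by
  rw [p1_X_inner, ← inner_conj_symm (p1_X s v) w, p1_X_inner, inner_conj_symm]

private theorem p1_X_left (g : G) (w : L2 G) :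
    p1_X s ((leftReg g : L2 G →L[ℂ] L2 G) w) = (leftReg g : L2 G →L[ℂ] L2 G) (p1_X s w) := by
  ext x
  rw [p1_X_apply, leftReg_apply g (p1_X s w) x, p1_X_apply]
  simp only [leftReg_apply, mul_assoc]

private theorem p1_mem (w : L2 G) : p1_D s w ∈ l2Cobound s := by
  rw [l2Cobound, Submodule.mem_orthogonal]
  intro h hh
  rw [Submodule.mem_orthogonal] at hh
  have h1 : p1_Ds s h = 0 := by
    ext g
    rw [p1_Ds_star]
    exact hh _ (Submodule.subset_span ⟨g, rfl⟩)
  rw [p1_D, ContinuousLinearMap.adjoint_inner_right, h1, inner_zero_left]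

/-- the key inequality -/
private theorem p1_key (ε : ℝ) (hε : 0 ≤ ε) (h : L2 (G × I)) (w : L2 G)
    (hw : p1_X s w + (ε : ℂ) • w = p1_Ds s h) :
    (⟪h, p1_D s w⟫_ℂ).re ≤ ‖(l2Cobound s).starProjection h‖ ^ 2 := by
  have h1 : ⟪h, p1_D s w⟫_ℂ = ⟪(l2Cobound s).starProjection h, p1_D s w⟫_ℂ := by
    rw [Submodule.inner_starProjection_left_eq_right,
      Submodule.starProjection_eq_self_iff.2 (p1_mem s w)]
  have h2 : (⟪h, p1_D s w⟫_ℂ).re = ‖p1_D s w‖ ^ 2 + ε * ‖w‖ ^ 2 := by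
    rw [p1_D, ContinuousLinearMap.adjoint_inner_right, ← hw, inner_add_left, inner_smul_left,
      ← p1_X_symm, p1_X_inner, inner_self_eq_norm_sq_to_K, inner_self_eq_norm_sq_to_K]
    simp [← Complex.ofReal_pow]
    rfl
  have h3 : (⟪h, p1_D s w⟫_ℂ).re ≤ ‖(l2Cobound s).starProjection h‖ * ‖p1_D s w‖ := by
    rw [h1]
    exact (Complex.re_le_norm _).trans (norm_inner_le_norm _ _)
  have h4 : ‖p1_D s w‖ ≤ ‖(l2Cobound s).starProjection h‖ := by
    rcases eq_or_lt_of_le (norm_nonneg (p1_D s w)) with h0 | h0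
    · rw [← h0]; positivity
    · refine le_of_mul_le_mul_right ?_ h0
      nlinarith [sq_nonneg ‖w‖, mul_nonneg hε (sq_nonneg ‖w‖)]
  nlinarith [norm_nonneg ((l2Cobound s).starProjection h)]

private theorem p1_exists (ε : ℝ) (hε : 0 < ε) (v : L2 G) :
    ∃ u : L2 G, p1_X s u + (ε : ℂ) • u = v := by
  have hu : IsUnit (p1_X s + (ε : ℂ) • (1 : L2 G →L[ℂ] L2 G)) := by
    refine ContinuousLinearMap.isUnit_of_forall_le_norm_inner_map _ (c := ⟨ε, hε.le⟩) hε
      fun x => ?_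
    refine le_trans ?_ (Complex.re_le_norm _)
    rw [add_apply, inner_add_left, ← p1_X_symm, p1_X_inner]
    rw [smul_apply, inner_smul_left, inner_self_eq_norm_sq_to_K]
    simp only [one_apply_eq_self, inner_self_eq_norm_sq_to_K]
    have e1 : (((‖p1_D s x‖ : ℂ)) ^ 2 + (starRingEnd ℂ) (ε : ℂ) * (‖x‖ : ℂ) ^ 2).re =
        ‖p1_D s x‖ ^ 2 + ε * ‖x‖ ^ 2 := by
      rw [Complex.conj_ofReal]
      norm_cast
    have e2 : ‖x‖ ^ 2 * ε ≤ ‖p1_D s x‖ ^ 2 + ε * ‖x‖ ^ 2 := by nlinarith [sq_nonneg ‖p1_D s x‖]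
    refine le_trans e2 (le_of_eq e1.symm)
  obtain ⟨T, hT⟩ := hu
  refine ⟨(↑T⁻¹ : L2 G →L[ℂ] L2 G) v, ?_⟩
  have h1 : ((T : L2 G →L[ℂ] L2 G) * (↑T⁻¹ : L2 G →L[ℂ] L2 G)) v = v := by
    rw [Units.mul_inv]; rfl
  rw [hT] at h1
  exact h1

/-- the Laplacian has dense range -/
private theorem p1_dense [Infinite G] (hs : Subgroup.closure (Set.range s) = ⊤) :
    (LinearMap.range (p1_X s : L2 G →ₗ[ℂ] L2 G))ᗮ = ⊥ := by
  rw [Submodule.eq_bot_iff]
  intro ψ hψ
  rw [Submodule.mem_orthogonal] at hψ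
  have h1 : p1_D s ψ = 0 := by
    have h2 := hψ (p1_X s ψ) ⟨ψ, rfl⟩
    rw [← p1_X_symm, p1_X_inner] at h2
    exact inner_self_eq_zero.1 h2
  have h2 : ∀ i x, ψ (x * s i) = ψ x := by
    intro i x
    have h3 := p1_D_apply s ψ x i
    rw [h1] at h3
    have h4 : (0 : ℂ) = ψ (x * s i) - ψ x := h3
    exact (sub_eq_zero.1 h4.symm)
  have h3 : ∀ g : G, ∀ x, ψ (x * g) = ψ x := by
    intro g
    have hg : g ∈ Subgroup.closure (Set.range s) := by rw [hs]; trivial
    induction hg using Subgroup.closure_induction with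
    | mem y hy => obtain ⟨i, rfl⟩ := hy; exact h2 i
    | one => intro x; rw [mul_one]
    | mul y z _ _ hy hz => intro x; rw [← mul_assoc, hz, hy]
    | inv y _ hy => intro x; rw [← hy (x * y⁻¹), inv_mul_cancel_right]
  have h4 : ∀ x, ψ x = ψ 1 := by
    intro x
    have := h3 x 1
    rwa [one_mul] at this
  have h5 := lp.memℓp ψ
  rw [memℓp_gen_iff (by norm_num)] at h5
  have h6 : (fun x : G => ‖ψ x‖ ^ (2 : ENNReal).toReal) = fun _ => ‖ψ 1‖ ^ (2 : ENNReal).toReal := by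
    funext x; rw [h4 x]
  rw [h6, summable_const_iff] at h5
  have h7 : ψ 1 = 0 := by
    have h8 : ‖ψ 1‖ = 0 := by
      by_contra h9
      have h10 : 0 < ‖ψ 1‖ := lt_of_le_of_ne (norm_nonneg _) (Ne.symm h9)
      exact (Real.rpow_pos_of_pos h10 _).ne' h5
    exact norm_eq_zero.1 h8
  ext x
  rw [h4 x, h7]
  rfl

end

theorem one_le_dim_l2Cobound {G I : Type} [Group G] [Infinite G] [Fintype I] (s : I → G)
    (hs : Subgroup.closure (Set.range s) = ⊤) :
    1 ≤ ∑ i, ‖(l2Cobound s).starProjection (delta ((1 : G), i))‖ ^ 2 := by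
  classical
  set d := ∑ i, ‖(l2Cobound s).starProjection (delta ((1 : G), i))‖ ^ 2 with hd
  -- the resolvent estimate
  have main : ∀ (ε : ℝ) (u : L2 G), 0 < ε → p1_X s u + (ε : ℂ) • u = delta 1 →
      1 - ε * (u 1).re ≤ d := by
    intro ε u hε hu
    have h1 : ∀ i, ((2 : ℂ) * u 1 - u (s i) - u (s i)⁻¹).re ≤
        ‖(l2Cobound s).starProjection (delta ((1 : G), i))‖ ^ 2 := by
      intro i
      have h2 := p1_key s ε hε.le (delta ((1 : G), i))
        ((leftReg (s i) : L2 G →L[ℂ] L2 G) u - u) (by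
          rw [map_sub, p1_X_left, smul_sub, p1_Ds_delta, one_mul]
          have h3 : (leftReg (s i) : L2 G →L[ℂ] L2 G) (p1_X s u + (ε : ℂ) • u) =
              delta (s i) := by
            rw [hu, leftReg_delta, mul_one]
          rw [map_add, map_smul] at h3
          rw [← h3, ← hu]
          abel)
      rw [inner_delta_left, p1_D_apply, one_mul] at h2
      have h4 : ((leftReg (s i) : L2 G →L[ℂ] L2 G) u - u) (s i) -
          ((leftReg (s i) : L2 G →L[ℂ] L2 G) u - u) 1 =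
          (2 : ℂ) * u 1 - u (s i) - u (s i)⁻¹ := by
        simp only [lp.coeFn_sub, Pi.sub_apply, leftReg_apply, inv_mul_cancel, mul_one]
        ring
      rw [h4] at h2
      exact h2
    have h2 : (p1_X s u) 1 = ∑ i, ((2 : ℂ) * u 1 - u (s i) - u (s i)⁻¹) := by
      rw [p1_X_apply]
      refine Finset.sum_congr rfl fun i _ => ?_
      rw [one_mul, one_mul]
      ring
    have h3 : (p1_X s u) 1 = 1 - ε * u 1 := by
      have h4 : (p1_X s u + (ε : ℂ) • u) 1 = 1 := by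
        rw [hu, delta_apply, if_pos rfl]
      simp only [lp.coeFn_add, Pi.add_apply, lp.coeFn_smul, Pi.smul_apply, smul_eq_mul] at h4
      rw [← h4]; ring
    have h4 : 1 - ε * (u 1).re = ∑ i, ((2 : ℂ) * u 1 - u (s i) - u (s i)⁻¹).re := by
      rw [← Complex.re_sum, ← h2, h3]
      simp
    rw [h4]
    exact Finset.sum_le_sum fun i _ => h1 i
  -- smallness
  have small : ∀ (η : ℝ), 0 < η → ∃ K : ℝ, ∀ (ε : ℝ) (u : L2 G), 0 < ε →
      p1_X s u + (ε : ℂ) • u = delta 1 → ε * (u 1).re ≤ 2 * ε * K + η := by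
    intro η hη
    have h1 : (LinearMap.range (p1_X s : L2 G →ₗ[ℂ] L2 G)).topologicalClosure = ⊤ := by
      rw [Submodule.topologicalClosure_eq_top_iff]
      exact p1_dense s hs
    have h2 : (delta (1 : G) : L2 G) ∈
        (LinearMap.range (p1_X s : L2 G →ₗ[ℂ] L2 G)).topologicalClosure := by
      rw [h1]; trivial
    obtain ⟨_, ⟨φ, rfl⟩, hφ⟩ := Metric.mem_closure_iff.1 h2 η hη
    refine ⟨‖φ‖, fun ε u hε hu => ?_⟩
    rw [dist_eq_norm] at hφ
    have hφ' : ‖(delta (1 : G) : L2 G) - p1_X s φ‖ < η := hφ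
    have h3 : ε * ‖u‖ ≤ 1 := by
      have h4 : (⟪u, p1_X s u + (ε : ℂ) • u⟫_ℂ).re = ‖p1_D s u‖ ^ 2 + ε * ‖u‖ ^ 2 := by
        rw [inner_add_right, p1_X_inner, inner_smul_right, inner_self_eq_norm_sq_to_K,
          inner_self_eq_norm_sq_to_K]
        show (((‖p1_D s u‖ : ℂ)) ^ 2 + (ε : ℂ) * (‖u‖ : ℂ) ^ 2).re = _
        norm_cast
      have h5 : (⟪u, p1_X s u + (ε : ℂ) • u⟫_ℂ).re ≤ ‖u‖ := by
        rw [hu]
        refine (Complex.re_le_norm _).trans ((norm_inner_le_norm _ _).trans ?_)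
        rw [norm_delta, mul_one]
      rcases eq_or_lt_of_le (norm_nonneg u) with h0 | h0
      · rw [← h0]; norm_num
      · refine le_of_mul_le_mul_right ?_ h0
        nlinarith [sq_nonneg ‖p1_D s u‖]
    have h4 : ⟪p1_X s φ, (ε : ℂ) • u⟫_ℂ = ε * ⟪φ, (delta (1 : G) : L2 G) - (ε : ℂ) • u⟫_ℂ := by
      rw [inner_smul_right, ← p1_X_symm, ← hu, add_sub_cancel_right]
    have h5 : ‖⟪p1_X s φ, (ε : ℂ) • u⟫_ℂ‖ ≤ 2 * ε * ‖φ‖ := by
      rw [h4, norm_mul, Complex.norm_of_nonneg hε.le]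
      have h6 : ‖(delta (1 : G) : L2 G) - (ε : ℂ) • u‖ ≤ 2 := by
        refine (norm_sub_le _ _).trans ?_
        rw [norm_delta, norm_smul, Complex.norm_of_nonneg hε.le]
        linarith
      have h7 : ‖⟪φ, (delta (1 : G) : L2 G) - (ε : ℂ) • u⟫_ℂ‖ ≤ ‖φ‖ * 2 :=
        (norm_inner_le_norm _ _).trans (by gcongr)
      calc ε * ‖⟪φ, (delta (1 : G) : L2 G) - (ε : ℂ) • u⟫_ℂ‖ ≤ ε * (‖φ‖ * 2) := by gcongr
        _ = 2 * ε * ‖φ‖ := by ring
    have h6 : (ε : ℂ) * u 1 = ⟪p1_X s φ, (ε : ℂ) • u⟫_ℂ +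
        ⟪(delta (1 : G) : L2 G) - p1_X s φ, (ε : ℂ) • u⟫_ℂ := by
      rw [← inner_add_left, add_sub_cancel, inner_smul_right, inner_delta_left]
    have h7 : ‖⟪(delta (1 : G) : L2 G) - p1_X s φ, (ε : ℂ) • u⟫_ℂ‖ ≤ η := by
      refine (norm_inner_le_norm _ _).trans ?_
      rw [norm_smul, Complex.norm_of_nonneg hε.le]
      nlinarith [norm_nonneg ((delta (1 : G) : L2 G) - p1_X s φ)]
    have h8 : ε * (u 1).re = ((ε : ℂ) * u 1).re := by simp
    rw [h8, h6]
    refine (Complex.re_le_norm _).trans ((norm_add_le _ _).trans ?_)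
    linarith
  by_contra hlt
  push Not at hlt
  set η := (1 - d) / 2 with hη
  have hη0 : 0 < η := by rw [hη]; linarith
  obtain ⟨K, hK⟩ := small η hη0
  set ε := η / (4 * (|K| + 1)) with hε
  have hε0 : 0 < ε := by positivity
  obtain ⟨u, hu⟩ := p1_exists s ε hε0 (delta 1)
  have h1 := main ε u hε0 hu
  have h2 := hK ε u hε0 hu
  have h3 : 2 * ε * K ≤ η / 2 := by
    have h4 : ε * (4 * (|K| + 1)) = η := by rw [hε]; field_simp
    nlinarith [le_abs_self K, abs_nonneg K]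
  rw [hη] at h3 h2
  linarith

end Pool.Agent.Helper59.EX
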