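import Pool.Agent.Helper59.EX.Betti

/-!
EX-P2: orthogonal decomposition of the space of square summable cocycles.
-/

open scoped InnerProductSpace ComplexOrder

namespace Pool.Agent.Helper59.EX

open Classical in
private theorem p2_inner_delta_starVec {G I : Type} [Group G] [Fintype I] (s : I → G)
    (e : G × I) (g : G) :
    ⟪(delta e : L2 (G × I)), starVec s g⟫_ℂ =
      (if e.1 * s e.2 = g then (1 : ℂ) else 0) - (if e.1 = g then (1 : ℂ) else 0) := by
  obtain ⟨h, j⟩ := e
  unfold starVec
  rw [inner_sum]
  simp_rw [inner_sub_right, inner_delta_delta]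
  rw [Finset.sum_sub_distrib]
  congr 1
  · rw [Finset.sum_eq_single j]
    · simp only [Prod.mk.injEq, and_true, eq_mul_inv_iff_mul_eq]
    · intro i _ hi
      rw [if_neg]
      intro hc
      exact hi (Prod.mk.inj hc).2.symm
    · intro hj
      exact absurd (Finset.mem_univ j) hj
  · rw [Finset.sum_eq_single j]
    · simp only [Prod.mk.injEq, and_true]
    · intro i _ hi
      rw [if_neg]
      intro hc
      exact hi (Prod.mk.inj hc).2.symm
    · intro hj
      exact absurd (Finset.mem_univ j) hj

open Classical in
private theorem p2_inner_walk {G I : Type} [Group G] [Fintype I] (s : I → G) (b : G) (g : G) :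
    ∀ (l : List ((G × I) × Bool)) (a : G), IsWalk s a l b →
      ⟪walkVec l, starVec s g⟫_ℂ =
        (if b = g then (1 : ℂ) else 0) - (if a = g then (1 : ℂ) else 0)
  | [], a, hl => by
      have hab : a = b := hl
      subst hab
      simp [walkVec]
  | (e, true) :: l, a, hl => by
      obtain ⟨h1, h2⟩ := hl
      have ih := p2_inner_walk s b g l _ h2
      have hw : walkVec ((e, true) :: l) = delta e + walkVec l := by
        simp [walkVec]
      rw [hw, inner_add_left, ih, p2_inner_delta_starVec, h1]
      ring
  | (e, false) :: l, a, hl => by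
      obtain ⟨h1, h2⟩ := hl
      have ih := p2_inner_walk s b g l _ h2
      have hw : walkVec ((e, false) :: l) = - delta e + walkVec l := by
        simp [walkVec]
      rw [hw, inner_add_left, inner_neg_left, ih, p2_inner_delta_starVec, h1]
      ring

/-- Coboundaries are orthogonal to closed walks. -/
theorem inner_walkVec_starVec {G I : Type} [Group G] [Fintype I] (s : I → G) (a : G)
    (l : List ((G × I) × Bool)) (hl : IsWalk s a l a) (g : G) :
    ⟪walkVec l, starVec s g⟫_ℂ = 0 := by
  classical
  rw [p2_inner_walk s a g l a hl, sub_self]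

private theorem p2_cobound_le {G I : Type} [Group G] [Fintype I] (s : I → G) :
    l2Cobound s ≤ l2Cocycles s := by
  unfold l2Cobound l2Cocycles
  apply Submodule.orthogonal_le
  rw [Submodule.span_le]
  rintro _ ⟨a, l, hl, rfl⟩
  rw [SetLike.mem_coe, Submodule.mem_orthogonal]
  intro u hu
  refine Submodule.span_induction (p := fun u _ => ⟪u, walkVec l⟫_ℂ = 0) ?_ ?_ ?_ ?_ hu
  · rintro _ ⟨g, rfl⟩
    rw [← inner_conj_symm, inner_walkVec_starVec s a l hl g, map_zero]
  · exact inner_zero_left _
  · intro x y _ _ hx hy
    rw [inner_add_left, hx, hy, add_zero]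
  · intro c x _ hx
    rw [inner_smul_left, hx, mul_zero]

private theorem p2_mem_harmonic {G I : Type} [Group G] [Fintype I] (s : I → G)
    (w : L2 (G × I)) : w ∈ l2Harmonic s ↔ w ∈ l2Cocycles s ∧ w ∈ (l2Cobound s)ᗮ := by
  unfold l2Harmonic l2Cocycles l2Cobound
  rw [Submodule.span_union, ← Submodule.inf_orthogonal]
  rw [Submodule.triorthogonal_eq_orthogonal, Submodule.mem_inf]

theorem norm_sq_proj_cocycles {G I : Type} [Group G] [Fintype I] (s : I → G) (v : L2 (G × I)) :
    ‖(l2Cocycles s).starProjection v‖ ^ 2 =
      ‖(l2Cobound s).starProjection v‖ ^ 2 + ‖(l2Harmonic s).starProjection v‖ ^ 2 := by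
  have hbm : (l2Cobound s).starProjection v ∈ l2Cobound s :=
    Submodule.starProjection_apply_mem _ _
  have hhm : (l2Harmonic s).starProjection v ∈ l2Harmonic s :=
    Submodule.starProjection_apply_mem _ _
  have hle := p2_cobound_le s
  have horth : ∀ x ∈ l2Cobound s, ∀ y ∈ l2Harmonic s, ⟪x, y⟫_ℂ = 0 := by
    intro x hx y hy
    exact (Submodule.mem_orthogonal _ _).1 ((p2_mem_harmonic s y).1 hy).2 x hx
  have key : (l2Cocycles s).starProjection v =
      (l2Cobound s).starProjection v + (l2Harmonic s).starProjection v := by
    apply Submodule.eq_starProjection_of_mem_of_inner_eq_zero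
    · exact Submodule.add_mem _ (hle hbm) ((p2_mem_harmonic s _).1 hhm).1
    · intro w hw
      have hw1 : (l2Cobound s).starProjection w ∈ l2Cobound s :=
        Submodule.starProjection_apply_mem _ _
      have hw2 : w - (l2Cobound s).starProjection w ∈ l2Harmonic s := by
        rw [p2_mem_harmonic]
        exact ⟨Submodule.sub_mem _ hw (hle hw1), Submodule.sub_starProjection_mem_orthogonal _⟩
      have e1 : ⟪v - (l2Cobound s).starProjection v, (l2Cobound s).starProjection w⟫_ℂ = 0 :=
        Submodule.starProjection_inner_eq_zero _ _ hw1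
      have e2 : ⟪v - (l2Harmonic s).starProjection v,
          w - (l2Cobound s).starProjection w⟫_ℂ = 0 :=
        Submodule.starProjection_inner_eq_zero _ _ hw2
      have e3 : ⟪(l2Cobound s).starProjection v, w - (l2Cobound s).starProjection w⟫_ℂ = 0 :=
        horth _ hbm _ hw2
      have e4 : ⟪(l2Harmonic s).starProjection v, (l2Cobound s).starProjection w⟫_ℂ = 0 := by
        rw [← inner_conj_symm, horth _ hw1 _ hhm, map_zero]
      have e5 : v - ((l2Cobound s).starProjection v + (l2Harmonic s).starProjection v) =
          (v - (l2Cobound s).starProjection v) - (l2Harmonic s).starProjection v := by abel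
      have e6 : v - ((l2Cobound s).starProjection v + (l2Harmonic s).starProjection v) =
          (v - (l2Harmonic s).starProjection v) - (l2Cobound s).starProjection v := by abel
      have e7 : w = (l2Cobound s).starProjection w + (w - (l2Cobound s).starProjection w) := by
        abel
      have e8 : ⟪v - ((l2Cobound s).starProjection v + (l2Harmonic s).starProjection v),
          (l2Cobound s).starProjection w⟫_ℂ = 0 := by
        rw [e5, inner_sub_left, e1, e4, sub_zero]
      have e9 : ⟪v - ((l2Cobound s).starProjection v + (l2Harmonic s).starProjection v),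
          w - (l2Cobound s).starProjection w⟫_ℂ = 0 := by
        rw [e6, inner_sub_left, e2, e3, sub_zero]
      rw [e7, inner_add_right, e8, e9, add_zero]
  rw [key]
  have h0 := horth _ hbm _ hhm
  have := norm_add_sq_eq_norm_sq_add_norm_sq_of_inner_eq_zero _ _ h0
  simpa [pow_two] using this

end Pool.Agent.Helper59.EX
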