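import Pool.Agent.Helper59.EX.St.A1

/-!
EX-A2: basic properties of the minimal norm.
-/

open scoped TensorProduct InnerProductSpace ENNReal

namespace Pool.Agent.Helper59.EX

theorem norm_le_minNorm {A B : Type} [CStarAlgebra A] [CStarAlgebra B] (x : A ⊗[ℂ] B)
    {H K : Type} [NormedAddCommGroup H]
    [InnerProductSpace ℂ H] [CompleteSpace H] [NormedAddCommGroup K] [InnerProductSpace ℂ K]
    [CompleteSpace K] (π : A →⋆ₙₐ[ℂ] (H →L[ℂ] H)) (σ : B →⋆ₙₐ[ℂ] (K →L[ℂ] K)) :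
    ‖tensorRep π σ x‖ ≤ minNorm x := by
  obtain ⟨c, hc⟩ := tensorRep_bound x
  refine le_csSup ⟨c, ?_⟩ ⟨H, K, inferInstance, inferInstance, inferInstance, inferInstance,
    inferInstance, inferInstance, π, σ, rfl⟩
  rintro r ⟨H', K', i1, i2, i3, i4, i5, i6, π', σ', rfl⟩
  exact hc H' K' π' σ'

theorem minNorm_le {A B : Type} [CStarAlgebra A] [CStarAlgebra B] (x : A ⊗[ℂ] B) (c : ℝ)
    (h : ∀ (H K : Type) [NormedAddCommGroup H]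
    [InnerProductSpace ℂ H] [CompleteSpace H] [NormedAddCommGroup K] [InnerProductSpace ℂ K]
    [CompleteSpace K] (π : A →⋆ₙₐ[ℂ] (H →L[ℂ] H)) (σ : B →⋆ₙₐ[ℂ] (K →L[ℂ] K)),
    ‖tensorRep π σ x‖ ≤ c) : minNorm x ≤ c := by
  refine csSup_le ⟨‖tensorRep (0 : A →⋆ₙₐ[ℂ] (ℂ →L[ℂ] ℂ)) (0 : B →⋆ₙₐ[ℂ] (ℂ →L[ℂ] ℂ)) x‖,
    ℂ, ℂ, inferInstance, inferInstance, inferInstance, inferInstance,
    inferInstance, inferInstance, 0, 0, rfl⟩ ?_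
  rintro r ⟨H', K', i1, i2, i3, i4, i5, i6, π', σ', rfl⟩
  exact h H' K' π' σ'

theorem minNorm_nonneg {A B : Type} [CStarAlgebra A] [CStarAlgebra B] (x : A ⊗[ℂ] B) :
    0 ≤ minNorm x := by
  have h0 := norm_le_minNorm x (0 : A →⋆ₙₐ[ℂ] (ℂ →L[ℂ] ℂ)) (0 : B →⋆ₙₐ[ℂ] (ℂ →L[ℂ] ℂ))
  exact (ContinuousLinearMap.opNorm_nonneg _).trans h0

end Pool.Agent.Helper59.EX
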