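import Mathlib

/-!
EX-A3: polynomial functional calculus for `T' T` on an inner product space (not complete).
-/

open scoped InnerProductSpace

namespace Pool.Agent.Helper59.EX

section A3
open UniformSpace

variable {E : Type*} [NormedAddCommGroup E] [InnerProductSpace ℂ E]

private theorem A3_norm (T : E →L[ℂ] E) :
    ‖(T.completion : Completion E →L[ℂ] Completion E)‖ ≤ ‖T‖ := by
  refine ContinuousLinearMap.opNorm_le_bound _ (norm_nonneg T) (fun x => ?_)
  induction x using Completion.induction_on with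
  | hp =>
    exact isClosed_le (by fun_prop) (by fun_prop)
  | ih x =>
    rw [ContinuousLinearMap.completion_apply_coe, Completion.norm_coe, Completion.norm_coe]
    exact T.le_opNorm x

private theorem A3_adj (T T' : E →L[ℂ] E) (hT : ∀ v w : E, ⟪T v, w⟫_ℂ = ⟪v, T' w⟫_ℂ) (u : E) :
    star (T.completion : Completion E →L[ℂ] Completion E) (u : Completion E) = (T' u : E) := by
  refine ext_inner_left ℂ (fun w => ?_)
  rw [ContinuousLinearMap.star_eq_adjoint, ContinuousLinearMap.adjoint_inner_right]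
  induction w using Completion.induction_on with
  | hp =>
    exact isClosed_eq (by fun_prop) (by fun_prop)
  | ih w =>
    rw [ContinuousLinearMap.completion_apply_coe, Completion.inner_coe, Completion.inner_coe]
    exact hT w u

private theorem A3_pow (T T' : E →L[ℂ] E) (hT : ∀ v w : E, ⟪T v, w⟫_ℂ = ⟪v, T' w⟫_ℂ) (n : ℕ)
    (u : E) :
    ((star (T.completion : Completion E →L[ℂ] Completion E) * T.completion) ^ n)
      (u : Completion E) = (((T' * T) ^ n) u : E) := by
  induction n generalizing u with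
  | zero => simp
  | succ n ih =>
    rw [pow_succ, pow_succ, ContinuousLinearMap.mul_apply, ContinuousLinearMap.mul_apply,
      ContinuousLinearMap.mul_apply, ContinuousLinearMap.completion_apply_coe, A3_adj T T' hT, ih]
    rfl

private theorem A3_aeval (T T' : E →L[ℂ] E) (hT : ∀ v w : E, ⟪T v, w⟫_ℂ = ⟪v, T' w⟫_ℂ)
    (P : Polynomial ℂ) (u : E) :
    (Polynomial.aeval (star (T.completion : Completion E →L[ℂ] Completion E) * T.completion) P)
      (u : Completion E) = ((Polynomial.aeval (T' * T) P) u : E) := by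
  induction P using Polynomial.induction_on' with
  | add p q hp hq =>
    rw [map_add, map_add, ContinuousLinearMap.add_apply, ContinuousLinearMap.add_apply, hp, hq,
      Completion.coe_add]
  | monomial n a =>
    rw [Polynomial.aeval_monomial, Polynomial.aeval_monomial, ContinuousLinearMap.mul_apply,
      ContinuousLinearMap.mul_apply, A3_pow T T' hT, Algebra.algebraMap_eq_smul_one,
      Algebra.algebraMap_eq_smul_one, ContinuousLinearMap.smul_apply,
      ContinuousLinearMap.smul_apply, ContinuousLinearMap.one_apply, ContinuousLinearMap.one_apply,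
      Completion.coe_smul]

private theorem A3_cfc {A : Type*} [CStarAlgebra A] (b : A) (M : ℝ) (hM : ‖b‖ ^ 2 ≤ M)
    (p : Polynomial ℝ) :
    Polynomial.aeval (star b * b) (p.map (algebraMap ℝ ℂ)) = cfc (fun t => p.eval t) (star b * b)
      ∧ spectrum ℝ (star b * b) ⊆ Set.Icc 0 M := by
  refine ⟨?_, ?_⟩
  · rw [Polynomial.aeval_map_algebraMap, cfc_polynomial p (star b * b) (IsSelfAdjoint.star_mul_self b)]
  · intro x hx
    refine ⟨spectrum_star_mul_self_nonneg x hx, ?_⟩
    have h1 := spectrum.norm_le_norm_mul_of_mem hx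
    have h2 : ‖(1 : A)‖ ≤ 1 := by
      rcases subsingleton_or_nontrivial A with h | h
      · rw [Subsingleton.elim (1 : A) 0, norm_zero]
        exact zero_le_one
      · rw [CStarRing.norm_one]
    have h3 : ‖star b * b‖ = ‖b‖ ^ 2 := by
      rw [CStarRing.norm_star_mul_self, sq]
    calc x ≤ ‖x‖ := Real.le_norm_self x
      _ ≤ ‖star b * b‖ * ‖(1 : A)‖ := h1
      _ ≤ ‖star b * b‖ * 1 := by gcongr
      _ = ‖b‖ ^ 2 := by rw [mul_one, h3]
      _ ≤ M := hM

end A3

theorem poly_norm_le {E : Type*} [NormedAddCommGroup E] [InnerProductSpace ℂ E]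
    (T T' : E →L[ℂ] E) (hT : ∀ v w : E, ⟪T v, w⟫_ℂ = ⟪v, T' w⟫_ℂ) (M : ℝ) (hM : ‖T‖ ^ 2 ≤ M)
    (p : Polynomial ℝ) (δ : ℝ) (hp : ∀ t ∈ Set.Icc (0 : ℝ) M, |p.eval t| ≤ δ) :
    ‖Polynomial.aeval (T' * T) (p.map (algebraMap ℝ ℂ))‖ ≤ δ := by
  have hM0 : 0 ≤ M := (sq_nonneg _).trans hM
  have hδ : 0 ≤ δ := (abs_nonneg _).trans (hp 0 ⟨le_refl 0, hM0⟩)
  have hM' : ‖(T.completion : UniformSpace.Completion E →L[ℂ] UniformSpace.Completion E)‖ ^ 2
      ≤ M := by
    refine le_trans ?_ hM
    gcongr
    exact A3_norm T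
  obtain ⟨h1, h2⟩ := A3_cfc (A := UniformSpace.Completion E →L[ℂ] UniformSpace.Completion E)
    T.completion M hM' p
  have h3 : ‖cfc (fun t => p.eval t)
      (star (T.completion : UniformSpace.Completion E →L[ℂ] UniformSpace.Completion E)
        * T.completion)‖ ≤ δ := by
    refine norm_cfc_le hδ (fun x hx => ?_)
    rw [Real.norm_eq_abs]
    exact hp x (h2 hx)
  refine ContinuousLinearMap.opNorm_le_bound _ hδ (fun u => ?_)
  rw [← UniformSpace.Completion.norm_coe, ← A3_aeval T T' hT, h1,
    ← UniformSpace.Completion.norm_coe (x := u)]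
  refine (ContinuousLinearMap.le_opNorm _ _).trans ?_
  gcongr

theorem poly_inner_nonneg {E : Type*} [NormedAddCommGroup E] [InnerProductSpace ℂ E]
    (T T' : E →L[ℂ] E) (hT : ∀ v w : E, ⟪T v, w⟫_ℂ = ⟪v, T' w⟫_ℂ) (M : ℝ) (hM : ‖T‖ ^ 2 ≤ M)
    (p : Polynomial ℝ) (hp : ∀ t ∈ Set.Icc (0 : ℝ) M, 0 ≤ p.eval t) (v : E) :
    0 ≤ (⟪v, Polynomial.aeval (T' * T) (p.map (algebraMap ℝ ℂ)) v⟫_ℂ).re := by
  have hM' : ‖(T.completion : UniformSpace.Completion E →L[ℂ] UniformSpace.Completion E)‖ ^ 2
      ≤ M := by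
    refine le_trans ?_ hM
    gcongr
    exact A3_norm T
  obtain ⟨h1, h2⟩ := A3_cfc (A := UniformSpace.Completion E →L[ℂ] UniformSpace.Completion E)
    T.completion M hM' p
  have h3 : 0 ≤ cfc (fun t => p.eval t)
      (star (T.completion : UniformSpace.Completion E →L[ℂ] UniformSpace.Completion E)
        * T.completion) := cfc_nonneg (fun x hx => hp x (h2 hx))
  rw [ContinuousLinearMap.nonneg_iff_isPositive] at h3
  have h4 := h3.re_inner_nonneg_right (v : UniformSpace.Completion E)
  rw [← h1, A3_aeval T T' hT, UniformSpace.Completion.inner_coe] at h4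
  exact h4

end Pool.Agent.Helper59.EX
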