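import Mathlib

/-!
EX-A4: polynomial approximation of `max (t - s) 0` on `[0, M]` with zero constant term.
-/

namespace Pool.Agent.Helper59.EX

theorem exists_poly (M s ε : ℝ) (hM : 0 ≤ M) (hs : 0 ≤ s) (hε : 0 < ε) :
    ∃ p : Polynomial ℝ, p.coeff 0 = 0 ∧
      ∀ t ∈ Set.Icc (0 : ℝ) M, |p.eval t - max (t - s) 0| ≤ ε := by
  obtain ⟨p, hp⟩ := exists_polynomial_near_of_continuousOn 0 M
    (fun t : ℝ => max (t - s) 0) (by fun_prop) (ε / 2) (by linarith)
  refine ⟨p - Polynomial.C (p.coeff 0), by simp, ?_⟩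
  intro t ht
  have h0 := hp 0 ⟨le_refl _, hM⟩
  have h1 := hp t ht
  have h2 : p.eval 0 = p.coeff 0 := by rw [Polynomial.coeff_zero_eq_eval_zero]
  have h3 : max ((0 : ℝ) - s) 0 = 0 := max_eq_right (by linarith)
  simp only [h3, sub_zero, h2] at h0
  rw [Polynomial.eval_sub, Polynomial.eval_C]
  have : p.eval t - p.coeff 0 - max (t - s) 0 = (p.eval t - max (t - s) 0) - p.coeff 0 := by ring
  rw [this]
  calc |(p.eval t - max (t - s) 0) - p.coeff 0| ≤ |p.eval t - max (t - s) 0| + |p.coeff 0| :=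
        abs_sub _ _
    _ ≤ ε := by linarith

end Pool.Agent.Helper59.EX
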