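import Mathlib

/-!
EX-A5: surjectivity of `*`-homomorphisms with dense range, and lifting of families with bounds.
-/

namespace Pool.Agent.Helper59.EX

section A5aux

attribute [local instance] CStarAlgebra.spectralOrder CStarAlgebra.spectralOrderedRing

/-- The cut-off function `√D / max √D √t`. -/
private noncomputable def A5_g (D : ℝ) (t : ℝ) : ℝ := √D / max (√D) (√t)

private theorem A5_g_cont {D : ℝ} (hD : 0 < D) : Continuous (A5_g D) := by
  unfold A5_g
  refine Continuous.div continuous_const (continuous_const.max Real.continuous_sqrt) ?_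
  intro t
  have : 0 < √D := Real.sqrt_pos.mpr hD
  exact (lt_of_lt_of_le this (le_max_left _ _)).ne'

private theorem A5_g_nonneg (D t : ℝ) : 0 ≤ A5_g D t := by
  unfold A5_g
  exact div_nonneg (Real.sqrt_nonneg _) (le_trans (Real.sqrt_nonneg _) (le_max_left _ _))

private theorem A5_g_le_one {D : ℝ} (hD : 0 < D) (t : ℝ) : A5_g D t ≤ 1 := by
  unfold A5_g
  have h : 0 < √D := Real.sqrt_pos.mpr hD
  rw [div_le_one (lt_of_lt_of_le h (le_max_left _ _))]
  exact le_max_left _ _

private theorem A5_g_eq_one {D : ℝ} (hD : 0 < D) {t : ℝ} (ht : t ≤ D) : A5_g D t = 1 := by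
  unfold A5_g
  have h : 0 < √D := Real.sqrt_pos.mpr hD
  rw [max_eq_left (Real.sqrt_le_sqrt ht)]
  exact div_self h.ne'

private theorem A5_g_mul_le {D : ℝ} (hD : 0 < D) {t : ℝ} (ht : 0 ≤ t) :
    A5_g D t * t * A5_g D t ≤ D := by
  rcases le_total t D with h | h
  · rw [A5_g_eq_one hD h]
    simpa using h
  · unfold A5_g
    rw [max_eq_right (Real.sqrt_le_sqrt h)]
    have ht0 : 0 < t := lt_of_lt_of_le hD h
    have hs : 0 < √t := Real.sqrt_pos.mpr ht0
    have h1 : √D / √t * t * (√D / √t) = (√D * √D) * (t / (√t * √t)) := by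
      field_simp
    rw [h1, Real.mul_self_sqrt hD.le, Real.mul_self_sqrt ht, div_self ht0.ne', mul_one]

private theorem A5_spec_le {B : Type*} [CStarAlgebra B] {y : B} {t : ℝ} (ht : t ∈ spectrum ℝ y) :
    ‖t‖ ≤ ‖y‖ := by
  rcases subsingleton_or_nontrivial B with hB | hB
  · exfalso
    have : spectrum ℝ y = ∅ := spectrum.of_subsingleton y
    rw [this] at ht
    exact ht
  · exact spectrum.norm_le_norm_of_mem ht

/-- The element `c = g(y)`: selfadjoint, contraction, and `c y c` has norm at most `D`. -/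
private theorem A5_cut {B : Type*} [CStarAlgebra B] {D : ℝ} (hD : 0 < D) {y : B} (hy : 0 ≤ y) :
    star (cfc (A5_g D) y) = cfc (A5_g D) y ∧ ‖cfc (A5_g D) y * y * cfc (A5_g D) y‖ ≤ D ∧
      cfc (A5_g D) y * cfc (A5_g D) y ≤ 1 := by
  have hsa : IsSelfAdjoint y := IsSelfAdjoint.of_nonneg hy
  have hc := A5_g_cont hD
  refine ⟨(IsSelfAdjoint.cfc (f := A5_g D) (a := y)).star_eq, ?_, ?_⟩
  · have h1 : cfc (A5_g D) y * y * cfc (A5_g D) y
        = cfc (fun t => A5_g D t * t * A5_g D t) y := by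
      rw [cfc_mul (fun t => A5_g D t * t) (A5_g D) y
        (by exact (hc.mul continuous_id).continuousOn) hc.continuousOn,
        cfc_mul (A5_g D) (fun t => t) y hc.continuousOn continuousOn_id, cfc_id' ℝ y hsa]
    rw [h1]
    refine norm_cfc_le hD.le ?_
    intro t ht
    have ht0 : 0 ≤ t := spectrum_nonneg_of_nonneg hy ht
    rw [Real.norm_of_nonneg (mul_nonneg (mul_nonneg (A5_g_nonneg D t) ht0) (A5_g_nonneg D t))]
    exact A5_g_mul_le hD ht0
  · rw [← cfc_mul (A5_g D) (A5_g D) y hc.continuousOn hc.continuousOn]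
    refine cfc_le_one _ _ ?_
    intro t _
    exact mul_le_one₀ (A5_g_le_one hD t) (A5_g_nonneg D t) (A5_g_le_one hD t)

private theorem A5_map_cut {B C : Type*} [CStarAlgebra B] [CStarAlgebra C] (q : B →⋆ₐ[ℂ] C)
    {D : ℝ} (hD : 0 < D) {y : B} (hy : 0 ≤ y) (hq : ‖q y‖ ≤ D) : q (cfc (A5_g D) y) = 1 := by
  have hsa : IsSelfAdjoint y := IsSelfAdjoint.of_nonneg hy
  have hc := A5_g_cont hD
  have hsq : IsSelfAdjoint (q y) := hsa.map q
  rw [StarAlgHomClass.map_cfc (R := ℝ) (S := ℂ) q (A5_g D) y hc.continuousOn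
    (map_continuous q) hsa hsq]
  have h1 : cfc (A5_g D) (q y) = cfc (fun _ : ℝ => (1 : ℝ)) (q y) := by
    refine cfc_congr ?_
    intro t ht
    refine A5_g_eq_one hD ?_
    exact le_trans (le_trans (le_abs_self t) (A5_spec_le ht)) hq
  rw [h1, cfc_const_one ℝ (q y) hsq]

end A5aux

/-- An element of the range has a preimage of the same norm. -/
theorem exists_lift_norm_le {B C : Type*} [CStarAlgebra B] [CStarAlgebra C] (q : B →⋆ₐ[ℂ] C)
    (x : B) : ∃ x' : B, q x' = q x ∧ ‖x'‖ ≤ ‖q x‖ := by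
  let _ := CStarAlgebra.spectralOrder B
  have := CStarAlgebra.spectralOrderedRing B
  rcases eq_or_ne (q x) 0 with h0 | h0
  · exact ⟨0, by rw [h0, map_zero], by simp⟩
  have hpos : 0 < ‖q x‖ := norm_pos_iff.mpr h0
  set D : ℝ := ‖q x‖ * ‖q x‖ with hDdef
  have hD : 0 < D := mul_pos hpos hpos
  have hy : 0 ≤ star x * x := star_mul_self_nonneg x
  obtain ⟨h1, h2, -⟩ := A5_cut hD hy
  have hq : ‖q (star x * x)‖ ≤ D := by
    rw [map_mul, map_star, CStarRing.norm_star_mul_self]
  refine ⟨x * cfc (A5_g D) (star x * x), ?_, ?_⟩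
  · rw [map_mul, A5_map_cut q hD hy hq, mul_one]
  · have h3 : ‖x * cfc (A5_g D) (star x * x)‖ * ‖x * cfc (A5_g D) (star x * x)‖ ≤ D := by
      rw [← CStarRing.norm_star_mul_self, star_mul, h1]
      rw [show cfc (A5_g D) (star x * x) * star x * (x * cfc (A5_g D) (star x * x))
        = cfc (A5_g D) (star x * x) * (star x * x) * cfc (A5_g D) (star x * x) by
          simp only [mul_assoc]]
      exact h2
    exact le_of_not_gt (fun hlt => absurd h3 (not_le.mpr
      (mul_lt_mul'' hlt hlt (norm_nonneg _) (norm_nonneg _))))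

theorem surjective_of_denseRange {B C : Type*} [CStarAlgebra B] [CStarAlgebra C]
    (q : B →⋆ₐ[ℂ] C) (hq : DenseRange q) : Function.Surjective q := by
  let f : NormedAddGroupHom B C :=
    { toFun := q
      map_add' := map_add q
      bound' := ⟨1, fun v => by simpa using NonUnitalStarAlgHom.norm_apply_le q v⟩ }
  have hf : ∀ b, f b = q b := fun _ => rfl
  have hyp : f.SurjectiveOnWith f.range 1 := by
    rintro _ ⟨x, rfl⟩
    obtain ⟨x', h1, h2⟩ := exists_lift_norm_le q x
    exact ⟨x', h1, by rw [one_mul]; exact h2⟩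
  have h := controlled_closure_of_complete (one_pos) (one_pos) hyp
  intro c
  have hc : c ∈ f.range.topologicalClosure := by
    have h1 : c ∈ closure (Set.range q) := hq c
    exact h1
  obtain ⟨b, hb, -⟩ := h c hc
  exact ⟨b, hb⟩

theorem exists_lift_row_col {B C : Type*} [CStarAlgebra B] [CStarAlgebra C] (q : B →⋆ₐ[ℂ] C)
    (hq : Function.Surjective q) {I : Type*} [Fintype I] (c : I → C) (Dr Dc : ℝ)
    (hDr : 0 < Dr) (hDc : 0 < Dc)
    (hr : ‖∑ i, c i * star (c i)‖ ≤ Dr) (hc : ‖∑ i, star (c i) * c i‖ ≤ Dc) :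
    ∃ b : I → B, (∀ i, q (b i) = c i) ∧ ‖∑ i, b i * star (b i)‖ ≤ Dr ∧
      ‖∑ i, star (b i) * b i‖ ≤ Dc := by
  let _ := CStarAlgebra.spectralOrder B
  have := CStarAlgebra.spectralOrderedRing B
  choose b0 hb0 using fun i => hq (c i)
  set y : B := ∑ i, star (b0 i) * b0 i with hydef
  have hy : 0 ≤ y := Finset.sum_nonneg (fun i _ => star_mul_self_nonneg _)
  have hqy : ‖q y‖ ≤ Dc := by
    have : q y = ∑ i, star (c i) * c i := by
      rw [hydef, map_sum]
      exact Finset.sum_congr rfl (fun i _ => by rw [map_mul, map_star, hb0])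
    rw [this]
    exact hc
  obtain ⟨hs, hn, -⟩ := A5_cut hDc hy
  have hone := A5_map_cut q hDc hy hqy
  set g : B := cfc (A5_g Dc) y with hg
  have hcol1 : ∑ i, star (b0 i * g) * (b0 i * g) = g * y * g := by
    rw [hydef, Finset.mul_sum, Finset.sum_mul]
    refine Finset.sum_congr rfl (fun i _ => ?_)
    rw [star_mul, hs]
    simp only [mul_assoc]
  set y' : B := ∑ i, (b0 i * g) * star (b0 i * g) with hy'def
  have hy' : 0 ≤ y' := Finset.sum_nonneg (fun i _ => mul_star_self_nonneg _)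
  have hqy' : ‖q y'‖ ≤ Dr := by
    have : q y' = ∑ i, c i * star (c i) := by
      rw [hy'def, map_sum]
      exact Finset.sum_congr rfl (fun i _ => by rw [map_mul, map_star, map_mul, hb0, hone, mul_one])
    rw [this]
    exact hr
  obtain ⟨hs', hn', hle'⟩ := A5_cut hDr hy'
  have hone' := A5_map_cut q hDr hy' hqy'
  set g' : B := cfc (A5_g Dr) y' with hg'
  refine ⟨fun i => g' * (b0 i * g), fun i => ?_, ?_, ?_⟩
  · rw [map_mul, map_mul, hone, hone', hb0, mul_one, one_mul]
  · have : ∑ i, (g' * (b0 i * g)) * star (g' * (b0 i * g)) = g' * y' * g' := by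
      rw [hy'def, Finset.mul_sum, Finset.sum_mul]
      refine Finset.sum_congr rfl (fun i _ => ?_)
      rw [star_mul g', hs']
      simp only [mul_assoc]
    rw [this]
    exact hn'
  · refine le_trans ?_ hn
    rw [← hcol1]
    refine CStarAlgebra.norm_le_norm_of_nonneg_of_le
      (Finset.sum_nonneg (fun i _ => star_mul_self_nonneg _)) ?_
    refine Finset.sum_le_sum (fun i _ => ?_)
    have h1 := star_left_conjugate_le_conjugate hle' (b0 i * g)
    rw [mul_one] at h1
    refine le_trans (le_of_eq ?_) h1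
    rw [star_mul g', hs']
    simp only [mul_assoc]

end Pool.Agent.Helper59.EX
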