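import Pool.Agent.Helper59.EX.Reg

/-!
EX-A7a: convergence of the norms at the base point.
-/

open scoped InnerProductSpace ENNReal

namespace Pool.Agent.Helper59.EX

theorem A7a_norm_sq {F X : Type} (s : Finset F) (c : F → ℂ) (φ : F → X)
    (h : Set.InjOn φ (s : Set F)) :
    ‖∑ γ ∈ s, c γ • (delta (φ γ) : L2 X)‖ ^ 2 = ∑ γ ∈ s, ‖c γ‖ ^ 2 := by
  classical
  have h1 : ⟪∑ γ ∈ s, c γ • (delta (φ γ) : L2 X), ∑ γ ∈ s, c γ • (delta (φ γ) : L2 X)⟫_ℂ =
      ∑ γ ∈ s, ((‖c γ‖ ^ 2 : ℝ) : ℂ) := by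
    rw [sum_inner]
    refine Finset.sum_congr rfl fun γ hγ => ?_
    rw [inner_sum]
    rw [Finset.sum_eq_single γ]
    · rw [inner_smul_left, inner_smul_right, inner_delta_delta, if_pos rfl, mul_one]
      rw [← Complex.normSq_eq_norm_sq, Complex.normSq_eq_conj_mul_self]
    · intro γ' hγ' hne
      rw [inner_smul_left, inner_smul_right, inner_delta_delta, if_neg, mul_zero, mul_zero]
      intro he
      exact hne (h hγ' hγ he.symm)
    · intro hn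
      exact absurd hγ hn
  have h2 := inner_self_eq_norm_sq (𝕜 := ℂ) (∑ γ ∈ s, c γ • (delta (φ γ) : L2 X))
  rw [← h2, h1, ← Complex.ofReal_sum]
  exact Complex.ofReal_re _

theorem A7a_apply {F Q : Type} [Group Q] (θ : F → Q) (f : F →₀ ℂ) :
    (f.sum fun γ c => c • (rightReg (θ γ) : L2 Q →L[ℂ] L2 Q)) (delta 1) =
      ∑ γ ∈ f.support, f γ • (delta ((θ γ)⁻¹) : L2 Q) := by
  rw [Finsupp.sum, ContinuousLinearMap.sum_apply]
  refine Finset.sum_congr rfl fun γ _ => ?_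
  rw [ContinuousLinearMap.smul_apply, rightReg_delta, one_mul]

theorem norm_sum_delta {F : Type} [Group F] {Q : Type} [Group Q] (θ : F →* Q) (f : F →₀ ℂ)
    (h : Set.InjOn θ (f.support : Set F)) :
    ‖(f.sum fun γ c => c • (rightReg (θ γ) : L2 Q →L[ℂ] L2 Q)) (delta 1)‖ =
      ‖(f.sum fun γ c => c • (rightReg γ : L2 F →L[ℂ] L2 F)) (delta 1)‖ := by
  have e1 : ‖(f.sum fun γ c => c • (rightReg (θ γ) : L2 Q →L[ℂ] L2 Q)) (delta 1)‖ ^ 2 =
      ∑ γ ∈ f.support, ‖f γ‖ ^ 2 := by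
    rw [A7a_apply (fun γ => θ γ) f]
    exact A7a_norm_sq _ _ (fun γ => (θ γ)⁻¹) fun a ha b hb hab => h ha hb (inv_injective hab)
  have e2 : ‖(f.sum fun γ c => c • (rightReg γ : L2 F →L[ℂ] L2 F)) (delta 1)‖ ^ 2 =
      ∑ γ ∈ f.support, ‖f γ‖ ^ 2 := by
    rw [A7a_apply (fun γ => γ) f]
    exact A7a_norm_sq _ _ (fun γ => γ⁻¹) fun a _ b _ hab => inv_injective hab
  exact (pow_left_inj₀ (norm_nonneg _) (norm_nonneg _) two_ne_zero).1 (e1.trans e2.symm)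

theorem eventually_injOn {F : Type} [Group F] {Q : ℕ → Type} [∀ n, Group (Q n)]
    (θ : ∀ n, F →* Q n) (hθ : ∀ γ : F, γ ≠ 1 → ∀ᶠ n in Filter.atTop, θ n γ ≠ 1)
    (s : Finset F) : ∀ᶠ n in Filter.atTop, Set.InjOn (θ n) (s : Set F) := by
  classical
  have h1 : ∀ p ∈ s ×ˢ s, ∀ᶠ n in Filter.atTop, p.1 ≠ p.2 → θ n p.1 ≠ θ n p.2 := by
    intro p _
    by_cases hp : p.1 = p.2
    · exact Filter.Eventually.of_forall fun n h => absurd hp h
    · have h2 : p.1 * p.2⁻¹ ≠ 1 := fun h => hp (mul_inv_eq_one.1 h)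
      filter_upwards [hθ _ h2] with n hn _ he
      apply hn
      rw [map_mul, map_inv, he, mul_inv_cancel]
  have h3 := (Filter.eventually_all_finset (s ×ˢ s)).2 h1
  filter_upwards [h3] with n hn
  intro a ha b hb hab
  by_contra hne
  exact hn (a, b) (Finset.mk_mem_product ha hb) hne hab

end Pool.Agent.Helper59.EX
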