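import Pool.Agent.Helper59.EX.Reg
import Pool.Agent.Helper59.EX.St.A5
import Pool.Agent.Helper59.EX.St.A6
import Pool.Agent.Helper59.EX.St.A7a

/-!
EX-A7: the C*-algebras `B` (generated by the sequence of finite right regular representations
and the right regular representation of the free group) and `C` (reduced C*-algebra).
-/

open scoped InnerProductSpace ENNReal

namespace Pool.Agent.Helper59.EX

section General

variable {G : Type} [Group G] {A A' : Type} [CStarAlgebra A] [CStarAlgebra A']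

/-- The linear span of the range of a homomorphism to the unitary group. -/
noncomputable def A7_alg (K : G →* unitary A) : StarSubalgebra ℂ A where
  carrier := (Submodule.span ℂ (Set.range fun g => (K g : A)) : Set A)
  mul_mem' := by
    intro a b ha hb
    have h := Submodule.mul_mem_mul (M := Submodule.span ℂ (Set.range fun g => (K g : A)))
      (N := Submodule.span ℂ (Set.range fun g => (K g : A))) ha hb
    rw [Submodule.span_mul_span] at h
    refine Submodule.span_mono ?_ h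
    rintro _ ⟨_, ⟨g, rfl⟩, _, ⟨g', rfl⟩, rfl⟩
    exact ⟨g * g', by simp⟩
  one_mem' := Submodule.subset_span ⟨1, by simp⟩
  add_mem' := fun ha hb => Submodule.add_mem _ ha hb
  zero_mem' := Submodule.zero_mem _
  algebraMap_mem' := by
    intro r
    rw [Algebra.algebraMap_eq_smul_one]
    exact Submodule.smul_mem _ _ (Submodule.subset_span ⟨1, by simp⟩)
  star_mem' := by
    intro a ha
    refine Submodule.span_induction (p := fun x _ => star x ∈
      Submodule.span ℂ (Set.range fun g => (K g : A))) ?_ ?_ ?_ ?_ ha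
    · rintro _ ⟨g, rfl⟩
      refine Submodule.subset_span ⟨g⁻¹, ?_⟩
      simp only [map_inv]
      rfl
    · simp
    · intro x y _ _ hx hy
      rw [star_add]
      exact Submodule.add_mem _ hx hy
    · intro c x _ hx
      rw [star_smul]
      exact Submodule.smul_mem _ _ hx

/-- The C*-algebra generated by the range of a homomorphism to the unitary group. -/
noncomputable def A7_clos (K : G →* unitary A) : StarSubalgebra ℂ A :=
  (A7_alg K).topologicalClosure

theorem A7_isClosed (K : G →* unitary A) : IsClosed (A7_clos K : Set A) :=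
  StarSubalgebra.isClosed_topologicalClosure _

@[reducible] noncomputable def A7_cstar (K : G →* unitary A) : CStarAlgebra (A7_clos K) :=
  StarSubalgebra.cstarAlgebra _ (h_closed := A7_isClosed K)

attribute [local instance] A7_cstar

theorem A7_mem (K : G →* unitary A) (g : G) : (K g : A) ∈ A7_clos K :=
  StarSubalgebra.le_topologicalClosure _ (Submodule.subset_span ⟨g, rfl⟩)

theorem A7_sum_mem (K : G →* unitary A) (f : G →₀ ℂ) :
    (f.sum fun g c => c • (K g : A)) ∈ A7_clos K := by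
  refine Submodule.sum_mem (A7_clos K).toSubalgebra.toSubmodule ?_
  intro g _
  exact Submodule.smul_mem (A7_clos K).toSubalgebra.toSubmodule _ (A7_mem K g)

theorem A7_approx (K : G →* unitary A) {b : A} (hb : b ∈ A7_clos K) {ε : ℝ} (hε : 0 < ε) :
    ∃ f : G →₀ ℂ, ‖b - f.sum fun g c => c • (K g : A)‖ < ε := by
  have h : b ∈ closure ((A7_alg K : StarSubalgebra ℂ A) : Set A) := hb
  rw [Metric.mem_closure_iff] at h
  obtain ⟨s, hs, hd⟩ := h ε hε
  have hs' : s ∈ Submodule.span ℂ (Set.range fun g => (K g : A)) := hs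
  rw [Finsupp.mem_span_range_iff_exists_finsupp] at hs'
  obtain ⟨f, hf⟩ := hs'
  refine ⟨f, ?_⟩
  rw [hf, ← dist_eq_norm]
  exact hd

theorem A7_map_sum (K : G →* unitary A) (K' : G →* unitary A') (φ : A →⋆ₐ[ℂ] A')
    (hφ : ∀ g, φ (K g : A) = (K' g : A')) (f : G →₀ ℂ) :
    φ (f.sum fun g c => c • (K g : A)) = f.sum fun g c => c • (K' g : A') := by
  rw [Finsupp.sum, Finsupp.sum, map_sum]
  refine Finset.sum_congr rfl fun g _ => ?_
  rw [map_smul, hφ]

theorem A7_map_mem (K : G →* unitary A) (K' : G →* unitary A') (φ : A →⋆ₐ[ℂ] A')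
    (hφ : ∀ g, φ (K g : A) = (K' g : A')) {b : A} (hb : b ∈ A7_clos K) :
    φ b ∈ A7_clos K' := by
  have h : φ b ∈ closure ((A7_alg K' : StarSubalgebra ℂ A') : Set A') := by
    rw [Metric.mem_closure_iff]
    intro ε hε
    obtain ⟨f, hf⟩ := A7_approx K hb hε
    refine ⟨f.sum fun g c => c • (K' g : A'), ?_, ?_⟩
    · change (f.sum fun g c => c • (K' g : A')) ∈
        Submodule.span ℂ (Set.range fun g => (K' g : A'))
      rw [Finsupp.mem_span_range_iff_exists_finsupp]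
      exact ⟨f, rfl⟩
    · rw [← A7_map_sum K K' φ hφ f, dist_eq_norm, ← map_sub]
      exact lt_of_le_of_lt (NonUnitalStarAlgHom.norm_apply_le φ _) hf
  exact h

/-- The homomorphism of the generated C*-algebras. -/
noncomputable def A7_map (K : G →* unitary A) (K' : G →* unitary A') (φ : A →⋆ₐ[ℂ] A')
    (hφ : ∀ g, φ (K g : A) = (K' g : A')) : A7_clos K →⋆ₐ[ℂ] A7_clos K' :=
  (φ.comp (A7_clos K).subtype).codRestrict (A7_clos K') (fun b => A7_map_mem K K' φ hφ b.2)

theorem A7_map_coe (K : G →* unitary A) (K' : G →* unitary A') (φ : A →⋆ₐ[ℂ] A')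
    (hφ : ∀ g, φ (K g : A) = (K' g : A')) (b : A7_clos K) :
    (A7_map K K' φ hφ b : A') = φ (b : A) := rfl

theorem A7_map_denseRange (K : G →* unitary A) (K' : G →* unitary A') (φ : A →⋆ₐ[ℂ] A')
    (hφ : ∀ g, φ (K g : A) = (K' g : A')) : DenseRange (A7_map K K' φ hφ) := by
  intro c
  rw [Metric.mem_closure_iff]
  intro ε hε
  obtain ⟨f, hf⟩ := A7_approx K' c.2 hε
  refine ⟨A7_map K K' φ hφ ⟨f.sum fun g c => c • (K g : A), A7_sum_mem K f⟩, ⟨_, rfl⟩, ?_⟩
  rw [Subtype.dist_eq, A7_map_coe, dist_eq_norm, A7_map_sum K K' φ hφ f]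
  exact hf

end General

section Product

variable (Q : ℕ → Type) [∀ n, Group (Q n)]

theorem A7_nontrivial (X : Type) [Nonempty X] : Nontrivial (L2 X →L[ℂ] L2 X) := by
  refine ⟨⟨1, 0, ?_⟩⟩
  intro h
  have x : X := Classical.arbitrary X
  have h1 : (delta x : L2 X) = 0 := by
    have := congrArg (fun T : L2 X →L[ℂ] L2 X => T (delta x)) h
    simpa using this
  have h2 := norm_delta x
  rw [h1, norm_zero] at h2
  exact zero_ne_one h2

attribute [local instance] A7_nontrivial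

@[reducible] noncomputable def A7_lp : CStarAlgebra (lp (fun n => L2 (Q n) →L[ℂ] L2 (Q n)) ∞) where

attribute [local instance] A7_lp

/-- evaluation -/
noncomputable def A7_ev (n : ℕ) :
    lp (fun n => L2 (Q n) →L[ℂ] L2 (Q n)) ∞ →⋆ₐ[ℂ] (L2 (Q n) →L[ℂ] L2 (Q n)) where
  toFun f := f n
  map_one' := rfl
  map_mul' _ _ := rfl
  map_zero' := rfl
  map_add' _ _ := rfl
  commutes' _ := rfl
  map_star' _ := rfl

variable {F : Type} [Group F] (θ : ∀ n, F →* Q n)

theorem A7_memℓp (γ : F) : Memℓp (fun n => (rightReg (θ n γ) : L2 (Q n) →L[ℂ] L2 (Q n))) ∞ := by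
  rw [memℓp_infty_iff]
  refine ⟨1, ?_⟩
  rintro _ ⟨n, rfl⟩
  exact CStarRing.norm_coe_unitary _ |>.le

/-- the sequence of right regular representations -/
noncomputable def A7_seq (γ : F) : lp (fun n => L2 (Q n) →L[ℂ] L2 (Q n)) ∞ :=
  ⟨_, A7_memℓp Q θ γ⟩

/-- the homomorphism to the unitary group of the product -/
noncomputable def A7_K : F →* unitary (lp (fun n => L2 (Q n) →L[ℂ] L2 (Q n)) ∞ ×
    (L2 F →L[ℂ] L2 F)) where
  toFun γ := ⟨(A7_seq Q θ γ, (rightReg γ : L2 F →L[ℂ] L2 F)), by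
    rw [Unitary.mem_iff]
    constructor
    · refine Prod.ext ?_ ?_
      · refine lp.ext ?_
        funext n
        exact Unitary.coe_star_mul_self (rightReg (θ n γ))
      · exact Unitary.coe_star_mul_self (rightReg γ)
    · refine Prod.ext ?_ ?_
      · refine lp.ext ?_
        funext n
        exact Unitary.coe_mul_star_self (rightReg (θ n γ))
      · exact Unitary.coe_mul_star_self (rightReg γ)⟩
  map_one' := by
    refine Subtype.ext (Prod.ext (lp.ext ?_) ?_)
    · funext n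
      change ((rightReg (θ n 1) : unitary (L2 (Q n) →L[ℂ] L2 (Q n))) :
        L2 (Q n) →L[ℂ] L2 (Q n)) = 1
      rw [map_one, map_one]
      rfl
    · change ((rightReg (1 : F) : unitary (L2 F →L[ℂ] L2 F)) : L2 F →L[ℂ] L2 F) = 1
      rw [map_one]
      rfl
  map_mul' := by
    intro a b
    refine Subtype.ext (Prod.ext (lp.ext ?_) ?_)
    · funext n
      change ((rightReg (θ n (a * b)) : unitary (L2 (Q n) →L[ℂ] L2 (Q n))) :
        L2 (Q n) →L[ℂ] L2 (Q n)) = _
      rw [map_mul, map_mul]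
      rfl
    · change ((rightReg (a * b) : unitary (L2 F →L[ℂ] L2 F)) : L2 F →L[ℂ] L2 F) = _
      rw [map_mul]
      rfl

end Product

theorem A7_comm {G : Type} [Group G] (g h : G) :
    (rightReg h : L2 G →L[ℂ] L2 G) * (leftReg g : L2 G →L[ℂ] L2 G) =
      (leftReg g : L2 G →L[ℂ] L2 G) * (rightReg h : L2 G →L[ℂ] L2 G) := by
  ext f x
  change (rightReg h : L2 G →L[ℂ] L2 G) ((leftReg g : L2 G →L[ℂ] L2 G) f) x =
    (leftReg g : L2 G →L[ℂ] L2 G) ((rightReg h : L2 G →L[ℂ] L2 G) f) x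
  rw [rightReg_apply, leftReg_apply, leftReg_apply, rightReg_apply, mul_assoc]

attribute [local instance] A7_cstar A7_nontrivial A7_lp

theorem exists_package (I : Type) [Finite I] :
    ∃ (B C : Type) (_ : CStarAlgebra B) (_ : CStarAlgebra C) (q : B →⋆ₐ[ℂ] C)
      (k : FreeGroup I → B) (Q : ℕ → Type) (_ : ∀ n, Group (Q n)) (_ : ∀ n, Finite (Q n))
      (θ : ∀ n, FreeGroup I →* Q n) (ev : ∀ n, B →⋆ₐ[ℂ] (L2 (Q n) →L[ℂ] L2 (Q n)))
      (ι : C →⋆ₐ[ℂ] (L2 (FreeGroup I) →L[ℂ] L2 (FreeGroup I))),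
      Function.Surjective q ∧ Function.Injective ι ∧
      (∀ γ, ι (q (k γ)) = (rightReg γ : L2 (FreeGroup I) →L[ℂ] L2 (FreeGroup I))) ∧
      (∀ n γ, ev n (k γ) = (rightReg (θ n γ) : L2 (Q n) →L[ℂ] L2 (Q n))) ∧
      (∀ n b (g : Q n), ev n b * (leftReg g : L2 (Q n) →L[ℂ] L2 (Q n)) =
        (leftReg g : L2 (Q n) →L[ℂ] L2 (Q n)) * ev n b) ∧
      (∀ b, q b = 0 → Filter.Tendsto (fun n => ‖ev n b (delta 1)‖) Filter.atTop (nhds 0)) := by
  obtain ⟨Q, hg, hf, θ, hθ⟩ := exists_finite_quotients I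
  have hq : ∀ g : FreeGroup I, StarAlgHom.snd ℂ (lp (fun n => L2 (Q n) →L[ℂ] L2 (Q n)) ∞)
      (L2 (FreeGroup I) →L[ℂ] L2 (FreeGroup I)) (A7_K Q θ g : _ × _) =
      (rightReg g : L2 (FreeGroup I) →L[ℂ] L2 (FreeGroup I)) := fun g => rfl
  let ev : ∀ n, A7_clos (A7_K Q θ) →⋆ₐ[ℂ] (L2 (Q n) →L[ℂ] L2 (Q n)) := fun n =>
    ((A7_ev Q n).comp (StarAlgHom.fst ℂ (lp (fun n => L2 (Q n) →L[ℂ] L2 (Q n)) ∞)
      (L2 (FreeGroup I) →L[ℂ] L2 (FreeGroup I)))).comp (A7_clos (A7_K Q θ)).subtype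
  have hev : ∀ n γ, ev n ⟨_, A7_mem (A7_K Q θ) γ⟩ =
      (rightReg (θ n γ) : L2 (Q n) →L[ℂ] L2 (Q n)) := fun n γ => rfl
  -- approximation
  have happ : ∀ (b : A7_clos (A7_K Q θ)) (ε : ℝ), 0 < ε → ∃ f : FreeGroup I →₀ ℂ,
      (∀ n, ‖ev n b - f.sum fun γ c => c • (rightReg (θ n γ) : L2 (Q n) →L[ℂ] L2 (Q n))‖ < ε) ∧
      ‖(A7_map (A7_K Q θ) rightReg _ hq b : L2 (FreeGroup I) →L[ℂ] L2 (FreeGroup I)) -
        f.sum fun γ c => c • (rightReg γ : L2 (FreeGroup I) →L[ℂ] L2 (FreeGroup I))‖ < ε := by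
    intro b ε hε
    obtain ⟨f, hf⟩ := A7_approx (A7_K Q θ) b.2 hε
    refine ⟨f, fun n => ?_, ?_⟩
    · have h1 := A7_map_sum (A7_K Q θ) ((rightReg (G := Q n)).comp (θ n))
        ((A7_ev Q n).comp (StarAlgHom.fst ℂ (lp (fun n => L2 (Q n) →L[ℂ] L2 (Q n)) ∞)
        (L2 (FreeGroup I) →L[ℂ] L2 (FreeGroup I)))) (fun g => rfl) f
      have h2 : (f.sum fun γ c => c • (rightReg (θ n γ) : L2 (Q n) →L[ℂ] L2 (Q n))) =
        f.sum fun γ c => c • (((rightReg (G := Q n)).comp (θ n)) γ : L2 (Q n) →L[ℂ] L2 (Q n)) :=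
        rfl
      rw [h2, ← h1]
      refine lt_of_le_of_lt ?_ hf
      have h3 := NonUnitalStarAlgHom.norm_apply_le ((A7_ev Q n).comp (StarAlgHom.fst ℂ
        (lp (fun n => L2 (Q n) →L[ℂ] L2 (Q n)) ∞)
        (L2 (FreeGroup I) →L[ℂ] L2 (FreeGroup I))))
        ((b : _ × _) - f.sum fun g c => c • (A7_K Q θ g : _ × _))
      rw [map_sub] at h3
      exact h3
    · have h1 := A7_map_sum (A7_K Q θ) (rightReg (G := FreeGroup I)) _ hq f
      rw [← h1]
      refine lt_of_le_of_lt ?_ hf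
      have h3 := NonUnitalStarAlgHom.norm_apply_le (StarAlgHom.snd ℂ
        (lp (fun n => L2 (Q n) →L[ℂ] L2 (Q n)) ∞)
        (L2 (FreeGroup I) →L[ℂ] L2 (FreeGroup I)))
        ((b : _ × _) - f.sum fun g c => c • (A7_K Q θ g : _ × _))
      rw [map_sub] at h3
      exact h3
  refine ⟨A7_clos (A7_K Q θ), A7_clos (rightReg (G := FreeGroup I)), inferInstance, inferInstance,
    A7_map (A7_K Q θ) rightReg _ hq, fun γ => ⟨_, A7_mem (A7_K Q θ) γ⟩, Q, hg, hf, θ, ev,
    (A7_clos (rightReg (G := FreeGroup I))).subtype, ?_, ?_, fun γ => rfl, hev, ?_, ?_⟩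
  · exact surjective_of_denseRange _ (A7_map_denseRange _ _ _ _)
  · exact Subtype.val_injective
  · intro n b g
    -- closed condition
    by_contra hne
    have hpos : 0 < ‖ev n b * (leftReg g : L2 (Q n) →L[ℂ] L2 (Q n)) -
        (leftReg g : L2 (Q n) →L[ℂ] L2 (Q n)) * ev n b‖ := by
      rw [norm_pos_iff, sub_ne_zero]
      exact hne
    obtain ⟨f, hf1, -⟩ := happ b _ (half_pos hpos)
    have h1 := hf1 n
    set S := f.sum fun γ c => c • (rightReg (θ n γ) : L2 (Q n) →L[ℂ] L2 (Q n)) with hS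
    have h2 : S * (leftReg g : L2 (Q n) →L[ℂ] L2 (Q n)) =
        (leftReg g : L2 (Q n) →L[ℂ] L2 (Q n)) * S := by
      rw [hS, Finsupp.sum, Finset.sum_mul, Finset.mul_sum]
      refine Finset.sum_congr rfl fun γ _ => ?_
      rw [smul_mul_assoc, mul_smul_comm, A7_comm]
    have h3 : ev n b * (leftReg g : L2 (Q n) →L[ℂ] L2 (Q n)) -
        (leftReg g : L2 (Q n) →L[ℂ] L2 (Q n)) * ev n b =
        (ev n b - S) * (leftReg g : L2 (Q n) →L[ℂ] L2 (Q n)) -
        (leftReg g : L2 (Q n) →L[ℂ] L2 (Q n)) * (ev n b - S) := by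
      rw [sub_mul, mul_sub, h2]; abel
    have hu : ‖(leftReg g : L2 (Q n) →L[ℂ] L2 (Q n))‖ ≤ 1 := (CStarRing.norm_coe_unitary _).le
    have h4 : ‖(ev n b - S) * (leftReg g : L2 (Q n) →L[ℂ] L2 (Q n))‖ ≤ ‖ev n b - S‖ :=
      (norm_mul_le _ _).trans (mul_le_of_le_one_right (norm_nonneg _) hu)
    have h5 : ‖(leftReg g : L2 (Q n) →L[ℂ] L2 (Q n)) * (ev n b - S)‖ ≤ ‖ev n b - S‖ :=
      (norm_mul_le _ _).trans (mul_le_of_le_one_left (norm_nonneg _) hu)
    have h6 := norm_sub_le ((ev n b - S) * (leftReg g : L2 (Q n) →L[ℂ] L2 (Q n)))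
      ((leftReg g : L2 (Q n) →L[ℂ] L2 (Q n)) * (ev n b - S))
    rw [← h3] at h6
    linarith
  · intro b hb
    rw [Metric.tendsto_atTop]
    intro ε hε
    obtain ⟨f, hf1, hf2⟩ := happ b (ε / 2) (half_pos hε)
    have hfin := eventually_injOn θ hθ f.support
    rw [Filter.eventually_atTop] at hfin
    obtain ⟨N, hN⟩ := hfin
    refine ⟨N, fun n hn => ?_⟩
    have hn' := norm_sum_delta (θ n) f (hN n hn)
    rw [hb] at hf2
    set S := f.sum fun γ c => c • (rightReg (θ n γ) : L2 (Q n) →L[ℂ] L2 (Q n)) with hS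
    set T := f.sum fun γ c => c • (rightReg γ : L2 (FreeGroup I) →L[ℂ] L2 (FreeGroup I)) with hT
    have h1 : ‖T (delta 1)‖ ≤ ε / 2 := by
      have h := T.le_opNorm (delta 1)
      rw [norm_delta, mul_one] at h
      refine h.trans ?_
      have h0 : ((0 : A7_clos (rightReg (G := FreeGroup I))) :
        L2 (FreeGroup I) →L[ℂ] L2 (FreeGroup I)) = 0 := rfl
      rw [h0, zero_sub, norm_neg] at hf2
      exact hf2.le
    have h2 : ‖(ev n b - S) (delta 1)‖ < ε / 2 := by
      have h := (ev n b - S).le_opNorm (delta 1)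
      rw [norm_delta, mul_one] at h
      exact lt_of_le_of_lt h (hf1 n)
    have h3 : ev n b (delta 1) = (ev n b - S) (delta 1) + S (delta 1) := by
      simp
    rw [dist_zero_right, norm_norm, h3]
    have h4 := norm_add_le ((ev n b - S) (delta 1)) (S (delta 1))
    rw [hn'] at h4
    linarith

end Pool.Agent.Helper59.EX
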