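import Pool.Agent.Helper59.EX.Reg

/-!
EX-A8a: row and column inequality for the generators of the free group, scalar matrices.
-/

open scoped InnerProductSpace ENNReal

namespace Pool.Agent.Helper59.EX

private theorem A8a_hasSum {X : Type} (f : L2 X) : HasSum (fun x => ‖f x‖ ^ 2) (‖f‖ ^ 2) := by
  have h := lp.hasSum_norm (p := 2) (by norm_num) f
  simpa using h

private theorem A8a_summable {X : Type} (f : L2 X) : Summable fun x => ‖f x‖ ^ 2 :=
  (A8a_hasSum f).summable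

private theorem A8a_tsum {X : Type} (f : L2 X) : ∑' x, ‖f x‖ ^ 2 = ‖f‖ ^ 2 :=
  (A8a_hasSum f).tsum_eq

/-- Multiplication by the indicator of a decidable predicate. -/
private noncomputable def A8a_ind {X : Type} (s : X → Prop) [DecidablePred s] (f : L2 X) :
    L2 X :=
  ⟨fun x => if s x then f x else 0, by
    have h := lp.memℓp f
    refine h.mono' ?_
    intro x
    by_cases hx : s x <;> simp [hx]⟩

private theorem A8a_ind_apply {X : Type} (s : X → Prop) [DecidablePred s] (f : L2 X) (x : X) :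
    A8a_ind s f x = if s x then f x else 0 := rfl

private theorem A8a_inner_ind {X : Type} (s : X → Prop) [DecidablePred s] (f g : L2 X) :
    ⟪f, A8a_ind s g⟫_ℂ = ⟪A8a_ind s f, g⟫_ℂ := by
  rw [lp.inner_eq_tsum, lp.inner_eq_tsum]
  refine tsum_congr fun x => ?_
  rw [A8a_ind_apply, A8a_ind_apply]
  by_cases hx : s x <;> simp [hx]

/-- Disjoint indicators. -/
private theorem A8a_sum_ind {X I : Type} [Fintype I] (s : I → X → Prop)
    [∀ i, DecidablePred (s i)] (hs : ∀ i j x, s i x → s j x → i = j) (f : L2 X) :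
    ∑ i, ‖A8a_ind (s i) f‖ ^ 2 ≤ ‖f‖ ^ 2 := by
  classical
  have h1 : HasSum (fun x => ∑ i, ‖A8a_ind (s i) f x‖ ^ 2) (∑ i, ‖A8a_ind (s i) f‖ ^ 2) :=
    hasSum_sum fun i _ => A8a_hasSum _
  refine hasSum_le ?_ h1 (A8a_hasSum f)
  intro x
  by_cases hx : ∃ i, s i x
  · obtain ⟨i, hi⟩ := hx
    rw [Finset.sum_eq_single i]
    · rw [A8a_ind_apply]; simp [hi]
    · intro j _ hj
      have : ¬ s j x := fun h => hj (hs _ _ _ h hi)
      rw [A8a_ind_apply]; simp [this]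
    · intro h; exact absurd (Finset.mem_univ i) h
  · push Not at hx
    rw [Finset.sum_eq_zero]
    · positivity
    · intro i _
      rw [A8a_ind_apply]; simp [hx i]

/-- A scalar matrix inequality holds for vectors in `l2`. -/
private theorem A8a_amplify {X : Type} {J : Type} [Fintype J] {n : ℕ} (Y : J → Fin n → ℂ)
    (D : ℝ) (h : ∀ v : Fin n → ℂ, ∑ j, ‖∑ l, Y j l * v l‖ ^ 2 ≤ D * ∑ l, ‖v l‖ ^ 2)
    (η : Fin n → L2 X) : ∑ j, ‖∑ l, Y j l • η l‖ ^ 2 ≤ D * ∑ l, ‖η l‖ ^ 2 := by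
  have h1 : HasSum (fun x => ∑ j, ‖(∑ l, Y j l • η l : L2 X) x‖ ^ 2)
      (∑ j, ‖∑ l, Y j l • η l‖ ^ 2) := hasSum_sum fun i _ => A8a_hasSum _
  have h2 : HasSum (fun x => D * ∑ l, ‖η l x‖ ^ 2) (D * ∑ l, ‖η l‖ ^ 2) :=
    (hasSum_sum fun i _ => A8a_hasSum _).mul_left D
  refine hasSum_le ?_ h1 h2
  intro x
  have h3 : ∀ j, (∑ l, Y j l • η l : L2 X) x = ∑ l, Y j l * η l x := by
    intro j
    rw [lp.coeFn_sum, Finset.sum_apply]
    rfl
  simp only [h3]
  exact h _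

private theorem A8a_head {I : Type} [DecidableEq I] (i : I) (v : FreeGroup I) :
    (((FreeGroup.of i)⁻¹ * v).toWord.head? = some (i, false)) ↔
      ¬ (v.toWord.head? = some (i, true)) := by
  rw [FreeGroup.toWord_mul, FreeGroup.toWord_inv, FreeGroup.toWord_of]
  have e : FreeGroup.invRev [(i, true)] = [(i, false)] := rfl
  rw [e, List.singleton_append, FreeGroup.reduce.cons, FreeGroup.reduce_toWord]
  have hred : FreeGroup.IsReduced v.toWord := FreeGroup.isReduced_toWord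
  rcases hv : v.toWord with _ | ⟨y, L⟩
  · simp
  · rw [hv] at hred
    obtain ⟨k, b⟩ := y
    by_cases hk : i = k
    · subst hk
      cases b
      · simp
      · simp only [Bool.not_true, and_self, if_true, List.head?_cons, not_true_eq_false,
          iff_false]
        rcases L with _ | ⟨z, L⟩
        · simp
        · intro h
          rw [List.head?_cons, Option.some.injEq] at h
          subst h
          simp [FreeGroup.IsReduced] at hred
    · have hk' : ¬ (k = i) := fun h => hk h.symm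
      simp [hk, hk']

private theorem A8a_cs {J : Type} [Fintype J] {H : Type*} [NormedAddCommGroup H]
    [InnerProductSpace ℂ H] (f g : J → H) (a b : ℝ)
    (hf : ∑ j, ‖f j‖ ^ 2 ≤ a) (hg : ∑ j, ‖g j‖ ^ 2 ≤ b) :
    ‖∑ j, ⟪f j, g j⟫_ℂ‖ ≤ Real.sqrt a * Real.sqrt b := by
  calc ‖∑ j, ⟪f j, g j⟫_ℂ‖ ≤ ∑ j, ‖f j‖ * ‖g j‖ :=
        (norm_sum_le _ _).trans (Finset.sum_le_sum fun j _ => norm_inner_le_norm _ _)
    _ ≤ Real.sqrt (∑ j, ‖f j‖ ^ 2) * Real.sqrt (∑ j, ‖g j‖ ^ 2) :=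
        Real.sum_mul_le_sqrt_mul_sqrt _ _ _
    _ ≤ Real.sqrt a * Real.sqrt b :=
        mul_le_mul (Real.sqrt_le_sqrt hf) (Real.sqrt_le_sqrt hg) (Real.sqrt_nonneg _)
          (Real.sqrt_nonneg _)

private theorem A8a_split {I : Type} [DecidableEq I] (i : I) (ξ : L2 (FreeGroup I)) :
    (rightReg (FreeGroup.of i) : L2 (FreeGroup I) →L[ℂ] L2 (FreeGroup I)) ξ =
      (rightReg (FreeGroup.of i) : L2 (FreeGroup I) →L[ℂ] L2 (FreeGroup I))
        (A8a_ind (fun w : FreeGroup I => (w⁻¹).toWord.head? = some (i, false)) ξ) +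
      A8a_ind (fun w : FreeGroup I => (w⁻¹).toWord.head? = some (i, true))
        ((rightReg (FreeGroup.of i) : L2 (FreeGroup I) →L[ℂ] L2 (FreeGroup I)) ξ) := by
  ext w
  rw [lp.coeFn_add, Pi.add_apply, rightReg_apply, rightReg_apply, A8a_ind_apply, A8a_ind_apply,
    rightReg_apply, mul_inv_rev]
  by_cases h : (w⁻¹).toWord.head? = some (i, true)
  · have h' := (not_congr (A8a_head i w⁻¹)).2 (not_not.2 h)
    rw [if_neg h', if_pos h, zero_add]
  · have h' := (A8a_head i w⁻¹).2 h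
    rw [if_pos h', if_neg h, add_zero]

theorem haagerup_scalar {I : Type} [Fintype I] [DecidableEq I] {n : ℕ}
    (X : I → Fin n → Fin n → ℂ) (Dr Dc : ℝ) (hDr : 0 ≤ Dr) (hDc : 0 ≤ Dc)
    (hr : ∀ v : Fin n → ℂ, ∑ i, ∑ j, ‖∑ l, star (X i l j) * v l‖ ^ 2 ≤ Dr * ∑ l, ‖v l‖ ^ 2)
    (hc : ∀ v : Fin n → ℂ, ∑ i, ∑ l, ‖∑ j, X i l j * v j‖ ^ 2 ≤ Dc * ∑ j, ‖v j‖ ^ 2)
    (η ξ : Fin n → L2 (FreeGroup I)) :
    ‖∑ l, ∑ j, ∑ i, X i l j * ⟪η l, (rightReg (FreeGroup.of i) :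
        L2 (FreeGroup I) →L[ℂ] L2 (FreeGroup I)) (ξ j)⟫_ℂ‖ ≤
      (Real.sqrt Dr + Real.sqrt Dc) *
        (Real.sqrt (∑ l, ‖η l‖ ^ 2) * Real.sqrt (∑ j, ‖ξ j‖ ^ 2)) := by
  set lam : I → (L2 (FreeGroup I) →L[ℂ] L2 (FreeGroup I)) := fun i =>
    (rightReg (FreeGroup.of i) : L2 (FreeGroup I) →L[ℂ] L2 (FreeGroup I)) with hlam
  set P : I → L2 (FreeGroup I) → L2 (FreeGroup I) := fun i =>
    A8a_ind (fun w : FreeGroup I => (w⁻¹).toWord.head? = some (i, false)) with hP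
  set P' : I → L2 (FreeGroup I) → L2 (FreeGroup I) := fun i =>
    A8a_ind (fun w : FreeGroup I => (w⁻¹).toWord.head? = some (i, true)) with hP'
  have hnorm : ∀ i f, ‖lam i f‖ = ‖f‖ := fun i f => by
    have h := (Unitary.norm_map (rightReg (FreeGroup.of i) : unitary _) f)
    exact h
  have hadj : ∀ i f g, ⟪f, lam i g⟫_ℂ = ⟪star (lam i) f, g⟫_ℂ := fun i f g => by
    rw [ContinuousLinearMap.star_eq_adjoint, ContinuousLinearMap.adjoint_inner_left]
  have hnorm' : ∀ i f, ‖star (lam i) f‖ = ‖f‖ := fun i f => by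
    have h := (Unitary.norm_map (star (rightReg (FreeGroup.of i)) : unitary _) f)
    exact h
  have hsplit : ∀ i l j, ⟪η l, lam i (ξ j)⟫_ℂ =
      ⟪star (lam i) (η l), P i (ξ j)⟫_ℂ + ⟪P' i (η l), lam i (ξ j)⟫_ℂ := by
    intro i l j
    conv_lhs => rw [show lam i (ξ j) = lam i (P i (ξ j)) + P' i (lam i (ξ j)) from
      A8a_split i (ξ j)]
    rw [inner_add_right, hadj]
    exact congrArg _ (A8a_inner_ind _ (η l) (lam i (ξ j)))
  -- first part
  have h1 : ‖∑ p : I × Fin n, ⟪∑ l, star (X p.1 l p.2) • star (lam p.1) (η l),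
      P p.1 (ξ p.2)⟫_ℂ‖ ≤ Real.sqrt (Dr * ∑ l, ‖η l‖ ^ 2) * Real.sqrt (∑ j, ‖ξ j‖ ^ 2) := by
    refine A8a_cs _ _ _ _ ?_ ?_
    · have h := A8a_amplify (J := I × Fin n) (fun p l => star (X p.1 l p.2)) Dr
        (fun v => by
          rw [Fintype.sum_prod_type]
          exact hr v) η
      refine le_trans (le_of_eq ?_) h
      refine Finset.sum_congr rfl fun p _ => ?_
      congr 1
      conv_rhs => rw [← hnorm' p.1, map_sum]
      simp
    · rw [Fintype.sum_prod_type_right]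
      refine Finset.sum_le_sum fun j _ => ?_
      refine A8a_sum_ind _ ?_ (ξ j)
      intro i i' x h h'
      rw [h] at h'
      simpa using h'
  -- second part
  have h2 : ‖∑ p : I × Fin n, ⟪P' p.1 (η p.2),
      ∑ j, X p.1 p.2 j • lam p.1 (ξ j)⟫_ℂ‖ ≤
      Real.sqrt (∑ l, ‖η l‖ ^ 2) * Real.sqrt (Dc * ∑ j, ‖ξ j‖ ^ 2) := by
    refine A8a_cs _ _ _ _ ?_ ?_
    · rw [Fintype.sum_prod_type_right]
      refine Finset.sum_le_sum fun j _ => ?_
      refine A8a_sum_ind _ ?_ (η j)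
      intro i i' x h h'
      rw [h] at h'
      simpa using h'
    · have h := A8a_amplify (J := I × Fin n) (fun p j => X p.1 p.2 j) Dc
        (fun v => by
          rw [Fintype.sum_prod_type]
          exact hc v) ξ
      refine le_trans (le_of_eq ?_) h
      refine Finset.sum_congr rfl fun p _ => ?_
      congr 1
      conv_rhs => rw [← hnorm p.1, map_sum]
      simp
  have e : ∑ l, ∑ j, ∑ i, X i l j * ⟪η l, lam i (ξ j)⟫_ℂ =
      (∑ p : I × Fin n, ⟪∑ l, star (X p.1 l p.2) • star (lam p.1) (η l), P p.1 (ξ p.2)⟫_ℂ) +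
      ∑ p : I × Fin n, ⟪P' p.1 (η p.2), ∑ j, X p.1 p.2 j • lam p.1 (ξ j)⟫_ℂ := by
    have e1 : ∑ p : I × Fin n, ⟪∑ l, star (X p.1 l p.2) • star (lam p.1) (η l),
        P p.1 (ξ p.2)⟫_ℂ = ∑ l, ∑ j, ∑ i, X i l j * ⟪star (lam i) (η l), P i (ξ j)⟫_ℂ := by
      simp only [sum_inner, inner_smul_left]
      rw [Finset.sum_comm]
      refine Finset.sum_congr rfl fun l _ => ?_
      rw [Fintype.sum_prod_type_right]
      simp
    have e2 : ∑ p : I × Fin n, ⟪P' p.1 (η p.2), ∑ j, X p.1 p.2 j • lam p.1 (ξ j)⟫_ℂ =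
        ∑ l, ∑ j, ∑ i, X i l j * ⟪P' i (η l), lam i (ξ j)⟫_ℂ := by
      simp only [inner_sum, inner_smul_right]
      rw [Fintype.sum_prod_type_right]
      refine Finset.sum_congr rfl fun l _ => ?_
      rw [Finset.sum_comm]
    rw [e1, e2, ← Finset.sum_add_distrib]
    refine Finset.sum_congr rfl fun l _ => ?_
    rw [← Finset.sum_add_distrib]
    refine Finset.sum_congr rfl fun j _ => ?_
    rw [← Finset.sum_add_distrib]
    refine Finset.sum_congr rfl fun i _ => ?_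
    rw [hsplit]; ring
  rw [e]
  refine (norm_add_le _ _).trans ((add_le_add h1 h2).trans (le_of_eq ?_))
  rw [Real.sqrt_mul hDr, Real.sqrt_mul hDc]
  ring

end Pool.Agent.Helper59.EX
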