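import Mathlib

/-!
EX-A8b: complete contractivity of `*`-homomorphisms, in the form of bilinear inequalities.
-/

open scoped InnerProductSpace

namespace Pool.Agent.Helper59.EX

section A8bAux

variable {C : Type*} [CStarAlgebra C] {K : Type*}
    [NormedAddCommGroup K] [InnerProductSpace ℂ K] [CompleteSpace K] {n : ℕ}

/-- The action of a matrix over `C` on `K^n`, entrywise through `σ`. -/
noncomputable def a8bFun (σ : C →⋆ₙₐ[ℂ] (K →L[ℂ] K)) (M : CStarMatrix (Fin n) (Fin n) C) :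
    PiLp 2 (fun _ : Fin n => K) →L[ℂ] PiLp 2 (fun _ : Fin n => K) :=
  (PiLp.continuousLinearEquiv 2 ℂ (fun _ : Fin n => K)).symm.toContinuousLinearMap ∘L
    ContinuousLinearMap.pi (fun l => ∑ j, (σ (M l j)) ∘L PiLp.proj 2 (fun _ : Fin n => K) j)

theorem a8bFun_apply (σ : C →⋆ₙₐ[ℂ] (K →L[ℂ] K)) (M : CStarMatrix (Fin n) (Fin n) C)
    (v : PiLp 2 (fun _ : Fin n => K)) (l : Fin n) :
    a8bFun σ M v l = ∑ j, σ (M l j) (v j) := by
  simp [a8bFun]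

theorem a8bFun_inner (σ : C →⋆ₙₐ[ℂ] (K →L[ℂ] K)) (M : CStarMatrix (Fin n) (Fin n) C)
    (η ξ : PiLp 2 (fun _ : Fin n => K)) :
    ⟪η, a8bFun σ M ξ⟫_ℂ = ∑ l, ∑ j, ⟪η l, σ (M l j) (ξ j)⟫_ℂ := by
  rw [PiLp.inner_apply]
  refine Finset.sum_congr rfl fun l _ => ?_
  rw [a8bFun_apply, inner_sum]

/-- The `*`-homomorphism from the matrices over `C` to the operators on `K^n`. -/
noncomputable def a8bHom (σ : C →⋆ₙₐ[ℂ] (K →L[ℂ] K)) :
    CStarMatrix (Fin n) (Fin n) C →⋆ₙₐ[ℂ]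
      (PiLp 2 (fun _ : Fin n => K) →L[ℂ] PiLp 2 (fun _ : Fin n => K)) where
  toFun M := a8bFun σ M
  map_smul' c M := by
    ext v l
    rw [a8bFun_apply]
    simp only [CStarMatrix.smul_apply, map_smul, _root_.smul_apply, PiLp.smul_apply,
      MonoidHom.id_apply, a8bFun_apply, Finset.smul_sum]
  map_zero' := by
    ext v l
    rw [a8bFun_apply]
    simp [CStarMatrix.zero_apply]
  map_add' M N := by
    ext v l
    rw [a8bFun_apply]
    simp only [CStarMatrix.add_apply, map_add, _root_.add_apply, PiLp.add_apply, a8bFun_apply,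
      Finset.sum_add_distrib]
  map_mul' M N := by
    ext v l
    have h1 : (a8bFun σ M * a8bFun σ N) v = a8bFun σ M (a8bFun σ N v) := rfl
    rw [h1, a8bFun_apply, a8bFun_apply]
    have h2 : ∀ j, σ ((M * N) l j) (v j) = ∑ k, σ (M l k) (σ (N k j) (v j)) := by
      intro j
      rw [CStarMatrix.mul_apply, map_sum, sum_apply]
      refine Finset.sum_congr rfl fun k _ => ?_
      rw [map_mul]
      rfl
    simp only [h2]
    rw [Finset.sum_comm]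
    refine Finset.sum_congr rfl fun k _ => ?_
    rw [a8bFun_apply, map_sum]
  map_star' M := by
    rw [ContinuousLinearMap.star_eq_adjoint, ContinuousLinearMap.eq_adjoint_iff]
    intro x y
    rw [PiLp.inner_apply, PiLp.inner_apply]
    simp only [a8bFun_apply, sum_inner, inner_sum]
    rw [Finset.sum_comm]
    refine Finset.sum_congr rfl fun l _ => ?_
    refine Finset.sum_congr rfl fun j _ => ?_
    rw [CStarMatrix.star_apply, map_star, ContinuousLinearMap.star_eq_adjoint,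
      ContinuousLinearMap.adjoint_inner_left]

theorem a8bHom_apply (σ : C →⋆ₙₐ[ℂ] (K →L[ℂ] K)) (M : CStarMatrix (Fin n) (Fin n) C) :
    a8bHom σ M = a8bFun σ M := rfl

theorem a8bHom_injective (σ : C →⋆ₙₐ[ℂ] (K →L[ℂ] K)) (hσ : Function.Injective σ) :
    Function.Injective (a8bHom (n := n) σ) := by
  intro M N h
  ext l j
  apply hσ
  ext x
  have h1 := congrArg (fun T : PiLp 2 (fun _ : Fin n => K) →L[ℂ] PiLp 2 (fun _ : Fin n => K) =>
    T (WithLp.toLp 2 (Pi.single j x)) l) h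
  simp only [a8bHom_apply, a8bFun_apply] at h1
  rw [Finset.sum_eq_single j, Finset.sum_eq_single j] at h1
  · simpa using h1
  · intro b _ hb
    simp [Pi.single_eq_of_ne hb]
  · intro hj
    exact absurd (Finset.mem_univ j) hj
  · intro b _ hb
    simp [Pi.single_eq_of_ne hb]
  · intro hj
    exact absurd (Finset.mem_univ j) hj

omit [InnerProductSpace ℂ K] [CompleteSpace K] in
theorem a8b_norm (v : PiLp 2 (fun _ : Fin n => K)) :
    ‖v‖ = Real.sqrt (∑ i, ‖v i‖ ^ 2) := PiLp.norm_eq_of_L2 v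

end A8bAux

theorem matrix_transfer {C : Type*} [CStarAlgebra C] {L K : Type*}
    [NormedAddCommGroup L] [InnerProductSpace ℂ L] [CompleteSpace L]
    [NormedAddCommGroup K] [InnerProductSpace ℂ K] [CompleteSpace K]
    (ι : C →⋆ₐ[ℂ] (L →L[ℂ] L)) (hι : Function.Injective ι) (σ : C →⋆ₙₐ[ℂ] (K →L[ℂ] K))
    {n : ℕ} (c : Fin n → Fin n → C) (r : ℝ) (hr : 0 ≤ r)
    (h : ∀ η ξ : Fin n → L, ‖∑ l, ∑ j, ⟪η l, ι (c l j) (ξ j)⟫_ℂ‖ ≤
      r * (Real.sqrt (∑ l, ‖η l‖ ^ 2) * Real.sqrt (∑ j, ‖ξ j‖ ^ 2))) (η ξ : Fin n → K) :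
    ‖∑ l, ∑ j, ⟪η l, σ (c l j) (ξ j)⟫_ℂ‖ ≤
      r * (Real.sqrt (∑ l, ‖η l‖ ^ 2) * Real.sqrt (∑ j, ‖ξ j‖ ^ 2)) := by
  let _ : PartialOrder C := CStarAlgebra.spectralOrder C
  have _ : StarOrderedRing C := CStarAlgebra.spectralOrderedRing C
  let ι' : C →⋆ₙₐ[ℂ] (L →L[ℂ] L) := (ι : C →⋆ₙₐ[ℂ] (L →L[ℂ] L))
  have hι' : Function.Injective ι' := hι
  let M : CStarMatrix (Fin n) (Fin n) C := CStarMatrix.ofMatrix c
  have h1 : ‖a8bHom ι' M‖ ≤ r := by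
    refine ContinuousLinearMap.opNorm_le_bound _ hr fun v => ?_
    have h2 := h (fun l => a8bHom ι' M v l) (fun j => v j)
    have h3 : ∑ l, ∑ j, ⟪a8bHom ι' M v l, ι (c l j) (v j)⟫_ℂ = ⟪a8bHom ι' M v, a8bHom ι' M v⟫_ℂ :=
      (a8bFun_inner ι' M (a8bHom ι' M v) v).symm
    rw [h3, ← a8b_norm, ← a8b_norm, inner_self_eq_norm_sq_to_K, norm_pow, RCLike.norm_ofReal,
      abs_norm] at h2
    rcases eq_or_lt_of_le (norm_nonneg (a8bHom ι' M v)) with h0 | h0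
    · rw [← h0]
      positivity
    · nlinarith
  have h2 : ‖a8bHom ι' M‖ = ‖M‖ := NonUnitalStarAlgHom.norm_map _ (a8bHom_injective ι' hι') M
  have h3 : ‖a8bHom σ M‖ ≤ ‖M‖ := NonUnitalStarAlgHom.norm_apply_le _ M
  have h4 : ‖a8bHom σ M‖ ≤ r := h3.trans (h2 ▸ h1)
  have h5 : ∑ l, ∑ j, ⟪η l, σ (c l j) (ξ j)⟫_ℂ =
      ⟪(WithLp.toLp 2 η : PiLp 2 (fun _ : Fin n => K)), a8bHom σ M (WithLp.toLp 2 ξ)⟫_ℂ :=
    (a8bFun_inner σ M (WithLp.toLp 2 η) (WithLp.toLp 2 ξ)).symm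
  have h6 : Real.sqrt (∑ l, ‖η l‖ ^ 2) = ‖(WithLp.toLp 2 η : PiLp 2 (fun _ : Fin n => K))‖ :=
    (a8b_norm (WithLp.toLp 2 η)).symm
  have h7 : Real.sqrt (∑ l, ‖ξ l‖ ^ 2) = ‖(WithLp.toLp 2 ξ : PiLp 2 (fun _ : Fin n => K))‖ :=
    (a8b_norm (WithLp.toLp 2 ξ)).symm
  rw [h5, h6, h7]
  refine (norm_inner_le_norm _ _).trans ?_
  have h8 := (a8bHom σ M).le_of_opNorm_le h4 (WithLp.toLp 2 ξ)
  calc _ ≤ ‖(WithLp.toLp 2 η : PiLp 2 (fun _ : Fin n => K))‖ *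
        (r * ‖(WithLp.toLp 2 ξ : PiLp 2 (fun _ : Fin n => K))‖) :=
        mul_le_mul_of_nonneg_left h8 (norm_nonneg _)
    _ = _ := by ring

end Pool.Agent.Helper59.EX
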