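import Pool.Agent.Helper59.EX.St.A1

/-!
EX-A8c: the norm of `(pi (x) sigma)(x)` from matrix forms.
-/

open scoped TensorProduct InnerProductSpace ENNReal

namespace Pool.Agent.Helper59.EX

section A8cAux

variable {H K : Type*} [NormedAddCommGroup H] [InnerProductSpace ℂ H] [CompleteSpace H]
    [NormedAddCommGroup K] [InnerProductSpace ℂ K] [CompleteSpace K]

omit [CompleteSpace H] [CompleteSpace K] in
private theorem A8c_repr (z : H ⊗[ℂ] K) : ∃ S₀ : Submodule ℂ H, FiniteDimensional ℂ S₀ ∧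
    ∀ S : Submodule ℂ H, S₀ ≤ S → ∀ (n : ℕ) (e : OrthonormalBasis (Fin n) ℂ S),
      ∃ ξ : Fin n → K, z = ∑ j, (e j : H) ⊗ₜ[ℂ] ξ j := by
  induction z using TensorProduct.induction_on with
  | zero =>
    refine ⟨⊥, inferInstance, fun S _ n e => ⟨fun _ => 0, ?_⟩⟩
    simp
  | tmul x y =>
    refine ⟨Submodule.span ℂ {x}, inferInstance, fun S hS n e => ?_⟩
    have hx : x ∈ S := hS (Submodule.mem_span_singleton_self x)
    refine ⟨fun j => ⟪(e j : H), x⟫_ℂ • y, ?_⟩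
    have h1 : x = ∑ j, ⟪(e j : H), x⟫_ℂ • (e j : H) := by
      have h2 := e.sum_repr' ⟨x, hx⟩
      have h3 := congrArg (fun u : S => (u : H)) h2
      simp only [Submodule.coe_sum, Submodule.coe_smul] at h3
      exact h3.symm
    conv_lhs => rw [h1, TensorProduct.sum_tmul]
    refine Finset.sum_congr rfl fun j _ => ?_
    rw [TensorProduct.tmul_smul, TensorProduct.smul_tmul']
  | add z w hz hw =>
    obtain ⟨S₁, hS₁, h₁⟩ := hz
    obtain ⟨S₂, hS₂, h₂⟩ := hw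
    refine ⟨S₁ ⊔ S₂, inferInstance, fun S hS n e => ?_⟩
    obtain ⟨ξ₁, hξ₁⟩ := h₁ S (le_sup_left.trans hS) n e
    obtain ⟨ξ₂, hξ₂⟩ := h₂ S (le_sup_right.trans hS) n e
    refine ⟨fun j => ξ₁ j + ξ₂ j, ?_⟩
    simp only [TensorProduct.tmul_add, Finset.sum_add_distrib]
    rw [← hξ₁, ← hξ₂]

omit [CompleteSpace H] [CompleteSpace K] in
private theorem A8c_norm {n : ℕ} (e : Fin n → H) (he : Orthonormal ℂ e) (ξ : Fin n → K) :
    ‖∑ j, e j ⊗ₜ[ℂ] ξ j‖ = Real.sqrt (∑ j, ‖ξ j‖ ^ 2) := by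
  have h1 : ⟪∑ j, e j ⊗ₜ[ℂ] ξ j, ∑ j, e j ⊗ₜ[ℂ] ξ j⟫_ℂ = ((∑ j, ‖ξ j‖ ^ 2 : ℝ) : ℂ) := by
    rw [sum_inner]
    push_cast
    refine Finset.sum_congr rfl fun j _ => ?_
    rw [inner_sum, Finset.sum_eq_single j]
    · rw [TensorProduct.inner_tmul, inner_self_eq_norm_sq_to_K, he.1 j,
        inner_self_eq_norm_sq_to_K]
      simp
    · intro k _ hk
      rw [TensorProduct.inner_tmul, he.2 (Ne.symm hk), zero_mul]
    · intro h; exact absurd (Finset.mem_univ j) h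
  have h2 := norm_sq_eq_re_inner (𝕜 := ℂ) (∑ j, e j ⊗ₜ[ℂ] ξ j)
  rw [h1] at h2
  have h3 : ‖∑ j, e j ⊗ₜ[ℂ] ξ j‖ ^ 2 = ∑ j, ‖ξ j‖ ^ 2 := h2.trans (Complex.ofReal_re _)
  rw [← h3, Real.sqrt_sq (norm_nonneg _)]

end A8cAux

theorem norm_tensorRep_le_of_matrix {A C H K : Type*} [CStarAlgebra A] [CStarAlgebra C]
    [NormedAddCommGroup H] [InnerProductSpace ℂ H] [CompleteSpace H]
    [NormedAddCommGroup K] [InnerProductSpace ℂ K] [CompleteSpace K]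
    (π : A →⋆ₙₐ[ℂ] (H →L[ℂ] H)) (σ : C →⋆ₙₐ[ℂ] (K →L[ℂ] K)) {I : Type*} [Fintype I]
    (b : I → A) (c : I → C) (r : ℝ) (hr : 0 ≤ r)
    (h : ∀ (n : ℕ) (e : Fin n → H), Orthonormal ℂ e → ∀ η ξ : Fin n → K,
      ‖∑ l, ∑ j, ∑ i, ⟪e l, π (b i) (e j)⟫_ℂ * ⟪η l, σ (c i) (ξ j)⟫_ℂ‖ ≤
        r * (Real.sqrt (∑ l, ‖η l‖ ^ 2) * Real.sqrt (∑ j, ‖ξ j‖ ^ 2))) :
    ‖tensorRep π σ (∑ i, b i ⊗ₜ[ℂ] c i)‖ ≤ r := by
  set T := tensorRep π σ (∑ i, b i ⊗ₜ[ℂ] c i) with hT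
  have key : ∀ w z : H ⊗[ℂ] K, ‖⟪w, T z⟫_ℂ‖ ≤ r * (‖w‖ * ‖z‖) := by
    intro w z
    obtain ⟨S₁, hS₁, h₁⟩ := A8c_repr w
    obtain ⟨S₂, hS₂, h₂⟩ := A8c_repr z
    have e := stdOrthonormalBasis ℂ (S₁ ⊔ S₂ : Submodule ℂ H)
    obtain ⟨η, hη⟩ := h₁ _ le_sup_left _ e
    obtain ⟨ξ, hξ⟩ := h₂ _ le_sup_right _ e
    have he : Orthonormal ℂ (fun j => (e j : H)) :=
      e.orthonormal.comp_linearIsometry (S₁ ⊔ S₂ : Submodule ℂ H).subtypeₗᵢ
    have h3 := h _ (fun j => (e j : H)) he η ξ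
    rw [hη, hξ, A8c_norm _ he, A8c_norm _ he]
    refine le_trans (le_of_eq ?_) h3
    congr 1
    rw [sum_inner]
    refine Finset.sum_congr rfl fun l _ => ?_
    rw [map_sum, inner_sum]
    refine Finset.sum_congr rfl fun j _ => ?_
    rw [hT, map_sum, sum_apply, inner_sum]
    refine Finset.sum_congr rfl fun i _ => ?_
    rw [tensorRep_tmul, TensorProduct.mapL_tmul, TensorProduct.inner_tmul]
  refine ContinuousLinearMap.opNorm_le_bound _ hr fun z => ?_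
  have h1 := key (T z) z
  have h2 : ‖⟪T z, T z⟫_ℂ‖ = ‖T z‖ * ‖T z‖ := by
    have h3 := norm_sq_eq_re_inner (𝕜 := ℂ) (T z)
    have h4 : ⟪T z, T z⟫_ℂ = ((‖T z‖ ^ 2 : ℝ) : ℂ) := by
      have h5 := inner_self_ofReal_re (𝕜 := ℂ) (T z)
      rw [h3]
      exact h5.symm
    rw [h4, Complex.norm_real, Real.norm_eq_abs, abs_of_nonneg (by positivity), sq]
  rw [h2] at h1
  rcases eq_or_lt_of_le (norm_nonneg (T z)) with h0 | h0
  · rw [← h0]; positivity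
  · nlinarith

/-- Compressions to orthonormal families decrease row and column norms. -/
theorem compress_col {A H : Type*} [CStarAlgebra A]
    [NormedAddCommGroup H] [InnerProductSpace ℂ H] [CompleteSpace H]
    (π : A →⋆ₙₐ[ℂ] (H →L[ℂ] H)) {I : Type*} [Fintype I] (b : I → A) (Dc : ℝ)
    (hc : ‖∑ i, star (b i) * b i‖ ≤ Dc) {n : ℕ} (e : Fin n → H) (he : Orthonormal ℂ e)
    (v : Fin n → ℂ) :
    ∑ i, ∑ l, ‖∑ j, ⟪e l, π (b i) (e j)⟫_ℂ * v j‖ ^ 2 ≤ Dc * ∑ j, ‖v j‖ ^ 2 := by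
  set w : H := ∑ j, v j • e j with hw
  have hwn : ‖w‖ ^ 2 = ∑ j, ‖v j‖ ^ 2 := by
    have h1 : ⟪w, w⟫_ℂ = ((∑ j, ‖v j‖ ^ 2 : ℝ) : ℂ) := by
      rw [hw, he.inner_sum]
      push_cast
      refine Finset.sum_congr rfl fun j _ => ?_
      rw [Complex.conj_mul']
    rw [norm_sq_eq_re_inner (𝕜 := ℂ) w, h1]
    exact Complex.ofReal_re _
  have h1 : ∀ i, ∑ l, ‖∑ j, ⟪e l, π (b i) (e j)⟫_ℂ * v j‖ ^ 2 ≤ ‖π (b i) w‖ ^ 2 := by
    intro i
    have h2 : ∀ l, ∑ j, ⟪e l, π (b i) (e j)⟫_ℂ * v j = ⟪e l, π (b i) w⟫_ℂ := by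
      intro l
      rw [hw, map_sum, inner_sum]
      refine Finset.sum_congr rfl fun j _ => ?_
      rw [map_smul, inner_smul_right, mul_comm]
    rw [Finset.sum_congr rfl fun l _ => congrArg (fun t => ‖t‖ ^ 2) (h2 l)]
    exact he.sum_inner_products_le _
  have h2 : ∑ i, ‖π (b i) w‖ ^ 2 ≤ Dc * ‖w‖ ^ 2 := by
    have h3 : ((∑ i, ‖π (b i) w‖ ^ 2 : ℝ) : ℂ) = ⟪w, π (∑ i, star (b i) * b i) w⟫_ℂ := by
      have h7 : π (∑ i, star (b i) * b i) = ∑ i, π (star (b i) * b i) := map_sum π _ _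
      rw [h7, sum_apply, inner_sum]
      push_cast
      refine Finset.sum_congr rfl fun i _ => ?_
      rw [map_mul, map_star]
      have h4 : (star (π (b i)) * π (b i)) w = star (π (b i)) (π (b i) w) := rfl
      rw [h4, ContinuousLinearMap.star_eq_adjoint, ContinuousLinearMap.adjoint_inner_right,
        inner_self_eq_norm_sq_to_K]
      rfl
    have h4 : ∑ i, ‖π (b i) w‖ ^ 2 = ‖((∑ i, ‖π (b i) w‖ ^ 2 : ℝ) : ℂ)‖ := by
      rw [Complex.norm_real, Real.norm_eq_abs, abs_of_nonneg (by positivity)]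
    rw [h4, h3]
    refine (norm_inner_le_norm _ _).trans ?_
    have h5 : ‖π (∑ i, star (b i) * b i)‖ ≤ Dc :=
      (NonUnitalStarAlgHom.norm_apply_le π _).trans hc
    have h6 := (π (∑ i, star (b i) * b i)).le_of_opNorm_le h5 w
    calc ‖w‖ * ‖π (∑ i, star (b i) * b i) w‖ ≤ ‖w‖ * (Dc * ‖w‖) :=
          mul_le_mul_of_nonneg_left h6 (norm_nonneg _)
      _ = Dc * ‖w‖ ^ 2 := by ring
  rw [← hwn]
  exact (Finset.sum_le_sum fun i _ => h1 i).trans h2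

theorem compress_row {A H : Type*} [CStarAlgebra A]
    [NormedAddCommGroup H] [InnerProductSpace ℂ H] [CompleteSpace H]
    (π : A →⋆ₙₐ[ℂ] (H →L[ℂ] H)) {I : Type*} [Fintype I] (b : I → A) (Dr : ℝ)
    (hr : ‖∑ i, b i * star (b i)‖ ≤ Dr) {n : ℕ} (e : Fin n → H) (he : Orthonormal ℂ e)
    (v : Fin n → ℂ) :
    ∑ i, ∑ j, ‖∑ l, star ⟪e l, π (b i) (e j)⟫_ℂ * v l‖ ^ 2 ≤ Dr * ∑ l, ‖v l‖ ^ 2 := by
  have h1 := compress_col π (fun i => star (b i)) Dr (by simpa only [star_star] using hr) e he v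
  refine le_trans (le_of_eq ?_) h1
  refine Finset.sum_congr rfl fun i _ => Finset.sum_congr rfl fun j _ => ?_
  congr 2
  refine Finset.sum_congr rfl fun l _ => ?_
  congr 1
  rw [RCLike.star_def, inner_conj_symm, map_star, ContinuousLinearMap.star_eq_adjoint,
    ContinuousLinearMap.adjoint_inner_right]

end Pool.Agent.Helper59.EX
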