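import Pool.Agent.Helper59.EX.Reg

/-!
EX-A9: the vector `|Q|^(-1/2) sum_g R_g ζ (x) delta_g`.
-/

open scoped TensorProduct InnerProductSpace ENNReal

namespace Pool.Agent.Helper59.EX

section A9aux

variable {Q : Type} [Group Q] [Fintype Q] {H : Type*} [NormedAddCommGroup H]
    [InnerProductSpace ℂ H] [CompleteSpace H]

private theorem A9_move (R : Q →* unitary (H →L[ℂ] H)) (h : Q) (v w : H) :
    ⟪(R h : H →L[ℂ] H) v, w⟫_ℂ = ⟪v, (R h⁻¹ : H →L[ℂ] H) w⟫_ℂ := by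
  have e : (R h⁻¹ : H →L[ℂ] H) = star (R h : H →L[ℂ] H) := by
    rw [map_inv]
    rfl
  rw [e, ContinuousLinearMap.star_eq_adjoint, ContinuousLinearMap.adjoint_inner_right]

private theorem A9_mul (R : Q →* unitary (H →L[ℂ] H)) (h k : Q) (v : H) :
    (R h : H →L[ℂ] H) ((R k : H →L[ℂ] H) v) = (R (h * k) : H →L[ℂ] H) v := by
  rw [map_mul]
  rfl

private theorem A9_orth (R : Q →* unitary (H →L[ℂ] H)) (ζ : H)
    (hζ : ∀ g, ⟪ζ, (R g : H →L[ℂ] H) ζ⟫_ℂ = open Classical in if g = 1 then 1 else 0)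
    (h k : Q) : ⟪(R h : H →L[ℂ] H) ζ, (R k : H →L[ℂ] H) ζ⟫_ℂ =
      open Classical in if h = k then 1 else 0 := by
  rw [A9_move, A9_mul, hζ]
  by_cases hk : h = k
  · rw [if_pos hk, if_pos (inv_mul_eq_one.2 hk)]
  · rw [if_neg hk, if_neg (fun h' => hk (inv_mul_eq_one.1 h'))]

private theorem A9_sum (R : Q →* unitary (H →L[ℂ] H)) (ζ : H)
    (hζ : ∀ g, ⟪ζ, (R g : H →L[ℂ] H) ζ⟫_ℂ = open Classical in if g = 1 then 1 else 0)
    (b : Q → L2 Q) (c : ℝ) (hb : ∀ g, ‖b g‖ = c) (r : ℂ) (hr : ‖r‖ ^ 2 * Fintype.card Q = 1) :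
    ‖r • ∑ g, (R g : H →L[ℂ] H) ζ ⊗ₜ[ℂ] b g‖ ^ 2 = c ^ 2 := by
  classical
  have h1 : ⟪∑ g, (R g : H →L[ℂ] H) ζ ⊗ₜ[ℂ] b g, ∑ g, (R g : H →L[ℂ] H) ζ ⊗ₜ[ℂ] b g⟫_ℂ =
      ((Fintype.card Q * c ^ 2 : ℝ) : ℂ) := by
    rw [sum_inner]
    have h2 : ∀ g, ⟪(R g : H →L[ℂ] H) ζ ⊗ₜ[ℂ] b g, ∑ k, (R k : H →L[ℂ] H) ζ ⊗ₜ[ℂ] b k⟫_ℂ =
        ((c ^ 2 : ℝ) : ℂ) := by
      intro g
      rw [inner_sum, Finset.sum_eq_single g]
      · rw [TensorProduct.inner_tmul, A9_orth R ζ hζ, if_pos rfl, one_mul,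
          inner_self_eq_norm_sq_to_K, hb]
        push_cast
        rfl
      · intro k _ hk
        rw [TensorProduct.inner_tmul, A9_orth R ζ hζ, if_neg (Ne.symm hk), zero_mul]
      · intro h; exact absurd (Finset.mem_univ g) h
    rw [Finset.sum_congr rfl fun g _ => h2 g, Finset.sum_const, Finset.card_univ, nsmul_eq_mul]
    push_cast
    rfl
  rw [norm_smul, mul_pow]
  have h3 : ‖∑ g, (R g : H →L[ℂ] H) ζ ⊗ₜ[ℂ] b g‖ ^ 2 = Fintype.card Q * c ^ 2 := by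
    have h4 := norm_sq_eq_re_inner (𝕜 := ℂ) (∑ g, (R g : H →L[ℂ] H) ζ ⊗ₜ[ℂ] b g)
    rw [h4, h1]
    exact Complex.ofReal_re _
  rw [h3, ← mul_assoc, hr, one_mul]

end A9aux

theorem stage_vector {Q : Type} [Group Q] [Finite Q] {H : Type*} [NormedAddCommGroup H]
    [InnerProductSpace ℂ H] [CompleteSpace H] (R : Q →* unitary (H →L[ℂ] H)) (ζ : H)
    (hζ : ∀ g, ⟪ζ, (R g : H →L[ℂ] H) ζ⟫_ℂ = open Classical in if g = 1 then 1 else 0) :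
    ∃ z : H ⊗[ℂ] L2 Q, ‖z‖ = 1 ∧
      (∀ S : H →L[ℂ] H, (∀ g, S * (R g : H →L[ℂ] H) = (R g : H →L[ℂ] H) * S) → ∀ g : Q,
        ⟪z, TensorProduct.mapL S (rightReg g : L2 Q →L[ℂ] L2 Q) z⟫_ℂ =
          ⟪ζ, S ((R g : H →L[ℂ] H) ζ)⟫_ℂ) ∧
      (∀ (S : H →L[ℂ] H) (T : L2 Q →L[ℂ] L2 Q),
        (∀ g : Q, T * (leftReg g : L2 Q →L[ℂ] L2 Q) = (leftReg g : L2 Q →L[ℂ] L2 Q) * T) →
        ‖TensorProduct.mapL S T z‖ ≤ ‖S‖ * ‖T (delta 1)‖) := by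
  classical
  have _ : Fintype Q := Fintype.ofFinite Q
  have hN : (0 : ℝ) < Fintype.card Q := by exact_mod_cast Fintype.card_pos
  set r : ℂ := (((Real.sqrt (Fintype.card Q))⁻¹ : ℝ) : ℂ) with hr
  have hr2 : ‖r‖ ^ 2 * Fintype.card Q = 1 := by
    rw [hr, Complex.norm_real, Real.norm_eq_abs, sq_abs, inv_pow, Real.sq_sqrt hN.le,
      inv_mul_cancel₀ hN.ne']
  refine ⟨r • ∑ g, (R g : H →L[ℂ] H) ζ ⊗ₜ[ℂ] delta g, ?_, ?_, ?_⟩
  · have h := A9_sum R ζ hζ (fun g => delta g) 1 (fun g => norm_delta g) r hr2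
    rw [one_pow] at h
    exact (pow_eq_one_iff_of_nonneg (norm_nonneg _) two_ne_zero).1 h
  · intro S hS g
    have hk : ∀ x y : H ⊗[ℂ] L2 Q, ⟪r • x, r • y⟫_ℂ = starRingEnd ℂ r * (r * ⟪x, y⟫_ℂ) :=
      fun x y => (inner_smul_left (𝕜 := ℂ) x (r • y) r).trans
        (congrArg _ (inner_smul_right (𝕜 := ℂ) x y r))
    rw [map_smul, hk, map_sum, sum_inner]
    have h1 : ∀ h k : Q, ⟪(R h : H →L[ℂ] H) ζ ⊗ₜ[ℂ] (delta h : L2 Q),
        TensorProduct.mapL S (rightReg g : L2 Q →L[ℂ] L2 Q)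
          ((R k : H →L[ℂ] H) ζ ⊗ₜ[ℂ] delta k)⟫_ℂ =
        if h = k * g⁻¹ then ⟪ζ, S ((R g : H →L[ℂ] H) ζ)⟫_ℂ else 0 := by
      intro h k
      rw [TensorProduct.mapL_tmul, TensorProduct.inner_tmul, rightReg_delta, inner_delta_delta]
      by_cases hk : h = k * g⁻¹
      · rw [if_pos hk, if_pos hk, mul_one, A9_move]
        have e1 : (R h⁻¹ : H →L[ℂ] H) (S ((R k : H →L[ℂ] H) ζ)) =
            S ((R h⁻¹ : H →L[ℂ] H) ((R k : H →L[ℂ] H) ζ)) := by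
          have := congrArg (fun T : H →L[ℂ] H => T ((R k : H →L[ℂ] H) ζ)) (hS h⁻¹)
          exact this.symm
        rw [e1, A9_mul, hk]
        congr 4
        group
      · rw [if_neg hk, if_neg hk, mul_zero]
    have h2 : ∀ h : Q, ⟪(R h : H →L[ℂ] H) ζ ⊗ₜ[ℂ] (delta h : L2 Q),
        ∑ k, TensorProduct.mapL S (rightReg g : L2 Q →L[ℂ] L2 Q)
          ((R k : H →L[ℂ] H) ζ ⊗ₜ[ℂ] delta k)⟫_ℂ = ⟪ζ, S ((R g : H →L[ℂ] H) ζ)⟫_ℂ := by
      intro h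
      rw [inner_sum, Finset.sum_congr rfl fun k _ => h1 h k, Finset.sum_eq_single (h * g)]
      · rw [if_pos]
        group
      · intro k _ hk
        rw [if_neg]
        intro hh
        apply hk
        rw [hh]
        group
      · intro h; exact absurd (Finset.mem_univ _) h
    rw [Finset.sum_congr rfl fun h _ => h2 h, Finset.sum_const, Finset.card_univ, nsmul_eq_mul,
      ← mul_assoc, ← mul_assoc]
    have h3 : (starRingEnd ℂ) r * r * (Fintype.card Q : ℂ) = 1 := by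
      rw [Complex.conj_mul']
      exact_mod_cast hr2
    rw [h3, one_mul]
  · intro S T hT
    have hnT : ∀ g : Q, ‖T (delta g)‖ = ‖T (delta 1)‖ := by
      intro g
      have e1 : (delta g : L2 Q) = (leftReg g : L2 Q →L[ℂ] L2 Q) (delta 1) := by
        rw [leftReg_delta, mul_one]
      have e2 : T ((leftReg g : L2 Q →L[ℂ] L2 Q) (delta 1)) =
          (leftReg g : L2 Q →L[ℂ] L2 Q) (T (delta 1)) :=
        congrArg (fun U : L2 Q →L[ℂ] L2 Q => U (delta 1)) (hT g)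
      rw [e1, e2]
      exact Unitary.norm_map (leftReg g : unitary _) _
    have e : TensorProduct.mapL S T (r • ∑ g, (R g : H →L[ℂ] H) ζ ⊗ₜ[ℂ] (delta g : L2 Q)) =
        TensorProduct.mapL S (1 : L2 Q →L[ℂ] L2 Q)
          (r • ∑ g, (R g : H →L[ℂ] H) ζ ⊗ₜ[ℂ] T (delta g)) := by
      rw [map_smul, map_smul, map_sum, map_sum]
      congr 1
    rw [e]
    have h1 := A9_sum R ζ hζ (fun g => T (delta g)) _ hnT r hr2
    have h2 : ‖r • ∑ g, (R g : H →L[ℂ] H) ζ ⊗ₜ[ℂ] T (delta g)‖ = ‖T (delta 1)‖ := by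
      exact (pow_left_inj₀ (norm_nonneg _) (norm_nonneg _) two_ne_zero).1 h1
    refine ((TensorProduct.mapL S (1 : L2 Q →L[ℂ] L2 Q)).le_opNorm _).trans ?_
    rw [h2]
    refine mul_le_mul_of_nonneg_right ?_ (norm_nonneg _)
    refine (TensorProduct.norm_mapL_le _ _).trans ?_
    have : ‖(1 : L2 Q →L[ℂ] L2 Q)‖ ≤ 1 := ContinuousLinearMap.norm_id_le
    calc ‖S‖ * ‖(1 : L2 Q →L[ℂ] L2 Q)‖ ≤ ‖S‖ * 1 :=
          mul_le_mul_of_nonneg_left this (norm_nonneg _)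
      _ = ‖S‖ := mul_one _

end Pool.Agent.Helper59.EX
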