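import Pool.Agent.Helper59.EX.Group

/-!
EX-B1: Hilbert spaces from positive kernels and the GNS representation of a positive definite
function.
-/

open scoped InnerProductSpace ComplexOrder

namespace Pool.Agent.Helper59.EX

/-- A positive kernel is Hermitian. -/
private theorem B1_herm {X : Type} (K : X → X → ℂ)
    (hK : ∀ (s : Finset X) (c : X → ℂ), 0 ≤ ∑ x ∈ s, ∑ y ∈ s, star (c x) * c y * K x y)
    (x y : X) : star (K x y) = K y x := by
  classical
  have hd : ∀ z, (K z z).im = 0 := by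
    intro z
    have h := hK {z} (fun _ => 1)
    simp only [Finset.sum_singleton, star_one, one_mul] at h
    exact ((Complex.le_def.1 h).2).symm
  by_cases hxy : x = y
  · subst hxy
    apply Complex.ext
    · simp
    · simp [hd x]
  · have h1 := (Complex.le_def.1 (hK {x, y} (fun _ => 1))).2
    have h2 := (Complex.le_def.1 (hK {x, y} (fun z => if z = y then Complex.I else 1))).2
    have hx := hd x
    have hy := hd y
    rw [Finset.sum_pair hxy, Finset.sum_pair hxy, Finset.sum_pair hxy] at h1 h2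
    simp [hxy, hx, hy] at h1 h2
    apply Complex.ext
    · simp; linarith
    · simp; linarith

theorem exists_hilbert_of_kernel {X : Type} (K : X → X → ℂ)
    (hK : ∀ (s : Finset X) (c : X → ℂ), 0 ≤ ∑ x ∈ s, ∑ y ∈ s, star (c x) * c y * K x y) :
    ∃ (H : Type) (_ : NormedAddCommGroup H) (_ : InnerProductSpace ℂ H) (_ : CompleteSpace H)
      (v : X → H), (∀ x y, ⟪v x, v y⟫_ℂ = K x y) ∧
      (Submodule.span ℂ (Set.range v)).topologicalClosure = ⊤ := by
  classical
  let K' : Matrix X X (ℂ →L[ℂ] ℂ) := Matrix.of fun x y => K x y • ContinuousLinearMap.id ℂ ℂ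
  have hH : K'.IsHermitian := by
    ext x y
    have h := B1_herm K hK y x
    simp only [K', Matrix.conjTranspose_apply, Matrix.of_apply, star_smul, h]
    have h1 : star (ContinuousLinearMap.id ℂ ℂ) = ContinuousLinearMap.id ℂ ℂ := by
      rw [ContinuousLinearMap.star_eq_adjoint, ContinuousLinearMap.adjoint_id]
    rw [h1]
  have hP : K'.PosSemidef := by
    refine (((RKHS.posSemidef_tfae (K := K')).out 0 2 :
      K'.PosSemidef ↔ K'.IsHermitian ∧ ∀ (vv : X →₀ ℂ),
        0 ≤ RCLike.re (vv.sum fun x w ↦ vv.sum fun x' w' ↦ ⟪K' x' x w, w'⟫_ℂ))).2 ⟨hH, ?_⟩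
    intro vv
    have h := (Complex.le_def.1 (hK vv.support vv)).1
    simp only [Finsupp.sum]
    refine h.trans (le_of_eq ?_)
    have h3 : ∀ x x', ⟪K' x' x (vv x), vv x'⟫_ℂ = star (vv x) * vv x' * K x x' := by
      intro x x'
      have h2 := B1_herm K hK x' x
      have h4 : K' x' x (vv x) = K x' x * vv x := by simp [K']
      rw [h4, ← h2]
      simp
      ring
    simp only [h3]
    rfl
  have : Fact K'.PosSemidef := ⟨hP⟩
  refine ⟨RKHS.OfKernel K', inferInstance, inferInstance, inferInstance,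
    fun x => RKHS.kerFun (RKHS.OfKernel K') x (1 : ℂ), ?_, ?_⟩
  · intro x y
    rw [← RKHS.kernel_inner, RKHS.OfKernel.kernel_ofKernel]
    have h := B1_herm K hK y x
    have h4 : K' y x (1 : ℂ) = K y x := by simp [K']
    rw [h4, ← h]
    simp
  · have h := RKHS.kerFun_dense (RKHS.OfKernel K')
    rw [← h]
    congr 1
    apply le_antisymm
    · apply Submodule.span_mono
      rintro _ ⟨x, rfl⟩
      exact ⟨x, 1, rfl⟩
    · rw [Submodule.span_le]
      rintro _ ⟨x, c, rfl⟩
      have h1 : RKHS.kerFun (RKHS.OfKernel K') x c = c • RKHS.kerFun (RKHS.OfKernel K') x (1 : ℂ) := by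
        rw [← map_smul, smul_eq_mul, mul_one]
      rw [h1]
      exact Submodule.smul_mem _ _ (Submodule.subset_span ⟨x, rfl⟩)

/-- Two families with the same Gram matrix. -/
private theorem B1_isometry {X : Type} {H H' : Type} [NormedAddCommGroup H]
    [InnerProductSpace ℂ H] [NormedAddCommGroup H'] [InnerProductSpace ℂ H'] [CompleteSpace H']
    (v : X → H) (w : X → H') (hv : (Submodule.span ℂ (Set.range v)).topologicalClosure = ⊤)
    (h : ∀ x y, ⟪v x, v y⟫_ℂ = ⟪w x, w y⟫_ℂ) :
    ∃ V : H →L[ℂ] H', ∀ x, V (v x) = w x := by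
  let L := Finsupp.linearCombination ℂ v
  let M := Finsupp.linearCombination ℂ w
  have hin : ∀ f : X →₀ ℂ, ⟪L f, L f⟫_ℂ = ⟪M f, M f⟫_ℂ := by
    intro f
    simp only [L, M, Finsupp.linearCombination_apply, Finsupp.sum, sum_inner, inner_sum,
      inner_smul_left, inner_smul_right, h]
  have hnorm : ∀ f : X →₀ ℂ, ‖M f‖ ≤ 1 * ‖L f‖ := by
    intro f
    have h1 : ‖L f‖ ^ 2 = ‖M f‖ ^ 2 := by
      have := congrArg RCLike.re (hin f)
      rwa [inner_self_eq_norm_sq, inner_self_eq_norm_sq] at this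
    rw [one_mul]
    exact (pow_le_pow_iff_left₀ (norm_nonneg _) (norm_nonneg _) two_ne_zero).1 h1.ge
  have hdense : DenseRange L := by
    have h1 : Set.range L = (Submodule.span ℂ (Set.range v) : Set H) := by
      rw [← Finsupp.range_linearCombination]
      rfl
    rw [DenseRange, h1, ← Submodule.dense_iff_topologicalClosure_eq_top] at *
    exact hv
  refine ⟨M.extendOfNorm L, fun x => ?_⟩
  have h2 := LinearMap.extendOfNorm_eq hdense ⟨1, hnorm⟩ (Finsupp.single x (1 : ℂ))
  simpa [L, M] using h2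

private theorem B1_ext {X : Type} {H H' : Type} [NormedAddCommGroup H]
    [InnerProductSpace ℂ H] [NormedAddCommGroup H'] [InnerProductSpace ℂ H']
    (v : X → H) (hv : (Submodule.span ℂ (Set.range v)).topologicalClosure = ⊤)
    (S T : H →L[ℂ] H') (h : ∀ x, S (v x) = T (v x)) : S = T := by
  rw [← Submodule.dense_iff_topologicalClosure_eq_top] at hv
  apply ContinuousLinearMap.ext_on hv
  rintro _ ⟨x, rfl⟩
  exact h x

private theorem B1_adj {X : Type} {H : Type} [NormedAddCommGroup H]
    [InnerProductSpace ℂ H] [CompleteSpace H]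
    (v : X → H) (hv : (Submodule.span ℂ (Set.range v)).topologicalClosure = ⊤)
    (S T : H →L[ℂ] H) (h : ∀ x y, ⟪v x, S (v y)⟫_ℂ = ⟪T (v x), v y⟫_ℂ) : S = star T := by
  apply B1_ext v hv
  intro y
  have h2 : ∀ z, ⟪z, S (v y)⟫_ℂ = ⟪T z, v y⟫_ℂ := by
    intro z
    have hd := hv
    rw [← Submodule.dense_iff_topologicalClosure_eq_top] at hd
    have h3 : (innerSL ℂ (S (v y))) = (innerSL ℂ (v y)).comp T := by
      apply ContinuousLinearMap.ext_on hd
      rintro _ ⟨x, rfl⟩
      have := congrArg star (h x y)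
      simpa using this
    have h4 := congrArg (fun F => star (F z)) h3
    simpa using h4
  apply ext_inner_left ℂ
  intro z
  rw [h2 z, ContinuousLinearMap.star_eq_adjoint, ContinuousLinearMap.adjoint_inner_right]

theorem gns {G : Type} [Group G] (Φ : G → ℂ) (hΦ : IsPosDef Φ) :
    ∃ (H : Type) (_ : NormedAddCommGroup H) (_ : InnerProductSpace ℂ H) (_ : CompleteSpace H)
      (U : G →* unitary (H →L[ℂ] H)) (ζ : H), ∀ g, ⟪ζ, (U g : H →L[ℂ] H) ζ⟫_ℂ = Φ g := by
  obtain ⟨H, i1, i2, i3, v, hv1, hv2⟩ := exists_hilbert_of_kernel (fun g h => Φ (g⁻¹ * h)) hΦ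
  have hV : ∀ g : G, ∃ V : H →L[ℂ] H, ∀ x, V (v x) = v (g * x) := by
    intro g
    apply B1_isometry v (fun x => v (g * x)) hv2
    intro x y
    rw [hv1, hv1]
    simp only [mul_inv_rev, mul_assoc, inv_mul_cancel_left]
  choose V hV using hV
  have hmul : ∀ g h, V (g * h) = V g * V h := by
    intro g h
    apply B1_ext v hv2
    intro x
    rw [mul_apply_eq_comp, hV, hV, hV, mul_assoc]
  have hone : V 1 = 1 := by
    apply B1_ext v hv2
    intro x
    rw [one_apply_eq_self, hV, one_mul]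
  have hstar : ∀ g, star (V g) = V g⁻¹ := by
    intro g
    symm
    apply B1_adj v hv2
    intro x y
    rw [hV, hV, hv1, hv1]
    simp only [mul_inv_rev, mul_assoc]
  have hU : ∀ g, V g ∈ unitary (H →L[ℂ] H) := by
    intro g
    rw [Unitary.mem_iff, hstar, ← hmul, ← hmul]
    simp [hone]
  let U : G →* unitary (H →L[ℂ] H) :=
    { toFun := fun g => ⟨V g, hU g⟩
      map_one' := Subtype.ext hone
      map_mul' := fun g h => Subtype.ext (hmul g h) }
  refine ⟨H, i1, i2, i3, U, v 1, fun g => ?_⟩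
  change ⟪v 1, V g (v 1)⟫_ℂ = Φ g
  rw [hV, hv1]
  simp

end Pool.Agent.Helper59.EX
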