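import Pool.Agent.Helper59.EX.Group

/-!
EX-B2: universal properties of the full group C*-algebra.
-/

open scoped InnerProductSpace

namespace Pool.Agent.Helper59.EX

/-- `repSum` as a linear map. -/
noncomputable def B2_lin {G : Type} [Group G] {D : Type*} [CStarAlgebra D] (v : G →* unitary D) :
    (G →₀ ℂ) →ₗ[ℂ] D := Finsupp.linearCombination ℂ (fun g => (v g : D))

theorem B2_lin_apply {G : Type} [Group G] {D : Type*} [CStarAlgebra D] (v : G →* unitary D)
    (f : G →₀ ℂ) : B2_lin v f = repSum v f := rfl

theorem B2_lin_single {G : Type} [Group G] {D : Type*} [CStarAlgebra D] (v : G →* unitary D)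
    (g : G) (c : ℂ) : B2_lin v (Finsupp.single g c) = c • (v g : D) := by
  rw [B2_lin, Finsupp.linearCombination_single]

theorem B2_denseRange {G A : Type} [Group G] [CStarAlgebra A] {u : G →* unitary A}
    (hA : IsFullCstar G A u) : DenseRange (B2_lin u) := by
  have h := hA.dense
  have h2 : Set.range (B2_lin u) = (Submodule.span ℂ (Set.range fun g => (u g : A)) : Set A) := by
    rw [← Finsupp.range_linearCombination, LinearMap.coe_range]
    rfl
  rw [DenseRange, h2]
  exact h

theorem IsFullCstar.exists_hom {G A : Type} [Group G] [CStarAlgebra A] {u : G →* unitary A}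
    (hA : IsFullCstar G A u) {D : Type*} [CStarAlgebra D] (v : G →* unitary D)
    (h : ∀ f : G →₀ ℂ, ‖repSum v f‖ ≤ ‖repSum u f‖) :
    ∃ ρ : A →⋆ₐ[ℂ] D, ∀ g, ρ (u g) = v g := by
  have hd := B2_denseRange hA
  set T : A →L[ℂ] D := (B2_lin v).extendOfNorm (B2_lin u) with hTdef
  have hT : ∀ f, T (B2_lin u f) = B2_lin v f := by
    intro f
    refine LinearMap.extendOfNorm_eq hd ⟨1, fun x => ?_⟩ f
    rw [one_mul]
    exact h x
  have hTg : ∀ g, T (u g) = v g := by
    intro g
    have := hT (Finsupp.single g 1)
    rwa [B2_lin_single, B2_lin_single, one_smul, one_smul] at this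
  have hmul : ∀ x y : A, T (x * y) = T x * T y := by
    intro x y
    refine hd.induction_on₂ (p := fun x y => T (x * y) = T x * T y) ?_ ?_ x y
    · exact isClosed_eq (by fun_prop) (by fun_prop)
    · intro f g
      induction f using Finsupp.induction_linear with
      | zero => simp only [map_zero, zero_mul]
      | add f f' hf hf' => rw [map_add, add_mul, map_add, map_add, hf, hf', add_mul]
      | single a c =>
        induction g using Finsupp.induction_linear with
        | zero => simp only [map_zero, mul_zero]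
        | add g g' hg hg' => rw [map_add, mul_add, map_add, map_add, hg, hg', mul_add]
        | single b d =>
          rw [B2_lin_single, B2_lin_single, smul_mul_smul_comm, map_smul, map_smul, map_smul,
            hTg, hTg, smul_mul_smul_comm]
          congr 1
          have h1 : (u a : A) * (u b : A) = ((u (a * b) : unitary A) : A) := by
            rw [map_mul]; rfl
          have h2 : (v a : D) * (v b : D) = ((v (a * b) : unitary D) : D) := by
            rw [map_mul]; rfl
          rw [h1, h2, hTg]
  have hstar : ∀ x : A, T (star x) = star (T x) := by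
    intro x
    refine hd.induction_on (p := fun x => T (star x) = star (T x)) x ?_ ?_
    · exact isClosed_eq (by fun_prop) (by fun_prop)
    · intro f
      induction f using Finsupp.induction_linear with
      | zero => simp only [map_zero, star_zero]
      | add f f' hf hf' => rw [map_add, star_add, map_add, map_add, hf, hf', star_add]
      | single a c =>
        rw [B2_lin_single, star_smul, map_smul, map_smul, hTg, star_smul]
        congr 1
        have h1 : star (u a : A) = ((u a⁻¹ : unitary A) : A) := by
          rw [map_inv]; rfl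
        have h2 : star (v a : D) = ((v a⁻¹ : unitary D) : D) := by
          rw [map_inv]; rfl
        rw [h1, h2, hTg]
  have hone : T 1 = 1 := by
    have := hTg 1
    rwa [map_one, map_one] at this
  refine ⟨{ toFun := T
            map_one' := hone
            map_mul' := hmul
            map_zero' := map_zero T
            map_add' := map_add T
            commutes' := fun r => by
              change T (algebraMap ℂ A r) = algebraMap ℂ D r
              rw [Algebra.algebraMap_eq_smul_one, map_smul, hone, Algebra.algebraMap_eq_smul_one]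
            map_star' := hstar }, fun g => hTg g⟩

theorem B2_norm_le_one {H : Type} [NormedAddCommGroup H] [InnerProductSpace ℂ H]
    [CompleteSpace H] (U : unitary (H →L[ℂ] H)) : ‖(U : H →L[ℂ] H)‖ ≤ 1 := by
  have h1 : star (U : H →L[ℂ] H) * (U : H →L[ℂ] H) = 1 := Unitary.coe_star_mul_self U
  have h2 : ‖(U : H →L[ℂ] H)‖ * ‖(U : H →L[ℂ] H)‖ = ‖(1 : H →L[ℂ] H)‖ := by
    rw [← CStarRing.norm_star_mul_self, h1]
  have h3 : ‖(1 : H →L[ℂ] H)‖ ≤ 1 := ContinuousLinearMap.norm_id_le
  nlinarith [norm_nonneg (U : H →L[ℂ] H)]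

theorem B2_norm_repSum_le_sum {G : Type} [Group G] {H : Type} [NormedAddCommGroup H]
    [InnerProductSpace ℂ H] [CompleteSpace H] (π : G →* unitary (H →L[ℂ] H)) (f : G →₀ ℂ) :
    ‖repSum π f‖ ≤ ∑ g ∈ f.support, ‖f g‖ := by
  unfold repSum Finsupp.sum
  refine (norm_sum_le _ _).trans (Finset.sum_le_sum fun g _ => ?_)
  refine (norm_smul_le _ _).trans ?_
  exact mul_le_of_le_one_right (norm_nonneg _) (B2_norm_le_one (π g))

theorem IsFullCstar.norm_repSum_le {G A : Type} [Group G] [CStarAlgebra A] {u : G →* unitary A}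
    (hA : IsFullCstar G A u) {H : Type} [NormedAddCommGroup H] [InnerProductSpace ℂ H]
    [CompleteSpace H] (π : G →* unitary (H →L[ℂ] H)) (f : G →₀ ℂ) :
    ‖repSum π f‖ ≤ ‖repSum u f‖ := by
  have h := hA.norm_eq f
  have h2 : ‖repSum u f‖ = _ := h
  rw [h2]
  refine le_csSup ?_ ⟨H, _, _, inferInstance, π, rfl⟩
  refine ⟨∑ g ∈ f.support, ‖f g‖, ?_⟩
  rintro r ⟨H', _, _, _, π', rfl⟩
  exact B2_norm_repSum_le_sum π' f

theorem IsFullCstar.exists_rep {G A : Type} [Group G] [CStarAlgebra A] {u : G →* unitary A}
    (hA : IsFullCstar G A u) {H : Type} [NormedAddCommGroup H] [InnerProductSpace ℂ H]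
    [CompleteSpace H] (π : G →* unitary (H →L[ℂ] H)) :
    ∃ ρ : A →⋆ₐ[ℂ] (H →L[ℂ] H), ∀ g, ρ (u g) = π g :=
  hA.exists_hom π (hA.norm_repSum_le π)

theorem B2_repSum_comp {G G' : Type} [Group G] [Group G'] {D : Type*} [CStarAlgebra D]
    (v : G' →* unitary D) (p : G →* G') (f : G →₀ ℂ) :
    repSum (v.comp p) f = repSum v (f.mapDomain p) := by
  unfold repSum
  rw [Finsupp.sum_mapDomain_index]
  · rfl
  · intro b; exact zero_smul _ _
  · intro b m₁ m₂; exact add_smul _ _ _

theorem IsFullCstar.exists_map {G G' A A' : Type} [Group G] [Group G'] [CStarAlgebra A]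
    [CStarAlgebra A'] {u : G →* unitary A} {u' : G' →* unitary A'}
    (hA : IsFullCstar G A u) (hA' : IsFullCstar G' A' u') (p : G →* G') :
    ∃ ρ : A →⋆ₐ[ℂ] A', ∀ g, ρ (u g) = u' (p g) := by
  obtain ⟨ρ, hρ⟩ := hA.exists_hom (u'.comp p) (fun f => by
    rw [B2_repSum_comp]
    have h2 : ‖repSum u' (f.mapDomain p)‖ = _ := hA'.norm_eq (f.mapDomain p)
    rw [h2]
    refine Real.sSup_le ?_ (norm_nonneg _)
    rintro r ⟨H', _, _, _, π', rfl⟩
    have h3 := hA.norm_repSum_le (π'.comp p) f
    rw [B2_repSum_comp] at h3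
    exact h3)
  exact ⟨ρ, hρ⟩

end Pool.Agent.Helper59.EX
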