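import Pool.Agent.Helper59.EX.Group
import Pool.Agent.Helper59.EX.St.B1

/-!
EX-B3: existence of the full group C*-algebra.
-/

open scoped InnerProductSpace

namespace Pool.Agent.Helper59.EX

section B3

open scoped ENNReal ComplexOrder

/-- Bounded families of elements of unital C*-algebras form a unital C*-algebra. -/
@[reducible] noncomputable def B3_cstar {J : Type} (B : J → Type) [∀ j, CStarAlgebra (B j)]
    [∀ j, Nontrivial (B j)] : CStarAlgebra (lp B ∞) where

private theorem B3_inner {G : Type} [Group G] {K : Type} [NormedAddCommGroup K]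
    [InnerProductSpace ℂ K] [CompleteSpace K] (π : G →* unitary (K →L[ℂ] K)) (ξ : K) (g h : G) :
    ⟪(π g : K →L[ℂ] K) ξ, (π h : K →L[ℂ] K) ξ⟫_ℂ = ⟪ξ, (π (g⁻¹ * h) : K →L[ℂ] K) ξ⟫_ℂ := by
  have h1 : (π (g⁻¹ * h) : K →L[ℂ] K) = star (π g : K →L[ℂ] K) * (π h : K →L[ℂ] K) := by
    rw [map_mul, map_inv, ← Unitary.star_eq_inv]
    rfl
  rw [h1, ContinuousLinearMap.star_eq_adjoint]
  exact (ContinuousLinearMap.adjoint_inner_right _ _ _).symm

private theorem B3_inner_sum {G : Type} [Group G] {K : Type} [NormedAddCommGroup K]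
    [InnerProductSpace ℂ K] [CompleteSpace K] (π : G →* unitary (K →L[ℂ] K)) (ξ : K)
    (s : Finset G) (c : G → ℂ) :
    ((‖∑ g ∈ s, c g • (π g : K →L[ℂ] K) ξ‖ ^ 2 : ℝ) : ℂ) =
      ∑ g ∈ s, ∑ h ∈ s, star (c g) * c h * ⟪ξ, (π (g⁻¹ * h) : K →L[ℂ] K) ξ⟫_ℂ := by
  have h0 := inner_self_eq_norm_sq_to_K (𝕜 := ℂ) (∑ g ∈ s, c g • (π g : K →L[ℂ] K) ξ)
  push_cast
  rw [show ((‖∑ g ∈ s, c g • (π g : K →L[ℂ] K) ξ‖ : ℝ) : ℂ) ^ 2 =
    ⟪∑ g ∈ s, c g • (π g : K →L[ℂ] K) ξ, ∑ g ∈ s, c g • (π g : K →L[ℂ] K) ξ⟫_ℂ from h0.symm]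
  rw [sum_inner]
  refine Finset.sum_congr rfl fun g _ => ?_
  rw [inner_sum]
  refine Finset.sum_congr rfl fun h _ => ?_
  rw [inner_smul_left, inner_smul_right, B3_inner, mul_assoc]
  rfl

private theorem B3_posdef {G : Type} [Group G] {K : Type} [NormedAddCommGroup K]
    [InnerProductSpace ℂ K] [CompleteSpace K] (π : G →* unitary (K →L[ℂ] K)) (ξ : K) :
    IsPosDef fun g => ⟪ξ, (π g : K →L[ℂ] K) ξ⟫_ℂ := by
  intro s c
  rw [← B3_inner_sum π ξ s c]
  exact Complex.zero_le_real.mpr (by positivity)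

private theorem B3_norm_le_one {G : Type} [Group G] {K : Type} [NormedAddCommGroup K]
    [InnerProductSpace ℂ K] [CompleteSpace K] (π : G →* unitary (K →L[ℂ] K)) (g : G) :
    ‖(π g : K →L[ℂ] K)‖ ≤ 1 := by
  refine ContinuousLinearMap.opNorm_le_bound _ zero_le_one fun x => ?_
  have h1 := B3_inner π x g g
  rw [inv_mul_cancel, map_one] at h1
  have h2 : ⟪(π g : K →L[ℂ] K) x, (π g : K →L[ℂ] K) x⟫_ℂ = ⟪x, x⟫_ℂ := h1
  have h3 : ‖(π g : K →L[ℂ] K) x‖ ^ 2 = ‖x‖ ^ 2 := by
    rw [inner_self_eq_norm_sq_to_K, inner_self_eq_norm_sq_to_K] at h2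
    exact_mod_cast h2
  rw [one_mul]
  exact (pow_le_pow_iff_left₀ (norm_nonneg _) (norm_nonneg _) two_ne_zero).mp h3.le

private theorem B3_sum_apply {G : Type} [Group G] {K : Type} [NormedAddCommGroup K]
    [InnerProductSpace ℂ K] [CompleteSpace K] (π : G →* unitary (K →L[ℂ] K)) (f : G →₀ ℂ)
    (ξ : K) : (f.sum fun g c => c • (π g : K →L[ℂ] K)) ξ =
      ∑ g ∈ f.support, f g • (π g : K →L[ℂ] K) ξ := by
  simp [Finsupp.sum]

private theorem B3_norm_sum_le {G : Type} [Group G] {K : Type} [NormedAddCommGroup K]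
    [InnerProductSpace ℂ K] [CompleteSpace K] (π : G →* unitary (K →L[ℂ] K)) (f : G →₀ ℂ) :
    ‖f.sum fun g c => c • (π g : K →L[ℂ] K)‖ ≤ ∑ g ∈ f.support, ‖f g‖ := by
  refine (norm_sum_le _ _).trans (Finset.sum_le_sum fun g _ => ?_)
  refine (norm_smul_le _ _).trans ?_
  exact mul_le_of_le_one_right (norm_nonneg _) (B3_norm_le_one π g)

private theorem B3_main {G J : Type} [Group G] (H : J → Type) [∀ j, NormedAddCommGroup (H j)]
    [∀ j, InnerProductSpace ℂ (H j)] [∀ j, CompleteSpace (H j)] [∀ j, Nontrivial (H j)]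
    (U : ∀ j, G →* unitary (H j →L[ℂ] H j))
    (hU : ∀ (K : Type) [NormedAddCommGroup K] [InnerProductSpace ℂ K] [CompleteSpace K]
      (π : G →* unitary (K →L[ℂ] K)) (ξ : K), ‖ξ‖ = 1 → ∃ (j : J) (ζ : H j),
      ∀ g, ⟪ζ, (U j g : H j →L[ℂ] H j) ζ⟫_ℂ = ⟪ξ, (π g : K →L[ℂ] K) ξ⟫_ℂ) :
    ∃ (A : Type) (_ : CStarAlgebra A) (u : G →* unitary A), IsFullCstar G A u := by
  classical
  let B : J → Type := fun j => H j →L[ℂ] H j
  let iB : ∀ j, CStarAlgebra (B j) := fun j => inferInstanceAs (CStarAlgebra (H j →L[ℂ] H j))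
  have nB : ∀ j, Nontrivial (B j) := fun j => inferInstanceAs (Nontrivial (H j →L[ℂ] H j))
  let iE : CStarAlgebra (lp B ∞) := B3_cstar B
  have hmem : ∀ g, Memℓp (fun j => (U j g : B j)) ∞ := fun g =>
    memℓp_infty ⟨1, by rintro _ ⟨j, rfl⟩; exact B3_norm_le_one (U j) g⟩
  let e : G → lp B ∞ := fun g => ⟨fun j => (U j g : B j), hmem g⟩
  have he : ∀ g j, (e g : ∀ j, B j) j = (U j g : B j) := fun g j => rfl
  have hone : e 1 = 1 := by
    apply Subtype.ext
    funext j
    change (U j 1 : B j) = 1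
    rw [map_one]
    rfl
  have hmul : ∀ g h, e (g * h) = e g * e h := by
    intro g h
    apply Subtype.ext
    funext j
    change (U j (g * h) : B j) = (U j g : B j) * (U j h : B j)
    rw [map_mul]
    rfl
  have hstar : ∀ g, star (e g) = e g⁻¹ := by
    intro g
    apply Subtype.ext
    funext j
    change star (U j g : B j) = (U j g⁻¹ : B j)
    rw [map_inv, ← Unitary.star_eq_inv]
    rfl
  let S : StarSubalgebra ℂ (lp B ∞) := (StarAlgebra.adjoin ℂ (Set.range e)).topologicalClosure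
  have hcl : IsClosed (S : Set (lp B ∞)) := StarSubalgebra.isClosed_topologicalClosure _
  have hS : ∀ g, e g ∈ S := fun g =>
    StarSubalgebra.le_topologicalClosure _ (StarAlgebra.subset_adjoin ℂ _ ⟨g, rfl⟩)
  have hunit : ∀ g, (⟨e g, hS g⟩ : S) ∈ unitary S := by
    intro g
    rw [Unitary.mem_iff]
    constructor
    · apply Subtype.ext
      change star (e g) * e g = 1
      rw [hstar, ← hmul, inv_mul_cancel, hone]
    · apply Subtype.ext
      change e g * star (e g) = 1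
      rw [hstar, ← hmul, mul_inv_cancel, hone]
  let u : G →* unitary S :=
    { toFun := fun g => ⟨⟨e g, hS g⟩, hunit g⟩
      map_one' := Subtype.ext (Subtype.ext hone)
      map_mul' := fun g h => Subtype.ext (Subtype.ext (hmul g h)) }
  refine ⟨S, inferInstance, u, ?_, ?_⟩
  · rw [Subtype.dense_iff]
    have h1 : (Submodule.span ℂ (Set.range e)) =
        (Submodule.span ℂ (Set.range fun g => ((u g : S)))).map
          (S.subtype.toAlgHom.toLinearMap : S →ₗ[ℂ] lp B ∞) := by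
      rw [Submodule.map_span, ← Set.range_comp]
      rfl
    have h2 : ((↑) '' ((Submodule.span ℂ (Set.range fun g => ((u g : S)))) : Set S) :
        Set (lp B ∞)) = (Submodule.span ℂ (Set.range e) : Set (lp B ∞)) := by
      rw [h1]
      rfl
    have h3 : ((StarAlgebra.adjoin ℂ (Set.range e) : StarSubalgebra ℂ (lp B ∞)) :
        Set (lp B ∞)) ⊆ (Submodule.span ℂ (Set.range e) : Set (lp B ∞)) := by
      have h4 := StarAlgebra.adjoin_eq_span (R := ℂ) (Set.range e)
      intro x hx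
      have h5 : x ∈ Subalgebra.toSubmodule (StarAlgebra.adjoin ℂ (Set.range e)).toSubalgebra := hx
      rw [h4] at h5
      refine Submodule.span_mono ?_ h5
      have h6 : Submonoid.closure (Set.range e ∪ star (Set.range e)) ≤
          ({ carrier := Set.range e
             mul_mem' := by
              rintro _ _ ⟨g, rfl⟩ ⟨h, rfl⟩
              exact ⟨g * h, hmul g h⟩
             one_mem' := ⟨1, hone⟩ } : Submonoid (lp B ∞)) := by
        rw [Submonoid.closure_le]
        rintro y (⟨g, rfl⟩ | hy)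
        · exact ⟨g, rfl⟩
        · obtain ⟨g, hg⟩ := hy
          refine ⟨g⁻¹, ?_⟩
          rw [← hstar, hg, star_star]
      exact h6
    have h7 : (S : Set (lp B ∞)) ⊆
        closure (Submodule.span ℂ (Set.range e) : Set (lp B ∞)) := by
      change ((StarAlgebra.adjoin ℂ (Set.range e)).topologicalClosure : Set (lp B ∞)) ⊆ _
      rw [StarSubalgebra.topologicalClosure_coe]
      exact closure_mono h3
    exact h7.trans (closure_mono h2.symm.subset)
  · intro f
    have hx : ((f.sum fun g c => c • (u g : S) : S) : lp B ∞) = f.sum fun g c => c • e g := by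
      change S.subtype.toAlgHom.toLinearMap _ = _
      rw [Finsupp.sum, map_sum, Finsupp.sum]
      rfl
    have hxj : ∀ j, ((f.sum fun g c => c • e g : lp B ∞) : ∀ j, B j) j =
        (f.sum fun g c => c • (U j g : H j →L[ℂ] H j)) := by
      intro j
      rw [Finsupp.sum, Finsupp.sum, lp.coeFn_sum, Finset.sum_apply]
      rfl
    have hn : ‖(f.sum fun g c => c • (u g : S) : S)‖ = ‖(f.sum fun g c => c • e g : lp B ∞)‖ := by
      rw [← hx]
      rfl
    rw [hn]
    have hbdd : BddAbove {r : ℝ | ∃ (H : Type) (_ : NormedAddCommGroup H)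
        (_ : InnerProductSpace ℂ H) (_ : CompleteSpace H) (π : G →* unitary (H →L[ℂ] H)),
        r = ‖f.sum fun g c => c • (π g : H →L[ℂ] H)‖} := by
      refine ⟨∑ g ∈ f.support, ‖f g‖, ?_⟩
      rintro _ ⟨K, _, _, _, π, rfl⟩
      exact B3_norm_sum_le π f
    refine le_antisymm ?_ ?_
    · refine lp.norm_le_of_forall_le (Real.sSup_nonneg ?_) fun j => ?_
      · rintro _ ⟨K, _, _, _, π, rfl⟩
        exact norm_nonneg _
      · rw [hxj]
        exact le_csSup hbdd ⟨H j, _, _, _, U j, rfl⟩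
    · refine csSup_le ⟨_, ℂ, inferInstance, inferInstance, inferInstance, 1, rfl⟩ ?_
      rintro _ ⟨K, _, _, _, π, rfl⟩
      refine ContinuousLinearMap.opNorm_le_bound _ (norm_nonneg _) fun ξ => ?_
      have key : ∀ η : K, ‖η‖ = 1 → ‖(f.sum fun g c => c • (π g : K →L[ℂ] K)) η‖ ≤
          ‖(f.sum fun g c => c • e g : lp B ∞)‖ := by
        intro η hη
        obtain ⟨j, ζ, hζ⟩ := hU K π η hη
        have h1 : ‖ζ‖ ^ 2 = 1 := by
          have h2 := hζ 1
          rw [map_one, map_one] at h2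
          have h3 : ⟪ζ, ζ⟫_ℂ = ⟪η, η⟫_ℂ := h2
          rw [inner_self_eq_norm_sq_to_K, inner_self_eq_norm_sq_to_K, hη] at h3
          have h4 : ‖ζ‖ ^ 2 = 1 ^ 2 := by exact_mod_cast h3
          rw [h4, one_pow]
        have h2 : ‖ζ‖ = 1 := by
          have h5 : ‖ζ‖ ^ 2 = 1 ^ 2 := by rw [h1, one_pow]
          exact (pow_left_inj₀ (norm_nonneg _) zero_le_one two_ne_zero).mp h5
        have h3 : ‖(f.sum fun g c => c • (π g : K →L[ℂ] K)) η‖ ^ 2 =
            ‖(f.sum fun g c => c • (U j g : H j →L[ℂ] H j)) ζ‖ ^ 2 := by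
          rw [B3_sum_apply, B3_sum_apply]
          have h4 := B3_inner_sum π η f.support f
          have h5 := B3_inner_sum (U j) ζ f.support f
          simp only [hζ] at h5
          rw [← h4] at h5
          exact_mod_cast h5.symm
        have h4 : ‖(f.sum fun g c => c • (π g : K →L[ℂ] K)) η‖ =
            ‖(f.sum fun g c => c • (U j g : H j →L[ℂ] H j)) ζ‖ :=
          (pow_left_inj₀ (norm_nonneg _) (norm_nonneg _) two_ne_zero).mp h3
        rw [h4]
        refine (ContinuousLinearMap.le_opNorm _ _).trans ?_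
        rw [h2, mul_one, ← hxj j]
        exact lp.norm_apply_le_norm ENNReal.top_ne_zero _ j
      by_cases h0 : ξ = 0
      · subst h0
        simp
      · have hpos : 0 < ‖ξ‖ := norm_pos_iff.mpr h0
        have h1 := key ((‖ξ‖⁻¹ : ℂ) • ξ) (by
          rw [norm_smul, norm_inv, Complex.norm_real, norm_norm, inv_mul_cancel₀ hpos.ne'])
        rw [map_smul, norm_smul, norm_inv, Complex.norm_real, norm_norm] at h1
        rw [inv_mul_le_iff₀ hpos] at h1
        linarith [h1]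

end B3

theorem exists_fullCstar (G : Type) [Group G] :
    ∃ (A : Type) (_ : CStarAlgebra A) (u : G →* unitary A), IsFullCstar G A u := by
  choose H i1 i2 i3 U ζ hζ using fun Φ : {Φ : G → ℂ // IsPosDef Φ ∧ Φ 1 = 1} => gns Φ.1 Φ.2.1
  have hnt : ∀ Φ, Nontrivial (H Φ) := by
    intro Φ
    refine ⟨ζ Φ, 0, fun h0 => ?_⟩
    have h1 := hζ Φ 1
    rw [h0, inner_zero_left, Φ.2.2] at h1
    exact zero_ne_one h1
  refine B3_main H U ?_
  intro K _ _ _ π ξ hξ
  refine ⟨⟨fun g => ⟪ξ, (π g : K →L[ℂ] K) ξ⟫_ℂ, B3_posdef π ξ, ?_⟩, ζ _, fun g => hζ _ g⟩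
  change ⟪ξ, (π 1 : K →L[ℂ] K) ξ⟫_ℂ = 1
  rw [map_one]
  change ⟪ξ, ξ⟫_ℂ = 1
  rw [inner_self_eq_norm_sq_to_K, hξ]
  simp

end Pool.Agent.Helper59.EX
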