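import Pool.Agent.Helper59.EX.Group

/-!
EX-B4: operations on positive definite functions.
-/

open scoped InnerProductSpace ComplexOrder

namespace Pool.Agent.Helper59.EX

open Classical in
/-- Positivity for families of group elements. -/
theorem IsPosDef.B4_family {G : Type} [Group G] {Φ : G → ℂ} (hΦ : IsPosDef Φ) {ι : Type}
    (t : Finset ι) (x : ι → G) (c : ι → ℂ) :
    0 ≤ ∑ i ∈ t, ∑ j ∈ t, star (c i) * c j * Φ ((x i)⁻¹ * x j) := by
  have h := hΦ (t.image x) (fun g => ∑ i ∈ t with x i = g, c i)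
  have key : ∑ g ∈ t.image x, ∑ h ∈ t.image x,
      star (∑ i ∈ t with x i = g, c i) * (∑ i ∈ t with x i = h, c i) * Φ (g⁻¹ * h) =
      ∑ i ∈ t, ∑ j ∈ t, star (c i) * c j * Φ ((x i)⁻¹ * x j) := by
    have hm : ∀ i ∈ t, x i ∈ t.image x := fun i hi => Finset.mem_image_of_mem x hi
    rw [← Finset.sum_fiberwise_of_maps_to hm]
    refine Finset.sum_congr rfl fun g _ => ?_
    rw [Finset.sum_congr rfl (g := fun h => ∑ i ∈ t with x i = g, ∑ j ∈ t with x j = h,
      star (c i) * c j * Φ ((x i)⁻¹ * x j))]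
    · rw [Finset.sum_comm]
      refine Finset.sum_congr rfl fun i _ => ?_
      rw [Finset.sum_fiberwise_of_maps_to hm]
    · intro h _
      rw [star_sum, Finset.sum_mul_sum, Finset.sum_mul]
      refine Finset.sum_congr rfl fun i hi => ?_
      rw [Finset.sum_mul]
      refine Finset.sum_congr rfl fun j hj => ?_
      rw [(Finset.mem_filter.1 hi).2, (Finset.mem_filter.1 hj).2]
  rw [← key]
  exact h

theorem IsPosDef.comp_hom {G G' : Type} [Group G] [Group G'] {Φ : G → ℂ} (hΦ : IsPosDef Φ)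
    (p : G' →* G) : IsPosDef (fun g => Φ (p g)) := by
  intro s c
  have h := hΦ.B4_family s (fun g => p g) c
  simpa only [map_mul, map_inv] using h

open Classical in
theorem IsPosDef.extend {G : Type} [Group G] (Λ : Subgroup G) {Φ : Λ → ℂ} (hΦ : IsPosDef Φ) :
    IsPosDef (fun g : G => if h : g ∈ Λ then Φ ⟨g, h⟩ else 0) := by
  intro s c
  set F : G → G → ℂ := fun g h => star (c g) * c h *
    (if h' : g⁻¹ * h ∈ Λ then Φ ⟨g⁻¹ * h, h'⟩ else 0) with hF
  change 0 ≤ ∑ g ∈ s, ∑ h ∈ s, F g h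
  have hm : ∀ i ∈ s, (QuotientGroup.mk i : G ⧸ Λ) ∈ s.image (QuotientGroup.mk : G → G ⧸ Λ) :=
    fun i hi => Finset.mem_image_of_mem _ hi
  rw [← Finset.sum_fiberwise_of_maps_to hm]
  refine Finset.sum_nonneg fun q _ => ?_
  have h1 : ∑ g ∈ s with (QuotientGroup.mk g : G ⧸ Λ) = q, ∑ h ∈ s, F g h =
      ∑ g ∈ s with (QuotientGroup.mk g : G ⧸ Λ) = q,
        ∑ h ∈ s with (QuotientGroup.mk h : G ⧸ Λ) = q, F g h := by
    refine Finset.sum_congr rfl fun g hg => ?_
    rw [Finset.sum_filter]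
    refine Finset.sum_congr rfl fun h _ => ?_
    split_ifs with hq
    · rfl
    · have hn : ¬ (g⁻¹ * h ∈ Λ) := by
        intro hc
        apply hq
        rw [← (Finset.mem_filter.1 hg).2]
        exact (QuotientGroup.eq.2 hc).symm
      simp only [hF, dif_neg hn, mul_zero]
  rw [h1]
  have h2 := hΦ.B4_family (s.filter fun g => (QuotientGroup.mk g : G ⧸ Λ) = q)
    (fun g => if h : q.out⁻¹ * g ∈ Λ then (⟨q.out⁻¹ * g, h⟩ : Λ) else 1) c
  refine le_of_le_of_eq h2 ?_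
  refine Finset.sum_congr rfl fun g hg => Finset.sum_congr rfl fun h hh => ?_
  have e1 : q.out⁻¹ * g ∈ Λ := by
    rw [← QuotientGroup.eq, (Finset.mem_filter.1 hg).2]
    exact QuotientGroup.out_eq' q
  have e2 : q.out⁻¹ * h ∈ Λ := by
    rw [← QuotientGroup.eq, (Finset.mem_filter.1 hh).2]
    exact QuotientGroup.out_eq' q
  have e3 : g⁻¹ * h ∈ Λ := by
    have := Λ.mul_mem (Λ.inv_mem e1) e2
    simpa [mul_assoc] using this
  simp only [hF, dif_pos e1, dif_pos e2, dif_pos e3]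
  congr 2
  apply Subtype.ext
  simp [mul_assoc]

open Classical in
/-- Extension by zero for `Λ × Q ⊆ G × Q`. -/
theorem IsPosDef.extend_prod {G Q : Type} [Group G] [Group Q] (Λ : Subgroup G)
    {Φ : Λ × Q → ℂ} (hΦ : IsPosDef Φ) :
    IsPosDef (fun g : G × Q => if h : g.1 ∈ Λ then Φ (⟨g.1, h⟩, g.2) else 0) := by
  let p : (Λ.prod (⊤ : Subgroup Q)) →* Λ × Q :=
    { toFun := fun g => (⟨g.1.1, (Subgroup.mem_prod.1 g.2).1⟩, g.1.2)
      map_one' := rfl
      map_mul' := fun _ _ => rfl }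
  have h := (hΦ.comp_hom p).extend (Λ.prod (⊤ : Subgroup Q))
  convert h using 2 with g
  by_cases h' : g.1 ∈ Λ
  · have h2 : g ∈ Λ.prod (⊤ : Subgroup Q) := Subgroup.mem_prod.2 ⟨h', Subgroup.mem_top _⟩
    rw [dif_pos h', dif_pos h2]
    rfl
  · have h2 : g ∉ Λ.prod (⊤ : Subgroup Q) := fun hc => h' (Subgroup.mem_prod.1 hc).1
    rw [dif_neg h', dif_neg h2]

end Pool.Agent.Helper59.EX
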