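import Pool.Agent.Helper59.EX.Forest

/-!
EX-N1: walks in forests.
-/

namespace Pool.Agent.Helper59.EX

variable {G I Q : Type} [Group G] [Group Q]

/-- start of an oriented edge -/
def N1_src (s : I → G) (e : (G × I) × Bool) : G :=
  if e.2 then e.1.1 else e.1.1 * s e.1.2

/-- end of an oriented edge -/
def N1_tgt (s : I → G) (e : (G × I) × Bool) : G :=
  if e.2 then e.1.1 * s e.1.2 else e.1.1

/-- label of an oriented edge -/
def N1_w (q : I → Q) (e : (G × I) × Bool) : Q :=
  if e.2 then q e.1.2 else (q e.1.2)⁻¹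

theorem N1_walk_cons (s : I → G) (a b : G) (e : (G × I) × Bool) (l : List ((G × I) × Bool)) :
    IsWalk s a (e :: l) b ↔ N1_src s e = a ∧ IsWalk s (N1_tgt s e) l b := by
  obtain ⟨e, d⟩ := e
  cases d <;> simp [IsWalk, N1_src, N1_tgt]

theorem N1_lbl_cons (q : I → Q) (e : (G × I) × Bool) (l : List ((G × I) × Bool)) :
    wlbl q (e :: l) = N1_w q e * wlbl q l := by
  obtain ⟨e, d⟩ := e
  cases d <;> simp [wlbl, N1_w]

theorem N1_walk_append (s : I → G) (l₁ l₂ : List ((G × I) × Bool)) (a c : G) :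
    IsWalk s a (l₁ ++ l₂) c ↔ ∃ b, IsWalk s a l₁ b ∧ IsWalk s b l₂ c := by
  induction l₁ generalizing a with
  | nil => simp [IsWalk]
  | cons e l ih =>
    rw [List.cons_append, N1_walk_cons, ih]
    simp only [N1_walk_cons]
    constructor
    · rintro ⟨h1, b, h2, h3⟩
      exact ⟨b, ⟨h1, h2⟩, h3⟩
    · rintro ⟨b, ⟨h1, h2⟩, h3⟩
      exact ⟨h1, b, h2, h3⟩

theorem N1_lbl_append (q : I → Q) (l₁ l₂ : List ((G × I) × Bool)) :
    wlbl q (l₁ ++ l₂) = wlbl q l₁ * wlbl q l₂ := by
  induction l₁ with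
  | nil => simp [wlbl]
  | cons e l ih => rw [List.cons_append, N1_lbl_cons, N1_lbl_cons, ih, mul_assoc]

/-- the reversed walk -/
def N1_rev (l : List ((G × I) × Bool)) : List ((G × I) × Bool) :=
  (l.map fun e => (e.1, !e.2)).reverse

theorem N1_src_flip (s : I → G) (e : (G × I) × Bool) : N1_src s (e.1, !e.2) = N1_tgt s e := by
  obtain ⟨e, d⟩ := e
  cases d <;> simp [N1_src, N1_tgt]

theorem N1_tgt_flip (s : I → G) (e : (G × I) × Bool) : N1_tgt s (e.1, !e.2) = N1_src s e := by
  obtain ⟨e, d⟩ := e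
  cases d <;> simp [N1_src, N1_tgt]

theorem N1_w_flip (q : I → Q) (e : (G × I) × Bool) :
    N1_w q (e.1, !e.2) = (N1_w q e)⁻¹ := by
  obtain ⟨e, d⟩ := e
  cases d <;> simp [N1_w]

theorem N1_rev_cons (e : (G × I) × Bool) (l : List ((G × I) × Bool)) :
    N1_rev (e :: l) = N1_rev l ++ [(e.1, !e.2)] := by
  simp [N1_rev]

theorem N1_walk_rev (s : I → G) (l : List ((G × I) × Bool)) (a b : G)
    (h : IsWalk s a l b) : IsWalk s b (N1_rev l) a := by
  induction l generalizing a with
  | nil => exact Eq.symm h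
  | cons e l ih =>
    rw [N1_walk_cons] at h
    have h1 := ih _ h.2
    rw [N1_rev_cons, N1_walk_append]
    refine ⟨_, h1, ?_⟩
    rw [N1_walk_cons, N1_src_flip, N1_tgt_flip]
    exact ⟨rfl, h.1⟩

theorem N1_lbl_rev (q : I → Q) (l : List ((G × I) × Bool)) :
    wlbl q (N1_rev l) = (wlbl q l)⁻¹ := by
  induction l with
  | nil => simp [N1_rev, wlbl]
  | cons e l ih =>
    rw [N1_rev_cons, N1_lbl_append, ih, N1_lbl_cons, N1_lbl_cons, N1_w_flip]
    change (wlbl q l)⁻¹ * ((N1_w q e)⁻¹ * 1) = (N1_w q e * wlbl q l)⁻¹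
    rw [mul_one, mul_inv_rev]

theorem N1_mem_rev (l : List ((G × I) × Bool)) (e : (G × I) × Bool) (h : e ∈ N1_rev l) :
    ∃ e' ∈ l, e'.1 = e.1 := by
  rw [N1_rev, List.mem_reverse, List.mem_map] at h
  obtain ⟨e', h1, h2⟩ := h
  exact ⟨e', h1, by rw [← h2]⟩

/-- a list with a repeated edge -/
theorem N1_dup (l : List ((G × I) × Bool)) (h : ¬ (l.map Prod.fst).Nodup) :
    ∃ l₁ l₂ l₃ e e', l = l₁ ++ (e :: (l₂ ++ e' :: l₃)) ∧ e.1 = e'.1 := by
  induction l with
  | nil => exact absurd List.nodup_nil h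
  | cons e l ih =>
    rw [List.map_cons, List.nodup_cons] at h
    by_cases hm : e.1 ∈ l.map Prod.fst
    · rw [List.mem_map] at hm
      obtain ⟨e', h1, h2⟩ := hm
      obtain ⟨l₂, l₃, rfl⟩ := List.append_of_mem h1
      exact ⟨[], l₂, l₃, e, e', rfl, h2.symm⟩
    · have h2 : ¬ (l.map Prod.fst).Nodup := fun h2 => h ⟨hm, h2⟩
      obtain ⟨l₁, l₂, l₃, t, t', h3, h4⟩ := ih h2
      exact ⟨e :: l₁, l₂, l₃, t, t', by rw [h3]; rfl, h4⟩

theorem wlbl_closed (s : I → G) (q : I → Q) (ω : Set (G × I)) (hω : IsForest s ω)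
    (l : List ((G × I) × Bool)) (a : G) (hl : IsWalk s a l a) (h : ∀ e ∈ l, e.1 ∈ ω) :
    wlbl q l = 1 := by
  suffices H : ∀ (n : ℕ) (l : List ((G × I) × Bool)) (a : G), l.length ≤ n →
      IsWalk s a l a → (∀ e ∈ l, e.1 ∈ ω) → wlbl q l = 1 from
    H l.length l a le_rfl hl h
  intro n
  induction n with
  | zero =>
    intro l a hn _ _
    have : l = [] := List.length_eq_zero_iff.1 (Nat.le_zero.1 hn)
    subst this
    rfl
  | succ n ih =>
    intro l a hn hl hg
    by_cases hd : (l.map Prod.fst).Nodup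
    · rw [hω a l hl hg hd]
      rfl
    · obtain ⟨l₁, l₂, l₃, u, u', rfl, hss⟩ := N1_dup l hd
      rw [N1_walk_append] at hl
      obtain ⟨b, p1, hl⟩ := hl
      rw [N1_walk_cons, N1_walk_append] at hl
      obtain ⟨hb, c, p2, hl⟩ := hl
      rw [N1_walk_cons] at hl
      obtain ⟨hc, p3⟩ := hl
      simp only [List.length_append, List.length_cons] at hn
      obtain ⟨e, d⟩ := u
      obtain ⟨e', d'⟩ := u'
      have he : e = e' := hss
      subst he
      have g1 : ∀ t ∈ l₁, t.1 ∈ ω := fun t ht => hg t (by simp [ht])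
      have g2 : ∀ t ∈ l₂, t.1 ∈ ω := fun t ht => hg t (by simp [ht])
      have g3 : ∀ t ∈ l₃, t.1 ∈ ω := fun t ht => hg t (by simp [ht])
      have ge : e ∈ ω := hg (e, d) (by simp)
      rw [N1_lbl_append, N1_lbl_cons, N1_lbl_append, N1_lbl_cons]
      by_cases hdd : d = d'
      · subst hdd
        have hbc : c = b := by rw [← hb, ← hc]
        subst hbc
        have h1 : wlbl q ((e, d) :: l₂) = 1 := by
          refine ih _ c ?_ ?_ ?_
          · simp only [List.length_cons]; omega
          · rw [N1_walk_cons]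
            exact ⟨hc, p2⟩
          · intro t ht
            rcases List.mem_cons.1 ht with h | h
            · rw [h]; exact ge
            · exact g2 t h
        have h2 : wlbl q (l₁ ++ (e, d) :: l₃) = 1 := by
          refine ih _ a ?_ ?_ ?_
          · simp only [List.length_append, List.length_cons]; omega
          · rw [N1_walk_append]
            refine ⟨c, p1, ?_⟩
            rw [N1_walk_cons]
            exact ⟨hc, p3⟩
          · intro t ht
            rcases List.mem_append.1 ht with h | h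
            · exact g1 t h
            · rcases List.mem_cons.1 h with h | h
              · rw [h]; exact ge
              · exact g3 t h
        rw [N1_lbl_cons] at h1
        rw [N1_lbl_append, N1_lbl_cons] at h2
        rw [← mul_assoc (N1_w q (e, d)) (wlbl q l₂), h1, one_mul]
        exact h2
      · have hd' : d' = !d := by cases d <;> cases d' <;> simp_all
        subst hd'
        have hs1 : N1_src s (e, !d) = N1_tgt s (e, d) := N1_src_flip s (e, d)
        have hs2 : N1_tgt s (e, !d) = N1_src s (e, d) := N1_tgt_flip s (e, d)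
        have h1 : wlbl q l₂ = 1 := by
          refine ih _ c (by omega) ?_ g2
          rw [← hs1, hc] at p2
          exact p2
        have h2 : wlbl q (l₁ ++ l₃) = 1 := by
          refine ih _ a ?_ ?_ ?_
          · simp only [List.length_append]; omega
          · rw [N1_walk_append]
            refine ⟨b, p1, ?_⟩
            rw [hs2, hb] at p3
            exact p3
          · intro t ht
            rcases List.mem_append.1 ht with h | h
            · exact g1 t h
            · exact g3 t h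
        rw [N1_lbl_append] at h2
        have h3 : N1_w q (e, d) * N1_w q (e, !d) = 1 := by
          cases d <;> simp [N1_w]
        rw [h1, one_mul, ← mul_assoc (N1_w q (e, d)), h3, one_mul]
        exact h2

theorem wrel_equivalence (s : I → G) (q : I → Q) (ω : Set (G × I)) :
    Equivalence (WRel s q ω) := by
  refine ⟨fun u => ⟨[], rfl, by simp, mul_one _⟩, ?_, ?_⟩
  · rintro u v ⟨l, h1, h2, h3⟩
    refine ⟨N1_rev l, N1_walk_rev s l _ _ h1, ?_, ?_⟩
    · intro e he
      obtain ⟨t, ht, h⟩ := N1_mem_rev l e he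
      rw [← h]
      exact h2 t ht
    · rw [N1_lbl_rev, ← h3, mul_assoc, mul_inv_cancel, mul_one]
  · rintro u v w ⟨l, h1, h2, h3⟩ ⟨l', h1', h2', h3'⟩
    refine ⟨l ++ l', (N1_walk_append s _ _ _ _).2 ⟨_, h1, h1'⟩, ?_, ?_⟩
    · intro e he
      rcases List.mem_append.1 he with h | h
      · exact h2 e h
      · exact h2' e h
    · rw [N1_lbl_append, ← mul_assoc, h3, h3']

theorem wrel_mono (s : I → G) (q : I → Q) {ω ω' : Set (G × I)} (h : ω ⊆ ω') {u v : G × Q}
    (huv : WRel s q ω u v) : WRel s q ω' u v := by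
  obtain ⟨l, h1, h2, h3⟩ := huv
  exact ⟨l, h1, fun e he => h (h2 e he), h3⟩

/-- Translation of walks. -/
def N1_tr (g : G) (l : List ((G × I) × Bool)) : List ((G × I) × Bool) :=
  l.map fun e => ((g * e.1.1, e.1.2), e.2)

theorem N1_src_tr (s : I → G) (g : G) (e : (G × I) × Bool) :
    N1_src s ((g * e.1.1, e.1.2), e.2) = g * N1_src s e := by
  obtain ⟨e, d⟩ := e
  cases d <;> simp [N1_src, mul_assoc]

theorem N1_tgt_tr (s : I → G) (g : G) (e : (G × I) × Bool) :
    N1_tgt s ((g * e.1.1, e.1.2), e.2) = g * N1_tgt s e := by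
  obtain ⟨e, d⟩ := e
  cases d <;> simp [N1_tgt, mul_assoc]

theorem N1_walk_tr (s : I → G) (g : G) (l : List ((G × I) × Bool)) (a b : G)
    (h : IsWalk s a l b) : IsWalk s (g * a) (N1_tr g l) (g * b) := by
  induction l generalizing a with
  | nil => exact congrArg (fun z => g * z) h
  | cons e l ih =>
    rw [N1_walk_cons] at h
    have h1 := ih _ h.2
    change IsWalk s (g * a) (((g * e.1.1, e.1.2), e.2) :: N1_tr g l) (g * b)
    rw [N1_walk_cons, N1_src_tr, N1_tgt_tr]
    exact ⟨congrArg (fun z => g * z) h.1, h1⟩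

theorem N1_lbl_tr (q : I → Q) (g : G) (l : List ((G × I) × Bool)) :
    wlbl q (N1_tr g l) = wlbl q l := by
  induction l with
  | nil => rfl
  | cons e l ih =>
    change wlbl q (((g * e.1.1, e.1.2), e.2) :: N1_tr g l) = _
    rw [N1_lbl_cons, N1_lbl_cons, ih]
    rfl

theorem N1_shift (s : I → G) (q : I → Q) (ω : Set (G × I)) (g a b : G) (p r : Q)
    (h : WRel s q ω (a, p) (b, r)) :
    WRel s q ((fun e : G × I => (g * e.1, e.2)) '' ω) (g * a, p) (g * b, r) := by
  obtain ⟨l, h1, h2, h3⟩ := h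
  refine ⟨N1_tr g l, N1_walk_tr s g l _ _ h1, ?_, ?_⟩
  · intro e he
    obtain ⟨t, ht, rfl⟩ := List.mem_map.1 he
    exact ⟨t.1, h2 t ht, rfl⟩
  · rw [N1_lbl_tr]
    exact h3

theorem wrel_shift (s : I → G) (q : I → Q) (ω : Set (G × I)) (g a b : G) (p r : Q) :
    WRel s q ((fun e : G × I => (g * e.1, e.2)) '' ω) (g * a, p) (g * b, r) ↔
      WRel s q ω (a, p) (b, r) := by
  constructor
  · intro h
    have h3 := N1_shift s q _ g⁻¹ _ _ _ _ h
    rw [inv_mul_cancel_left, inv_mul_cancel_left, Set.image_image] at h3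
    have h4 : (fun e : G × I => (g⁻¹ * (g * e.1), e.2)) '' ω = ω := by
      have h5 : (fun e : G × I => (g⁻¹ * (g * e.1), e.2)) = id := by
        funext e
        rw [inv_mul_cancel_left]
        rfl
      rw [h5, Set.image_id]
    exact h4 ▸ h3
  · exact N1_shift s q ω g a b p r

theorem wrel_mul_left (s : I → G) (q : I → Q) (ω : Set (G × I)) (a b : G) (x p r : Q) :
    WRel s q ω (a, x * p) (b, x * r) ↔ WRel s q ω (a, p) (b, r) := by
  unfold WRel
  simp only [mul_assoc, mul_right_inj]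

theorem wrel_one_iff (s : I → G) (q : I → Q) (ω : Set (G × I)) (hω : IsForest s ω) (r : Q) :
    WRel s q ω (1, 1) (1, r) ↔ r = 1 := by
  constructor
  · rintro ⟨l, h1, h2, h3⟩
    have h4 := wlbl_closed s q ω hω l 1 h1 h2
    simp only [h4, mul_one] at h3
    exact h3.symm
  · rintro rfl
    exact (wrel_equivalence s q ω).refl _

theorem wrel_edge (s : I → G) (q : I → Q) (ω : Set (G × I)) (i : I) (h : (1, i) ∈ ω) :
    WRel s q ω (1, 1) (s i, q i) := by
  refine ⟨[((1, i), true)], ⟨rfl, ?_⟩, ?_, ?_⟩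
  · exact one_mul _
  · intro e he
    rw [List.mem_singleton] at he
    rw [he]
    exact h
  · change 1 * (q i * 1) = q i
    rw [mul_one, one_mul]

end Pool.Agent.Helper59.EX
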