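import Pool.Agent.Helper59.EX.Forest

/-!
EX-N2: determinantal probability measures.
-/

open scoped ComplexOrder

namespace Pool.Agent.Helper59.EX

section N2aux

open Matrix

/-- Rows of `1` outside `a`, rows of a positive semidefinite matrix on `a`. -/
private lemma n2_det_nonneg_aux {n : Type} [Fintype n] [DecidableEq n] (L : Matrix n n ℂ)
    (hL : L.PosSemidef) (a : n → Prop) [DecidablePred a] :
    0 ≤ (Matrix.diagonal (fun i => if a i then (1 : ℂ) else 0) * L +
      Matrix.diagonal (fun i => if a i then (0 : ℂ) else 1)).det := by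
  set D : Matrix n n ℂ := Matrix.diagonal (fun i => if a i then (1 : ℂ) else 0) with hD
  set B : Matrix n n ℂ := Matrix.diagonal (fun i => if a i then (0 : ℂ) else 1) with hB
  have hDB : B * D = 0 := by
    rw [hD, hB, Matrix.diagonal_mul_diagonal, ← Matrix.diagonal_zero]
    congr 1
    funext i
    by_cases h : a i <;> simp [h]
  have hsum : D + B = 1 := by
    rw [hD, hB, Matrix.diagonal_add, ← Matrix.diagonal_one]
    congr 1
    funext i
    by_cases h : a i <;> simp [h]
  have hBB : B * B = B := by
    rw [hB, Matrix.diagonal_mul_diagonal]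
    congr 1
    funext i
    by_cases h : a i <;> simp [h]
  have hDstar : D.conjTranspose = D := by
    rw [hD, Matrix.diagonal_conjTranspose]
    congr 1
    funext i
    by_cases h : a i <;> simp [h]
  have hfac : D * L + B = (1 + D * (L * B)) * (D * L * D + B) := by
    have h1 : D * (L * B) * (D * L * D) = 0 := by
      have : D * (L * B) * (D * L * D) = D * L * (B * D) * L * D := by
        simp only [Matrix.mul_assoc]
      rw [this, hDB]
      simp
    have h2 : D * (L * B) * B = D * L * B := by
      simp only [Matrix.mul_assoc, hBB]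
    rw [add_mul, one_mul, mul_add, h1, h2, zero_add]
    have h3 : D * L = D * L * D + D * L * B := by
      rw [← mul_add, hsum, mul_one]
    nth_rewrite 1 [h3]
    abel
  rw [hfac, Matrix.det_mul, Matrix.det_one_add_mul_comm]
  have h4 : L * B * D = 0 := by rw [Matrix.mul_assoc, hDB, mul_zero]
  rw [h4, add_zero, Matrix.det_one, one_mul]
  have hps : (D * L * D + B).PosSemidef := by
    apply Matrix.PosSemidef.add
    · have := hL.conjTranspose_mul_mul_same D
      rwa [hDstar] at this
    · rw [hB]
      apply Matrix.PosSemidef.diagonal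
      intro i
      by_cases h : a i <;> simp [h]
  exact hps.det_nonneg

private lemma n2_mixed {n : Type} [Fintype n] [DecidableEq n] (P : Matrix n n ℂ)
    (a : n → Prop) [DecidablePred a] :
    (Matrix.of fun i j => if a i then P i j else (1 - P) i j) =
      Matrix.diagonal (fun i => if a i then (1 : ℂ) else 0) * P +
        Matrix.diagonal (fun i => if a i then (0 : ℂ) else 1) * (1 - P) := by
  ext i j
  rw [Matrix.add_apply, Matrix.diagonal_mul, Matrix.diagonal_mul]
  by_cases h : a i <;> simp [h]

private lemma n2_det_nonneg_pos {n : Type} [Fintype n] [DecidableEq n] (P : Matrix n n ℂ)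
    (hP : P.PosSemidef) (hQ : (1 - P).PosDef) (a : n → Prop) [DecidablePred a] :
    0 ≤ (Matrix.of fun i j => if a i then P i j else (1 - P) i j).det := by
  rw [n2_mixed]
  set Q : Matrix n n ℂ := 1 - P with hQd
  have hu : IsUnit Q.det := hQ.isUnit.map Matrix.detMonoidHom
  have hQi : Q⁻¹ * Q = 1 := Matrix.nonsing_inv_mul _ hu
  have hQi' : Q * Q⁻¹ = 1 := Matrix.mul_nonsing_inv _ hu
  have hPQ : P = 1 - Q := by rw [hQd]; abel
  -- L = P + P Q⁻¹ P
  have hL : (P + P * Q⁻¹ * P).PosSemidef := by
    apply Matrix.PosSemidef.add hP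
    have := hQ.inv.posSemidef.conjTranspose_mul_mul_same P
    rwa [hP.1.eq] at this
  have hLQ : (P + P * Q⁻¹ * P) * Q = P := by
    have h1 : P * Q = Q * P := by rw [hPQ]; noncomm_ring
    calc (P + P * Q⁻¹ * P) * Q = P * Q + P * Q⁻¹ * (P * Q) := by
          rw [add_mul, Matrix.mul_assoc (P * Q⁻¹) P Q]
      _ = P * Q + P * (Q⁻¹ * Q) * P := by rw [h1]; simp only [Matrix.mul_assoc]
      _ = P * Q + P * P := by rw [hQi, mul_one]
      _ = P * (Q + P) := by rw [mul_add]
      _ = P := by rw [hPQ]; simp
  have hfac : Matrix.diagonal (fun i => if a i then (1 : ℂ) else 0) * P +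
        Matrix.diagonal (fun i => if a i then (0 : ℂ) else 1) * Q =
      (Matrix.diagonal (fun i => if a i then (1 : ℂ) else 0) * (P + P * Q⁻¹ * P) +
        Matrix.diagonal (fun i => if a i then (0 : ℂ) else 1)) * Q := by
    rw [add_mul, Matrix.mul_assoc, hLQ]
  rw [hfac, Matrix.det_mul]
  exact mul_nonneg (n2_det_nonneg_aux _ hL a) hQ.posSemidef.det_nonneg

private lemma n2_det_nonneg {n : Type} [Fintype n] [DecidableEq n] (P : Matrix n n ℂ)
    (hP : P.PosSemidef) (hQ : (1 - P).PosSemidef) (a : n → Prop) [DecidablePred a] :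
    0 ≤ ((Matrix.of fun i j => if a i then P i j else (1 - P) i j).det).re := by
  have hcont : Continuous (fun ε : ℝ =>
      ((Matrix.of fun i j => if a i then (((1 : ℝ) - ε : ℝ) • P) i j else
        (1 - ((1 : ℝ) - ε : ℝ) • P) i j).det).re) := by
    apply Complex.continuous_re.comp
    apply Continuous.matrix_det
    apply continuous_matrix
    intro i j
    by_cases h : a i
    · simp only [Matrix.of_apply, h, if_true, Matrix.smul_apply]
      fun_prop
    · simp only [Matrix.of_apply, h, if_false, Matrix.sub_apply, Matrix.smul_apply]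
      fun_prop
  have hlim := (hcont.tendsto 0).mono_left (nhdsWithin_le_nhds (s := Set.Ioo (0 : ℝ) 1))
  have h0 : ((Matrix.of fun i j => if a i then (((1 : ℝ) - 0 : ℝ) • P) i j else
        (1 - ((1 : ℝ) - 0 : ℝ) • P) i j).det).re =
      ((Matrix.of fun i j => if a i then P i j else (1 - P) i j).det).re := by
    simp
  rw [h0] at hlim
  have hne : (nhdsWithin (0 : ℝ) (Set.Ioo 0 1)).NeBot := by
    rw [nhdsWithin_Ioo_eq_nhdsGT one_pos]
    infer_instance
  refine ge_of_tendsto hlim ?_
  filter_upwards [self_mem_nhdsWithin] with ε hε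
  have h1 : (((1 : ℝ) - ε : ℝ) • P).PosSemidef := by
    have := hP.smul (show (0 : ℂ) ≤ ((1 - ε : ℝ) : ℂ) by
      exact_mod_cast (by linarith [hε.2] : (0 : ℝ) ≤ 1 - ε))
    convert this using 1
    ext i j
    simp [Matrix.smul_apply]
  have h2 : (1 - ((1 : ℝ) - ε : ℝ) • P).PosDef := by
    have e1 : 1 - ((1 : ℝ) - ε : ℝ) • P = ((1 - ε : ℝ) : ℂ) • (1 - P) + ((ε : ℝ) : ℂ) • 1 := by
      ext i j
      simp only [Matrix.sub_apply, Matrix.smul_apply, Matrix.add_apply, Complex.real_smul,
        smul_eq_mul, Matrix.one_apply]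
      push_cast
      by_cases h : i = j <;> simp [h] <;> ring
    rw [e1]
    apply Matrix.PosDef.posSemidef_add
    · exact hQ.smul (show (0 : ℂ) ≤ ((1 - ε : ℝ) : ℂ) by
        exact_mod_cast (by linarith [hε.2] : (0 : ℝ) ≤ 1 - ε))
    · exact Matrix.PosDef.one.smul (show (0 : ℂ) < ((ε : ℝ) : ℂ) by exact_mod_cast hε.1)
  have h3 := n2_det_nonneg_pos _ h1 h2 a
  exact (Complex.nonneg_iff.mp h3).1

end N2aux

open Classical in
private lemma n2_add {E : Type} (k : E → E → ℂ) (F A : Finset E) (hA : A ⊆ F) (x : E)
    (hx : x ∉ F) :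
    detWeight k (insert x F) A + detWeight k (insert x F) (insert x A) = detWeight k F A := by
  have hxA : x ∉ A := fun h => hx (hA h)
  have hxF : x ∈ insert x F := Finset.mem_insert_self x F
  set x' : (insert x F : Finset E) := ⟨x, hxF⟩ with hx'
  set M : Matrix (insert x F : Finset E) (insert x F : Finset E) ℂ :=
    Matrix.of fun e f => if (e : E) ∈ A then k e f else (if e = f then (1 : ℂ) else 0) - k e f
    with hM
  have e1 : (Matrix.of fun (e f : (insert x F : Finset E)) => if (e : E) ∈ A then k e f else
      (if e = f then (1 : ℂ) else 0) - k e f) =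
      M.updateRow x' (fun f => (if x' = f then (1 : ℂ) else 0) - k x f) := by
    ext i j
    by_cases h : i = x'
    · subst h
      rw [Matrix.updateRow_self]
      simp [hx', hxA]
    · rw [Matrix.updateRow_ne h]
  have e2 : (Matrix.of fun (e f : (insert x F : Finset E)) => if (e : E) ∈ insert x A then k e f
      else (if e = f then (1 : ℂ) else 0) - k e f) = M.updateRow x' (fun f => k x f) := by
    ext i j
    by_cases h : i = x'
    · subst h
      rw [Matrix.updateRow_self]
      simp [hx']
    · rw [Matrix.updateRow_ne h]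
      have hi : (i : E) ≠ x := fun h' => h (Subtype.ext h')
      simp [hM, hi]
  unfold detWeight
  rw [e1, e2, ← Complex.add_re, ← Matrix.det_updateRow_add]
  congr 1
  have e3 : ((fun f : (insert x F : Finset E) => (if x' = f then (1 : ℂ) else 0) - k x f) +
      fun f : (insert x F : Finset E) => k x f) = fun f => if x' = f then (1 : ℂ) else 0 := by
    funext f
    simp
  rw [e3]
  set N := M.updateRow x' (fun f => if x' = f then (1 : ℂ) else 0) with hN
  rw [Matrix.twoBlockTriangular_det' N (fun i => i = x')]
  · refine (congrArg₂ (· * ·) (?_ : _ = (1 : ℂ)) ?_).trans (one_mul _)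
    · have : Subsingleton {i : (insert x F : Finset E) // i = x'} :=
        ⟨fun a b => Subtype.ext (a.2.trans b.2.symm)⟩
      have h5 := Matrix.det_eq_elem_of_subsingleton (N.toSquareBlockProp (fun i => i = x'))
        ⟨x', rfl⟩
      have h6 : N.toSquareBlockProp (fun i => i = x') ⟨x', rfl⟩ ⟨x', rfl⟩ = 1 := by
        simp [Matrix.toSquareBlockProp_def, hN]
      rw [h6] at h5
      exact (@Matrix.det_eq_elem_of_subsingleton _ (_) (_) _ _ this _ _).trans h6
    let φ : F ≃ {i : (insert x F : Finset E) // ¬ i = x'} :=
      { toFun := fun e => ⟨⟨e, Finset.mem_insert_of_mem e.2⟩, fun h => hx (by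
          have := congrArg Subtype.val h
          simp only [hx'] at this
          rw [← this]; exact e.2)⟩
        invFun := fun i => ⟨i.1.1, by
          have h1 := i.1.2
          rw [Finset.mem_insert] at h1
          rcases h1 with h1 | h1
          · exact absurd (Subtype.ext h1) i.2
          · exact h1⟩
        left_inv := fun e => rfl
        right_inv := fun i => rfl }
    rw [← Matrix.det_submatrix_equiv_self φ]
    congr 1
    ext i j
    have hi : (⟨(i : E), Finset.mem_insert_of_mem i.2⟩ : (insert x F : Finset E)) ≠ x' := by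
      intro h
      have := congrArg Subtype.val h
      simp only [hx'] at this
      exact hx (this ▸ i.2)
    have hij : ((⟨(i : E), Finset.mem_insert_of_mem i.2⟩ : (insert x F : Finset E)) =
        ⟨(j : E), Finset.mem_insert_of_mem j.2⟩) ↔ i = j := by
      constructor
      · intro h
        exact Subtype.ext (congrArg (fun t : (insert x F : Finset E) => (t : E)) h)
      · rintro rfl; rfl
    show N ⟨(i : E), _⟩ ⟨(j : E), _⟩ = _
    rw [hN, Matrix.updateRow_ne hi, hM]
    simp only [Matrix.of_apply, hij]
  · intro i hi j hj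
    subst hi
    rw [hN, Matrix.updateRow_self]
    simp [Ne.symm hj]

open Classical in
private lemma n2_consistent {E : Type} (k : E → E → ℂ) (F A : Finset E) (hA : A ⊆ F)
    (D : Finset E) (hD : Disjoint F D) :
    ∑ B ∈ (F ∪ D).powerset with B ∩ F = A, detWeight k (F ∪ D) B = detWeight k F A := by
  induction D using Finset.induction_on with
  | empty =>
    rw [Finset.union_empty]
    have : F.powerset.filter (fun B => B ∩ F = A) = {A} := by
      ext B
      simp only [Finset.mem_filter, Finset.mem_powerset, Finset.mem_singleton]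
      constructor
      · rintro ⟨h1, h2⟩
        rw [← h2, Finset.inter_eq_left.mpr h1]
      · rintro rfl
        exact ⟨hA, Finset.inter_eq_left.mpr hA⟩
    rw [this, Finset.sum_singleton]
  | insert x D hxD ih =>
    have hxF : x ∉ F := by
      intro h
      exact (Finset.disjoint_left.mp hD h) (Finset.mem_insert_self x D)
    have hDF : Disjoint F D := hD.mono_right (Finset.subset_insert x D)
    have hx : x ∉ F ∪ D := by simp [hxF, hxD]
    rw [Finset.union_insert, Finset.sum_filter, Finset.sum_powerset_insert hx,
      ← Finset.sum_add_distrib]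
    rw [← ih hDF, Finset.sum_filter]
    apply Finset.sum_congr rfl
    intro B hB
    rw [Finset.mem_powerset] at hB
    have h1 : insert x B ∩ F = B ∩ F := Finset.insert_inter_of_notMem hxF
    rw [h1]
    by_cases h : B ∩ F = A
    · simp only [h, if_true]
      exact n2_add k (F ∪ D) B hB x hx
    · simp [h]

theorem detWeight_isFinDist {E : Type} (k : E → E → ℂ)
    (hk : ∀ F : Finset E, (Matrix.of fun (e f : F) => k e f).PosSemidef)
    (hk' : ∀ F : Finset E, (Matrix.of fun (e f : F) =>
      (open Classical in if e = f then (1 : ℂ) else 0) - k e f).PosSemidef) :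
    IsFinDist (detWeight k) := by
  classical
  have hcons : ∀ F F', F ⊆ F' → ∀ A ⊆ F,
      ∑ B ∈ F'.powerset with B ∩ F = A, detWeight k F' B = detWeight k F A := by
    intro F F' hF A hA
    have := n2_consistent k F A hA (F' \ F) Finset.disjoint_sdiff
    rw [Finset.union_sdiff_of_subset hF] at this
    convert this using 2
  refine ⟨?_, ?_, ?_⟩
  · intro F A hA
    set P : Matrix F F ℂ := Matrix.of fun (e f : F) => k e f with hP
    have h1 : (1 - P).PosSemidef := by
      convert hk' F using 1
      ext i j
      simp [hP, Matrix.one_apply]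
    have h2 := n2_det_nonneg P (hk F) h1 (fun e => (e : E) ∈ A)
    unfold detWeight
    convert h2 using 3
    ext i j
    by_cases h : (i : E) ∈ A <;> simp [h, hP, Matrix.one_apply]
  · intro F
    have h1 := hcons ∅ F (Finset.empty_subset F) ∅ (Finset.Subset.refl _)
    have h2 : detWeight k ∅ ∅ = 1 := by
      unfold detWeight
      rw [Matrix.det_isEmpty]
      simp
    rw [h2] at h1
    rw [← h1]
    apply Finset.sum_congr _ (fun _ _ => rfl)
    ext B
    simp
  · intro F F' hF A hA
    convert hcons F F' hF A hA using 2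

theorem detWeight_singleton {E : Type} (k : E → E → ℂ) (e : E) :
    detWeight k {e} {e} = (k e e).re := by
  classical
  unfold detWeight
  have : Subsingleton ({e} : Finset E) := ⟨fun a b => Subtype.ext
    ((Finset.mem_singleton.mp a.2).trans (Finset.mem_singleton.mp b.2).symm)⟩
  rw [Matrix.det_eq_elem_of_subsingleton _ ⟨e, Finset.mem_singleton_self e⟩]
  simp

theorem detWeight_eq_zero {E : Type} (k : E → E → ℂ) (hw : IsFinDist (detWeight k))
    (F A : Finset E) (hA : A ⊆ F) (c : E → ℂ) (hc : ∃ e ∈ A, c e ≠ 0)
    (h : ∀ e ∈ A, ∑ f ∈ A, k e f * c f = 0) : detWeight k F A = 0 := by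
  classical
  have h1 := hw.consistent A F hA A (Finset.Subset.refl A)
  have h0 : detWeight k A A = 0 := by
    unfold detWeight
    have hdet : (Matrix.of fun (e f : A) => if (e : E) ∈ A then k e f else
        (if e = f then (1 : ℂ) else 0) - k e f).det = 0 := by
      rw [← Matrix.exists_mulVec_eq_zero_iff]
      obtain ⟨e0, he0, hce⟩ := hc
      refine ⟨fun f : A => c f, ?_, ?_⟩
      · intro h'
        exact hce (congrFun h' ⟨e0, he0⟩)
      · funext e
        simp only [Matrix.mulVec, dotProduct, Matrix.of_apply, e.2, if_true, Pi.zero_apply]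
        rw [Finset.sum_coe_sort A (fun f => k e f * c f)]
        exact h e e.2
    rw [hdet, Complex.zero_re]
  rw [h0] at h1
  have h2 : ∀ B ∈ F.powerset.filter (fun B => B ∩ A = A), 0 ≤ detWeight k F B := by
    intro B hB
    rw [Finset.mem_filter, Finset.mem_powerset] at hB
    exact hw.nonneg F B hB.1
  have h3 : A ∈ F.powerset.filter (fun B => B ∩ A = A) := by
    rw [Finset.mem_filter, Finset.mem_powerset]
    exact ⟨hA, Finset.inter_self A⟩
  refine (Finset.sum_eq_zero_iff_of_nonneg h2).mp ?_ A h3
  rw [← h1]

end Pool.Agent.Helper59.EX
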