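import Pool.Agent.Helper59.EX.Forest
import Pool.Agent.Helper59.EX.St.N1

/-!
EX-N4: the criterion for groups with an invariant random forest of large expected degree.
-/

open scoped ComplexOrder

namespace Pool.Agent.Helper59.EX

open Classical in
/-- positivity of the kernel of an equivalence relation -/
private lemma n4_kernel_nonneg {ι κ : Type*} (s : Finset ι) (u : ι → ℂ) (cl : ι → κ) :
    0 ≤ ∑ a ∈ s, ∑ b ∈ s, star (u a) * u b * (if cl a = cl b then (1 : ℂ) else 0) := by
  have h1 : ∑ a ∈ s, ∑ b ∈ s, star (u a) * u b * (if cl a = cl b then (1 : ℂ) else 0) =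
      ∑ k ∈ s.image cl, star (∑ a ∈ s with cl a = k, u a) * (∑ a ∈ s with cl a = k, u a) := by
    rw [← Finset.sum_fiberwise_of_maps_to (g := cl) (t := s.image cl)
      (fun a ha => Finset.mem_image_of_mem _ ha)]
    refine Finset.sum_congr rfl fun k _ => ?_
    rw [star_sum, Finset.sum_mul]
    refine Finset.sum_congr rfl fun a ha => ?_
    rw [Finset.mul_sum, Finset.sum_filter]
    refine Finset.sum_congr rfl fun b _ => ?_
    rw [(Finset.mem_filter.1 ha).2]
    by_cases h : cl b = k
    · rw [if_pos h, if_pos h.symm, mul_one]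
    · rw [if_neg h, if_neg (fun h' => h h'.symm), mul_zero]
  rw [h1]
  exact Finset.sum_nonneg fun k _ => star_mul_self_nonneg _

section

variable {G I Q : Type} [Group G] [Group Q]

open Classical in
/-- the kernel of a finite box -/
private noncomputable def n4_K (s : I → G) (q : I → Q)
    (w : Finset (G × I) → Finset (G × I) → ℝ) (F : Finset (G × I)) (u v : G × Q) : ℝ :=
  ∑ A ∈ F.powerset, w F A * (if WRel s q (A : Set (G × I)) u v then 1 else 0)

variable (s : I → G) (q : I → Q) (w : Finset (G × I) → Finset (G × I) → ℝ)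

open Classical in
private lemma n4_nonneg (hw : IsFinDist w) (F : Finset (G × I)) (u v : G × Q) :
    0 ≤ n4_K s q w F u v := by
  refine Finset.sum_nonneg fun A hA => mul_nonneg (hw.nonneg _ _ (Finset.mem_powerset.1 hA)) ?_
  split_ifs <;> norm_num

open Classical in
private lemma n4_le_one (hw : IsFinDist w) (F : Finset (G × I)) (u v : G × Q) :
    n4_K s q w F u v ≤ 1 := by
  rw [← hw.sum_one F]
  refine Finset.sum_le_sum fun A hA => ?_
  have := hw.nonneg _ _ (Finset.mem_powerset.1 hA)
  split_ifs
  · rw [mul_one]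
  · rw [mul_zero]; exact this

open Classical in
private lemma n4_mono (hw : IsFinDist w) (u v : G × Q) :
    Monotone fun F => n4_K s q w F u v := by
  intro F F' hF
  have h1 : n4_K s q w F u v = ∑ B ∈ F'.powerset, w F' B *
      (if WRel s q ((B ∩ F : Finset (G × I)) : Set (G × I)) u v then 1 else 0) := by
    rw [← Finset.sum_fiberwise_of_maps_to (g := fun B => B ∩ F) (t := F.powerset)
      (fun B _ => Finset.mem_powerset.2 Finset.inter_subset_right)]
    refine Finset.sum_congr rfl fun A hA => ?_
    rw [← hw.consistent F F' hF A (Finset.mem_powerset.1 hA), Finset.sum_mul]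
    refine Finset.sum_congr (by
      ext B
      simp only [Finset.mem_filter, Finset.mem_powerset]
      constructor
      · rintro ⟨h1, h2⟩
        refine ⟨h1, ?_⟩
        rw [← h2]
        ext e
        simp only [Finset.mem_inter]
      · rintro ⟨h1, h2⟩
        refine ⟨h1, ?_⟩
        rw [← h2]
        ext e
        simp only [Finset.mem_inter]) fun B hB => ?_
    have hB2 : B ∩ F = A := (Finset.mem_filter.1 hB).2
    rw [hB2]
  show n4_K s q w F u v ≤ n4_K s q w F' u v
  rw [h1]
  refine Finset.sum_le_sum fun B hB => ?_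
  refine mul_le_mul_of_nonneg_left ?_ (hw.nonneg _ _ (Finset.mem_powerset.1 hB))
  by_cases h : WRel s q ((B ∩ F : Finset (G × I)) : Set (G × I)) u v
  · have h' : WRel s q (B : Set (G × I)) u v :=
      wrel_mono s q (by exact_mod_cast Finset.inter_subset_left) h
    rw [if_pos h, if_pos h']
  · rw [if_neg h]
    split_ifs <;> norm_num

/-- the limit kernel -/
private noncomputable def n4_L (u v : G × Q) : ℝ := ⨆ F, n4_K s q w F u v

private lemma n4_bdd (hw : IsFinDist w) (u v : G × Q) :
    BddAbove (Set.range fun F => n4_K s q w F u v) :=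
  ⟨1, by rintro _ ⟨F, rfl⟩; exact n4_le_one s q w hw F u v⟩

private lemma n4_tendsto (hw : IsFinDist w) (u v : G × Q) :
    Filter.Tendsto (fun F => n4_K s q w F u v) Filter.atTop (nhds (n4_L s q w u v)) :=
  tendsto_atTop_ciSup (n4_mono s q w hw u v) (n4_bdd s q w hw u v)

open Classical in
private lemma n4_pos (hw : IsFinDist w) (F : Finset (G × I)) (t : Finset (G × Q))
    (c : G × Q → ℂ) :
    0 ≤ ∑ u ∈ t, ∑ v ∈ t, star (c u) * c v * ((n4_K s q w F u v : ℝ) : ℂ) := by
  have h1 : ∑ u ∈ t, ∑ v ∈ t, star (c u) * c v * ((n4_K s q w F u v : ℝ) : ℂ) =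
      ∑ A ∈ F.powerset, ((w F A : ℝ) : ℂ) * ∑ u ∈ t, ∑ v ∈ t, star (c u) * c v *
        (if WRel s q (A : Set (G × I)) u v then (1 : ℂ) else 0) := by
    simp only [Finset.mul_sum]
    rw [Finset.sum_comm (s := F.powerset) (t := t)]
    refine Finset.sum_congr rfl fun u _ => ?_
    rw [Finset.sum_comm (s := F.powerset) (t := t)]
    refine Finset.sum_congr rfl fun v _ => ?_
    rw [n4_K, Complex.ofReal_sum, Finset.mul_sum]
    refine Finset.sum_congr rfl fun A _ => ?_
    split_ifs
    · push_cast; ring
    · push_cast; ring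
  rw [h1]
  refine Finset.sum_nonneg fun A hA => ?_
  have h2 : (0 : ℂ) ≤ ((w F A : ℝ) : ℂ) := by
    exact_mod_cast hw.nonneg _ _ (Finset.mem_powerset.1 hA)
  refine mul_nonneg h2 ?_
  let st : Setoid (G × Q) := ⟨WRel s q (A : Set (G × I)), wrel_equivalence s q _⟩
  have h3 := n4_kernel_nonneg t c (fun u => (Quotient.mk st u))
  refine le_of_le_of_eq h3 ?_
  refine Finset.sum_congr rfl fun u _ => Finset.sum_congr rfl fun v _ => ?_
  have h4 : (Quotient.mk st u = Quotient.mk st v) ↔ WRel s q (A : Set (G × I)) u v :=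
    Quotient.eq
  by_cases h : WRel s q (A : Set (G × I)) u v
  · rw [if_pos h, if_pos (h4.2 h)]
  · rw [if_neg h, if_neg (fun h' => h (h4.1 h'))]

private lemma n4_posL (hw : IsFinDist w) (t : Finset (G × Q)) (c : G × Q → ℂ) :
    0 ≤ ∑ u ∈ t, ∑ v ∈ t, star (c u) * c v * ((n4_L s q w u v : ℝ) : ℂ) := by
  have h1 : Filter.Tendsto (fun F => ∑ u ∈ t, ∑ v ∈ t, star (c u) * c v *
      ((n4_K s q w F u v : ℝ) : ℂ)) Filter.atTop
      (nhds (∑ u ∈ t, ∑ v ∈ t, star (c u) * c v * ((n4_L s q w u v : ℝ) : ℂ))) := by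
    refine tendsto_finsetSum _ fun u _ => tendsto_finsetSum _ fun v _ => ?_
    exact ((Complex.continuous_ofReal.tendsto _).comp (n4_tendsto s q w hw u v)).const_mul _
  exact ge_of_tendsto' h1 fun F => n4_pos s q w hw F t c

open Classical in
private lemma n4_shift (hinv : ∀ (g : G) (F A : Finset (G × I)), A ⊆ F →
      w (F.image fun e => (g * e.1, e.2)) (A.image fun e => (g * e.1, e.2)) = w F A)
    (g a b : G) (p r : Q) :
    n4_L s q w (g * a, p) (g * b, r) = n4_L s q w (a, p) (b, r) := by
  let e : G × I ≃ G × I := (Equiv.mulLeft g).prodCongr (Equiv.refl I)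
  have he : ∀ F : Finset (G × I), e.finsetCongr F = F.image fun e => (g * e.1, e.2) := by
    intro F
    rw [Equiv.finsetCongr_apply, Finset.map_eq_image]
    rfl
  have hinj : Function.Injective fun x : G × I => (g * x.1, x.2) := e.injective
  have key : ∀ F : Finset (G × I), n4_K s q w (e.finsetCongr F) (g * a, p) (g * b, r) =
      n4_K s q w F (a, p) (b, r) := by
    intro F
    rw [he]
    unfold n4_K
    have hpow : (F.image fun e => (g * e.1, e.2)).powerset =
        F.powerset.image (fun A => A.image fun e => (g * e.1, e.2)) := by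
      ext B
      simp only [Finset.mem_powerset, Finset.mem_image]
      constructor
      · intro hB
        obtain ⟨A, hA, rfl⟩ := Finset.subset_image_iff.1 hB
        exact ⟨A, hA, rfl⟩
      · rintro ⟨A, hA, rfl⟩
        exact Finset.image_subset_image hA
    rw [hpow, Finset.sum_image (fun A _ B _ h => Finset.image_injective hinj h)]
    refine Finset.sum_congr rfl fun A hA => ?_
    rw [hinv g F A (Finset.mem_powerset.1 hA)]
    congr 1
    have h1 := wrel_shift s q (A : Set (G × I)) g a b p r
    rw [Finset.coe_image]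
    by_cases h : WRel s q (A : Set (G × I)) (a, p) (b, r)
    · rw [if_pos h, if_pos (h1.2 h)]
    · rw [if_neg h, if_neg (fun h' => h (h1.1 h'))]
  unfold n4_L
  rw [← Equiv.iSup_comp (g := fun F => n4_K s q w F (g * a, p) (g * b, r)) e.finsetCongr]
  exact iSup_congr key

open Classical in
private lemma n4_mulQ (a b : G) (x p r : Q) :
    n4_L s q w (a, x * p) (b, x * r) = n4_L s q w (a, p) (b, r) := by
  unfold n4_L
  refine iSup_congr fun F => ?_
  unfold n4_K
  refine Finset.sum_congr rfl fun A _ => ?_
  have h1 := wrel_mul_left s q (A : Set (G × I)) a b x p r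
  by_cases h : WRel s q (A : Set (G × I)) (a, p) (b, r)
  · rw [if_pos h, if_pos (h1.2 h)]
  · rw [if_neg h, if_neg (fun h' => h (h1.1 h'))]

end

open Classical in
theorem crit_of_forest {G I : Type} [Group G] [Fintype I] (s : I → G)
    (w : Finset (G × I) → Finset (G × I) → ℝ) (hw : IsFinDist w)
    (hinv : ∀ (g : G) (F A : Finset (G × I)), A ⊆ F →
      w (F.image fun e => (g * e.1, e.2)) (A.image fun e => (g * e.1, e.2)) = w F A)
    (hfor : ∀ F A : Finset (G × I), A ⊆ F → w F A ≠ 0 → IsForest s (A : Set (G × I)))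
    (h : 2 * Real.sqrt (Fintype.card I) < ∑ i, w {((1 : G), i)} {((1 : G), i)}) : Crit G := by
  have hcard : 0 < Fintype.card I := by
    rcases Nat.eq_zero_or_pos (Fintype.card I) with h0 | h0
    · exfalso
      have : IsEmpty I := Fintype.card_eq_zero_iff.1 h0
      rw [h0] at h
      simp at h
    · exact h0
  refine ⟨I, inferInstance, fun i => Finsupp.single (s i) 1, Fintype.card I, Fintype.card I,
    ∑ i, w {((1 : G), i)} {((1 : G), i)}, by exact_mod_cast hcard, by exact_mod_cast hcard,
    by linarith, ?_, ?_⟩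
  · intro H _ _ _ π
    have hrep : ∀ i, repSum π (Finsupp.single (s i) (1 : ℂ)) = (π (s i) : H →L[ℂ] H) := by
      intro i
      rw [repSum, Finsupp.sum_single_index (by rw [zero_smul]), one_smul]
    have hone : ‖(1 : H →L[ℂ] H)‖ ≤ 1 := ContinuousLinearMap.norm_id_le
    have hsum : ‖∑ _i : I, (1 : H →L[ℂ] H)‖ ≤ Fintype.card I := by
      refine (norm_sum_le _ _).trans ?_
      simp only [Finset.sum_const, Finset.card_univ, nsmul_eq_mul]
      nlinarith [Nat.cast_nonneg (α := ℝ) (Fintype.card I)]
    constructor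
    · have : ∑ i, repSum π (Finsupp.single (s i) (1 : ℂ)) *
          star (repSum π (Finsupp.single (s i) (1 : ℂ))) = ∑ _i : I, (1 : H →L[ℂ] H) :=
        Finset.sum_congr rfl fun i _ => by
          rw [hrep]
          exact Unitary.mul_star_self_of_mem (π (s i)).2
      rw [this]
      exact hsum
    · have : ∑ i, star (repSum π (Finsupp.single (s i) (1 : ℂ))) *
          repSum π (Finsupp.single (s i) (1 : ℂ)) = ∑ _i : I, (1 : H →L[ℂ] H) :=
        Finset.sum_congr rfl fun i _ => by
          rw [hrep]
          exact Unitary.star_mul_self_of_mem (π (s i)).2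
      rw [this]
      exact hsum
  · intro Q _ _ q
    have hinvL : ∀ a b : G × Q, n4_L s q w (1, 1) (a⁻¹ * b) = n4_L s q w a b := by
      rintro ⟨a1, a2⟩ ⟨b1, b2⟩
      have h1 := n4_shift s q w hinv a1 1 (a1⁻¹ * b1) 1 (a2⁻¹ * b2)
      have h2 := n4_mulQ s q w a1 b1 a2 1 (a2⁻¹ * b2)
      rw [mul_inv_cancel_left, mul_one] at h1
      rw [mul_inv_cancel_left, mul_one] at h2
      rw [h2, h1]
      rfl
    refine ⟨fun x => ((n4_L s q w (1, 1) x : ℝ) : ℂ), ?_, ?_, ?_⟩
    · intro t c
      have h1 := n4_posL s q w hw t c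
      refine le_of_le_of_eq h1 ?_
      refine Finset.sum_congr rfl fun a _ => Finset.sum_congr rfl fun b _ => ?_
      show _ = star (c a) * c b * ((n4_L s q w (1, 1) (a⁻¹ * b) : ℝ) : ℂ)
      rw [hinvL a b]
    · intro r
      have h1 : ∀ F, n4_K s q w F (1, 1) (1, r) = if r = 1 then 1 else 0 := by
        intro F
        have h2 : ∀ A ∈ F.powerset, w F A *
            (if WRel s q (A : Set (G × I)) (1, 1) (1, r) then (1 : ℝ) else 0) =
            w F A * (if r = 1 then 1 else 0) := by
          intro A hA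
          by_cases hwA : w F A = 0
          · rw [hwA, zero_mul, zero_mul]
          · have h3 := wrel_one_iff s q (A : Set (G × I))
              (hfor F A (Finset.mem_powerset.1 hA) hwA) r
            by_cases hr : r = 1
            · rw [if_pos hr, if_pos (h3.2 hr)]
            · rw [if_neg hr, if_neg (fun h' => hr (h3.1 h'))]
        rw [n4_K, Finset.sum_congr rfl h2, ← Finset.sum_mul, hw.sum_one, one_mul]
      have h2 : n4_L s q w (1, 1) (1, r) = if r = 1 then 1 else 0 := by
        unfold n4_L
        rw [iSup_congr h1, ciSup_const]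
      show ((n4_L s q w (1, 1) (1, r) : ℝ) : ℂ) = _
      rw [h2]
      split_ifs <;> simp
    · have h1 : ∀ i, (Finsupp.single (s i) (1 : ℂ)).sum (fun v c => c *
          ((n4_L s q w (1, 1) (v, q i) : ℝ) : ℂ)) =
          ((n4_L s q w (1, 1) (s i, q i) : ℝ) : ℂ) := by
        intro i
        rw [Finsupp.sum_single_index (by rw [zero_mul]), one_mul]
      show _ ≤ (∑ i, (Finsupp.single (s i) (1 : ℂ)).sum (fun v c => c *
          ((n4_L s q w (1, 1) (v, q i) : ℝ) : ℂ))).re
      simp_rw [h1]
      rw [Complex.re_sum]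
      simp only [Complex.ofReal_re]
      refine Finset.sum_le_sum fun i _ => ?_
      have h2 : n4_K s q w {((1 : G), i)} (1, 1) (s i, q i) ≤ n4_L s q w (1, 1) (s i, q i) :=
        le_ciSup (n4_bdd s q w hw (1, 1) (s i, q i)) _
      refine le_trans ?_ h2
      have h3 : WRel s q (({((1 : G), i)} : Finset (G × I)) : Set (G × I)) (1, 1) (s i, q i) :=
        wrel_edge s q _ i (by simp)
      have h4 := Finset.single_le_sum (f := fun A => w {((1 : G), i)} A *
        (if WRel s q (A : Set (G × I)) (1, 1) (s i, q i) then (1 : ℝ) else 0))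
        (s := ({((1 : G), i)} : Finset (G × I)).powerset)
        (fun A hA => mul_nonneg (hw.nonneg _ _ (Finset.mem_powerset.1 hA))
          (by split_ifs <;> norm_num))
        (Finset.mem_powerset_self ({((1 : G), i)} : Finset (G × I)))
      refine le_trans (le_of_eq ?_) h4
      show _ = w {((1 : G), i)} {((1 : G), i)} * _
      rw [if_pos h3, mul_one]

end Pool.Agent.Helper59.EX
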