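import Pool.Agent.Helper59.EX.Forest

/-!
EX-N6: finite dimensional distributions of an invariant random forest.
-/

open MeasureTheory

namespace Pool.Agent.Helper59.EX

open Classical in
/-- The finite dimensional distributions of a probability measure on the sets of edges. -/
noncomputable def measDist {E : Type} (P : Measure (E → Bool)) (F A : Finset E) : ℝ :=
  P.real {ω | ∀ e ∈ F, (ω e = true ↔ e ∈ A)}

private theorem n6_meas {E : Type} (F A : Finset E) :
    MeasurableSet {ω : E → Bool | ∀ e ∈ F, (ω e = true ↔ e ∈ A)} := by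
  have h : {ω : E → Bool | ∀ e ∈ F, (ω e = true ↔ e ∈ A)} =
      ⋂ e ∈ F, {ω : E → Bool | (ω e = true ↔ e ∈ A)} := by
    ext ω; simp
  rw [h]
  refine Finset.measurableSet_biInter F fun e _ => ?_
  by_cases hA : e ∈ A
  · have h1 : {ω : E → Bool | (ω e = true ↔ e ∈ A)} = (fun ω : E → Bool => ω e) ⁻¹' {true} := by
      ext ω; simp [hA]
    rw [h1]
    exact measurable_pi_apply e (MeasurableSet.singleton true)
  · have h1 : {ω : E → Bool | (ω e = true ↔ e ∈ A)} = (fun ω : E → Bool => ω e) ⁻¹' {false} := by
      ext ω; simp [hA]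
    rw [h1]
    exact measurable_pi_apply e (MeasurableSet.singleton false)

private theorem n6_mem_iff {E : Type} [DecidableEq E] (F A : Finset E) (hA : A ⊆ F)
    (ω : E → Bool) :
    (∀ e ∈ F, (ω e = true ↔ e ∈ A)) ↔ F.filter (fun e => ω e = true) = A := by
  constructor
  · intro h
    ext e
    rw [Finset.mem_filter]
    constructor
    · rintro ⟨h1, h2⟩; exact (h e h1).1 h2
    · intro h1; exact ⟨hA h1, (h e (hA h1)).2 h1⟩
  · rintro rfl e he
    rw [Finset.mem_filter]
    exact ⟨fun h => ⟨he, h⟩, fun h => h.2⟩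

private theorem n6_disj {E : Type} (F : Finset E) (S : Finset (Finset E))
    (hS : ∀ A ∈ S, A ⊆ F) :
    (S : Set (Finset E)).PairwiseDisjoint
      (fun A => {ω : E → Bool | ∀ e ∈ F, (ω e = true ↔ e ∈ A)}) := by
  classical
  intro A hA B hB hAB
  rw [Function.onFun, Set.disjoint_left]
  intro ω h1 h2
  exact hAB (((n6_mem_iff F A (hS A hA) ω).1 h1).symm.trans
    ((n6_mem_iff F B (hS B hB) ω).1 h2))

theorem measDist_isFinDist {E : Type} (P : Measure (E → Bool)) [IsProbabilityMeasure P] :
    IsFinDist (measDist P) := by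
  classical
  refine ⟨fun F A _ => measureReal_nonneg, fun F => ?_, fun F F' hF A hA => ?_⟩
  · unfold measDist
    rw [← measureReal_biUnion_finset (n6_disj F F.powerset fun A hA => Finset.mem_powerset.1 hA)
      (fun A _ => n6_meas F A)]
    have h : (⋃ A ∈ F.powerset, {ω : E → Bool | ∀ e ∈ F, (ω e = true ↔ e ∈ A)}) = Set.univ := by
      refine Set.eq_univ_of_forall fun ω => ?_
      simp only [Set.mem_iUnion]
      refine ⟨F.filter (fun e => ω e = true), Finset.mem_powerset.2 (Finset.filter_subset _ _), ?_⟩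
      exact (n6_mem_iff F _ (Finset.filter_subset _ _) ω).2 rfl
    rw [h, probReal_univ]
  · unfold measDist
    rw [← measureReal_biUnion_finset (n6_disj F' _ fun B hB =>
      Finset.mem_powerset.1 (Finset.mem_filter.1 hB).1) (fun A _ => n6_meas F' A)]
    congr 1
    ext ω
    simp only [Set.mem_iUnion]
    constructor
    · rintro ⟨B, hB, hω⟩
      rw [Finset.mem_filter, Finset.mem_powerset] at hB
      intro e he
      rw [← hB.2, Finset.mem_inter]
      have h1 := hω e (hF he)
      exact ⟨fun h => ⟨h1.1 h, he⟩, fun h => h1.2 h.1⟩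
    · intro hω
      refine ⟨F'.filter (fun e => ω e = true), ?_, ?_⟩
      · rw [Finset.mem_filter, Finset.mem_powerset]
        refine ⟨Finset.filter_subset _ _, ?_⟩
        rw [← (n6_mem_iff F A hA ω).1 hω]
        ext e
        simp only [Finset.mem_inter, Finset.mem_filter]
        exact ⟨fun h => ⟨h.2, h.1.2⟩, fun h => ⟨⟨hF h.1, h.2⟩, h.1⟩⟩
      · exact (n6_mem_iff F' _ (Finset.filter_subset _ _) ω).2 rfl

open Classical in
theorem measDist_image {G I : Type} [Group G] (P : Measure (G × I → Bool))
    (hP : ∀ g : G, P.map (fun ω e => ω (g⁻¹ * e.1, e.2)) = P) (g : G)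
    (F A : Finset (G × I)) (hA : A ⊆ F) :
    measDist P (F.image fun e => (g * e.1, e.2)) (A.image fun e => (g * e.1, e.2)) =
      measDist P F A := by
  have hT : Measurable (fun (ω : G × I → Bool) (e : G × I) => ω (g⁻¹ * e.1, e.2)) :=
    measurable_pi_lambda _ fun e => measurable_pi_apply _
  unfold measDist
  conv_lhs => rw [← hP g]
  rw [map_measureReal_apply hT (n6_meas _ _)]
  congr 1
  ext ω
  have hinj : Function.Injective (fun e : G × I => (g * e.1, e.2)) := by
    rintro ⟨a, i⟩ ⟨b, j⟩ h
    simpa using h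
  simp only [Set.mem_preimage, Finset.forall_mem_image]
  constructor
  · intro h e he
    have h1 := h he
    rw [hinj.mem_finset_image] at h1
    simpa using h1
  · intro h e he
    rw [hinj.mem_finset_image]
    simpa using h e he

theorem measDist_forest {G I : Type} [Group G] (s : I → G) (P : Measure (G × I → Bool))
    (hP : ∀ᵐ ω ∂P, IsForest s {e | ω e = true}) (F A : Finset (G × I)) (hA : A ⊆ F)
    (h : measDist P F A ≠ 0) : IsForest s (A : Set (G × I)) := by
  by_contra hcon
  apply h
  unfold measDist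
  rw [measureReal_def]
  have h0 : P {ω | ∀ e ∈ F, (ω e = true ↔ e ∈ A)} = 0 := by
    refine measure_mono_null ?_ hP
    intro ω hω hf
    apply hcon
    intro a l hw hl hn
    exact hf a l hw (fun e he => (hω e.1 (hA (hl e he))).2 (hl e he)) hn
  rw [h0, ENNReal.toReal_zero]

theorem measDist_singleton {E : Type} (P : Measure (E → Bool)) (e : E) :
    measDist P {e} {e} = P.real {ω | ω e = true} := by
  unfold measDist
  congr 1
  ext ω
  simp

end Pool.Agent.Helper59.EX
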