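import Pool.Agent.Helper59.EX.Monod0

/-!
EX-M2: basic properties of Moebius transformations and locally projective homeomorphisms.
-/

open Matrix OnePoint Topology
open scoped MatrixGroups

namespace Pool.Agent.Helper59.EX

theorem mobPerm_apply {K : Type*} [Field K] [DecidableEq K] (g : SL(2, K)) (x : OnePoint K) :
    mobPerm g x = mob g x := by
  rfl

theorem mob_mul {K : Type*} [Field K] [DecidableEq K] (g h : SL(2, K)) (x : OnePoint K) :
    mob (g * h) x = mob g (mob h x) := by
  rw [← mobPerm_apply, ← mobPerm_apply, ← mobPerm_apply, map_mul]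
  rfl

private theorem mob_one {K : Type*} [Field K] [DecidableEq K] (x : OnePoint K) :
    mob (1 : SL(2, K)) x = x := by
  rw [← mobPerm_apply, map_one]
  rfl

private theorem mob_inv_mob {K : Type*} [Field K] [DecidableEq K] (g : SL(2, K))
    (x : OnePoint K) : mob g⁻¹ (mob g x) = x := by
  rw [← mob_mul, inv_mul_cancel, mob_one]

private theorem mob_some_ite {K : Type*} [Field K] [DecidableEq K] (g : SL(2, K)) (x : K) :
    mob g (x : OnePoint K) = if g 1 0 * x + g 1 1 = 0 then ∞ else
      (((g 0 0 * x + g 0 1) / (g 1 0 * x + g 1 1) : K) : OnePoint K) :=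
  OnePoint.smul_some_eq_ite

private theorem mob_infty_ite {K : Type*} [Field K] [DecidableEq K] (g : SL(2, K)) :
    mob g (∞ : OnePoint K) = if g 1 0 = 0 then ∞ else ((g 0 0 / g 1 0 : K) : OnePoint K) :=
  OnePoint.smul_infty_eq_ite _

theorem mob_coe {K : Type*} [Field K] [DecidableEq K] (g : SL(2, K)) (x : K)
    (h : g 1 0 * x + g 1 1 ≠ 0) :
    mob g (x : OnePoint K) = (((g 0 0 * x + g 0 1) / (g 1 0 * x + g 1 1) : K) : OnePoint K) := by
  rw [mob_some_ite, if_neg h]

private theorem tendsto_some_infty {α : Type*} {l : Filter α} {u : α → ℝ}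
    (h : Filter.Tendsto (fun a => |u a|) l Filter.atTop) :
    Filter.Tendsto (fun a => (u a : OnePoint ℝ)) l (𝓝 ∞) := by
  refine OnePoint.tendsto_coe_infty.comp ?_
  rw [Filter.coclosedCompact_eq_cocompact, ← Metric.cobounded_eq_cocompact]
  exact tendsto_norm_atTop_iff_cobounded.1 h

private theorem det_eq (g : SL(2, ℝ)) : g 0 0 * g 1 1 - g 0 1 * g 1 0 = 1 := by
  have := g.det_coe
  rw [Matrix.det_fin_two] at this
  exact this

private theorem affine_atTop (c d : ℝ) (hc : c ≠ 0) :
    Filter.Tendsto (fun y : ℝ => |c * y + d|) (Filter.cocompact ℝ) Filter.atTop := by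
  rw [← Metric.cobounded_eq_cocompact]
  have h1 : Filter.Tendsto (fun y : ℝ => |y|) (Bornology.cobounded ℝ) Filter.atTop :=
    tendsto_norm_cobounded_atTop
  have h2 : Filter.Tendsto (fun y : ℝ => |c| * |y| - |d|) (Bornology.cobounded ℝ)
      Filter.atTop :=
    Filter.tendsto_atTop_add_const_right _ (-|d|) (h1.const_mul_atTop (abs_pos.2 hc))
  refine Filter.tendsto_atTop_mono (fun y => ?_) h2
  have := abs_sub_abs_le_abs_sub (c * y) (-d)
  rw [abs_neg, sub_neg_eq_add, abs_mul] at this
  exact this

theorem continuous_mob (g : SL(2, ℝ)) : Continuous (mob g) := by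
  rw [continuous_iff_continuousAt]
  have hdet := det_eq g
  intro x
  induction x using OnePoint.rec with
  | infty =>
    rw [OnePoint.continuousAt_infty', Filter.coclosedCompact_eq_cocompact, mob_infty_ite]
    by_cases hc : g 1 0 = 0
    · rw [if_pos hc]
      have hd : g 1 1 ≠ 0 := by
        intro h0
        rw [h0, hc] at hdet
        norm_num at hdet
      have ha : g 0 0 ≠ 0 := by
        intro h0
        rw [h0, hc] at hdet
        norm_num at hdet
      have h1 : (mob g ∘ ((↑) : ℝ → OnePoint ℝ)) =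
          fun y : ℝ => ((g 0 0 / g 1 1 * y + g 0 1 / g 1 1 : ℝ) : OnePoint ℝ) := by
        funext y
        have hy : g 1 0 * y + g 1 1 ≠ 0 := by rw [hc]; simpa using hd
        rw [Function.comp_apply, mob_coe g y hy, hc]
        congr 1
        rw [zero_mul, zero_add]
        field_simp
      rw [h1]
      exact tendsto_some_infty (affine_atTop _ _ (div_ne_zero ha hd))
    · rw [if_neg hc]
      have h2 := affine_atTop (g 1 0) (g 1 1) hc
      have hne : ∀ᶠ y : ℝ in Filter.cocompact ℝ, g 1 0 * y + g 1 1 ≠ 0 := by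
        filter_upwards [h2.eventually_gt_atTop 0] with y hy
        exact abs_pos.1 hy
      have h3 : Filter.Tendsto (fun y : ℝ => g 0 0 / g 1 0 - 1 / g 1 0 * (g 1 0 * y + g 1 1)⁻¹)
          (Filter.cocompact ℝ) (𝓝 (g 0 0 / g 1 0 - 1 / g 1 0 * 0)) := by
        refine tendsto_const_nhds.sub (tendsto_const_nhds.mul ?_)
        rw [tendsto_zero_iff_abs_tendsto_zero]
        have h4 := tendsto_inv_atTop_zero.comp h2
        refine h4.congr fun y => ?_
        simp [abs_inv]
      rw [mul_zero, sub_zero] at h3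
      have h5 := (OnePoint.continuous_coe.tendsto (g 0 0 / g 1 0)).comp h3
      refine h5.congr' ?_
      filter_upwards [hne] with y hy
      rw [Function.comp_apply, Function.comp_apply, mob_coe g y hy]
      congr 1
      field_simp
      linear_combination hdet
  | coe x =>
    rw [OnePoint.continuousAt_coe]
    have hden : Filter.Tendsto (fun y : ℝ => g 1 0 * y + g 1 1) (𝓝 x)
        (𝓝 (g 1 0 * x + g 1 1)) := by
      have : Continuous fun y : ℝ => g 1 0 * y + g 1 1 := by fun_prop
      exact this.tendsto x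
    have hnum : Filter.Tendsto (fun y : ℝ => g 0 0 * y + g 0 1) (𝓝 x)
        (𝓝 (g 0 0 * x + g 0 1)) := by
      have : Continuous fun y : ℝ => g 0 0 * y + g 0 1 := by fun_prop
      exact this.tendsto x
    by_cases hx : g 1 0 * x + g 1 1 = 0
    · have hc : g 1 0 ≠ 0 := by
        intro h0
        rw [h0, zero_mul, zero_add] at hx
        rw [h0, hx] at hdet
        norm_num at hdet
      have hnx : g 0 0 * x + g 0 1 ≠ 0 := by
        intro h0
        have : g 0 0 * g 1 1 - g 0 1 * g 1 0 =
            g 0 0 * (g 1 0 * x + g 1 1) - g 1 0 * (g 0 0 * x + g 0 1) := by ring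
        rw [h0, hx] at this
        rw [this] at hdet
        norm_num at hdet
      have hval : mob g (x : OnePoint ℝ) = ∞ := by rw [mob_some_ite, if_pos hx]
      have hne : ∀ y : ℝ, y ≠ x → g 1 0 * y + g 1 1 ≠ 0 := by
        intro y hy h0
        apply hy
        have : g 1 0 * (y - x) = 0 := by linear_combination h0 - hx
        rcases mul_eq_zero.1 this with h | h
        · exact absurd h hc
        · linarith
      rw [ContinuousAt, Function.comp_apply, hval, ← nhdsNE_sup_pure, Filter.tendsto_sup]
      constructor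
      · have h1 : Filter.Tendsto (fun y : ℝ => |(g 0 0 * y + g 0 1) / (g 1 0 * y + g 1 1)|)
            (𝓝[≠] x) Filter.atTop := by
          have h2 : Filter.Tendsto (fun y : ℝ => |g 0 0 * y + g 0 1|) (𝓝[≠] x)
              (𝓝 |g 0 0 * x + g 0 1|) := (hnum.mono_left nhdsWithin_le_nhds).abs
          have h3 : Filter.Tendsto (fun y : ℝ => |g 1 0 * y + g 1 1|) (𝓝[≠] x) (𝓝[>] 0) := by
            rw [tendsto_nhdsWithin_iff]
            constructor
            · have := (hden.mono_left nhdsWithin_le_nhds : Filter.Tendsto _ (𝓝[≠] x) _).abs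
              rwa [hx, abs_zero] at this
            · filter_upwards [self_mem_nhdsWithin] with y hy
              exact abs_pos.2 (hne y hy)
          have h4 := (h2.pos_mul_atTop (abs_pos.2 hnx) (tendsto_inv_nhdsGT_zero.comp h3))
          refine h4.congr fun y => ?_
          rw [Function.comp_apply, abs_div, div_eq_mul_inv]
        refine (tendsto_some_infty h1).congr' ?_
        filter_upwards [self_mem_nhdsWithin] with y hy
        rw [Function.comp_apply, mob_coe g y (hne y hy)]
      · rw [Filter.tendsto_pure_left]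
        intro s hs
        rw [Function.comp_apply, hval]
        exact mem_of_mem_nhds hs
    · have h1 : Filter.Tendsto (fun y : ℝ => (((g 0 0 * y + g 0 1) / (g 1 0 * y + g 1 1) : ℝ) :
          OnePoint ℝ)) (𝓝 x) (𝓝 (((g 0 0 * x + g 0 1) / (g 1 0 * x + g 1 1) : ℝ) :
          OnePoint ℝ)) :=
        (OnePoint.continuous_coe.tendsto _).comp (hnum.div hden hx)
      rw [ContinuousAt, Function.comp_apply, mob_coe g x hx]
      refine h1.congr' ?_
      filter_upwards [hden.eventually_ne hx] with y hy
      rw [Function.comp_apply, mob_coe g y hy]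

/-- Two Moebius transformations which agree near a point are equal. -/
theorem mobPerm_eq_of_eventuallyEq (g h : SL(2, ℝ)) (x : OnePoint ℝ)
    (H : ∀ᶠ y in 𝓝 x, mob g y = mob h y) : mobPerm g = mobPerm h := by
  set k := h⁻¹ * g with hk
  have hdet := det_eq k
  have hkg : h * k = g := by rw [hk, mul_inv_cancel_left]
  have H1 : ∀ᶠ y in 𝓝 x, mob k y = y := by
    filter_upwards [H] with y hy
    rw [hk, mob_mul, hy, mob_inv_mob]
  have hinf : {y : ℝ | mob k (y : OnePoint ℝ) = y}.Infinite := by
    induction x using OnePoint.rec with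
    | infty =>
      have h1 := OnePoint.tendsto_coe_infty.eventually H1
      rw [Filter.coclosedCompact_eq_cocompact] at h1
      intro hfin
      have h2 : {y : ℝ | mob k (y : OnePoint ℝ) = y}ᶜ ∈ Filter.cocompact ℝ :=
        hfin.isCompact.compl_mem_cocompact
      have h3 := Filter.inter_mem h1 h2
      have h4 : ({y : ℝ | mob k (y : OnePoint ℝ) = y} ∩
          {y : ℝ | mob k (y : OnePoint ℝ) = y}ᶜ) = ∅ := Set.inter_compl_self _
      have h5 : (∅ : Set ℝ) ∈ Filter.cocompact ℝ := h4 ▸ h3
      exact Filter.empty_notMem _ h5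
    | coe x =>
      have h1 := (OnePoint.continuous_coe.tendsto x).eventually H1
      exact infinite_of_mem_nhds x h1
  have hroot : ∀ y : ℝ, mob k (y : OnePoint ℝ) = y →
      k 1 0 * y ^ 2 + (k 1 1 - k 0 0) * y - k 0 1 = 0 := by
    intro y hy
    rw [mob_some_ite] at hy
    by_cases h0 : k 1 0 * y + k 1 1 = 0
    · rw [if_pos h0] at hy
      exact absurd hy (OnePoint.infty_ne_coe y)
    · rw [if_neg h0, OnePoint.coe_eq_coe, div_eq_iff h0] at hy
      linear_combination (-1 : ℝ) * hy
  have hpoly : (Polynomial.C (k 1 0) * Polynomial.X ^ 2 +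
      Polynomial.C (k 1 1 - k 0 0) * Polynomial.X - Polynomial.C (k 0 1) : Polynomial ℝ) = 0 := by
    refine Polynomial.eq_zero_of_infinite_isRoot _ (hinf.mono fun y hy => ?_)
    show Polynomial.IsRoot _ y
    rw [Polynomial.IsRoot.def]
    simp only [Polynomial.eval_sub, Polynomial.eval_add, Polynomial.eval_mul, Polynomial.eval_C,
      Polynomial.eval_pow, Polynomial.eval_X]
    exact hroot y hy
  have hc : k 1 0 = 0 := by
    have := congrArg (fun p => Polynomial.coeff p 2) hpoly
    simpa [Polynomial.coeff_X, Polynomial.coeff_C] using this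
  have hb : k 0 1 = 0 := by
    have := congrArg (fun p => Polynomial.coeff p 0) hpoly
    simpa [Polynomial.coeff_X, Polynomial.coeff_C] using this
  have had : k 1 1 - k 0 0 = 0 := by
    have := congrArg (fun p => Polynomial.coeff p 1) hpoly
    simpa [Polynomial.coeff_X, Polynomial.coeff_C, Polynomial.coeff_X_pow] using this
  have hd : k 1 1 ≠ 0 := by
    intro h0
    rw [h0, hc] at hdet
    norm_num at hdet
  have hall : ∀ y : OnePoint ℝ, mob k y = y := by
    intro y
    induction y using OnePoint.rec with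
    | infty => rw [mob_infty_ite, if_pos hc]
    | coe y =>
      have h1 : k 1 0 * y + k 1 1 ≠ 0 := by rw [hc]; simpa using hd
      rw [mob_coe k y h1, hc, hb, zero_mul, zero_add, add_zero]
      congr 1
      rw [div_eq_iff hd]
      linear_combination (-y) * had
  ext1 y
  rw [mobPerm_apply, mobPerm_apply, ← hkg, mob_mul, hall]

theorem LocMob.mul {f g : OnePoint ℝ ≃ₜ OnePoint ℝ} {x : OnePoint ℝ} (hg : LocMob g x)
    (hf : LocMob f (g x)) : LocMob (f * g) x := by
  obtain ⟨γ, hγ⟩ := hg
  obtain ⟨φ, hφ⟩ := hf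
  refine ⟨φ * γ, ?_⟩
  have h1 := (g.continuous.tendsto x).eventually hφ
  filter_upwards [hγ, h1] with y h2 h3
  show f (g y) = _
  rw [h3, h2, mob_mul]

theorem LocMob.inv {f : OnePoint ℝ ≃ₜ OnePoint ℝ} {x : OnePoint ℝ} (hf : LocMob f x) :
    LocMob f⁻¹ (f x) := by
  obtain ⟨γ, hγ⟩ := hf
  refine ⟨γ⁻¹, ?_⟩
  have h0 : Filter.Tendsto f.symm (𝓝 (f x)) (𝓝 x) := by
    have := f.symm.continuous.tendsto (f x)
    rwa [f.symm_apply_apply] at this
  filter_upwards [h0.eventually hγ] with y hy
  show f.symm y = _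
  rw [f.apply_symm_apply] at hy
  have h1 : mob γ⁻¹ y = mob γ⁻¹ (mob γ (f.symm y)) := congrArg _ hy
  rw [h1, mob_inv_mob]

end Pool.Agent.Helper59.EX
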