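import Pool.Agent.Helper59.EX.Monod0
import Pool.Agent.Helper59.EX.St.M2

/-!
EX-M2b: piecewise projective homeomorphisms form a group.
-/

open Matrix OnePoint Topology
open scoped MatrixGroups

namespace Pool.Agent.Helper59.EX

private theorem M2b_one {K : Type*} [Field K] [DecidableEq K] (x : OnePoint K) :
    mob (1 : SL(2, K)) x = x := by
  rw [← mobPerm_apply, map_one]
  rfl

private theorem M2b_inv_mob {K : Type*} [Field K] [DecidableEq K] (g : SL(2, K))
    (x : OnePoint K) : mob g⁻¹ (mob g x) = x := by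
  rw [← mob_mul, inv_mul_cancel, M2b_one]

theorem hypFix_smul (A : Subring ℝ) (g : SL(2, A)) {x : OnePoint ℝ} (hx : x ∈ hypFix A) :
    mob (Matrix.SpecialLinearGroup.map A.subtype g) x ∈ hypFix A := by
  obtain ⟨h, hh, hhx⟩ := hx
  refine ⟨g * h * g⁻¹, ?_, ?_⟩
  · have ht : (g * h * g⁻¹) 0 0 + (g * h * g⁻¹) 1 1 = h 0 0 + h 1 1 := by
      have h1 : Matrix.trace ((g * h * g⁻¹ : SL(2, A)) : Matrix (Fin 2) (Fin 2) A) =
          Matrix.trace (h : Matrix (Fin 2) (Fin 2) A) := by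
        rw [Matrix.SpecialLinearGroup.coe_mul, Matrix.trace_mul_comm,
          ← Matrix.SpecialLinearGroup.coe_mul, ← mul_assoc, inv_mul_cancel, one_mul]
      rw [Matrix.trace_fin_two, Matrix.trace_fin_two] at h1
      exact h1
    have ht' : (((g * h * g⁻¹) 0 0 : A) : ℝ) + (((g * h * g⁻¹) 1 1 : A) : ℝ) =
        ((h 0 0 : A) : ℝ) + ((h 1 1 : A) : ℝ) := by exact_mod_cast congrArg Subtype.val ht
    rw [ht']
    exact hh
  · rw [map_mul, map_mul, map_inv, mob_mul, M2b_inv_mob, mob_mul, hhx]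

theorem IsPiecewise.one (A : Subring ℝ) : IsPiecewise A 1 := by
  refine ⟨∅, Set.finite_empty, Set.empty_subset _, fun x _ => ⟨1, ?_⟩⟩
  refine Filter.Eventually.of_forall fun y => ?_
  rw [map_one, M2b_one]
  rfl

theorem IsPiecewise.mul {A : Subring ℝ} {f g : OnePoint ℝ ≃ₜ OnePoint ℝ} (hf : IsPiecewise A f)
    (hg : IsPiecewise A g) : IsPiecewise A (f * g) := by
  obtain ⟨F, hF, hFA, hf⟩ := hf
  obtain ⟨G, hG, hGA, hg⟩ := hg
  refine ⟨G ∪ (g ⁻¹' F), hG.union (hF.preimage g.injective.injOn), ?_, ?_⟩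
  · rintro x (hx | hx)
    · exact hGA hx
    · by_cases hxG : x ∈ G
      · exact hGA hxG
      · obtain ⟨γ, hγ⟩ := hg x hxG
        have h1 := hγ.self_of_nhds
        have h2 : x = mob (Matrix.SpecialLinearGroup.map A.subtype γ⁻¹) (g x) := by
          rw [h1, map_inv, M2b_inv_mob]
        rw [h2]
        exact hypFix_smul A γ⁻¹ (hFA hx)
  · intro x hx
    rw [Set.mem_union, not_or] at hx
    obtain ⟨γ, hγ⟩ := hg x hx.1
    obtain ⟨φ, hφ⟩ := hf (g x) hx.2
    refine ⟨φ * γ, ?_⟩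
    have h3 := (g.continuous.tendsto x).eventually hφ
    filter_upwards [hγ, h3] with y hy1 hy2
    change f (g y) = _
    rw [hy2, map_mul, mob_mul, hy1]

/-- The local elements are constant on a connected set avoiding the breakpoints. -/
private theorem M2b_const {A : Subring ℝ} {f : OnePoint ℝ ≃ₜ OnePoint ℝ} {F : Set (OnePoint ℝ)}
    (hf : ∀ x ∉ F, ∃ g : SL(2, A),
      ∀ᶠ y in 𝓝 x, f y = mob (Matrix.SpecialLinearGroup.map A.subtype g) y)
    (S : Set ℝ) (hS : IsPreconnected S) (hne : S.Nonempty)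
    (hSF : ∀ z ∈ S, (z : OnePoint ℝ) ∉ F) :
    ∃ g : SL(2, A), ∀ z ∈ S, f (z : OnePoint ℝ) =
      mob (Matrix.SpecialLinearGroup.map A.subtype g) (z : OnePoint ℝ) := by
  classical
  choose! γ hγ using hf
  let c : S → Equiv.Perm (OnePoint ℝ) := fun z =>
    mobPerm (Matrix.SpecialLinearGroup.map A.subtype (γ ((z : ℝ) : OnePoint ℝ)))
  have hc : IsLocallyConstant c := by
    rw [IsLocallyConstant.iff_eventually_eq]
    intro z
    have h1 := (hγ _ (hSF z z.2)).eventually_nhds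
    have hcont : Continuous fun w : S => ((w : ℝ) : OnePoint ℝ) :=
      OnePoint.continuous_coe.comp continuous_subtype_val
    have h2 := (hcont.tendsto z).eventually h1
    filter_upwards [h2] with w hw
    refine mobPerm_eq_of_eventuallyEq _ _ ((w : ℝ) : OnePoint ℝ) ?_
    filter_upwards [hw, hγ _ (hSF w w.2)] with y hy1 hy2
    rw [← hy1, ← hy2]
  obtain ⟨z0, hz0⟩ := hne
  refine ⟨γ (z0 : OnePoint ℝ), ?_⟩
  intro z hz
  have : PreconnectedSpace S := isPreconnected_iff_preconnectedSpace.1 hS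
  have h3 : c ⟨z, hz⟩ = c ⟨z0, hz0⟩ :=
    hc.apply_eq_of_isPreconnected isPreconnected_univ (Set.mem_univ _) (Set.mem_univ _)
  have h4 := (hγ _ (hSF z hz)).self_of_nhds
  rw [h4, ← mobPerm_apply, ← mobPerm_apply]
  exact congrArg (fun p : Equiv.Perm (OnePoint ℝ) => p (z : OnePoint ℝ)) h3

/-- At every point `f x` is the image of `x` under an element of `SL(2, A)` (a one-sided germ). -/
theorem IsPiecewise.apply_eq {A : Subring ℝ} {f : OnePoint ℝ ≃ₜ OnePoint ℝ}
    (hf : IsPiecewise A f) (x : OnePoint ℝ) : ∃ g : SL(2, A),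
      f x = mob (Matrix.SpecialLinearGroup.map A.subtype g) x := by
  obtain ⟨F, hF, hFA, hf⟩ := hf
  have hFr : (((↑) : ℝ → OnePoint ℝ) ⁻¹' F).Finite :=
    hF.preimage OnePoint.coe_injective.injOn
  have key : ∀ S : Set ℝ, IsPreconnected S → S.Nonempty → (∀ z ∈ S, (z : OnePoint ℝ) ∉ F) →
      x ∈ closure (((↑) : ℝ → OnePoint ℝ) '' S) → ∃ g : SL(2, A),
      f x = mob (Matrix.SpecialLinearGroup.map A.subtype g) x := by
    intro S h1 h2 h3 h4
    obtain ⟨g, hg⟩ := M2b_const hf S h1 h2 h3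
    refine ⟨g, ?_⟩
    have hcl : IsClosed {y : OnePoint ℝ | f y =
        mob (Matrix.SpecialLinearGroup.map A.subtype g) y} :=
      isClosed_eq f.continuous (continuous_mob _)
    have hsub : ((↑) : ℝ → OnePoint ℝ) '' S ⊆ {y : OnePoint ℝ | f y =
        mob (Matrix.SpecialLinearGroup.map A.subtype g) y} := by
      rintro _ ⟨z, hz, rfl⟩
      exact hg z hz
    exact hcl.closure_subset_iff.2 hsub h4
  induction x using OnePoint.rec with
  | infty =>
    obtain ⟨M, hM⟩ := hFr.bddAbove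
    refine key (Set.Ioi M) isPreconnected_Ioi Set.nonempty_Ioi ?_ ?_
    · intro z hz hzF
      exact absurd (hM hzF) (not_le.2 hz)
    · have ht : Filter.Tendsto ((↑) : ℝ → OnePoint ℝ) Filter.atTop (𝓝 ∞) := by
        refine OnePoint.tendsto_coe_infty.mono_left ?_
        rw [Filter.coclosedCompact_eq_cocompact]
        exact atTop_le_cocompact
      refine mem_closure_of_tendsto ht ?_
      filter_upwards [Filter.eventually_gt_atTop M] with z hz
      exact ⟨z, hz, rfl⟩
  | coe x =>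
    have hfin : ((((↑) : ℝ → OnePoint ℝ) ⁻¹' F) \ {x}).Finite := hFr.subset Set.sdiff_subset
    have hn : ((((↑) : ℝ → OnePoint ℝ) ⁻¹' F) \ {x})ᶜ ∈ 𝓝 x :=
      hfin.isClosed.isOpen_compl.mem_nhds (by simp)
    obtain ⟨ε, hε, hb⟩ := Metric.mem_nhds_iff.1 hn
    have hlt : x < x + ε := by linarith
    refine key (Set.Ioo x (x + ε)) isPreconnected_Ioo (Set.nonempty_Ioo.2 hlt) ?_ ?_
    · intro z hz hzF
      have hz1 : z ∈ Metric.ball x ε := by
        rw [Metric.mem_ball, Real.dist_eq, abs_of_pos (by linarith [hz.1])]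
        linarith [hz.2]
      exact hb hz1 ⟨hzF, fun h => absurd h (ne_of_gt hz.1)⟩
    · apply image_closure_subset_closure_image OnePoint.continuous_coe
      refine ⟨x, ?_, rfl⟩
      rw [closure_Ioo (ne_of_lt hlt)]
      exact ⟨le_refl _, hlt.le⟩

theorem IsPiecewise.inv {A : Subring ℝ} {f : OnePoint ℝ ≃ₜ OnePoint ℝ} (hf : IsPiecewise A f) :
    IsPiecewise A f⁻¹ := by
  have happ := hf.apply_eq
  obtain ⟨F, hF, hFA, hf⟩ := hf
  refine ⟨f '' F, hF.image f, ?_, ?_⟩
  · rintro _ ⟨x, hx, rfl⟩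
    obtain ⟨g, hg⟩ := happ x
    rw [hg]
    exact hypFix_smul A g (hFA hx)
  · intro y hy
    have hx : f.symm y ∉ F := by
      intro h
      exact hy ⟨f.symm y, h, f.apply_symm_apply y⟩
    obtain ⟨γ, hγ⟩ := hf _ hx
    refine ⟨γ⁻¹, ?_⟩
    have h1 := (f.symm.continuous.tendsto y).eventually hγ
    filter_upwards [h1] with w hw
    rw [f.apply_symm_apply] at hw
    change f.symm w = _
    rw [map_inv]
    conv_rhs => rw [hw]
    rw [M2b_inv_mob]

end Pool.Agent.Helper59.EX
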