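import Pool.Agent.Helper59.EX.Defs

/-!
EX-G1, G2: subquotients.
-/

namespace Pool.Agent.Helper59.EX

theorem HasSubquotient.trans {G H K : Type} [Group G] [Group H] [Group K]
    (h1 : HasSubquotient G H) (h2 : HasSubquotient H K) : HasSubquotient G K := by
  obtain ⟨Λ1, p1, hp1⟩ := h1
  obtain ⟨Λ2, p2, hp2⟩ := h2
  let e := (Λ2.comap p1).equivMapOfInjective Λ1.subtype Λ1.subtype_injective
  refine ⟨(Λ2.comap p1).map Λ1.subtype,
    p2.comp ((p1.subgroupComap Λ2).comp e.symm.toMonoidHom), ?_⟩
  intro k
  obtain ⟨y, hy⟩ := hp2 k
  obtain ⟨x, hx⟩ := MonoidHom.subgroupComap_surjective_of_surjective p1 Λ2 hp1 y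
  refine ⟨e x, ?_⟩
  simp [hx, hy]

theorem HasSubquotient.wreath {L B G : Type} [Group L] [Group B] [Group G] (G0 : Subgroup G)
    (h : HasSubquotient L B) :
    HasSubquotient (restrictedWreath L G) (restrictedWreath B G0) := by
  classical
  obtain ⟨Λ, p, hp⟩ := h
  let Δ : Subgroup (restrictedWreath L G) :=
    { carrier := {w | w.1.right ∈ G0 ∧ (∀ g ∈ G0, w.1.left g ∈ Λ) ∧
        (∀ g, g ∉ G0 → w.1.left g = 1)}
      one_mem' := by
        refine ⟨?_, ?_, ?_⟩
        · simpa using G0.one_mem
        · intro g _
          simpa using Λ.one_mem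
        · intro g _
          simp
      mul_mem' := by
        intro a b ha hb
        refine ⟨?_, ?_, ?_⟩
        · simpa using G0.mul_mem ha.1 hb.1
        · intro g hg
          have h1 : a.1.right⁻¹ * g ∈ G0 := G0.mul_mem (G0.inv_mem ha.1) hg
          simpa using Λ.mul_mem (ha.2.1 g hg) (hb.2.1 _ h1)
        · intro g hg
          have h1 : a.1.right⁻¹ * g ∉ G0 := by
            intro hc
            apply hg
            have := G0.mul_mem ha.1 hc
            simpa using this
          simp [ha.2.2 g hg, hb.2.2 _ h1]
      inv_mem' := by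
        intro a ha
        refine ⟨?_, ?_, ?_⟩
        · simpa using G0.inv_mem ha.1
        · intro g hg
          have h1 : a.1.right * g ∈ G0 := G0.mul_mem ha.1 hg
          simpa using Λ.inv_mem (ha.2.1 _ h1)
        · intro g hg
          have h1 : a.1.right * g ∉ G0 := by
            intro hc
            apply hg
            have := G0.mul_mem (G0.inv_mem ha.1) hc
            simpa using this
          simp [ha.2.2 _ h1] }
  let F : Δ → restrictedWreath B G0 := fun w =>
    ⟨⟨fun g => p ⟨w.1.1.left g, w.2.2.1 g g.2⟩, ⟨w.1.1.right, w.2.1⟩⟩, by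
      have hfin : (Function.mulSupport w.1.1.left).Finite := w.1.2
      refine (Set.Finite.preimage (f := (Subtype.val : G0 → G))
        Subtype.val_injective.injOn hfin).subset ?_
      intro g hg
      simp only [Set.mem_preimage, Function.mem_mulSupport]
      intro hc
      apply hg
      have : (⟨w.1.1.left g, w.2.2.1 g g.2⟩ : Λ) = 1 := Subtype.ext hc
      show p _ = 1
      rw [this, map_one]⟩
  refine ⟨Δ, MonoidHom.mk' F ?_, ?_⟩
  · intro a b
    apply Subtype.ext
    apply RegularWreathProduct.ext
    · funext g
      show p _ = p _ * p _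
      rw [← map_mul]
      rfl
    · rfl
  · intro w
    have hfin : (Function.mulSupport w.1.left).Finite := w.2
    choose s hs using hp
    let t : B → Λ := fun b => if b = 1 then 1 else s b
    have ht : ∀ b, p (t b) = b := by
      intro b
      by_cases hb : b = 1
      · simp [t, hb]
      · simp [t, hb, hs]
    have ht1 : t 1 = 1 := by simp [t]
    let f : G → L := fun g => if hg : g ∈ G0 then (t (w.1.left ⟨g, hg⟩) : L) else 1
    have hf : (Function.mulSupport f).Finite := by
      refine (hfin.image (Subtype.val : G0 → G)).subset ?_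
      intro g hg
      by_cases hgG : g ∈ G0
      · refine ⟨⟨g, hgG⟩, ?_, rfl⟩
        rw [Function.mem_mulSupport]
        intro hc
        apply hg
        show f g = 1
        simp only [f, hgG, dif_pos]
        rw [hc, ht1]
        rfl
      · exfalso
        apply hg
        show f g = 1
        simp [f, hgG]
    refine ⟨⟨⟨⟨f, w.1.right.1⟩, hf⟩, ?_, ?_, ?_⟩, ?_⟩
    · exact w.1.right.2
    · intro g hg
      show f g ∈ Λ
      simp only [f, hg, dif_pos]
      exact (t _).2
    · intro g hg
      show f g = 1
      simp [f, hg]
    · apply Subtype.ext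
      apply RegularWreathProduct.ext
      · funext g
        show p _ = w.1.left g
        rw [← ht (w.1.left g)]
        congr 1
        apply Subtype.ext
        show f g = _
        simp only [f, g.2, dif_pos]
      · rfl

/-- An infinite abelian group has arbitrarily large finite abelian subquotients. -/
theorem exists_finite_subquotient (L : Type) [CommGroup L] [Infinite L] (n : ℕ) :
    ∃ (B : Type) (_ : CommGroup B) (_ : Finite B), n ≤ Nat.card B ∧ HasSubquotient L B := by
  classical
  by_cases hT : IsMulTorsion L
  · obtain ⟨s, hs⟩ := Infinite.exists_subset_card_eq L n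
    let H : Subgroup L := Subgroup.closure (s : Set L)
    have hfg : Group.FG H := by
      rw [Group.fg_iff_subgroup_fg]
      exact ⟨s, rfl⟩
    have htor : IsMulTorsion H := hT.subgroup H
    have hfin : Finite H := CommGroup.finite_of_fg_isMulTorsion H htor
    refine ⟨H, inferInstance, hfin, ?_, H, MonoidHom.id H, Function.surjective_id⟩
    rw [← hs]
    have := Nat.card_mono (Set.toFinite (H : Set L)) (Subgroup.subset_closure : (s : Set L) ⊆ H)
    simpa using this
  · rw [not_isMulTorsion_iff] at hT
    obtain ⟨x, hx⟩ := hT
    have hinj : Function.Injective (zpowersHom L x) := by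
      have := injective_zpow_iff_not_isOfFinOrder.2 hx
      intro a b hab
      exact Multiplicative.toAdd.injective (this (by simpa using hab))
    let e := MonoidHom.ofInjective hinj
    refine ⟨Multiplicative (ZMod (n + 1)), inferInstance, inferInstance, ?_,
      (zpowersHom L x).range,
      (AddMonoidHom.toMultiplicative (Int.castAddHom (ZMod (n + 1)))).comp e.symm.toMonoidHom, ?_⟩
    · have : Nat.card (Multiplicative (ZMod (n + 1))) = n + 1 := by
        rw [Nat.card_congr (Multiplicative.toAdd)]
        simp
      omega
    · intro y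
      obtain ⟨z, hz⟩ := ZMod.intCast_surjective (Multiplicative.toAdd y)
      refine ⟨e (Multiplicative.ofAdd z), ?_⟩
      apply Multiplicative.toAdd.injective
      simpa using hz

end Pool.Agent.Helper59.EX
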