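import Pool.Agent.Helper59.EX.Group

/-!
EX-M1: the criterion for groups with a measurable cocycle which takes free values.
-/

open MeasureTheory
open scoped ENNReal ComplexOrder

namespace Pool.Agent.Helper59.EX

/-- change of variables for nonnegative real functions -/
private lemma m1_cov {W X : Type} [Group W] [MeasurableSpace X] (m : Measure X)
    [MulAction W X] (hmeas : ∀ g : W, Measurable (fun x : X => g • x))
    (J : W → X → ℝ) (hJm : ∀ g, Measurable (J g)) (hJ0 : ∀ g x, 0 < J g x)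
    (hJint : ∀ (g : W) (F : X → ℝ≥0∞), Measurable F →
      ∫⁻ x, F (g • x) * ENNReal.ofReal (J g x) ∂m = ∫⁻ x, F x ∂m)
    (F : X → ℝ) (hF : Measurable F) (hF0 : ∀ x, 0 ≤ F x) (g : W) :
    ∫ x, F (g • x) * J g x ∂m = ∫ x, F x ∂m := by
  rw [integral_eq_lintegral_of_nonneg_ae (ae_of_all _ fun x => mul_nonneg (hF0 _) (hJ0 _ _).le)
    ((hF.comp (hmeas g)).mul (hJm g)).aestronglyMeasurable,
    integral_eq_lintegral_of_nonneg_ae (ae_of_all _ hF0) hF.aestronglyMeasurable]
  congr 1
  rw [← hJint g (fun x => ENNReal.ofReal (F x)) hF.ennreal_ofReal]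
  refine lintegral_congr fun x => ?_
  rw [ENNReal.ofReal_mul (hF0 _)]

private lemma m1_cov_integrable {W X : Type} [Group W] [MeasurableSpace X] (m : Measure X)
    [MulAction W X] (hmeas : ∀ g : W, Measurable (fun x : X => g • x))
    (J : W → X → ℝ) (hJm : ∀ g, Measurable (J g)) (hJ0 : ∀ g x, 0 < J g x)
    (hJint : ∀ (g : W) (F : X → ℝ≥0∞), Measurable F →
      ∫⁻ x, F (g • x) * ENNReal.ofReal (J g x) ∂m = ∫⁻ x, F x ∂m)
    (F : X → ℝ) (hF : Measurable F) (hF0 : ∀ x, 0 ≤ F x) (hFi : Integrable F m) (g : W) :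
    Integrable (fun x => F (g • x) * J g x) m := by
  refine ⟨((hF.comp (hmeas g)).mul (hJm g)).aestronglyMeasurable, ?_⟩
  rw [hasFiniteIntegral_iff_ofReal (ae_of_all _ fun x => mul_nonneg (hF0 _) (hJ0 _ _).le)]
  have h1 : ∫⁻ x, ENNReal.ofReal (F (g • x) * J g x) ∂m = ∫⁻ x, ENNReal.ofReal (F x) ∂m := by
    rw [← hJint g (fun x => ENNReal.ofReal (F x)) hF.ennreal_ofReal]
    refine lintegral_congr fun x => ?_
    rw [ENNReal.ofReal_mul (hF0 _)]
  rw [h1]
  exact (hasFiniteIntegral_iff_ofReal (ae_of_all _ hF0)).1 hFi.2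

open Classical in
/-- positivity of the kernel of an equivalence relation -/
private lemma m1_kernel_nonneg {ι κ : Type*} (s : Finset ι) (u : ι → ℂ) (cl : ι → κ) :
    0 ≤ ∑ a ∈ s, ∑ b ∈ s, star (u a) * u b * (if cl a = cl b then (1 : ℂ) else 0) := by
  have h1 : ∑ a ∈ s, ∑ b ∈ s, star (u a) * u b * (if cl a = cl b then (1 : ℂ) else 0) =
      ∑ k ∈ s.image cl, star (∑ a ∈ s with cl a = k, u a) * (∑ a ∈ s with cl a = k, u a) := by
    rw [← Finset.sum_fiberwise_of_maps_to (g := cl) (t := s.image cl)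
      (fun a ha => Finset.mem_image_of_mem _ ha)]
    refine Finset.sum_congr rfl fun k _ => ?_
    rw [star_sum, Finset.sum_mul]
    refine Finset.sum_congr rfl fun a ha => ?_
    rw [Finset.mul_sum, Finset.sum_filter]
    refine Finset.sum_congr rfl fun b _ => ?_
    rw [(Finset.mem_filter.1 ha).2]
    by_cases h : cl b = k
    · rw [if_pos h, if_pos h.symm, mul_one]
    · rw [if_neg h, if_neg (fun h' => h h'.symm), mul_zero]
  rw [h1]
  exact Finset.sum_nonneg fun k _ => star_mul_self_nonneg _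

theorem crit_of_cocycle {W Λ X : Type} [Group W] [Group Λ] [MeasurableSpace X] (m : Measure X)
    [MulAction W X] (hmeas : ∀ g : W, Measurable (fun x : X => g • x))
    (J : W → X → ℝ) (hJm : ∀ g, Measurable (J g)) (hJ0 : ∀ g x, 0 < J g x)
    (hJ : ∀ g h x, J (g * h) x = J g (h • x) * J h x)
    (hJint : ∀ (g : W) (F : X → ℝ≥0∞), Measurable F →
      ∫⁻ x, F (g • x) * ENNReal.ofReal (J g x) ∂m = ∫⁻ x, F x ∂m)
    (c : W → X → Λ) (hc : ∀ g h x, c (g * h) x = c g (h • x) * c h x)
    (hcm : ∀ g l, MeasurableSet {x | c g x = l})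
    (Ω : Set X) (hΩ : MeasurableSet Ω) (hΩ1 : m Ω = 1)
    {n : ℕ} (hn : 0 < n) (ι : FreeGroup (Fin n) →* Λ) (hι : Function.Injective ι) (h : Fin n → W)
    (κ : ℝ) (hκ : 2 * Real.sqrt n < κ)
    (haff : κ ≤ ∑ i, ∫ x in {x | x ∈ Ω ∧ h i • x ∈ Ω ∧ c (h i) x = ι (FreeGroup.of i)},
      Real.sqrt (J (h i) x) ∂m) : Crit W := by
  classical
  -- basic identities
  have hJ1 : ∀ x, J 1 x = 1 := by
    intro x
    have h1 := hJ 1 1 x
    rw [mul_one, one_smul] at h1
    have h2 := (hJ0 1 x).ne'
    field_simp at h1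
    linarith
  have hc1 : ∀ x, c 1 x = 1 := by
    intro x
    have h1 := hc 1 1 x
    rw [mul_one, one_smul] at h1
    exact (left_eq_mul.1 h1)
  refine ⟨Fin n, inferInstance, fun i => Finsupp.single (h i) 1, n, n, κ, by exact_mod_cast hn,
    by exact_mod_cast hn, by linarith, ?_, ?_⟩
  · intro H _ _ _ π
    have hrep : ∀ i, repSum π (Finsupp.single (h i) (1 : ℂ)) = (π (h i) : H →L[ℂ] H) := by
      intro i
      rw [repSum, Finsupp.sum_single_index (by rw [zero_smul]), one_smul]
    have hone : ‖(1 : H →L[ℂ] H)‖ ≤ 1 := ContinuousLinearMap.norm_id_le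
    have hsum : ‖∑ _i : Fin n, (1 : H →L[ℂ] H)‖ ≤ n := by
      refine (norm_sum_le _ _).trans ?_
      simp only [Finset.sum_const, Finset.card_univ, Fintype.card_fin, nsmul_eq_mul]
      nlinarith [Nat.cast_nonneg (α := ℝ) n]
    constructor
    · have : ∑ i, repSum π (Finsupp.single (h i) (1 : ℂ)) *
          star (repSum π (Finsupp.single (h i) (1 : ℂ))) = ∑ _i : Fin n, (1 : H →L[ℂ] H) :=
        Finset.sum_congr rfl fun i _ => by
          rw [hrep]
          exact Unitary.mul_star_self_of_mem (π (h i)).2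
      rw [this]
      exact hsum
    · have : ∑ i, star (repSum π (Finsupp.single (h i) (1 : ℂ))) *
          repSum π (Finsupp.single (h i) (1 : ℂ)) = ∑ _i : Fin n, (1 : H →L[ℂ] H) :=
        Finset.sum_congr rfl fun i _ => by
          rw [hrep]
          exact Unitary.star_mul_self_of_mem (π (h i)).2
      rw [this]
      exact hsum
  · intro Q _ _ q
    -- the subgroup of the product
    let θ : FreeGroup (Fin n) →* Q := FreeGroup.lift q
    let G0 : Subgroup (Λ × Q) := (ι.prod θ).range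
    let E : W → Q → Set X := fun f p => {y | y ∈ Ω ∧ f • y ∈ Ω ∧ (c f y, p) ∈ G0}
    have hE : ∀ f p, MeasurableSet (E f p) := by
      intro f p
      have : E f p = Ω ∩ ((fun x => f • x) ⁻¹' Ω ∩
          ⋃ γ : FreeGroup (Fin n), {y | c f y = ι γ ∧ p = θ γ}) := by
        ext y
        simp only [E, Set.mem_inter_iff, Set.mem_preimage, Set.mem_ofPred_eq, Set.mem_iUnion, G0,
          MonoidHom.mem_range, MonoidHom.prod_apply, Prod.mk.injEq]
        refine and_congr_right fun _ => and_congr_right fun _ => ?_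
        exact ⟨fun ⟨γ, h1, h2⟩ => ⟨γ, h1.symm, h2.symm⟩, fun ⟨γ, h1, h2⟩ => ⟨γ, h1.symm, h2.symm⟩⟩
      rw [this]
      refine hΩ.inter ((hmeas f hΩ).inter (MeasurableSet.iUnion fun γ => ?_))
      by_cases hp : p = θ γ
      · simpa [hp] using hcm f (ι γ)
      · simp [hp]
    let Fn : W → Q → X → ℝ := fun f p => (E f p).indicator fun y => Real.sqrt (J f y)
    have hFm : ∀ f p, Measurable (Fn f p) := fun f p => (hJm f).sqrt.indicator (hE f p)
    have hF0 : ∀ f p x, 0 ≤ Fn f p x := fun f p x =>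
      Set.indicator_nonneg (fun _ _ => Real.sqrt_nonneg _) x
    -- integrability of the indicator of Ω
    have hΩi : Integrable (Ω.indicator fun _ => (1 : ℝ)) m := by
      rw [integrable_indicator_iff hΩ]
      exact integrableOn_const (by rw [hΩ1]; exact ENNReal.one_ne_top) 
    have hΩm : Measurable (Ω.indicator fun _ => (1 : ℝ)) := measurable_const.indicator hΩ
    have hΩ0 : ∀ x, 0 ≤ Ω.indicator (fun _ => (1 : ℝ)) x := fun x =>
      Set.indicator_nonneg (fun _ _ => zero_le_one) x
    have hFi : ∀ f p, Integrable (Fn f p) m := by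
      intro f p
      have h1 := m1_cov_integrable m hmeas J hJm hJ0 hJint _ hΩm hΩ0 hΩi f
      refine (h1.add hΩi).mono' (hFm f p).aestronglyMeasurable (ae_of_all _ fun x => ?_)
      rw [Real.norm_of_nonneg (hF0 f p x)]
      simp only [Pi.add_apply]
      by_cases hx : x ∈ E f p
      · have hxΩ : x ∈ Ω := hx.1
        have hfΩ : f • x ∈ Ω := hx.2.1
        simp only [Fn, Set.indicator_of_mem hx, Set.indicator_of_mem hxΩ,
          Set.indicator_of_mem hfΩ, one_mul]
        have h2 := Real.sq_sqrt (hJ0 f x).le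
        nlinarith [sq_nonneg (Real.sqrt (J f x) - 1), Real.sqrt_nonneg (J f x)]
      · simp only [Fn, Set.indicator_of_notMem hx]
        exact add_nonneg (mul_nonneg (hΩ0 _) (hJ0 _ _).le) (hΩ0 _)
    refine ⟨fun w => ((∫ y, Fn w.1 w.2 y ∂m : ℝ) : ℂ), ?_, ?_, ?_⟩
    · -- positive definiteness
      intro s u
      -- the kernels
      let k : W × Q → W × Q → X → ℝ := fun a b x =>
        Fn (a.1⁻¹ * b.1) (a.2⁻¹ * b.2) (b.1⁻¹ • x) * J b.1⁻¹ x
      have hkint : ∀ a b, ∫ x, k a b x ∂m = ∫ y, Fn (a.1⁻¹ * b.1) (a.2⁻¹ * b.2) y ∂m :=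
        fun a b => m1_cov m hmeas J hJm hJ0 hJint _ (hFm _ _) (hF0 _ _) _
      have hki : ∀ a b, Integrable (k a b) m := fun a b =>
        m1_cov_integrable m hmeas J hJm hJ0 hJint _ (hFm _ _) (hF0 _ _) (hFi _ _) _
      let wt : W × Q → X → ℝ := fun a x =>
        if a.1⁻¹ • x ∈ Ω then Real.sqrt (J a.1⁻¹ x) else 0
      let cl : X → W × Q → (Λ × Q) ⧸ G0 := fun x a => QuotientGroup.mk ((c a.1⁻¹ x)⁻¹, a.2)
      have hk : ∀ a b x, k a b x = wt a x * wt b x * (if cl x a = cl x b then 1 else 0) := by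
        intro a b x
        have e1 : (a.1⁻¹ * b.1) • (b.1⁻¹ • x) = a.1⁻¹ • x := by
          rw [smul_smul, mul_assoc, mul_inv_cancel, mul_one]
        have e2 : c (a.1⁻¹ * b.1) (b.1⁻¹ • x) = c a.1⁻¹ x * (c b.1⁻¹ x)⁻¹ := by
          have := hc (a.1⁻¹ * b.1) b.1⁻¹ x
          rw [mul_assoc, mul_inv_cancel, mul_one] at this
          rw [this, mul_inv_cancel_right]
        have e3 : J (a.1⁻¹ * b.1) (b.1⁻¹ • x) * J b.1⁻¹ x = J a.1⁻¹ x := by
          have := hJ (a.1⁻¹ * b.1) b.1⁻¹ x
          rw [mul_assoc, mul_inv_cancel, mul_one] at this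
          exact this.symm
        have e4 : cl x a = cl x b ↔ (c a.1⁻¹ x * (c b.1⁻¹ x)⁻¹, a.2⁻¹ * b.2) ∈ G0 := by
          simp only [cl]
          rw [QuotientGroup.eq]
          simp
        by_cases ha : a.1⁻¹ • x ∈ Ω
        · by_cases hb : b.1⁻¹ • x ∈ Ω
          · by_cases hab : cl x a = cl x b
            · have hmem : b.1⁻¹ • x ∈ E (a.1⁻¹ * b.1) (a.2⁻¹ * b.2) := by
                refine ⟨hb, ?_, ?_⟩
                · rw [e1]; exact ha
                · rw [e2]; exact e4.1 hab
              simp only [k, Fn, wt, Set.indicator_of_mem hmem, if_pos ha, if_pos hb, if_pos hab,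
                mul_one]
              have h0 := Real.mul_self_sqrt (hJ0 b.1⁻¹ x).le
              calc Real.sqrt (J (a.1⁻¹ * b.1) (b.1⁻¹ • x)) * J b.1⁻¹ x
                  = Real.sqrt (J (a.1⁻¹ * b.1) (b.1⁻¹ • x)) *
                    (Real.sqrt (J b.1⁻¹ x) * Real.sqrt (J b.1⁻¹ x)) := by rw [h0]
                _ = Real.sqrt (J (a.1⁻¹ * b.1) (b.1⁻¹ • x) * J b.1⁻¹ x) *
                    Real.sqrt (J b.1⁻¹ x) := by
                    rw [Real.sqrt_mul (hJ0 _ _).le, mul_assoc]
                _ = _ := by rw [e3]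
            · have hmem : b.1⁻¹ • x ∉ E (a.1⁻¹ * b.1) (a.2⁻¹ * b.2) := by
                intro hmem
                exact hab (e4.2 (e2 ▸ hmem.2.2))
              simp only [k, Fn, Set.indicator_of_notMem hmem, if_neg hab, zero_mul, mul_zero]
          · have hmem : b.1⁻¹ • x ∉ E (a.1⁻¹ * b.1) (a.2⁻¹ * b.2) := fun hmem => hb hmem.1
            simp only [k, Fn, wt, Set.indicator_of_notMem hmem, if_neg hb, zero_mul, mul_zero]
        · have hmem : b.1⁻¹ • x ∉ E (a.1⁻¹ * b.1) (a.2⁻¹ * b.2) := fun hmem =>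
            ha (e1 ▸ hmem.2.1)
          simp only [k, Fn, wt, Set.indicator_of_notMem hmem, if_neg ha, zero_mul]
      -- pointwise positivity
      let Fc : X → ℂ := fun x => ∑ a ∈ s, ∑ b ∈ s, star (u a) * u b * ((k a b x : ℝ) : ℂ)
      have hFc0 : ∀ x, 0 ≤ Fc x := by
        intro x
        have h1 := m1_kernel_nonneg s (fun a => u a * ((wt a x : ℝ) : ℂ)) (cl x)
        refine le_of_le_of_eq h1 ?_
        refine Finset.sum_congr rfl fun a _ => Finset.sum_congr rfl fun b _ => ?_
        rw [hk a b x]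
        by_cases hab : cl x a = cl x b
        · simp only [if_pos hab, star_mul', Complex.star_def, Complex.conj_ofReal]
          push_cast
          ring
        · simp only [if_neg hab, mul_zero, Complex.ofReal_zero]
      have hFcre : ∀ x, Fc x = (((Fc x).re : ℝ) : ℂ) := by
        intro x
        exact (Complex.ext rfl (by
          have := (Complex.le_def.1 (hFc0 x)).2
          simpa using this.symm))
      have hkic : ∀ a b, Integrable (fun x => star (u a) * u b * ((k a b x : ℝ) : ℂ)) m :=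
        fun a b => ((hki a b).ofReal).const_mul _
      have hint : ∑ a ∈ s, ∑ b ∈ s, star (u a) * u b *
          ((∫ y, Fn (a⁻¹ * b).1 (a⁻¹ * b).2 y ∂m : ℝ) : ℂ) = ∫ x, Fc x ∂m := by
        simp only [Fc]
        rw [integral_finsetSum _ fun a _ => integrable_finsetSum _ fun b _ => hkic a b]
        refine Finset.sum_congr rfl fun a _ => ?_
        rw [integral_finsetSum _ fun b _ => hkic a b]
        refine Finset.sum_congr rfl fun b _ => ?_
        rw [integral_const_mul, integral_complex_ofReal, hkint a b]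
        rfl
      show 0 ≤ ∑ a ∈ s, ∑ b ∈ s, star (u a) * u b *
          ((∫ y, Fn (a⁻¹ * b).1 (a⁻¹ * b).2 y ∂m : ℝ) : ℂ)
      rw [hint, integral_congr_ae (ae_of_all m hFcre), integral_complex_ofReal]
      have h0 : 0 ≤ ∫ x, (Fc x).re ∂m := integral_nonneg fun x => (Complex.le_def.1 (hFc0 x)).1
      exact_mod_cast h0
    · -- the value on the finite group
      intro g
      have hval : ∀ y, Fn 1 g y = if g = 1 then Ω.indicator (fun _ => (1 : ℝ)) y else 0 := by
        intro y
        have hmem : y ∈ E 1 g ↔ y ∈ Ω ∧ g = 1 := by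
          simp only [E, Set.mem_ofPred_eq, one_smul, hc1]
          constructor
          · rintro ⟨hy, -, γ, hγ⟩
            have h1 : ι γ = 1 := congrArg Prod.fst hγ
            have h2 : θ γ = g := congrArg Prod.snd hγ
            have h3 : γ = 1 := hι (by rw [h1, map_one])
            refine ⟨hy, ?_⟩
            rw [← h2, h3, map_one]
          · rintro ⟨hy, rfl⟩
            exact ⟨hy, hy, G0.one_mem⟩
        by_cases hg : g = 1
        · rw [if_pos hg]
          by_cases hy : y ∈ Ω
          · have : y ∈ E 1 g := hmem.2 ⟨hy, hg⟩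
            simp only [Fn, Set.indicator_of_mem this, Set.indicator_of_mem hy, hJ1,
              Real.sqrt_one]
          · have : y ∉ E 1 g := fun h' => hy (hmem.1 h').1
            simp only [Fn, Set.indicator_of_notMem this, Set.indicator_of_notMem hy]
        · rw [if_neg hg]
          have : y ∉ E 1 g := fun h' => hg (hmem.1 h').2
          simp only [Fn, Set.indicator_of_notMem this]
      show ((∫ y, Fn 1 g y ∂m : ℝ) : ℂ) = _
      simp_rw [hval]
      by_cases hg : g = 1
      · simp only [if_pos hg]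
        rw [integral_indicator hΩ, setIntegral_const, smul_eq_mul, mul_one, Measure.real, hΩ1]
        simp
      · simp only [if_neg hg, integral_zero, Complex.ofReal_zero]
    · -- the affinities
      have h1 : ∀ i, (Finsupp.single (h i) (1 : ℂ)).sum (fun w c => c *
          (((∫ y, Fn (w, q i).1 (w, q i).2 y ∂m : ℝ) : ℂ))) =
          ((∫ y, Fn (h i) (q i) y ∂m : ℝ) : ℂ) := by
        intro i
        rw [Finsupp.sum_single_index (by rw [zero_mul]), one_mul]
      show κ ≤ (∑ i, (Finsupp.single (h i) (1 : ℂ)).sum (fun w c => c *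
          (((∫ y, Fn (w, q i).1 (w, q i).2 y ∂m : ℝ) : ℂ)))).re
      simp_rw [h1]
      rw [Complex.re_sum]
      simp only [Complex.ofReal_re]
      refine haff.trans (Finset.sum_le_sum fun i _ => ?_)
      have hset : MeasurableSet
          {x | x ∈ Ω ∧ h i • x ∈ Ω ∧ c (h i) x = ι (FreeGroup.of i)} :=
        hΩ.inter ((hmeas (h i) hΩ).inter (hcm _ _))
      rw [← integral_indicator hset]
      refine integral_mono_of_nonneg (ae_of_all _ fun x =>
        Set.indicator_nonneg (fun _ _ => Real.sqrt_nonneg _) x) (hFi _ _) (ae_of_all _ fun x => ?_)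
      refine Set.indicator_le_indicator_of_subset ?_ (fun _ => Real.sqrt_nonneg _) x
      rintro y ⟨hy1, hy2, hy3⟩
      refine ⟨hy1, hy2, FreeGroup.of i, ?_⟩
      rw [MonoidHom.prod_apply, hy3]
      simp [θ]

end Pool.Agent.Helper59.EX
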