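import Pool.Agent.Helper59.EX.Monod0
import Pool.Agent.Helper59.EX.St.M2

/-!
EX-M3: freeness of the Moebius transformations `zmat t i`.
-/

open Matrix OnePoint Topology
open scoped MatrixGroups

namespace Pool.Agent.Helper59.EX

private theorem M3_mob_infty {K : Type*} [Field K] [DecidableEq K] (g : SL(2, K)) (h : g 1 0 ≠ 0) :
    mob g ∞ = ((g 0 0 / g 1 0 : K) : OnePoint K) := by
  have := smul_infty_eq_ite (K := K) (g : GL (Fin 2) K)
  unfold mob
  rw [this, if_neg (by simpa using h)]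
  simp

private theorem M3_zmat_map {R S : Type*} [CommRing R] [CommRing S] (f : R →+* S) (t : R) (i : ℕ) :
    Matrix.SpecialLinearGroup.map f (zmat t i) = zmat (f t) i := by
  have h2 : f 2 = 2 := map_ofNat f 2
  ext a b
  show f (zmat t i a b) = zmat (f t) i a b
  fin_cases a <;> fin_cases b <;> simp [zmat, h2]

/-- The ball of centre `k T` and radius `1`. -/
private def M3_B {K : Type} [NormedField K] (T : K) (k : ℕ) : Set (OnePoint K) :=
  (fun x : K => (x : OnePoint K)) '' Metric.ball ((k : K) * T) 1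

private theorem M3_B_disj {K : Type} [NormedField K] {n : ℕ} (hn : 2 ≤ n) (T : K)
    (hint : ∀ m : ℕ, 1 ≤ m → (m : ℝ)⁻¹ ≤ ‖(m : K)‖) (hT : 10 * (n : ℝ) ≤ ‖T‖) {k l : ℕ}
    (hl : l < 2 * n) (hkl : k < l) : Disjoint (M3_B T k) (M3_B T l) := by
  rw [Set.disjoint_left]
  rintro _ ⟨x, hx, rfl⟩ ⟨y, hy, hxy⟩
  have hxy' : y = x := by simpa using hxy
  subst hxy'
  rw [Metric.mem_ball, dist_eq_norm] at hx hy
  have h1 : ‖((l - k : ℕ) : K) * T‖ < 2 := by
    have : ((l - k : ℕ) : K) * T = (y - (k : K) * T) - (y - (l : K) * T) := by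
      rw [Nat.cast_sub hkl.le]; ring
    rw [this]
    calc _ ≤ _ := norm_sub_le _ _
      _ < 2 := by linarith
  rw [norm_mul] at h1
  have h2 := hint (l - k) (by omega)
  have h3 : (0 : ℝ) < ((l - k : ℕ) : ℝ) := by
    exact_mod_cast (by omega : 0 < l - k)
  have h4 : ((l - k : ℕ) : ℝ) ≤ 2 * n := by
    exact_mod_cast (by omega : l - k ≤ 2 * n)
  have hn' : (2 : ℝ) ≤ n := by exact_mod_cast hn
  have h5 : (((l - k : ℕ) : ℝ))⁻¹ * (10 * n) ≤ ‖((l - k : ℕ) : K)‖ * ‖T‖ := by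
    gcongr
  have h6 : (2 : ℝ) ≤ (((l - k : ℕ) : ℝ))⁻¹ * (10 * n) := by
    rw [inv_mul_eq_div, le_div_iff₀ h3]
    linarith
  linarith

private theorem M3_B_disj' {K : Type} [NormedField K] {n : ℕ} (hn : 2 ≤ n) (T : K)
    (hint : ∀ m : ℕ, 1 ≤ m → (m : ℝ)⁻¹ ≤ ‖(m : K)‖) (hT : 10 * (n : ℝ) ≤ ‖T‖) {k l : ℕ}
    (hk : k < 2 * n) (hl : l < 2 * n) (hkl : k ≠ l) : Disjoint (M3_B T k) (M3_B T l) := by
  rcases lt_or_gt_of_ne hkl with h | h
  · exact M3_B_disj hn T hint hT hl h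
  · exact (M3_B_disj hn T hint hT hk h).symm

private theorem M3_est {K : Type} [NormedField K] (T w : K) (hT : 20 ≤ ‖T‖) (hw : 1 ≤ ‖w‖) :
    T * w + 1 ≠ 0 ∧ ‖w / (T * w + 1)‖ < 1 := by
  have h1 : ‖T * w‖ - ‖(1 : K)‖ ≤ ‖T * w + 1‖ := by
    have := norm_sub_norm_le (T * w) (-1)
    simpa using this
  rw [norm_mul, norm_one] at h1
  have h2 : 20 * ‖w‖ ≤ ‖T‖ * ‖w‖ := by gcongr
  have h3 : ‖w‖ < ‖T * w + 1‖ := by linarith
  have h4 : 0 < ‖T * w + 1‖ := by linarith
  refine ⟨norm_pos_iff.1 h4, ?_⟩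
  rw [norm_div, div_lt_one h4]
  exact h3

private theorem M3_fwd {K : Type} [NormedField K] [DecidableEq K] (T : K) (hT : 20 ≤ ‖T‖)
    (i : ℕ) (x : OnePoint K) (hx : x ∉ M3_B T (2 * i)) :
    mob (zmat T i) x ∈ M3_B T (2 * i + 1) := by
  have hT0 : T ≠ 0 := by
    rintro rfl; rw [norm_zero] at hT; linarith
  induction x using OnePoint.rec with
  | infty =>
    rw [M3_mob_infty _ (by simpa [zmat] using hT0)]
    refine ⟨_, ?_, rfl⟩
    rw [Metric.mem_ball, dist_eq_norm]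
    have : (zmat T i) 0 0 / (zmat T i) 1 0 - ((2 * i + 1 : ℕ) : K) * T = T⁻¹ := by
      simp only [zmat]
      simp
      field_simp
      ring
    rw [this, norm_inv, inv_lt_one₀ (by linarith)]
    linarith
  | coe x =>
    have hw : 1 ≤ ‖x - ((2 * i : ℕ) : K) * T‖ := by
      by_contra h
      push Not at h
      exact hx ⟨x, by rw [Metric.mem_ball, dist_eq_norm]; exact h, rfl⟩
    obtain ⟨h1, h2⟩ := M3_est T _ hT hw
    have h3 : (zmat T i) 1 0 * x + (zmat T i) 1 1 = T * (x - ((2 * i : ℕ) : K) * T) + 1 := by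
      simp [zmat]; ring
    rw [mob_coe _ _ (by rw [h3]; exact h1)]
    refine ⟨_, ?_, rfl⟩
    rw [Metric.mem_ball, dist_eq_norm, h3]
    have h4 : ((zmat T i) 0 0 * x + (zmat T i) 0 1) = (((2 * i + 1 : ℕ) : K) * T) *
        (T * (x - ((2 * i : ℕ) : K) * T) + 1) + (x - ((2 * i : ℕ) : K) * T) := by
      simp [zmat]; ring
    rw [h4, add_div, mul_div_cancel_right₀ _ h1, add_sub_cancel_left]
    exact h2

private theorem M3_bwd {K : Type} [NormedField K] [DecidableEq K] (T : K) (hT : 20 ≤ ‖T‖)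
    (i : ℕ) (x : OnePoint K) (hx : x ∉ M3_B T (2 * i + 1)) :
    mob (zmat T i)⁻¹ x ∈ M3_B T (2 * i) := by
  have hT0 : T ≠ 0 := by
    rintro rfl; rw [norm_zero] at hT; linarith
  have e00 : (zmat T i)⁻¹ 0 0 = 1 - 2 * i * T ^ 2 := by
    rw [Matrix.SpecialLinearGroup.SL2_inv_expl]; simp [zmat]
  have e01 : (zmat T i)⁻¹ 0 1 = - (T - 2 * i * (2 * i + 1) * T ^ 3) := by
    rw [Matrix.SpecialLinearGroup.SL2_inv_expl]; simp [zmat]
  have e10 : (zmat T i)⁻¹ 1 0 = - T := by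
    rw [Matrix.SpecialLinearGroup.SL2_inv_expl]; simp [zmat]
  have e11 : (zmat T i)⁻¹ 1 1 = 1 + (2 * i + 1) * T ^ 2 := by
    rw [Matrix.SpecialLinearGroup.SL2_inv_expl]; simp [zmat]
  induction x using OnePoint.rec with
  | infty =>
    rw [M3_mob_infty _ (by rw [e10]; simpa using hT0)]
    refine ⟨_, ?_, rfl⟩
    rw [Metric.mem_ball, dist_eq_norm]
    have : (zmat T i)⁻¹ 0 0 / (zmat T i)⁻¹ 1 0 - ((2 * i : ℕ) : K) * T = -T⁻¹ := by
      rw [e00, e10]
      push_cast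
      field_simp
      ring
    rw [this, norm_neg, norm_inv, inv_lt_one₀ (by linarith)]
    linarith
  | coe x =>
    have hw : 1 ≤ ‖x - ((2 * i + 1 : ℕ) : K) * T‖ := by
      by_contra h
      push Not at h
      exact hx ⟨x, by rw [Metric.mem_ball, dist_eq_norm]; exact h, rfl⟩
    rw [← norm_neg] at hw
    obtain ⟨h1, h2⟩ := M3_est T _ hT hw
    have h3 : (zmat T i)⁻¹ 1 0 * x + (zmat T i)⁻¹ 1 1 =
        T * (-(x - ((2 * i + 1 : ℕ) : K) * T)) + 1 := by
      rw [e10, e11]; push_cast; ring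
    rw [mob_coe _ _ (by rw [h3]; exact h1)]
    refine ⟨_, ?_, rfl⟩
    rw [Metric.mem_ball, dist_eq_norm, h3]
    have h4 : ((zmat T i)⁻¹ 0 0 * x + (zmat T i)⁻¹ 0 1) = (((2 * i : ℕ) : K) * T) *
        (T * (-(x - ((2 * i + 1 : ℕ) : K) * T)) + 1) - (-(x - ((2 * i + 1 : ℕ) : K) * T)) := by
      rw [e00, e01]; push_cast; ring
    rw [h4, sub_div, mul_div_cancel_right₀ _ h1, sub_sub_cancel_left, norm_neg]
    exact h2

/-- Ping-pong over a normed field. -/
theorem free_pingpong {K : Type} [NormedField K] [DecidableEq K] {n : ℕ} (hn : 2 ≤ n) (T : K)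
    (hint : ∀ m : ℕ, 1 ≤ m → (m : ℝ)⁻¹ ≤ ‖(m : K)‖) (hT : 10 * (n : ℝ) ≤ ‖T‖) :
    Function.Injective (FreeGroup.lift (fun i : Fin n => mobPerm (zmat T i))) := by
  have hn' : (2 : ℝ) ≤ n := by exact_mod_cast hn
  have hT20 : 20 ≤ ‖T‖ := by linarith
  have : Nontrivial (Fin n) := Fin.nontrivial_iff_two_le.2 hn
  refine FreeGroup.injective_lift_of_ping_pong (α := OnePoint K)
    (fun i : Fin n => mobPerm (zmat T i)) (fun i => M3_B T (2 * (i : ℕ) + 1))
    (fun i => M3_B T (2 * (i : ℕ))) ?_ ?_ ?_ ?_ ?_ ?_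
  · intro i
    exact ⟨_, _, Metric.mem_ball_self one_pos, rfl⟩
  · intro i j hij
    have := Fin.val_ne_of_ne hij
    exact M3_B_disj' hn T hint hT (by omega) (by omega) (by omega)
  · intro i j hij
    have := Fin.val_ne_of_ne hij
    exact M3_B_disj' hn T hint hT (by omega) (by omega) (by omega)
  · intro i j
    exact M3_B_disj' hn T hint hT (by omega) (by omega) (by omega)
  · rintro i _ ⟨x, hx, rfl⟩
    have : (mobPerm (zmat T i)) • x = mob (zmat T i) x := by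
      rw [Equiv.Perm.smul_def, mobPerm_apply]
    show (mobPerm (zmat T i)) • x ∈ _
    rw [this]
    exact M3_fwd T hT20 i x hx
  · rintro i _ ⟨x, hx, rfl⟩
    have : (fun i : Fin n => mobPerm (zmat T i))⁻¹ i = mobPerm (zmat T i)⁻¹ := by
      rw [Pi.inv_apply, map_inv]
    show ((fun i : Fin n => mobPerm (zmat T i))⁻¹ i) • x ∈ _
    rw [this, Equiv.Perm.smul_def, mobPerm_apply]
    exact M3_bwd T hT20 i x hx

private theorem M3_ker {K : Type*} [Field K] [DecidableEq K] (g : SL(2, K))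
    (h : mobPerm g = 1) : g 0 1 = 0 ∧ g 1 0 = 0 ∧ g 0 0 = g 1 1 := by
  have hx : ∀ x, mob g x = x := by
    intro x
    rw [← mobPerm_apply, h]; rfl
  have h10 : g 1 0 = 0 := by
    by_contra hc
    have := hx ∞
    rw [M3_mob_infty g hc] at this
    simp at this
  have hdet : g 0 0 * g 1 1 = 1 := by
    have := g.det_coe
    rw [Matrix.det_fin_two, h10, mul_zero, sub_zero] at this
    exact this
  have h11 : g 1 1 ≠ 0 := right_ne_zero_of_mul_eq_one hdet
  have h01 : g 0 1 = 0 := by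
    have := hx ((0 : K) : OnePoint K)
    rw [mob_coe g 0 (by rw [mul_zero, zero_add]; exact h11)] at this
    simp [h11] at this
    exact this
  refine ⟨h01, h10, ?_⟩
  have := hx ((1 : K) : OnePoint K)
  rw [mob_coe g 1 (by rw [h10, zero_mul, zero_add]; exact h11)] at this
  rw [h10, h01] at this
  simp only [zero_add, mul_one, add_zero, OnePoint.coe_eq_coe] at this
  rwa [div_eq_one_iff_eq h11] at this

private theorem M3_ker' {K : Type*} [Field K] [DecidableEq K] (g : SL(2, K))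
    (h01 : g 0 1 = 0) (h10 : g 1 0 = 0) (h : g 0 0 = g 1 1) : mobPerm g = 1 := by
  have hdet : g 0 0 * g 1 1 = 1 := by
    have := g.det_coe
    rw [Matrix.det_fin_two, h10, mul_zero, sub_zero] at this
    exact this
  have h11 : g 1 1 ≠ 0 := right_ne_zero_of_mul_eq_one hdet
  ext x
  rw [mobPerm_apply]
  show mob g x = x
  induction x using OnePoint.rec with
  | infty =>
    have := smul_infty_eq_ite (K := K) (g : GL (Fin 2) K)
    unfold mob
    rw [this, if_pos (by simpa using h10)]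
  | coe x =>
    rw [mob_coe g x (by rw [h10, zero_mul, zero_add]; exact h11), h10, h01, h]
    simp [h11]

theorem free_mob {K : Type} [NormedField K] {n : ℕ} (hn : 2 ≤ n) (t : ℝ) (T : K)
    (hint : ∀ m : ℕ, 1 ≤ m → (m : ℝ)⁻¹ ≤ ‖(m : K)‖) (hT : 10 * (n : ℝ) ≤ ‖T‖)
    (hP : ∀ P : Polynomial ℤ, Polynomial.aeval t P = 0 → Polynomial.aeval T P = 0) :
    Function.Injective (FreeGroup.lift (fun i : Fin n => mobPerm (zmat t i))) := by
  classical
  have key := free_pingpong hn T hint hT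
  rw [injective_iff_map_eq_one] at key ⊢
  intro w hw
  apply key
  let ψ : FreeGroup (Fin n) →* SL(2, Polynomial ℤ) :=
    FreeGroup.lift (fun i : Fin n => zmat (Polynomial.X : Polynomial ℤ) i)
  have h1 : FreeGroup.lift (fun i : Fin n => mobPerm (zmat t i)) =
      (mobPerm.comp (Matrix.SpecialLinearGroup.map
        (Polynomial.aeval t : Polynomial ℤ →ₐ[ℤ] ℝ).toRingHom)).comp ψ := by
    ext1 i
    simp [ψ, M3_zmat_map]
  have h2 : FreeGroup.lift (fun i : Fin n => mobPerm (zmat T i)) =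
      (mobPerm.comp (Matrix.SpecialLinearGroup.map
        (Polynomial.aeval T : Polynomial ℤ →ₐ[ℤ] K).toRingHom)).comp ψ := by
    ext1 i
    simp [ψ, M3_zmat_map]
  rw [h1] at hw
  rw [h2]
  obtain ⟨e1, e2, e3⟩ := M3_ker _ hw
  refine M3_ker' _ ?_ ?_ ?_
  · exact hP _ e1
  · exact hP _ e2
  · have := hP ((ψ w) 0 0 - (ψ w) 1 1) (by rw [map_sub, sub_eq_zero]; exact e3)
    rw [map_sub, sub_eq_zero] at this
    exact this

end Pool.Agent.Helper59.EX
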