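import Mathlib

/-!
EX-M4: elements of a subring of `ℝ`, different from `ℤ`, which are small in `ℝ` and large in
another completion.
-/

namespace Pool.Agent.Helper59.EX

private theorem M4_padic_norm {p : ℕ} [hp : Fact p.Prime] (m : ℕ) (hm : 1 ≤ m) :
    (m : ℝ)⁻¹ ≤ ‖(m : ℚ_[p])‖ := by
  obtain ⟨k, u, hu, hmu⟩ := Nat.exists_eq_pow_mul_and_not_dvd (n := m) (by omega) p
    hp.out.ne_one
  have hu1 : ‖(u : ℚ_[p])‖ = 1 := by
    have h1 : ‖((u : ℤ) : ℚ_[p])‖ ≤ 1 := Padic.norm_int_le_one (u : ℤ)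
    have h2 : ¬ ‖((u : ℤ) : ℚ_[p])‖ < 1 := by
      rw [Padic.norm_intCast_lt_one_iff]
      intro h
      exact hu (Int.natCast_dvd_natCast.1 h)
    have h3 : ‖((u : ℤ) : ℚ_[p])‖ = 1 := le_antisymm h1 (not_lt.1 h2)
    simpa using h3
  have hnorm : ‖(m : ℚ_[p])‖ = ((p : ℝ) ^ k)⁻¹ := by
    rw [hmu]
    push_cast
    rw [norm_mul, hu1, mul_one, norm_pow, Padic.norm_p, inv_pow]
  rw [hnorm]
  have hpk : 0 < (p : ℝ) ^ k := by
    have : 0 < p := hp.out.pos
    positivity
  have hle : (p : ℝ) ^ k ≤ (m : ℝ) := by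
    have hupos : 0 < u := by
      rcases Nat.eq_zero_or_pos u with h | h
      · exact absurd (h ▸ dvd_zero p) hu
      · exact h
    have : p ^ k ≤ m := by
      rw [hmu]
      exact Nat.le_mul_of_pos_right _ hupos
    exact_mod_cast this
  exact inv_anti₀ hpk hle

private theorem M4_conj (α : ℝ) (hα : α ∉ Set.range ((↑) : ℚ → ℝ)) :
    ∃ β : ℂ, β ≠ (α : ℂ) ∧
      ∀ P : Polynomial ℤ, Polynomial.aeval α P = 0 → Polynomial.aeval β P = 0 := by
  classical
  by_cases halg : IsIntegral ℚ α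
  · have hdeg : 2 ≤ (minpoly ℚ α).natDegree := by
      rw [minpoly.two_le_natDegree_iff halg]
      intro h
      apply hα
      obtain ⟨q, hq⟩ := h
      exact ⟨q, by simpa using hq⟩
    have hsep : (minpoly ℚ α).Separable := (minpoly.irreducible halg).separable
    have hcard : Fintype.card ((minpoly ℚ α).rootSet ℂ) = (minpoly ℚ α).natDegree :=
      Polynomial.card_rootSet_eq_natDegree hsep (IsAlgClosed.splits _)
    have h2 : 1 < Fintype.card ((minpoly ℚ α).rootSet ℂ) := by omega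
    have hex : ∃ β ∈ (minpoly ℚ α).rootSet ℂ, β ≠ (α : ℂ) := by
      obtain ⟨x, y, hxy⟩ := Fintype.one_lt_card_iff.1 h2
      by_cases hx : (x : ℂ) = (α : ℂ)
      · refine ⟨y, y.2, ?_⟩
        intro hy
        apply hxy
        apply Subtype.ext
        rw [hx, hy]
      · exact ⟨x, x.2, hx⟩
    obtain ⟨β, hβ, hne⟩ := hex
    refine ⟨β, hne, ?_⟩
    intro P hP
    have h3 : Polynomial.aeval α (P.map (Int.castRingHom ℚ)) = 0 := by
      have := Polynomial.aeval_map_algebraMap (A := ℚ) α P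
      simpa using this.trans hP
    have h4 : minpoly ℚ α ∣ P.map (Int.castRingHom ℚ) := minpoly.dvd ℚ α h3
    have h5 : Polynomial.aeval β (minpoly ℚ α) = 0 := by
      rw [Polynomial.mem_rootSet] at hβ
      exact hβ.2
    have h6 : Polynomial.aeval β (P.map (Int.castRingHom ℚ)) = 0 := by
      obtain ⟨Q, hQ⟩ := h4
      rw [hQ, map_mul, h5, zero_mul]
    have := Polynomial.aeval_map_algebraMap (A := ℚ) β P
    simpa using this.symm.trans h6
  · refine ⟨(α : ℂ) + 1, by simp, ?_⟩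
    intro P hP
    have hP0 : P = 0 := by
      by_contra hne
      apply halg
      have h1 : IsAlgebraic ℤ α := ⟨P, hne, hP⟩
      have h2 : IsAlgebraic ℚ α := by
        refine ⟨P.map (Int.castRingHom ℚ), ?_, ?_⟩
        · rw [Ne, Polynomial.map_eq_zero_iff (RingHom.injective_int _)]
          exact hne
        · have := Polynomial.aeval_map_algebraMap (A := ℚ) α P
          simpa using this.trans hP
      exact h2.isIntegral
    simp [hP0]

theorem exists_param (A : Subring ℝ) (hA : ∃ a ∈ A, ∀ n : ℤ, a ≠ (n : ℝ)) (ε R : ℝ)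
    (hε : 0 < ε) :
    ∃ t ∈ A, 0 < t ∧ t < ε ∧ ∃ (K : Type) (_ : NormedField K) (T : K), R ≤ ‖T‖ ∧
      (∀ m : ℕ, 1 ≤ m → (m : ℝ)⁻¹ ≤ ‖(m : K)‖) ∧
      ∀ P : Polynomial ℤ, Polynomial.aeval t P = 0 → Polynomial.aeval T P = 0 := by
  obtain ⟨a, haA, ha⟩ := hA
  by_cases hrat : a ∈ Set.range ((↑) : ℚ → ℝ)
  · -- rational case
    obtain ⟨q, rfl⟩ := hrat
    have hden : q.den ≠ 1 := by
      intro h
      apply ha q.num
      have : (q : ℝ) = ((q.num : ℚ) : ℝ) := by
        rw [Rat.coe_int_num_of_den_eq_one h]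
      simpa using this
    have hinv : ((q.den : ℝ))⁻¹ ∈ A := by
      have hcop : IsCoprime (q.num) (q.den : ℤ) :=
        Int.isCoprime_iff_gcd_eq_one.2 (by
          have := q.reduced
          rw [Int.gcd_eq_natAbs]
          simpa using this)
      obtain ⟨x, y, hxy⟩ := hcop
      have hdpos : (q.den : ℝ) ≠ 0 := by
        have := q.den_ne_zero
        exact_mod_cast this
      have hq : (q : ℝ) = (q.num : ℝ) / (q.den : ℝ) := by
        have := Rat.num_div_den q
        exact_mod_cast this.symm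
      have h1 : ((q.den : ℝ))⁻¹ = (x : ℝ) * (q : ℝ) + (y : ℝ) := by
        have hxy' : (x : ℝ) * (q.num : ℝ) + (y : ℝ) * (q.den : ℝ) = 1 := by
          exact_mod_cast hxy
        rw [hq]
        field_simp
        linarith
      rw [h1]
      exact A.add_mem (A.mul_mem (intCast_mem A x) haA) (intCast_mem A y)
    set p := q.den.minFac with hp
    have hprime : p.Prime := Nat.minFac_prime hden
    have : Fact p.Prime := ⟨hprime⟩
    have hpinv : ((p : ℝ))⁻¹ ∈ A := by
      obtain ⟨w, hw⟩ := Nat.minFac_dvd q.den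
      rw [← hp] at hw
      have hp0 : (p : ℝ) ≠ 0 := by exact_mod_cast hprime.ne_zero
      have hw0 : (w : ℝ) ≠ 0 := by
        intro h
        apply q.den_ne_zero
        have : w = 0 := by exact_mod_cast h
        rw [hw, this, mul_zero]
      have h1 : ((p : ℝ))⁻¹ = (w : ℝ) * ((q.den : ℝ))⁻¹ := by
        rw [hw]
        push_cast
        field_simp
      rw [h1]
      exact A.mul_mem (natCast_mem A w) hinv
    have hp1 : (1 : ℝ) < p := by exact_mod_cast hprime.one_lt
    obtain ⟨N1, hN1⟩ := exists_pow_lt_of_lt_one hε (inv_lt_one_of_one_lt₀ hp1)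
    obtain ⟨N2, hN2⟩ := pow_unbounded_of_one_lt R hp1
    set N := N1 + N2
    refine ⟨((p : ℝ)⁻¹) ^ N, A.pow_mem hpinv N, by positivity, ?_, ℚ_[p], inferInstance,
      ((p : ℚ_[p])⁻¹) ^ N, ?_, M4_padic_norm, ?_⟩
    · refine lt_of_le_of_lt ?_ hN1
      exact pow_le_pow_of_le_one (by positivity) (inv_le_one_of_one_le₀ hp1.le) (by omega)
    · rw [norm_pow, norm_inv, Padic.norm_p, inv_inv]
      refine hN2.le.trans ?_
      exact pow_le_pow_right₀ hp1.le (by omega)
    · intro P hP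
      have h1 : ((p : ℝ)⁻¹) ^ N = algebraMap ℚ ℝ (((p : ℚ)⁻¹) ^ N) := by simp
      have h2 : ((p : ℚ_[p])⁻¹) ^ N = algebraMap ℚ ℚ_[p] (((p : ℚ)⁻¹) ^ N) := by simp
      rw [h1, Polynomial.aeval_algebraMap_apply] at hP
      rw [h2, Polynomial.aeval_algebraMap_apply]
      have h3 : Polynomial.aeval (((p : ℚ)⁻¹) ^ N) P = 0 := by
        apply (algebraMap ℚ ℝ).injective
        rw [hP, map_zero]
      rw [h3, map_zero]
  · -- irrational case
    obtain ⟨β, hβ, hP⟩ := M4_conj a hrat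
    have hd : 0 < ‖β - (a : ℂ)‖ := norm_pos_iff.2 (sub_ne_zero.2 hβ)
    obtain ⟨m, hm⟩ := exists_nat_gt (3 / ‖β - (a : ℂ)‖)
    have hmd : 3 < (m : ℝ) * ‖β - (a : ℂ)‖ := by
      rwa [div_lt_iff₀ hd] at hm
    have hm0 : (m : ℝ) ≠ 0 := by
      intro h
      rw [h, zero_mul] at hmd
      linarith
    set f : ℤ := ⌊(m : ℝ) * a⌋ with hf
    set a' : ℝ := (m : ℝ) * a - (f : ℝ) with ha'
    set b' : ℂ := (m : ℂ) * β - (f : ℂ) with hb'
    have ha0 : 0 < a' := by
      have h1 : 0 ≤ a' := by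
        rw [ha', sub_nonneg]
        exact Int.floor_le _
      rcases h1.lt_or_eq with h | h
      · exact h
      · exfalso
        apply hrat
        refine ⟨(f : ℚ) / (m : ℚ), ?_⟩
        push_cast
        rw [div_eq_iff hm0]
        rw [ha'] at h
        linarith
    have ha1 : a' < 1 := by
      rw [ha']
      have := Int.lt_floor_add_one ((m : ℝ) * a)
      rw [← hf] at this
      linarith
    have hb1 : 1 < ‖b'‖ := by
      have h1 : (m : ℂ) * (β - (a : ℂ)) = b' - (a' : ℂ) := by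
        rw [hb', ha']
        push_cast
        ring
      have h2 : (m : ℝ) * ‖β - (a : ℂ)‖ = ‖b' - (a' : ℂ)‖ := by
        rw [← h1, norm_mul, Complex.norm_natCast]
      have h3 : ‖b' - (a' : ℂ)‖ ≤ ‖b'‖ + ‖(a' : ℂ)‖ := norm_sub_le _ _
      have h4 : ‖(a' : ℂ)‖ = a' := by
        rw [Complex.norm_real, Real.norm_eq_abs, abs_of_pos ha0]
      linarith
    have ha'A : a' ∈ A := A.sub_mem (A.mul_mem (natCast_mem A m) haA) (intCast_mem A f)
    obtain ⟨N1, hN1⟩ := exists_pow_lt_of_lt_one hε ha1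
    obtain ⟨N2, hN2⟩ := pow_unbounded_of_one_lt R hb1
    set N := N1 + N2
    refine ⟨a' ^ N, A.pow_mem ha'A N, by positivity, ?_, ℂ, inferInstance, b' ^ N, ?_, ?_, ?_⟩
    · refine lt_of_le_of_lt ?_ hN1
      exact pow_le_pow_of_le_one ha0.le ha1.le (by omega)
    · rw [norm_pow]
      refine hN2.le.trans ?_
      exact pow_le_pow_right₀ hb1.le (by omega)
    · intro k hk
      rw [Complex.norm_natCast]
      have hk1 : (1 : ℝ) ≤ k := by exact_mod_cast hk
      exact (inv_le_one_of_one_le₀ hk1).trans hk1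
    · intro P hP0
      let Q : Polynomial ℤ := P.comp ((Polynomial.C (m : ℤ) * Polynomial.X - Polynomial.C f) ^ N)
      have h1 : Polynomial.aeval a Q = 0 := by
        rw [Polynomial.aeval_comp]
        simp only [map_pow, map_sub, map_mul, Polynomial.aeval_X, Polynomial.aeval_C]
        rw [← hP0, ha']
        simp
      have h2 := hP Q h1
      rw [Polynomial.aeval_comp] at h2
      simp only [map_pow, map_sub, map_mul, Polynomial.aeval_X, Polynomial.aeval_C] at h2
      rw [← h2, hb']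
      simp

end Pool.Agent.Helper59.EX
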