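import Pool.Agent.Helper59.EX.Monod

/-!
EX-M5: the elements `h_i` of Monod's group.
-/

open Matrix OnePoint Topology
open scoped MatrixGroups

namespace Pool.Agent.Helper59.EX

private theorem M5_mob (t : ℝ) (i : ℕ) (x : ℝ) (hx : t * x + (1 - 2 * i * t ^ 2) ≠ 0) :
    mob (zmat t i) (x : OnePoint ℝ) = ((zfun t i x : ℝ) : OnePoint ℝ) := by
  rw [mob_coe]
  · rfl
  · exact hx

/-- The real homeomorphism glued from `zfun` and the identity. -/
private theorem M5_real (t : ℝ) (i : ℕ) (p q : ℝ) (hpq : p < q) (ht : 0 < t)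
    (hD : 0 < t * p + (1 - 2 * i * t ^ 2)) (hp : zfun t i p = p) (hq : zfun t i q = q) :
    ∃ φ : ℝ ≃ₜ ℝ, (∀ x ∈ Set.Icc p q, φ x = zfun t i x) ∧ ∀ x, x ∉ Set.Icc p q → φ x = x := by
  classical
  have hDx : ∀ x ∈ Set.Icc p q, 0 < t * x + (1 - 2 * i * t ^ 2) := by
    intro x hx
    have := mul_le_mul_of_nonneg_left hx.1 ht.le
    linarith
  have hmono : ∀ x ∈ Set.Icc p q, ∀ y ∈ Set.Icc p q, x < y → zfun t i x < zfun t i y := by
    intro x hx y hy hxy
    have h1 := hDx x hx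
    have h2 := hDx y hy
    rw [zfun, zfun, div_lt_div_iff₀ h1 h2]
    have h3 : ((1 + (2 * i + 1) * t ^ 2) * y + (t - 2 * i * (2 * i + 1) * t ^ 3)) *
        (t * x + (1 - 2 * i * t ^ 2)) - ((1 + (2 * i + 1) * t ^ 2) * x +
        (t - 2 * i * (2 * i + 1) * t ^ 3)) * (t * y + (1 - 2 * i * t ^ 2)) = y - x := by
      ring
    linarith
  set φ : ℝ → ℝ := fun x => if x ∈ Set.Icc p q then zfun t i x else x with hφ
  have hin : ∀ x ∈ Set.Icc p q, φ x = zfun t i x := fun x hx => by rw [hφ]; exact if_pos hx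
  have hout : ∀ x, x ∉ Set.Icc p q → φ x = x := fun x hx => by rw [hφ]; exact if_neg hx
  have hle : ∀ x ∈ Set.Icc p q, zfun t i x ≤ q := by
    intro x hx
    rcases hx.2.eq_or_lt with h | h
    · rw [h, hq]
    · rw [← hq]
      exact (hmono x hx q ⟨hpq.le, le_rfl⟩ h).le
  have hge : ∀ x ∈ Set.Icc p q, p ≤ zfun t i x := by
    intro x hx
    rcases hx.1.eq_or_lt with h | h
    · rw [← h, hp]
    · rw [← hp]
      exact (hmono p ⟨le_rfl, hpq.le⟩ x hx h).le
  have hsm : StrictMono φ := by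
    intro x y hxy
    by_cases hx : x ∈ Set.Icc p q
    · by_cases hy : y ∈ Set.Icc p q
      · rw [hin x hx, hin y hy]
        exact hmono x hx y hy hxy
      · rw [hin x hx, hout y hy]
        have h1 : q < y := by
          by_contra h
          exact hy ⟨hx.1.trans hxy.le, not_lt.1 h⟩
        exact (hle x hx).trans_lt h1
    · by_cases hy : y ∈ Set.Icc p q
      · rw [hout x hx, hin y hy]
        have h1 : x < p := by
          by_contra h
          exact hx ⟨not_lt.1 h, hxy.le.trans hy.2⟩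
        exact h1.trans_le (hge y hy)
      · rw [hout x hx, hout y hy]
        exact hxy
  have hcont : ContinuousOn (zfun t i) (Set.Icc p q) := by
    unfold zfun
    refine ContinuousOn.div (by fun_prop) (by fun_prop) ?_
    intro x hx
    exact (hDx x hx).ne'
  have hsurj : Function.Surjective φ := by
    intro y
    by_cases hy : y ∈ Set.Icc p q
    · have h1 := intermediate_value_Icc hpq.le hcont
      rw [hp, hq] at h1
      obtain ⟨x, hx, hxy⟩ := h1 hy
      exact ⟨x, by rw [hin x hx, hxy]⟩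
    · exact ⟨y, hout y hy⟩
  refine ⟨(StrictMono.orderIsoOfSurjective φ hsm hsurj).toHomeomorph, ?_, ?_⟩
  · intro x hx
    exact hin x hx
  · intro x hx
    exact hout x hx

private theorem M5_disc (t s x : ℝ) (i : ℕ) (hs : s ^ 2 = t ^ 2 + 4) (ε : ℝ) (hε : ε ^ 2 = 1)
    (hx : x = 2 * i * t + (t + ε * s) / 2) :
    (1 + (2 * i + 1) * t ^ 2) * x + (t - 2 * i * (2 * i + 1) * t ^ 3) =
      x * (t * x + (1 - 2 * i * t ^ 2)) := by
  have h1 : (ε * s) ^ 2 = t ^ 2 + 4 := by rw [mul_pow, hε, one_mul, hs]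
  rw [hx]
  linear_combination (-(t / 4)) * h1

theorem exists_monod_elt (A : Subring ℝ) (t : ℝ) (htA : t ∈ A) (ht : 0 < t) (i : ℕ)
    (hti : (4 * (i : ℝ) + 2) * t < 1) :
    ∃ f ∈ MonodH A, ∀ x ∈ Set.Icc (0 : ℝ) 1,
      ∀ᶠ y in 𝓝 (x : OnePoint ℝ), f y = mob (zmat t i) y := by
  obtain ⟨s, hs0, hs⟩ : ∃ s : ℝ, 0 < s ∧ s ^ 2 = t ^ 2 + 4 :=
    ⟨Real.sqrt (t ^ 2 + 4), Real.sqrt_pos.2 (by positivity), Real.sq_sqrt (by positivity)⟩
  have hi0 : (0 : ℝ) ≤ i := Nat.cast_nonneg i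
  have hit : 0 ≤ (i : ℝ) * t := mul_nonneg hi0 ht.le
  have hs2 : 2 < s := by nlinarith
  have hts : t * s < t ^ 2 + 2 := by
    have h1 : (t * s) ^ 2 < (t ^ 2 + 2) ^ 2 := by
      rw [mul_pow, hs]
      nlinarith
    exact lt_of_pow_lt_pow_left₀ 2 (by positivity) h1
  set p : ℝ := 2 * i * t + (t + (-1) * s) / 2 with hp
  set q : ℝ := 2 * i * t + (t + 1 * s) / 2 with hq
  have hp0 : p < 0 := by rw [hp]; linarith
  have hq1 : 1 < q := by rw [hq]; linarith
  have hpq : p < q := by linarith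
  have hDp : 0 < t * p + (1 - 2 * i * t ^ 2) := by
    have h1 : t * p + (1 - 2 * i * t ^ 2) = (t ^ 2 + 2 - t * s) / 2 := by
      rw [hp]; ring
    rw [h1]
    linarith
  have hDx : ∀ x ∈ Set.Icc p q, 0 < t * x + (1 - 2 * i * t ^ 2) := by
    intro x hx
    have := mul_le_mul_of_nonneg_left hx.1 ht.le
    linarith
  have hpi : p ∈ Set.Icc p q := ⟨le_rfl, hpq.le⟩
  have hqi : q ∈ Set.Icc p q := ⟨hpq.le, le_rfl⟩
  have hzp : zfun t i p = p := by
    rw [zfun, div_eq_iff (hDx p hpi).ne']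
    exact M5_disc t s p i hs (-1) (by norm_num) hp
  have hzq : zfun t i q = q := by
    rw [zfun, div_eq_iff (hDx q hqi).ne']
    exact M5_disc t s q i hs 1 (by norm_num) hq
  obtain ⟨φ, hφin, hφout⟩ := M5_real t i p q hpq ht hDp hzp hzq
  -- the matrix over `A`
  have hmap : Matrix.SpecialLinearGroup.map A.subtype (zmat (⟨t, htA⟩ : A) i) = zmat t i := by
    have h2 : ((2 : A) : ℝ) = 2 := rfl
    ext a b
    fin_cases a <;> fin_cases b <;> simp [zmat, Matrix.SpecialLinearGroup.map, h2]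
  have htr : 2 < |((((zmat (⟨t, htA⟩ : A) i) 0 0 : A) : ℝ) +
      (((zmat (⟨t, htA⟩ : A) i) 1 1 : A) : ℝ))| := by
    have h1 : ((((zmat (⟨t, htA⟩ : A) i) 0 0 : A) : ℝ) +
      (((zmat (⟨t, htA⟩ : A) i) 1 1 : A) : ℝ)) = 2 + t ^ 2 := by
      simp [zmat]
      ring
    rw [h1, abs_of_pos (by positivity)]
    have : 0 < t ^ 2 := by positivity
    linarith
  have hfixp : (p : OnePoint ℝ) ∈ hypFix A := by
    refine ⟨zmat (⟨t, htA⟩ : A) i, htr, ?_⟩
    rw [hmap, M5_mob t i p (hDx p hpi).ne', hzp]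
  have hfixq : (q : OnePoint ℝ) ∈ hypFix A := by
    refine ⟨zmat (⟨t, htA⟩ : A) i, htr, ?_⟩
    rw [hmap, M5_mob t i q (hDx q hqi).ne', hzq]
  have hloc : ∀ x ∈ Set.Ioo p q, ∀ᶠ y in 𝓝 (x : OnePoint ℝ),
      φ.onePointCongr y = mob (zmat t i) y := by
    intro x hx
    rw [OnePoint.nhds_coe_eq, Filter.eventually_map]
    filter_upwards [Ioo_mem_nhds hx.1 hx.2] with y hy
    have hyi : y ∈ Set.Icc p q := ⟨hy.1.le, hy.2.le⟩
    rw [M5_mob t i y (hDx y hyi).ne', ← hφin y hyi]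
    rfl
  have hid : ∀ x : ℝ, x ∉ Set.Icc p q → ∀ᶠ y in 𝓝 (x : OnePoint ℝ),
      φ.onePointCongr y = mob (Matrix.SpecialLinearGroup.map A.subtype 1) y := by
    intro x hx
    rw [OnePoint.nhds_coe_eq, Filter.eventually_map]
    filter_upwards [isClosed_Icc.isOpen_compl.mem_nhds hx] with y hy
    rw [map_one, ← mobPerm_apply, map_one, Equiv.Perm.one_apply]
    exact congrArg _ (hφout y hy)
  refine ⟨φ.onePointCongr, ⟨⟨{(p : OnePoint ℝ), (q : OnePoint ℝ)}, ?_, ?_, ?_⟩, rfl⟩, ?_⟩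
  · exact (Set.finite_singleton _).insert _
  · rintro x (rfl | rfl)
    · exact hfixp
    · exact hfixq
  · intro x hx
    rw [Set.mem_insert_iff, Set.mem_singleton_iff, not_or] at hx
    induction x using OnePoint.rec with
    | infty =>
      refine ⟨1, ?_⟩
      rw [OnePoint.nhds_infty_eq, Filter.eventually_sup, Filter.eventually_map,
        Filter.eventually_pure]
      constructor
      · rw [Filter.coclosedCompact_eq_cocompact]
        filter_upwards [isCompact_Icc.compl_mem_cocompact (s := Set.Icc p q)] with y hy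
        rw [map_one, ← mobPerm_apply, map_one, Equiv.Perm.one_apply]
        exact congrArg _ (hφout y hy)
      · rw [map_one, ← mobPerm_apply, map_one, Equiv.Perm.one_apply]
        rfl
    | coe x =>
      by_cases hxi : x ∈ Set.Icc p q
      · refine ⟨zmat (⟨t, htA⟩ : A) i, ?_⟩
        rw [hmap]
        refine hloc x ⟨lt_of_le_of_ne hxi.1 ?_, lt_of_le_of_ne hxi.2 ?_⟩
        · intro h
          exact hx.1 (by rw [h])
        · intro h
          exact hx.2 (by rw [h])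
      · exact ⟨1, hid x hxi⟩
  · intro x hx
    exact hloc x ⟨by linarith [hx.1], by linarith [hx.2]⟩

end Pool.Agent.Helper59.EX
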