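import Pool.Agent.Helper59.EX.Monod0
import Pool.Agent.Helper59.EX.St.M2

/-!
EX-M6: the germ cocycle and the Jacobian cocycle.
-/

open Matrix OnePoint Topology MeasureTheory
open scoped MatrixGroups ENNReal

namespace Pool.Agent.Helper59.EX

/-- The points at which all the elements of `W` are locally projective. -/
def RegPts (W : Subgroup (OnePoint ℝ ≃ₜ OnePoint ℝ)) : Set ℝ :=
  {x | ∀ f ∈ W, LocMob f (x : OnePoint ℝ)}

theorem countable_compl_regPts (W : Subgroup (OnePoint ℝ ≃ₜ OnePoint ℝ)) [Countable W]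
    (hfin : ∀ f ∈ W, {x | ¬ LocMob f x}.Finite) : (RegPts W)ᶜ.Countable := by
  have h : (RegPts W)ᶜ ⊆ ⋃ f : W, (fun x : ℝ => (x : OnePoint ℝ)) ⁻¹' {x | ¬ LocMob (f : OnePoint ℝ ≃ₜ OnePoint ℝ) x} := by
    intro x hx
    simp only [RegPts, Set.mem_compl_iff, Set.mem_ofPred_eq, not_forall] at hx
    obtain ⟨f, hf, hx⟩ := hx
    exact Set.mem_iUnion.2 ⟨⟨f, hf⟩, hx⟩
  refine Set.Countable.mono h (Set.countable_iUnion fun f => ?_)
  exact ((hfin f f.2).preimage (OnePoint.coe_injective.injOn)).countable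

/-- The real number of a point of the projective line. -/
private noncomputable def M6_toReal (y : OnePoint ℝ) : ℝ := y.elim 0 id

private theorem M6_toReal_coe (x : ℝ) : M6_toReal (x : OnePoint ℝ) = x := rfl

private theorem M6_coe_toReal {y : OnePoint ℝ} (hy : y ≠ OnePoint.infty) :
    ((M6_toReal y : ℝ) : OnePoint ℝ) = y := by
  obtain ⟨x, rfl⟩ := OnePoint.ne_infty_iff_exists.1 hy
  rw [M6_toReal_coe]

/-- The real function of a homeomorphism fixing infinity. -/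
private noncomputable def M6_rf (f : OnePoint ℝ ≃ₜ OnePoint ℝ) (x : ℝ) : ℝ :=
  M6_toReal (f (x : OnePoint ℝ))

private theorem M6_coe_rf {f : OnePoint ℝ ≃ₜ OnePoint ℝ} (hf : f OnePoint.infty = OnePoint.infty)
    (x : ℝ) : ((M6_rf f x : ℝ) : OnePoint ℝ) = f (x : OnePoint ℝ) := by
  apply M6_coe_toReal
  intro h
  rw [← hf] at h
  exact OnePoint.coe_ne_infty x (f.injective h)

private theorem M6_continuous_rf {f : OnePoint ℝ ≃ₜ OnePoint ℝ}
    (hf : f OnePoint.infty = OnePoint.infty) : Continuous (M6_rf f) := by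
  rw [OnePoint.isOpenEmbedding_coe.isEmbedding.continuous_iff]
  have : ((fun x : ℝ => (x : OnePoint ℝ)) ∘ M6_rf f) = fun x : ℝ => f (x : OnePoint ℝ) := by
    funext x
    exact M6_coe_rf hf x
  rw [this]
  exact f.continuous.comp OnePoint.continuous_coe

private theorem M6_rf_mul {f g : OnePoint ℝ ≃ₜ OnePoint ℝ}
    (hg : g OnePoint.infty = OnePoint.infty) (x : ℝ) :
    M6_rf (f * g) x = M6_rf f (M6_rf g x) := by
  unfold M6_rf
  rw [M6_coe_toReal]
  · rfl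
  · intro h
    rw [← hg] at h
    exact OnePoint.coe_ne_infty x (g.injective h)

private theorem M6_mob_infty (g : SL(2, ℝ)) (x : ℝ) (h : g 1 0 * x + g 1 1 = 0) :
    mob g (x : OnePoint ℝ) = OnePoint.infty := by
  unfold mob
  rw [OnePoint.smul_some_eq_ite]
  rw [if_pos]
  simpa using h

private theorem M6_denom {f : OnePoint ℝ ≃ₜ OnePoint ℝ} (hf : f OnePoint.infty = OnePoint.infty)
    {g : SL(2, ℝ)} {x : ℝ} (h : ∀ᶠ y in 𝓝 (x : OnePoint ℝ), f y = mob g y) :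
    g 1 0 * x + g 1 1 ≠ 0 := by
  intro h0
  have h1 := h.self_of_nhds
  rw [M6_mob_infty g x h0, ← hf] at h1
  exact OnePoint.coe_ne_infty x (f.injective h1)

private theorem M6_eventually_real {p : OnePoint ℝ → Prop} {x : ℝ}
    (h : ∀ᶠ y in 𝓝 (x : OnePoint ℝ), p y) : ∀ᶠ y : ℝ in 𝓝 x, p (y : OnePoint ℝ) :=
  (OnePoint.continuous_coe.tendsto x).eventually h

private theorem M6_hasDerivAt {f : OnePoint ℝ ≃ₜ OnePoint ℝ}
    (hf : f OnePoint.infty = OnePoint.infty)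
    {g : SL(2, ℝ)} {x : ℝ} (h : ∀ᶠ y in 𝓝 (x : OnePoint ℝ), f y = mob g y) :
    HasDerivAt (M6_rf f) (1 / (g 1 0 * x + g 1 1) ^ 2) x := by
  have hd := M6_denom hf h
  have hev : ∀ᶠ y in 𝓝 x, g 1 0 * y + g 1 1 ≠ 0 := by
    have hc : Continuous fun y : ℝ => g 1 0 * y + g 1 1 := by fun_prop
    exact hc.continuousAt.eventually_ne hd
  have heq : M6_rf f =ᶠ[𝓝 x] fun y => (g 0 0 * y + g 0 1) / (g 1 0 * y + g 1 1) := by
    filter_upwards [M6_eventually_real h, hev] with y hy hy'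
    unfold M6_rf
    rw [hy, mob_coe g y hy', M6_toReal_coe]
  have hdet : g 0 0 * g 1 1 - g 0 1 * g 1 0 = 1 := by
    have := g.det_coe
    rwa [Matrix.det_fin_two] at this
  have h1 : HasDerivAt (fun y : ℝ => g 0 0 * y + g 0 1) (g 0 0) x := by
    simpa using ((hasDerivAt_id x).const_mul (g 0 0)).add_const (g 0 1)
  have h2 : HasDerivAt (fun y : ℝ => g 1 0 * y + g 1 1) (g 1 0) x := by
    simpa using ((hasDerivAt_id x).const_mul (g 1 0)).add_const (g 1 1)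
  have h3 := h1.div h2 hd
  have h4 : (g 0 0 * (g 1 0 * x + g 1 1) - (g 0 0 * x + g 0 1) * g 1 0) /
      (g 1 0 * x + g 1 1) ^ 2 = 1 / (g 1 0 * x + g 1 1) ^ 2 := by
    congr 1
    linear_combination hdet
  rw [h4] at h3
  exact h3.congr_of_eventuallyEq heq

private theorem M6_measurableSet (W : Subgroup (OnePoint ℝ ≃ₜ OnePoint ℝ)) [Countable W]
    (hfin : ∀ f ∈ W, {x | ¬ LocMob f x}.Finite) : MeasurableSet (RegPts W) := by
  rw [← MeasurableSet.compl_iff]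
  exact (countable_compl_regPts W hfin).measurableSet

private theorem M6_rf_mem {W : Subgroup (OnePoint ℝ ≃ₜ OnePoint ℝ)}
    (hinf : ∀ f ∈ W, f OnePoint.infty = OnePoint.infty) (f : W) {x : ℝ} (hx : x ∈ RegPts W) :
    M6_rf (f : OnePoint ℝ ≃ₜ OnePoint ℝ) x ∈ RegPts W := by
  intro h hh
  rw [M6_coe_rf (hinf f f.2)]
  have h1 : LocMob (h * (f : OnePoint ℝ ≃ₜ OnePoint ℝ)) (x : OnePoint ℝ) :=
    hx _ (W.mul_mem hh f.2)
  have h2 : LocMob ((f : OnePoint ℝ ≃ₜ OnePoint ℝ)⁻¹) ((f : OnePoint ℝ ≃ₜ OnePoint ℝ) (x : OnePoint ℝ)) :=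
    (hx _ f.2).inv
  have h3 : ((f : OnePoint ℝ ≃ₜ OnePoint ℝ)⁻¹) ((f : OnePoint ℝ ≃ₜ OnePoint ℝ) (x : OnePoint ℝ)) =
      (x : OnePoint ℝ) := (f : OnePoint ℝ ≃ₜ OnePoint ℝ).symm_apply_apply _
  have h4 := h2.mul (f := h * (f : OnePoint ℝ ≃ₜ OnePoint ℝ)) (by rw [h3]; exact h1)
  rwa [mul_assoc, mul_inv_cancel, mul_one] at h4

theorem exists_cocycle_data (W : Subgroup (OnePoint ℝ ≃ₜ OnePoint ℝ)) [Countable W]
    (hinf : ∀ f ∈ W, f OnePoint.infty = OnePoint.infty) (hfin : ∀ f ∈ W, {x | ¬ LocMob f x}.Finite) :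
    ∃ (_ : MulAction W (RegPts W)) (J : W → RegPts W → ℝ)
      (c : W → RegPts W → Equiv.Perm (OnePoint ℝ)),
      (∀ (f : W) (x : RegPts W), (((f • x : RegPts W) : ℝ) : OnePoint ℝ) =
        (f : OnePoint ℝ ≃ₜ OnePoint ℝ) ((x : ℝ) : OnePoint ℝ)) ∧
      (∀ f : W, Measurable (fun x : RegPts W => f • x)) ∧
      (∀ f, Measurable (J f)) ∧ (∀ f x, 0 < J f x) ∧
      (∀ f g x, J (f * g) x = J f (g • x) * J g x) ∧
      (∀ (f : W) (F : RegPts W → ℝ≥0∞), Measurable F →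
        ∫⁻ x, F (f • x) * ENNReal.ofReal (J f x) ∂(volume.comap Subtype.val) =
          ∫⁻ x, F x ∂(volume.comap Subtype.val)) ∧
      (∀ f g x, c (f * g) x = c f (g • x) * c g x) ∧
      (∀ f l, MeasurableSet {x | c f x = l}) ∧
      (∀ (f : W) (x : RegPts W) (g : SL(2, ℝ)),
        (∀ᶠ y in 𝓝 ((x : ℝ) : OnePoint ℝ), (f : OnePoint ℝ ≃ₜ OnePoint ℝ) y = mob g y) →
        c f x = mobPerm g ∧ g 1 0 * (x : ℝ) + g 1 1 ≠ 0 ∧
          J f x = 1 / (g 1 0 * (x : ℝ) + g 1 1) ^ 2) := by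
  classical
  have hS := M6_measurableSet W hfin
  let act : MulAction W (RegPts W) :=
    { smul := fun f x => ⟨M6_rf (f : OnePoint ℝ ≃ₜ OnePoint ℝ) x, M6_rf_mem hinf f x.2⟩
      one_smul := fun x => by
        apply Subtype.ext
        change M6_rf ((1 : W) : OnePoint ℝ ≃ₜ OnePoint ℝ) x = x
        exact M6_toReal_coe _
      mul_smul := fun f g x => by
        apply Subtype.ext
        exact M6_rf_mul (f := (f : OnePoint ℝ ≃ₜ OnePoint ℝ)) (hinf g g.2) x }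
  have hsmul : ∀ (f : W) (x : RegPts W), ((f • x : RegPts W) : ℝ) =
      M6_rf (f : OnePoint ℝ ≃ₜ OnePoint ℝ) x := fun f x => rfl
  -- the local elements
  have hloc : ∀ (f : W) (x : RegPts W), ∃ g : SL(2, ℝ),
      ∀ᶠ y in 𝓝 ((x : ℝ) : OnePoint ℝ), (f : OnePoint ℝ ≃ₜ OnePoint ℝ) y = mob g y :=
    fun f x => x.2 f f.2
  choose lc hlc using hloc
  have hcoe : ∀ (f : W) (x : RegPts W), (((f • x : RegPts W) : ℝ) : OnePoint ℝ) =
        (f : OnePoint ℝ ≃ₜ OnePoint ℝ) ((x : ℝ) : OnePoint ℝ) := fun f x => by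
    rw [hsmul]
    exact M6_coe_rf (hinf f f.2) x
  have hc : ∀ (f : W) (x : RegPts W) (g : SL(2, ℝ)),
        (∀ᶠ y in 𝓝 ((x : ℝ) : OnePoint ℝ), (f : OnePoint ℝ ≃ₜ OnePoint ℝ) y = mob g y) →
        mobPerm (lc f x) = mobPerm g := by
    intro f x g hg
    refine mobPerm_eq_of_eventuallyEq _ _ ((x : ℝ) : OnePoint ℝ) ?_
    filter_upwards [hlc f x, hg] with y h1 h2
    rw [← h1, h2]
  have hder : ∀ (f : W) (x : RegPts W) (g : SL(2, ℝ)),
        (∀ᶠ y in 𝓝 ((x : ℝ) : OnePoint ℝ), (f : OnePoint ℝ ≃ₜ OnePoint ℝ) y = mob g y) →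
        deriv (M6_rf (f : OnePoint ℝ ≃ₜ OnePoint ℝ)) x =
          1 / (g 1 0 * (x : ℝ) + g 1 1) ^ 2 := fun f x g hg =>
    (M6_hasDerivAt (hinf f f.2) hg).deriv
  have hdiff : ∀ (f : W) (x : RegPts W),
      DifferentiableAt ℝ (M6_rf (f : OnePoint ℝ ≃ₜ OnePoint ℝ)) x := fun f x =>
    (M6_hasDerivAt (hinf f f.2) (hlc f x)).differentiableAt
  refine ⟨act, fun f x => deriv (M6_rf (f : OnePoint ℝ ≃ₜ OnePoint ℝ)) x,
    fun f x => mobPerm (lc f x), hcoe, ?_, ?_, ?_, ?_, ?_, ?_, ?_, ?_⟩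
  · intro f
    refine Measurable.subtype_mk ?_
    exact (M6_continuous_rf (hinf f f.2)).measurable.comp measurable_subtype_coe
  · intro f
    exact (measurable_deriv _).comp measurable_subtype_coe
  · intro f x
    change 0 < deriv (M6_rf (f : OnePoint ℝ ≃ₜ OnePoint ℝ)) x
    rw [hder f x _ (hlc f x)]
    have := M6_denom (hinf f f.2) (hlc f x)
    positivity
  · intro f g x
    have h1 : M6_rf ((f * g : W) : OnePoint ℝ ≃ₜ OnePoint ℝ) =
        M6_rf (f : OnePoint ℝ ≃ₜ OnePoint ℝ) ∘ M6_rf (g : OnePoint ℝ ≃ₜ OnePoint ℝ) := by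
      funext y
      exact M6_rf_mul (hinf g g.2) y
    have h2 := deriv_comp (h₂ := M6_rf (f : OnePoint ℝ ≃ₜ OnePoint ℝ))
      (h := M6_rf (g : OnePoint ℝ ≃ₜ OnePoint ℝ)) (x : ℝ) (hdiff f (g • x)) (hdiff g x)
    change deriv (M6_rf ((f * g : W) : OnePoint ℝ ≃ₜ OnePoint ℝ)) x = _
    rw [h1, h2]
    rfl
  · intro f F hF
    have hinj : Set.InjOn (M6_rf (f : OnePoint ℝ ≃ₜ OnePoint ℝ)) (RegPts W) := by
      intro a _ b _ hab
      have h1 := congrArg (fun t : ℝ => (t : OnePoint ℝ)) hab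
      simp only [M6_coe_rf (hinf f f.2)] at h1
      exact OnePoint.coe_injective ((f : OnePoint ℝ ≃ₜ OnePoint ℝ).injective h1)
    have himg : M6_rf (f : OnePoint ℝ ≃ₜ OnePoint ℝ) '' (RegPts W) = RegPts W := by
      apply Set.Subset.antisymm
      · rintro _ ⟨x, hx, rfl⟩
        exact M6_rf_mem hinf f hx
      · intro x hx
        refine ⟨_, M6_rf_mem hinf f⁻¹ hx, ?_⟩
        have h1 : f • (f⁻¹ • (⟨x, hx⟩ : RegPts W)) = ⟨x, hx⟩ := smul_inv_smul f _
        exact congrArg Subtype.val h1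
    let F' : ℝ → ℝ≥0∞ := fun x => if h : x ∈ RegPts W then F ⟨x, h⟩ else 0
    have hF' : ∀ x : RegPts W, F' x = F x := by
      intro x
      simp only [F']
      rw [dif_pos x.2]
    have e1 : ∫⁻ x : RegPts W, F x ∂(volume.comap Subtype.val) =
        ∫⁻ x in RegPts W, F' x := by
      rw [← lintegral_subtype_comap hS]
      exact lintegral_congr fun x => (hF' x).symm
    have e2 : ∫⁻ x : RegPts W, F (f • x) *
          ENNReal.ofReal (deriv (M6_rf (f : OnePoint ℝ ≃ₜ OnePoint ℝ)) x)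
          ∂(volume.comap Subtype.val) =
        ∫⁻ x in RegPts W, ENNReal.ofReal |deriv (M6_rf (f : OnePoint ℝ ≃ₜ OnePoint ℝ)) x| *
          F' (M6_rf (f : OnePoint ℝ ≃ₜ OnePoint ℝ) x) := by
      rw [← lintegral_subtype_comap hS]
      refine lintegral_congr fun x => ?_
      have h1 : F' (M6_rf (f : OnePoint ℝ ≃ₜ OnePoint ℝ) x) = F (f • x) := hF' (f • x)
      rw [h1, mul_comm, abs_of_pos]
      rw [hder f x _ (hlc f x)]
      have := M6_denom (hinf f f.2) (hlc f x)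
      positivity
    rw [e1, e2, ← lintegral_image_eq_lintegral_abs_deriv_mul hS
      (fun x hx => (hdiff f ⟨x, hx⟩).hasDerivAt.hasDerivWithinAt) hinj F', himg]
  · intro f g x
    have h1 : ∀ᶠ y in 𝓝 ((x : ℝ) : OnePoint ℝ),
        ((f * g : W) : OnePoint ℝ ≃ₜ OnePoint ℝ) y = mob (lc f (g • x) * lc g x) y := by
      have h2 := hlc f (g • x)
      rw [hcoe] at h2
      have h3 := ((g : OnePoint ℝ ≃ₜ OnePoint ℝ).continuous.tendsto ((x : ℝ) : OnePoint ℝ)).eventually h2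
      filter_upwards [h3, hlc g x] with y h4 h5
      rw [mob_mul, ← h5, ← h4]
      rfl
    change mobPerm (lc (f * g) x) = mobPerm (lc f (g • x)) * mobPerm (lc g x)
    rw [hc _ _ _ h1, map_mul]
  · intro f l
    apply IsOpen.measurableSet
    rw [isOpen_iff_mem_nhds]
    intro x hx
    have h1 := M6_eventually_real (eventually_eventually_nhds.2 (hlc f x))
    have h2 : ∀ᶠ y : RegPts W in 𝓝 x, ∀ᶠ z in 𝓝 ((y : ℝ) : OnePoint ℝ),
        (f : OnePoint ℝ ≃ₜ OnePoint ℝ) z = mob (lc f x) z :=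
      (continuous_subtype_val.tendsto x).eventually h1
    filter_upwards [h2] with y hy
    exact (hc f y _ hy).trans hx
  · intro f x g hg
    exact ⟨hc f x g hg, M6_denom (hinf f f.2) hg, hder f x g hg⟩

end Pool.Agent.Helper59.EX
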