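import Pool.Agent.Helper59.EX.Monod0

/-!
EX-M7: the affinity estimate.
-/

open MeasureTheory

namespace Pool.Agent.Helper59.EX

private theorem M7_aux {n : ℕ} {t : ℝ} (ht : 0 < t) (htε : t < 1 / (16 * (n + 1))) {i : ℕ}
    (hi : i < n) : 0 ≤ 2 * (i : ℝ) * t ^ 2 ∧ 2 * (i : ℝ) * t ^ 2 ≤ 1 / 128 ∧ t < 1 / 16 ∧
      (4 * (i : ℝ) + 1) * t ^ 2 ≤ 5 / 256 ∧ 0 ≤ 2 * (i : ℝ) * (2 * i + 1) * t ^ 3 ∧
      2 * (i : ℝ) * (2 * i + 1) * t ^ 3 ≤ 6 / 4096 := by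
  have hN : (1 : ℝ) ≤ (n : ℝ) + 1 := by
    have : (0 : ℝ) ≤ n := Nat.cast_nonneg n
    linarith
  have hi0 : (0 : ℝ) ≤ i := Nat.cast_nonneg i
  have hiN : (i : ℝ) ≤ (n : ℝ) + 1 := by
    have : (i : ℝ) < n := by exact_mod_cast hi
    linarith
  set N : ℝ := (n : ℝ) + 1 with hNdef
  have hN0 : 0 < N := by linarith
  have h1 : t * N ≤ 1 / 16 := by
    rw [lt_div_iff₀ (by positivity)] at htε
    nlinarith
  have h2 : t < 1 / 16 := by
    refine htε.trans_le ?_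
    rw [div_le_div_iff₀ (by positivity) (by norm_num)]
    linarith
  have hit : (i : ℝ) * t ≤ 1 / 16 := by
    calc (i : ℝ) * t ≤ N * t := mul_le_mul_of_nonneg_right hiN ht.le
      _ ≤ 1 / 16 := by linarith
  have hit0 : 0 ≤ (i : ℝ) * t := by positivity
  refine ⟨by positivity, ?_, h2, ?_, by positivity, ?_⟩
  · nlinarith
  · nlinarith
  · have e : 2 * (i : ℝ) * (2 * i + 1) * t ^ 3 = 4 * (i * t) ^ 2 * t + 2 * (i * t) * t ^ 2 := by ring
    rw [e]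
    have a1 : (i * t) ^ 2 ≤ 1 / 256 := by nlinarith
    have a2 : (i * t) ^ 2 * t ≤ 1 / 256 * (1 / 16) :=
      mul_le_mul a1 h2.le ht.le (by norm_num)
    have a3 : t ^ 2 ≤ 1 / 256 := by nlinarith
    have a4 : (i * t) * t ^ 2 ≤ 1 / 16 * (1 / 256) :=
      mul_le_mul hit a3 (by positivity) (by norm_num)
    linarith

theorem affinity_ge (n : ℕ) : ∃ ε : ℝ, 0 < ε ∧ ∀ t : ℝ, 0 < t → t < ε → ∀ i < n,
    1 / 4 ≤ ∫ x in {x : ℝ | x ∈ Set.Ioo (0 : ℝ) 1 ∧ zfun t i x ∈ Set.Ioo (0 : ℝ) 1},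
      Real.sqrt (1 / (t * x + (1 - 2 * i * t ^ 2)) ^ 2) := by
  refine ⟨1 / (16 * (n + 1)), by positivity, ?_⟩
  intro t ht htε i hi
  obtain ⟨b1, b2, b3, b4, b5, b6⟩ := M7_aux ht htε hi
  set f : ℝ → ℝ := fun x => Real.sqrt (1 / (t * x + (1 - 2 * i * t ^ 2)) ^ 2) with hf
  set s : Set ℝ := {x : ℝ | x ∈ Set.Ioo (0 : ℝ) 1 ∧ zfun t i x ∈ Set.Ioo (0 : ℝ) 1} with hs
  -- bounds for the denominator
  have hD : ∀ x ∈ Set.Ioo (0 : ℝ) 1, 1 / 2 ≤ t * x + (1 - 2 * i * t ^ 2) ∧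
      t * x + (1 - 2 * i * t ^ 2) ≤ 2 := by
    intro x hx
    have h1 : 0 ≤ t * x := mul_nonneg ht.le hx.1.le
    have h2 : t * x ≤ 1 := by nlinarith [hx.1, hx.2]
    constructor <;> linarith
  have hfx : ∀ x ∈ Set.Ioo (0 : ℝ) 1, f x = 1 / (t * x + (1 - 2 * i * t ^ 2)) := by
    intro x hx
    have h1 := (hD x hx).1
    rw [hf]
    simp only
    rw [← one_div_pow, Real.sqrt_sq (by positivity)]
  have hf1 : ∀ x ∈ Set.Ioo (0 : ℝ) 1, 1 / 2 ≤ f x := by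
    intro x hx
    obtain ⟨h1, h2⟩ := hD x hx
    rw [hfx x hx]
    exact one_div_le_one_div_of_le (by linarith) h2
  have hf2 : ∀ x ∈ Set.Ioo (0 : ℝ) 1, f x ≤ 2 := by
    intro x hx
    obtain ⟨h1, h2⟩ := hD x hx
    rw [hfx x hx, div_le_iff₀ (by linarith)]
    linarith
  have hsub : Set.Icc (1 / 4 : ℝ) (3 / 4) ⊆ s := by
    intro x hx
    have hx01 : x ∈ Set.Ioo (0 : ℝ) 1 := ⟨by linarith [hx.1], by linarith [hx.2]⟩
    refine ⟨hx01, ?_⟩
    obtain ⟨h1, h2⟩ := hD x hx01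
    have hD0 : (0 : ℝ) < t * x + (1 - 2 * i * t ^ 2) := by linarith
    have e1 : (1 + (2 * (i : ℝ) + 1) * t ^ 2) * x + (t - 2 * i * (2 * i + 1) * t ^ 3)
        = x * (t * x + (1 - 2 * i * t ^ 2)) + ((4 * i + 1) * t ^ 2 * x + t * (1 - x ^ 2)
          - 2 * i * (2 * i + 1) * t ^ 3) := by ring
    set R : ℝ := (4 * i + 1) * t ^ 2 * x + t * (1 - x ^ 2) - 2 * i * (2 * i + 1) * t ^ 3 with hR
    have c1 : 0 ≤ (4 * (i : ℝ) + 1) * t ^ 2 * x :=
      mul_nonneg (by positivity) hx01.1.le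
    have c2 : (4 * (i : ℝ) + 1) * t ^ 2 * x ≤ 5 / 256 := by
      calc (4 * (i : ℝ) + 1) * t ^ 2 * x ≤ (4 * (i : ℝ) + 1) * t ^ 2 * 1 :=
            mul_le_mul_of_nonneg_left hx01.2.le (by positivity)
        _ ≤ 5 / 256 := by linarith
    have c3 : 0 ≤ t * (1 - x ^ 2) := mul_nonneg ht.le (by nlinarith [hx01.1, hx01.2])
    have c4 : t * (1 - x ^ 2) ≤ 1 / 16 := by nlinarith [sq_nonneg x]
    have hR1 : -(1 / 10) < R := by rw [hR]; linarith
    have hR2 : R < 1 / 10 := by rw [hR]; linarith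
    have e2 : zfun t i x = x + R / (t * x + (1 - 2 * i * t ^ 2)) := by
      unfold zfun
      rw [e1, add_div, mul_div_assoc, div_self hD0.ne', mul_one]
    rw [e2]
    have q1 : -(1 / 4) < R / (t * x + (1 - 2 * i * t ^ 2)) := by
      rw [lt_div_iff₀ hD0]; linarith
    have q2 : R / (t * x + (1 - 2 * i * t ^ 2)) < 1 / 4 := by
      rw [div_lt_iff₀ hD0]; linarith
    exact ⟨by linarith [hx.1], by linarith [hx.2]⟩
  have hz : Measurable (zfun t i) := by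
    unfold zfun
    fun_prop
  have hsm : MeasurableSet s := measurableSet_Ioo.inter (hz measurableSet_Ioo)
  have hfm : Measurable f := by
    rw [hf]
    fun_prop
  have hs1 : s ⊆ Set.Ioo (0 : ℝ) 1 := fun x hx => hx.1
  have hint : IntegrableOn f s := by
    refine Measure.integrableOn_of_bounded (M := 2) ?_ hfm.aestronglyMeasurable ?_
    · exact ((measure_mono hs1).trans_lt (by simp)).ne
    · refine (ae_restrict_iff' hsm).2 (ae_of_all _ fun x hx => ?_)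
      rw [Real.norm_of_nonneg (Real.sqrt_nonneg _)]
      exact hf2 x (hs1 hx)
  have hle : ∫ x in Set.Icc (1 / 4 : ℝ) (3 / 4), f x ≤ ∫ x in s, f x :=
    setIntegral_mono_set hint (ae_of_all _ fun x => Real.sqrt_nonneg _)
      (Filter.Eventually.of_forall hsub)
  refine le_trans ?_ hle
  have hconst : ∫ _ in Set.Icc (1 / 4 : ℝ) (3 / 4), (1 / 2 : ℝ) = 1 / 4 := by
    rw [setIntegral_const]
    simp [Measure.real]
    norm_num
  refine hconst.symm.le.trans ?_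
  refine setIntegral_mono_on (integrableOn_const (by simp)) (hint.mono_set hsub)
    measurableSet_Icc ?_
  intro x hx
  exact hf1 x (hs1 (hsub hx))

end Pool.Agent.Helper59.EX
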