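import Pool.Agent.Helper59.EX.Reg

/-!
EX-A1: algebraic properties of `tensorRep`.
-/

open scoped TensorProduct InnerProductSpace ENNReal

namespace Pool.Agent.Helper59.EX

variable {A B C H K : Type*} [CStarAlgebra A] [CStarAlgebra B] [CStarAlgebra C]
  [NormedAddCommGroup H] [InnerProductSpace ℂ H] [CompleteSpace H]
  [NormedAddCommGroup K] [InnerProductSpace ℂ K] [CompleteSpace K]

theorem tensorRep_tmul (π : A →⋆ₙₐ[ℂ] (H →L[ℂ] H)) (σ : B →⋆ₙₐ[ℂ] (K →L[ℂ] K)) (a : A) (b : B) :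
    tensorRep π σ (a ⊗ₜ[ℂ] b) = TensorProduct.mapL (π a) (σ b) := by
  rfl

theorem tensorRep_mul (π : A →⋆ₙₐ[ℂ] (H →L[ℂ] H)) (σ : B →⋆ₙₐ[ℂ] (K →L[ℂ] K))
    (x y : A ⊗[ℂ] B) : tensorRep π σ (x * y) = tensorRep π σ x * tensorRep π σ y := by
  induction x using TensorProduct.induction_on with
  | zero => rw [zero_mul, map_zero, zero_mul]
  | add x x' hx hx' => rw [add_mul, map_add, map_add, hx, hx', add_mul]
  | tmul a b =>
    induction y using TensorProduct.induction_on with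
    | zero => rw [mul_zero, map_zero, mul_zero]
    | add y y' hy hy' => rw [mul_add, map_add, map_add, hy, hy', mul_add]
    | tmul a' b' =>
      rw [Algebra.TensorProduct.tmul_mul_tmul, tensorRep_tmul, tensorRep_tmul, tensorRep_tmul,
        map_mul, map_mul, TensorProduct.mapL_mul]

theorem tensorRep_inner (π : A →⋆ₙₐ[ℂ] (H →L[ℂ] H)) (σ : B →⋆ₙₐ[ℂ] (K →L[ℂ] K))
    (x : A ⊗[ℂ] B) (v w : H ⊗[ℂ] K) :
    ⟪tensorRep π σ x v, w⟫_ℂ = ⟪v, tensorRep π σ (star x) w⟫_ℂ := by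
  induction x using TensorProduct.induction_on with
  | zero => simp
  | add x x' hx hx' =>
    rw [map_add, star_add, map_add, add_apply, add_apply, inner_add_left, inner_add_right, hx, hx']
  | tmul a b =>
    rw [TensorProduct.star_tmul, tensorRep_tmul, tensorRep_tmul]
    induction v using TensorProduct.induction_on with
    | zero => simp only [map_zero, inner_zero_left]
    | add v v' hv hv' => rw [map_add, inner_add_left, inner_add_left, hv, hv']
    | tmul m n =>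
      induction w using TensorProduct.induction_on with
      | zero => simp only [map_zero, inner_zero_right]
      | add w w' hw hw' => rw [map_add, inner_add_right, inner_add_right, hw, hw']
      | tmul m' n' =>
        rw [TensorProduct.mapL_tmul, TensorProduct.mapL_tmul, TensorProduct.inner_tmul,
          TensorProduct.inner_tmul, map_star, map_star, ContinuousLinearMap.star_eq_adjoint,
          ContinuousLinearMap.star_eq_adjoint, ContinuousLinearMap.adjoint_inner_right,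
          ContinuousLinearMap.adjoint_inner_right]

theorem tensorRep_map (π : A →⋆ₙₐ[ℂ] (H →L[ℂ] H)) (σ : C →⋆ₙₐ[ℂ] (K →L[ℂ] K))
    (q : B →⋆ₙₐ[ℂ] C) (x : A ⊗[ℂ] B) :
    tensorRep π σ (TensorProduct.map (LinearMap.id : A →ₗ[ℂ] A) (q : B →ₗ[ℂ] C) x) =
      tensorRep π (σ.comp q) x := by
  induction x using TensorProduct.induction_on with
  | zero => simp only [map_zero]
  | add x x' hx hx' => rw [map_add, map_add, map_add, hx, hx']
  | tmul a b =>
    rw [TensorProduct.map_tmul, tensorRep_tmul, tensorRep_tmul]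
    rfl

theorem A1_tensorRep_pow (π : A →⋆ₙₐ[ℂ] (H →L[ℂ] H)) (σ : B →⋆ₙₐ[ℂ] (K →L[ℂ] K))
    (x : A ⊗[ℂ] B) (n : ℕ) :
    tensorRep π σ (x ^ (n + 1)) = tensorRep π σ x ^ (n + 1) := by
  induction n with
  | zero => simp
  | succ n ih => rw [pow_succ, tensorRep_mul, ih, ← pow_succ]

theorem tensorRep_aeval (π : A →⋆ₙₐ[ℂ] (H →L[ℂ] H)) (σ : B →⋆ₙₐ[ℂ] (K →L[ℂ] K))
    (x : A ⊗[ℂ] B) (p : Polynomial ℂ) (hp : p.coeff 0 = 0) :
    tensorRep π σ (Polynomial.aeval x p) = Polynomial.aeval (tensorRep π σ x) p := by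
  rw [Polynomial.aeval_eq_sum_range, Polynomial.aeval_eq_sum_range, map_sum]
  refine Finset.sum_congr rfl fun i _ => ?_
  rcases i with _ | i
  · rw [hp, zero_smul, map_zero]
    exact (zero_smul ℂ ((tensorRep π σ x) ^ 0)).symm
  · rw [map_smul, A1_tensorRep_pow]

theorem A1_map_eq (q : B →⋆ₐ[ℂ] C) (x : A ⊗[ℂ] B) :
    TensorProduct.map (LinearMap.id : A →ₗ[ℂ] A) ((q : B →⋆ₙₐ[ℂ] C) : B →ₗ[ℂ] C) x =
      Algebra.TensorProduct.map (AlgHom.id ℂ A) (q : B →ₐ[ℂ] C) x := by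
  rfl

theorem A1_map_star (q : B →⋆ₐ[ℂ] C) (x : A ⊗[ℂ] B) :
    Algebra.TensorProduct.map (AlgHom.id ℂ A) (q : B →ₐ[ℂ] C) (star x) =
      star (Algebra.TensorProduct.map (AlgHom.id ℂ A) (q : B →ₐ[ℂ] C) x) := by
  induction x using TensorProduct.induction_on with
  | zero => simp only [map_zero, star_zero]
  | add x x' hx hx' => rw [star_add, map_add, map_add, hx, hx', star_add]
  | tmul a b =>
    rw [TensorProduct.star_tmul, Algebra.TensorProduct.map_tmul, Algebra.TensorProduct.map_tmul,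
      TensorProduct.star_tmul]
    have h : (q : B →ₐ[ℂ] C) (star b) = star ((q : B →ₐ[ℂ] C) b) := map_star q b
    rw [h]
    rfl

/-- `id (x) q` is multiplicative and `*`-preserving, hence commutes with polynomials. -/
theorem map_aeval (q : B →⋆ₐ[ℂ] C) (x : A ⊗[ℂ] B) (p : Polynomial ℂ) :
    TensorProduct.map (LinearMap.id : A →ₗ[ℂ] A) ((q : B →⋆ₙₐ[ℂ] C) : B →ₗ[ℂ] C)
      (Polynomial.aeval (star x * x) p) =
    Polynomial.aeval (star (TensorProduct.map (LinearMap.id : A →ₗ[ℂ] A)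
      ((q : B →⋆ₙₐ[ℂ] C) : B →ₗ[ℂ] C) x) * TensorProduct.map (LinearMap.id : A →ₗ[ℂ] A)
      ((q : B →⋆ₙₐ[ℂ] C) : B →ₗ[ℂ] C) x) p := by
  rw [A1_map_eq, A1_map_eq, ← Polynomial.aeval_algHom_apply, map_mul, A1_map_star]

/-- Every element has bounded norm in all representations. -/
theorem tensorRep_bound (x : A ⊗[ℂ] B) : ∃ c : ℝ, ∀ (H K : Type) [NormedAddCommGroup H]
    [InnerProductSpace ℂ H] [CompleteSpace H] [NormedAddCommGroup K] [InnerProductSpace ℂ K]
    [CompleteSpace K] (π : A →⋆ₙₐ[ℂ] (H →L[ℂ] H)) (σ : B →⋆ₙₐ[ℂ] (K →L[ℂ] K)),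
    ‖tensorRep π σ x‖ ≤ c := by
  induction x using TensorProduct.induction_on with
  | zero =>
    refine ⟨0, ?_⟩
    intro H K _ _ _ _ _ _ π σ
    rw [map_zero]
    exact le_of_eq ContinuousLinearMap.opNorm_zero
  | add x x' hx hx' =>
    obtain ⟨c, hc⟩ := hx
    obtain ⟨c', hc'⟩ := hx'
    refine ⟨c + c', ?_⟩
    intro H K _ _ _ _ _ _ π σ
    rw [map_add]
    exact (ContinuousLinearMap.opNorm_add_le _ _).trans (add_le_add (hc H K π σ) (hc' H K π σ))
  | tmul a b =>
    refine ⟨‖a‖ * ‖b‖, ?_⟩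
    intro H K _ _ _ _ _ _ π σ
    rw [tensorRep_tmul]
    refine (TensorProduct.norm_mapL_le _ _).trans ?_
    exact mul_le_mul (NonUnitalStarAlgHom.norm_apply_le π a)
      (NonUnitalStarAlgHom.norm_apply_le σ b) (norm_nonneg _) (norm_nonneg _)

end Pool.Agent.Helper59.EX
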