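import Pool.Agent.Helper59.EX.Perc

/-!
EX-C1: characters of a finite abelian group.
-/

namespace Pool.Agent.Helper59.EX

/-- The multiplicative form of an additive character. -/
private noncomputable def C1_hom (B : Type) [CommGroup B] (ψ : AddChar (Additive B) ℂ) : B →* ℂ where
  toFun b := ψ (Additive.ofMul b)
  map_one' := by simp
  map_mul' a b := by
    rw [ofMul_mul, AddChar.map_add_eq_mul]

theorem exists_dual (B : Type) [CommGroup B] [Fintype B] :
    ∃ (E : Type) (_ : Fintype E) (ch : E → B →* ℂ), IsDual ch := by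
  classical
  have hstar : ∀ (ψ : AddChar (Additive B) ℂ) (b : B),
      star (C1_hom B ψ b) = C1_hom B ψ b⁻¹ := by
    intro ψ b
    change star (ψ (Additive.ofMul b)) = ψ (Additive.ofMul b⁻¹)
    rw [ofMul_inv, AddChar.map_neg_eq_conj]
    rfl
  refine ⟨AddChar (Additive B) ℂ, inferInstance, C1_hom B, ⟨hstar, ?_, ?_, ?_, ?_⟩⟩
  · intro ψ b
    exact AddChar.norm_apply ψ _
  · intro ψ ψ'
    have h1 : ∑ b, star (C1_hom B ψ b) * C1_hom B ψ' b = ∑ a : Additive B, (ψ' - ψ) a := by
      refine Fintype.sum_equiv Additive.ofMul _ _ ?_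
      intro b
      rw [hstar, AddChar.sub_apply, mul_comm]
      rfl
    rw [h1, AddChar.sum_eq_ite]
    have : (ψ' - ψ = 0) ↔ (ψ = ψ') := by
      rw [sub_eq_zero]; exact eq_comm
    simp only [this]
    split_ifs <;> simp
  · intro b
    have h := AddChar.sum_apply_eq_ite (α := Additive B) (Additive.ofMul b)
    have h2 : ∑ χ : AddChar (Additive B) ℂ, C1_hom B χ b
        = ∑ ψ : AddChar (Additive B) ℂ, ψ (Additive.ofMul b) := rfl
    rw [h2, h]
    have : (Additive.ofMul b = 0) ↔ (b = 1) := by
      rw [← ofMul_one, Additive.ofMul.injective.eq_iff]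
    simp only [this]
    split_ifs <;> simp
  · rw [AddChar.card_eq]
    exact Fintype.card_congr Additive.toMul

end Pool.Agent.Helper59.EX
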