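import Pool.Agent.Helper59.EX.Perc

/-!
EX-C2, C3: Fourier analysis on the base group.
-/

namespace Pool.Agent.Helper59.EX

private theorem C2_supp {B E G : Type} [CommGroup B] (ch : E → B →* ℂ) (a : G → B) (x : G → E) :
    Function.mulSupport (fun g => ch (x g) (a g)) ⊆ Function.mulSupport a := by
  intro g hg hc
  apply hg
  simp [hc]

theorem chi_mul {B E G : Type} [CommGroup B] (ch : E → B →* ℂ) (a b : baseGroup B G) (x : G → E) :
    chi ch ((a * b : baseGroup B G) : G → B) x = chi ch (a : G → B) x * chi ch (b : G → B) x := by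
  unfold chi
  rw [← finprod_mul_distrib (a.2.subset (C2_supp ch _ x)) (b.2.subset (C2_supp ch _ x))]
  refine finprod_congr fun g => ?_
  rw [← map_mul]
  rfl

private theorem C2_chi_eq {B E G : Type} [CommGroup B] (ch : E → B →* ℂ) (a : G → B) (x : G → E)
    (V : Finset G) (hV : ∀ g, a g ≠ 1 → g ∈ V) : chi ch a x = ∏ g ∈ V, ch (x g) (a g) := by
  unfold chi
  refine finprod_eq_prod_of_mulSupport_subset _ ?_
  intro g hg
  exact hV g (C2_supp ch a x hg)

theorem norm_chi {B E G : Type} [CommGroup B] [Fintype B] [Fintype E] (ch : E → B →* ℂ)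
    (hch : IsDual ch) (a : baseGroup B G) (x : G → E) : ‖chi ch (a : G → B) x‖ = 1 := by
  have ha : (Function.mulSupport (a : G → B)).Finite := a.2
  rw [C2_chi_eq ch (a : G → B) x ha.toFinset (fun g hg => by simpa using hg), norm_prod]
  exact Finset.prod_eq_one fun g _ => hch.norm_eq _ _

theorem star_chi {B E G : Type} [CommGroup B] [Fintype B] [Fintype E] (ch : E → B →* ℂ)
    (hch : IsDual ch) (a : baseGroup B G) (x : G → E) :
    star (chi ch (a : G → B) x) = chi ch ((a⁻¹ : baseGroup B G) : G → B) x := by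
  have ha : (Function.mulSupport (a : G → B)).Finite := a.2
  rw [C2_chi_eq ch (a : G → B) x ha.toFinset (fun g hg => by simpa using hg),
    C2_chi_eq ch ((a⁻¹ : baseGroup B G) : G → B) x ha.toFinset (fun g hg => by simpa using hg),
    star_prod]
  refine Finset.prod_congr rfl fun g _ => ?_
  rw [hch.star_eq]
  rfl

section
variable {B E ι : Type} [CommGroup B] [Fintype ι]

/-- The finite product character. -/
private noncomputable def C2_X (ch : E → B →* ℂ) (y : ι → E) (b : ι → B) : ℂ :=
  ∏ v, ch (y v) (b v)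

private theorem C2_X_mul (ch : E → B →* ℂ) (y : ι → E) (b c : ι → B) :
    C2_X ch y (b * c) = C2_X ch y b * C2_X ch y c := by
  unfold C2_X
  rw [← Finset.prod_mul_distrib]
  exact Finset.prod_congr rfl fun v _ => by rw [Pi.mul_apply, map_mul]

private theorem C2_X_star [Fintype B] [Fintype E] (ch : E → B →* ℂ) (hch : IsDual ch)
    (y : ι → E) (b : ι → B) : star (C2_X ch y b) = C2_X ch y b⁻¹ := by
  unfold C2_X
  rw [star_prod]
  exact Finset.prod_congr rfl fun v _ => by rw [hch.star_eq]; rfl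

private theorem C2_sum_y [Fintype B] [Fintype E] [DecidableEq ι] (ch : E → B →* ℂ)
    (hch : IsDual ch) (b : ι → B) :
    ∑ y : ι → E, C2_X ch y b =
      open Classical in if b = 1 then ((Fintype.card B : ℂ) ^ Fintype.card ι) else 0 := by
  classical
  have h1 : ∑ y : ι → E, C2_X ch y b = ∏ v, ∑ e, ch e (b v) := by
    rw [Finset.prod_univ_sum]
    simp only [C2_X, Fintype.piFinset_univ]
  rw [h1]
  simp only [hch.orth']
  by_cases hb : b = 1
  · rw [if_pos hb]
    subst hb
    simp
  · rw [if_neg hb]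
    have : ∃ v, b v ≠ 1 := by
      by_contra hc
      push Not at hc
      exact hb (funext hc)
    obtain ⟨v, hv⟩ := this
    exact Finset.prod_eq_zero (Finset.mem_univ v) (by rw [if_neg hv])

private theorem C2_sum_b [Fintype B] [Fintype E] [DecidableEq ι] (ch : E → B →* ℂ)
    (hch : IsDual ch) (y z : ι → E) :
    ∑ b : ι → B, star (C2_X ch y b) * C2_X ch z b =
      open Classical in if y = z then ((Fintype.card B : ℂ) ^ Fintype.card ι) else 0 := by
  classical
  have h1 : ∑ b : ι → B, star (C2_X ch y b) * C2_X ch z b =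
      ∏ v, ∑ b, star (ch (y v) b) * ch (z v) b := by
    rw [Finset.prod_univ_sum]
    simp only [C2_X, Fintype.piFinset_univ]
    refine Finset.sum_congr rfl fun b _ => ?_
    rw [star_prod, Finset.prod_mul_distrib]
  rw [h1]
  simp only [hch.orth]
  by_cases hb : y = z
  · rw [if_pos hb]
    subst hb
    simp
  · rw [if_neg hb]
    have : ∃ v, y v ≠ z v := by
      by_contra hc
      push Not at hc
      exact hb (funext hc)
    obtain ⟨v, hv⟩ := this
    exact Finset.prod_eq_zero (Finset.mem_univ v) (by rw [if_neg hv])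

variable {H : Type*} [NormedAddCommGroup H] [InnerProductSpace ℂ H] [CompleteSpace H]

/-- The unnormalised spectral component. -/
private noncomputable def C2_Q [Fintype B] [DecidableEq ι] (ch : E → B →* ℂ)
    (u : (ι → B) →* unitary (H →L[ℂ] H)) (y : ι → E) (ξ : H) : H :=
  ∑ b : ι → B, star (C2_X ch y b) • (u b : H →L[ℂ] H) ξ

private theorem C2_norm_unitary (u : unitary (H →L[ℂ] H)) (ξ : H) :
    inner ℂ ((u : H →L[ℂ] H) ξ) ((u : H →L[ℂ] H) ξ) = inner ℂ ξ ξ := by
  have h : star (u : H →L[ℂ] H) * (u : H →L[ℂ] H) = 1 := Unitary.coe_star_mul_self u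
  rw [ContinuousLinearMap.star_eq_adjoint] at h
  rw [← ContinuousLinearMap.adjoint_inner_right]
  have h2 : (ContinuousLinearMap.adjoint (u : H →L[ℂ] H)) ((u : H →L[ℂ] H) ξ) = ξ := by
    have := congrArg (fun T : H →L[ℂ] H => T ξ) h
    simpa using this
  rw [h2]

private theorem C2_parseval [Fintype B] [Fintype E] [DecidableEq ι] (ch : E → B →* ℂ)
    (hch : IsDual ch) (u : (ι → B) →* unitary (H →L[ℂ] H)) (ξ : H) :
    ∑ y : ι → E, ‖C2_Q ch u y ξ‖ ^ 2 =
      ((Fintype.card B : ℝ) ^ Fintype.card ι) * ((Fintype.card B : ℝ) ^ Fintype.card ι)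
        * ‖ξ‖ ^ 2 := by
  classical
  have hc : ∑ y : ι → E, inner ℂ (C2_Q ch u y ξ) (C2_Q ch u y ξ) =
      ((Fintype.card B : ℂ) ^ Fintype.card ι) * ((Fintype.card B : ℂ) ^ Fintype.card ι)
        * inner ℂ ξ ξ := by
    have h1 : ∀ y : ι → E, inner ℂ (C2_Q ch u y ξ) (C2_Q ch u y ξ) =
        ∑ b : ι → B, ∑ c : ι → B, C2_X ch y (b * c⁻¹) *
          inner ℂ ((u b : H →L[ℂ] H) ξ) ((u c : H →L[ℂ] H) ξ) := by
      intro y
      unfold C2_Q
      rw [sum_inner]
      refine Finset.sum_congr rfl fun b _ => ?_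
      rw [inner_sum]
      refine Finset.sum_congr rfl fun c _ => ?_
      rw [inner_smul_left, inner_smul_right, ← mul_assoc, C2_X_mul, ← C2_X_star ch hch]
      congr 2
      exact star_star _
    simp only [h1]
    rw [Finset.sum_comm]
    have h2 : ∀ b : ι → B, ∑ y : ι → E, ∑ c : ι → B, C2_X ch y (b * c⁻¹) *
          inner ℂ ((u b : H →L[ℂ] H) ξ) ((u c : H →L[ℂ] H) ξ) =
        ((Fintype.card B : ℂ) ^ Fintype.card ι) * inner ℂ ξ ξ := by
      intro b
      rw [Finset.sum_comm]
      have h3 : ∀ c : ι → B, ∑ y : ι → E, C2_X ch y (b * c⁻¹) *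
          inner ℂ ((u b : H →L[ℂ] H) ξ) ((u c : H →L[ℂ] H) ξ) =
          if c = b then ((Fintype.card B : ℂ) ^ Fintype.card ι) * inner ℂ ξ ξ else 0 := by
        intro c
        rw [← Finset.sum_mul, C2_sum_y ch hch]
        by_cases hcb : c = b
        · subst hcb
          rw [if_pos rfl, if_pos (mul_inv_cancel c), C2_norm_unitary]
        · have : ¬ (b * c⁻¹ = 1) := by
            intro h
            exact hcb (by rw [mul_inv_eq_one] at h; exact h.symm)
          rw [if_neg hcb, if_neg this, zero_mul]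
      simp only [h3]
      rw [Finset.sum_ite_eq' Finset.univ b, if_pos (Finset.mem_univ b)]
    simp only [h2]
    rw [Finset.sum_const, Finset.card_univ, nsmul_eq_mul, Fintype.card_pi]
    simp [mul_assoc]
  have h4 : ∀ v : H, (inner ℂ v v : ℂ) = ((‖v‖ ^ 2 : ℝ) : ℂ) := by
    intro v
    rw [inner_self_eq_norm_sq_to_K]
    push_cast
    rfl
  simp only [h4] at hc
  exact_mod_cast hc

private theorem C2_Q_shift [Fintype B] [Fintype E] [DecidableEq ι] (ch : E → B →* ℂ)
    (hch : IsDual ch) (u : (ι → B) →* unitary (H →L[ℂ] H)) (y : ι → E) (c : ι → B) (ξ : H) :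
    C2_Q ch u y ((u c : H →L[ℂ] H) ξ) = C2_X ch y c • C2_Q ch u y ξ := by
  unfold C2_Q
  rw [Finset.smul_sum]
  refine Fintype.sum_equiv (Equiv.mulRight c) _ _ ?_
  intro b
  have h1 : (u b : H →L[ℂ] H) ((u c : H →L[ℂ] H) ξ) = (u (b * c) : H →L[ℂ] H) ξ := by
    rw [map_mul]; rfl
  rw [h1, smul_smul]
  congr 1
  change star (C2_X ch y b) = C2_X ch y c * star (C2_X ch y (b * c))
  rw [C2_X_mul, star_mul', mul_comm (star (C2_X ch y b)), ← mul_assoc, C2_X_star ch hch y c,
    ← C2_X_mul, mul_inv_cancel]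
  simp [C2_X]

private theorem C2_Q_add [Fintype B] [DecidableEq ι] (ch : E → B →* ℂ)
    (u : (ι → B) →* unitary (H →L[ℂ] H)) (y : ι → E) (ξ η : H) :
    C2_Q ch u y (ξ + η) = C2_Q ch u y ξ + C2_Q ch u y η := by
  unfold C2_Q
  rw [← Finset.sum_add_distrib]
  exact Finset.sum_congr rfl fun b _ => by rw [map_add, smul_add]

private theorem C2_Q_smul [Fintype B] [DecidableEq ι] (ch : E → B →* ℂ)
    (u : (ι → B) →* unitary (H →L[ℂ] H)) (y : ι → E) (c : ℂ) (ξ : H) :
    C2_Q ch u y (c • ξ) = c • C2_Q ch u y ξ := by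
  unfold C2_Q
  rw [Finset.smul_sum]
  exact Finset.sum_congr rfl fun b _ => by rw [map_smul, smul_comm]

private theorem C2_Q_zero [Fintype B] [DecidableEq ι] (ch : E → B →* ℂ)
    (u : (ι → B) →* unitary (H →L[ℂ] H)) (y : ι → E) :
    C2_Q ch u y (0 : H) = 0 := by
  unfold C2_Q
  exact Finset.sum_eq_zero fun b _ => by rw [map_zero, smul_zero]

private theorem C2_Q_sum [Fintype B] [DecidableEq ι] (ch : E → B →* ℂ)
    (u : (ι → B) →* unitary (H →L[ℂ] H)) (y : ι → E) {α : Type} (s : Finset α) (g : α → H) :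
    C2_Q ch u y (∑ a ∈ s, g a) = ∑ a ∈ s, C2_Q ch u y (g a) := by
  classical
  induction s using Finset.induction_on with
  | empty => simp [C2_Q_zero]
  | insert a s ha ih => rw [Finset.sum_insert ha, Finset.sum_insert ha, C2_Q_add, ih]

end

/-- Extension by one of a function on `V`. -/
private noncomputable def C2_ext {B G : Type} [CommGroup B] (V : Finset G) :
    (V → B) →* baseGroup B G := by
  classical
  exact
  { toFun := fun b => ⟨fun g => if h : g ∈ V then b ⟨g, h⟩ else 1,
      (V.finite_toSet).subset (by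
        intro g hg
        by_contra hc
        apply hg
        simp only [Finset.mem_coe] at hc
        simp [hc])⟩
    map_one' := by
      apply Subtype.ext
      funext g
      by_cases h : g ∈ V <;> simp [h]
    map_mul' := by
      intro b c
      apply Subtype.ext
      funext g
      by_cases h : g ∈ V <;> simp [h] }

private theorem C2_ext_apply {B G : Type} [CommGroup B] (V : Finset G) (b : V → B) (g : G)
    (h : g ∈ V) : (C2_ext V b : G → B) g = b ⟨g, h⟩ := by
  simp [C2_ext, h]

private theorem C2_ext_apply' {B G : Type} [CommGroup B] (V : Finset G) (b : V → B) (g : G)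
    (h : g ∉ V) : (C2_ext V b : G → B) g = 1 := by
  simp [C2_ext, h]

private theorem C2_chi_ext {B E G : Type} [CommGroup B] (ch : E → B →* ℂ) (V : Finset G)
    (b : V → B) (x : G → E) :
    chi ch (C2_ext V b : G → B) x = C2_X ch (fun v : V => x v) b := by
  rw [C2_chi_eq ch _ x V]
  · unfold C2_X
    rw [← Finset.prod_coe_sort]
    refine Finset.prod_congr rfl fun v _ => ?_
    rw [C2_ext_apply V b v v.2]
  · intro g hg
    by_contra hc
    exact hg (C2_ext_apply' V b g hc)

private theorem C2_ext_restrict {B G : Type} [CommGroup B] (V : Finset G) (a : baseGroup B G)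
    (ha : ∀ g, (a : G → B) g ≠ 1 → g ∈ V) :
    C2_ext V (fun v : V => (a : G → B) v) = a := by
  apply Subtype.ext
  funext g
  by_cases h : g ∈ V
  · rw [C2_ext_apply V _ g h]
  · rw [C2_ext_apply' V _ g h]
    by_contra hc
    exact h (ha g (fun h' => hc h'.symm))

private theorem C2_exists_ext {B E G : Type} [CommGroup B] [Fintype B] [Fintype E]
    (ch : E → B →* ℂ) (hch : IsDual ch) (V : Finset G) :
    ∃ x : (V → E) → (G → E), ∀ y (v : V), x y v = y v := by
  classical
  have hne : Nonempty E := by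
    rw [← Fintype.card_pos_iff, hch.card_eq]
    exact Fintype.card_pos
  obtain ⟨e⟩ := hne
  refine ⟨fun y g => if h : g ∈ V then y ⟨g, h⟩ else e, ?_⟩
  intro y v
  simp

/-- C2: the norm of an element of the group algebra of the base group in any unitary
representation is at most the supremum of its Fourier transform. -/
theorem norm_repSum_base_le {B E G : Type} [CommGroup B] [Fintype B] [Fintype E]
    (ch : E → B →* ℂ) (hch : IsDual ch) {H : Type*} [NormedAddCommGroup H]
    [InnerProductSpace ℂ H] [CompleteSpace H] (π : baseGroup B G →* unitary (H →L[ℂ] H))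
    (f : baseGroup B G →₀ ℂ) (C : ℝ) (hC : 0 ≤ C) (h : ∀ x : G → E, ‖hat ch f x‖ ≤ C) :
    ‖repSum π f‖ ≤ C := by
  classical
  let V : Finset G := f.support.biUnion fun a => (show (Function.mulSupport (a : G → B)).Finite
    from a.2).toFinset
  have hV : ∀ a ∈ f.support, ∀ g, (a : G → B) g ≠ 1 → g ∈ V := by
    intro a ha g hg
    refine Finset.mem_biUnion.2 ⟨a, ha, ?_⟩
    simpa using hg
  obtain ⟨x, hx⟩ := C2_exists_ext ch hch V
  let u : (V → B) →* unitary (H →L[ℂ] H) := π.comp (C2_ext V)
  have hN : (0 : ℝ) < ((Fintype.card B : ℝ) ^ Fintype.card V) := by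
    have : 0 < Fintype.card B := Fintype.card_pos
    positivity
  refine ContinuousLinearMap.opNorm_le_bound _ hC ?_
  intro ξ
  have hQ : ∀ y : V → E, C2_Q ch u y ((repSum π f) ξ) = hat ch f (x y) • C2_Q ch u y ξ := by
    intro y
    have h1 : (repSum π f) ξ = ∑ a ∈ f.support, f a • ((π a : H →L[ℂ] H) ξ) := by
      unfold repSum Finsupp.sum
      rw [_root_.sum_apply]
      rfl
    rw [h1, C2_Q_sum]
    unfold hat Finsupp.sum
    rw [Finset.sum_smul]
    refine Finset.sum_congr rfl fun a ha => ?_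
    have h2 : a = C2_ext V (fun v : V => (a : G → B) v) := (C2_ext_restrict V a (hV a ha)).symm
    have h3 : (π a : H →L[ℂ] H) = (u (fun v : V => (a : G → B) v) : H →L[ℂ] H) := by
      change (π a : H →L[ℂ] H) = (π (C2_ext V (fun v : V => (a : G → B) v)) : H →L[ℂ] H)
      rw [← h2]
    have h4 : chi ch (a : G → B) (x y) = C2_X ch y (fun v : V => (a : G → B) v) := by
      have := C2_chi_ext ch V (fun v : V => (a : G → B) v) (x y)
      rw [← h2] at this
      rw [this]
      congr 1
      funext v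
      exact hx y v
    rw [C2_Q_smul, h3, C2_Q_shift ch hch, smul_smul]
    change _ = (f a * chi ch (a : G → B) (x y)) • _
    rw [h4]
  have h5 := C2_parseval ch hch u ((repSum π f) ξ)
  have h6 := C2_parseval ch hch u ξ
  have h7 : ∑ y : V → E, ‖C2_Q ch u y ((repSum π f) ξ)‖ ^ 2 ≤
      C ^ 2 * ∑ y : V → E, ‖C2_Q ch u y ξ‖ ^ 2 := by
    rw [Finset.mul_sum]
    refine Finset.sum_le_sum fun y _ => ?_
    rw [hQ y, norm_smul, mul_pow]
    have := h (x y)
    gcongr
  rw [h5, h6] at h7
  have h8 : ‖(repSum π f) ξ‖ ^ 2 ≤ (C * ‖ξ‖) ^ 2 := by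
    have hN2 := mul_pos hN hN
    rw [mul_pow]
    have : ((Fintype.card B : ℝ) ^ Fintype.card V) * ((Fintype.card B : ℝ) ^ Fintype.card V) *
        ‖(repSum π f) ξ‖ ^ 2 ≤ ((Fintype.card B : ℝ) ^ Fintype.card V) *
        ((Fintype.card B : ℝ) ^ Fintype.card V) * (C ^ 2 * ‖ξ‖ ^ 2) := by
      linarith
    exact le_of_mul_le_mul_left this hN2
  exact le_of_sq_le_sq h8 (by positivity)

/-- C3: every function of finitely many coordinates is a Fourier transform. -/
theorem exists_hat_eq {B E G : Type} [CommGroup B] [Fintype B] [Fintype E]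
    (ch : E → B →* ℂ) (hch : IsDual ch) (V : Finset G) (F : (G → E) → ℂ)
    (hF : ∀ x y : G → E, (∀ v ∈ V, x v = y v) → F x = F y) :
    ∃ f : baseGroup B G →₀ ℂ, ∀ x, hat ch f x = F x := by
  classical
  obtain ⟨xe, hxe⟩ := C2_exists_ext ch hch V
  let N : ℂ := ((Fintype.card B : ℂ) ^ Fintype.card V)
  have hN : N ≠ 0 := by
    have : (Fintype.card B : ℂ) ≠ 0 := by
      exact_mod_cast (Fintype.card_pos (α := B)).ne'
    exact pow_ne_zero _ this
  let c : (V → B) → ℂ := fun b => N⁻¹ * ∑ y : V → E, F (xe y) * star (C2_X ch y b)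
  refine ⟨∑ b : V → B, Finsupp.single (C2_ext V b) (c b), ?_⟩
  intro x
  have h1 : hat ch (∑ b : V → B, Finsupp.single (C2_ext V b) (c b)) x =
      ∑ b : V → B, c b * C2_X ch (fun v : V => x v) b := by
    unfold hat
    rw [← Finsupp.sum_finsetSum_index]
    · refine Finset.sum_congr rfl fun b _ => ?_
      rw [Finsupp.sum_single_index (by simp), C2_chi_ext]
    · intro a; simp
    · intro a b1 b2; ring
  rw [h1]
  have h2 : ∑ b : V → B, c b * C2_X ch (fun v : V => x v) b =
      N⁻¹ * ∑ y : V → E, F (xe y) *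
        ∑ b : V → B, star (C2_X ch y b) * C2_X ch (fun v : V => x v) b := by
    simp only [c]
    rw [Finset.mul_sum]
    simp only [Finset.mul_sum, Finset.sum_mul]
    rw [Finset.sum_comm]
    refine Finset.sum_congr rfl fun y _ => Finset.sum_congr rfl fun b _ => ?_
    ring
  rw [h2]
  simp only [C2_sum_b ch hch]
  have h3 : ∀ y : V → E, F (xe y) * (if y = (fun v : V => x v) then
      ((Fintype.card B : ℂ) ^ Fintype.card V) else 0) =
      if y = (fun v : V => x v) then F (xe y) * N else 0 := by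
    intro y
    split_ifs <;> simp [N]
  simp only [h3]
  rw [Finset.sum_ite_eq' Finset.univ, if_pos (Finset.mem_univ _)]
  have h4 : F (xe fun v : V => x v) = F x := by
    apply hF
    intro v hv
    exact hxe _ ⟨v, hv⟩
  rw [h4]
  field_simp

end Pool.Agent.Helper59.EX
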