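import Pool.Agent.Helper59.EX.Perc
import Pool.Agent.Helper59.EX.St.C2

/-!
EX-C4: row and column bounds in the wreath product.
-/

namespace Pool.Agent.Helper59.EX

/-- The element `(a, t)` of the wreath product. -/
def mkW {B G : Type} [CommGroup B] [Group G] (a : baseGroup B G) (t : G) :
    restrictedWreath B G := ⟨⟨(a : G → B), t⟩, a.2⟩

/-- The element `f * t` of the group algebra of the wreath product. -/
noncomputable def bw {B G : Type} [CommGroup B] [Group G] (t : G) (f : baseGroup B G →₀ ℂ) :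
    restrictedWreath B G →₀ ℂ := f.mapDomain (fun a => mkW a t)

private theorem C4_mkW_mul {B G : Type} [CommGroup B] [Group G] (a b : baseGroup B G) :
    mkW a 1 * mkW b (1 : G) = mkW (a * b) 1 := by
  apply Subtype.ext
  refine RegularWreathProduct.ext ?_ ?_
  · funext x
    simp [mkW]
  · simp [mkW]

private theorem C4_mkW_right {B G : Type} [CommGroup B] [Group G] (a : baseGroup B G) (t : G) :
    mkW a 1 * mkW 1 t = mkW a t := by
  apply Subtype.ext
  refine RegularWreathProduct.ext ?_ ?_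
  · funext x
    simp [mkW]
  · simp [mkW]

/-- The embedding of the base group. -/
private def C4_base {B G : Type} [CommGroup B] [Group G] :
    baseGroup B G →* restrictedWreath B G where
  toFun a := mkW a 1
  map_one' := by
    apply Subtype.ext
    refine RegularWreathProduct.ext ?_ ?_
    · funext x
      simp [mkW]
    · simp [mkW]
  map_mul' a b := (C4_mkW_mul a b).symm

/-- The translated element `k ↦ a (t k)`. -/
private def C4_tr {B G : Type} [CommGroup B] [Group G] (t : G) (a : baseGroup B G) :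
    baseGroup B G :=
  ⟨fun k => (a : G → B) (t * k),
    Set.Finite.preimage (f := fun k => t * k) (mul_right_injective t).injOn a.2⟩

private theorem C4_mkW_left {B G : Type} [CommGroup B] [Group G] (a : baseGroup B G) (t : G) :
    mkW 1 t * mkW (C4_tr t a) 1 = mkW a t := by
  apply Subtype.ext
  refine RegularWreathProduct.ext ?_ ?_
  · funext x
    simp [mkW, C4_tr]
  · simp [mkW]

private theorem C4_chi_tr {B E G : Type} [CommGroup B] [Group G] (ch : E → B →* ℂ) (t : G)
    (a : baseGroup B G) (x : G → E) :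
    chi ch (C4_tr t a : G → B) x = chi ch (a : G → B) (shift t x) := by
  unfold chi
  rw [← finprod_comp_equiv (Equiv.mulLeft t) (f := fun g => ch (shift t x g) ((a : G → B) g))]
  refine finprod_congr fun k => ?_
  simp [C4_tr, shift]

private theorem C4_hat_tr {B E G : Type} [CommGroup B] [Group G] (ch : E → B →* ℂ) (t : G)
    (f : baseGroup B G →₀ ℂ) (x : G → E) :
    hat ch (f.mapDomain (C4_tr t)) x = hat ch f (shift t x) := by
  unfold hat
  rw [Finsupp.sum_mapDomain_index (by simp) (by intros; ring)]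
  refine Finsupp.sum_congr fun a _ => ?_
  rw [C4_chi_tr]

section
variable {B E G : Type} [CommGroup B] {H : Type} [NormedAddCommGroup H] [InnerProductSpace ℂ H]
  [CompleteSpace H]

private theorem C4_star_coe {W : Type} [Group W] (π : W →* unitary (H →L[ℂ] H)) (w : W) :
    star (π w : H →L[ℂ] H) = (π w⁻¹ : H →L[ℂ] H) := by
  rw [map_inv]
  rfl

private theorem C4_mul_star {W : Type} [Group W] (π : W →* unitary (H →L[ℂ] H)) (f g : W →₀ ℂ) :
    repSum π f * star (repSum π g) =
      f.sum fun a c => g.sum fun b d => (c * star d) • (π (a * b⁻¹) : H →L[ℂ] H) := by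
  unfold repSum Finsupp.sum
  rw [star_sum, Finset.sum_mul_sum]
  refine Finset.sum_congr rfl fun a _ => Finset.sum_congr rfl fun b _ => ?_
  rw [star_smul, smul_mul_smul_comm, C4_star_coe]
  change _ = (f a * star (g b)) • ((π (a * b⁻¹) : unitary (H →L[ℂ] H)) : H →L[ℂ] H)
  rw [map_mul]
  rfl

private theorem C4_comm (π : baseGroup B G →* unitary (H →L[ℂ] H)) (f : baseGroup B G →₀ ℂ) :
    star (repSum π f) * repSum π f = repSum π f * star (repSum π f) := by
  unfold repSum Finsupp.sum
  rw [star_sum, Finset.sum_mul_sum, Finset.sum_mul_sum, Finset.sum_comm]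
  refine Finset.sum_congr rfl fun a _ => Finset.sum_congr rfl fun b _ => ?_
  rw [star_smul, smul_mul_smul_comm, smul_mul_smul_comm, C4_star_coe, mul_comm (star _)]
  congr 1
  have h : (π b⁻¹ : H →L[ℂ] H) * (π a : H →L[ℂ] H) = ((π (b⁻¹ * a) : unitary (H →L[ℂ] H)) :
      H →L[ℂ] H) := by
    rw [map_mul]; rfl
  have h' : (π a : H →L[ℂ] H) * (π b⁻¹ : H →L[ℂ] H) = ((π (a * b⁻¹) : unitary (H →L[ℂ] H)) :
      H →L[ℂ] H) := by
    rw [map_mul]; rfl
  rw [h, h', mul_comm]

/-- The sum of the convolutions `f_i * f_i^*`. -/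
private noncomputable def C4_conv {I : Type} [Fintype I] (f : I → baseGroup B G →₀ ℂ) :
    baseGroup B G →₀ ℂ :=
  ∑ i, (f i).sum fun a c => (f i).sum fun b d => Finsupp.single (a * b⁻¹) (c * star d)

private theorem C4_lin_conv {I : Type} [Fintype I] (f : I → baseGroup B G →₀ ℂ) {M : Type*}
    [AddCommMonoid M] [Module ℂ M] (v : baseGroup B G → M) :
    Finsupp.linearCombination ℂ v (C4_conv f) =
      ∑ i, (f i).sum fun a c => (f i).sum fun b d => (c * star d) • v (a * b⁻¹) := by
  unfold C4_conv Finsupp.sum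
  simp only [map_sum, Finsupp.linearCombination_single]

private theorem C4_rep_conv {I : Type} [Fintype I] (f : I → baseGroup B G →₀ ℂ)
    (π : baseGroup B G →* unitary (H →L[ℂ] H)) :
    repSum π (C4_conv f) = ∑ i, repSum π (f i) * star (repSum π (f i)) := by
  have h := C4_lin_conv f (fun a => (π a : H →L[ℂ] H))
  rw [Finsupp.linearCombination_apply] at h
  unfold repSum at *
  rw [h]
  refine Finset.sum_congr rfl fun i _ => ?_
  exact (C4_mul_star π (f i) (f i)).symm

private theorem C4_hat_conv [Fintype B] [Fintype E] {I : Type} [Fintype I] (ch : E → B →* ℂ)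
    (hch : IsDual ch) (f : I → baseGroup B G →₀ ℂ) (x : G → E) :
    hat ch (C4_conv f) x = ((∑ i, ‖hat ch (f i) x‖ ^ 2 : ℝ) : ℂ) := by
  have h := C4_lin_conv f (fun a => chi ch (a : G → B) x)
  rw [Finsupp.linearCombination_apply] at h
  unfold hat
  simp only [smul_eq_mul] at h
  rw [h]
  push_cast
  refine Finset.sum_congr rfl fun i _ => ?_
  have h2 : ∀ z : ℂ, ((‖z‖ : ℝ) : ℂ) ^ 2 = z * star z := by
    intro z
    have := Complex.mul_conj z
    rw [Complex.normSq_eq_norm_sq] at this
    rw [← Complex.ofReal_pow]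
    exact this.symm
  rw [h2]
  unfold Finsupp.sum
  rw [star_sum, Finset.sum_mul_sum]
  refine Finset.sum_congr rfl fun a _ => Finset.sum_congr rfl fun b _ => ?_
  change (f i) a * star ((f i) b) * chi ch ((a * b⁻¹ : baseGroup B G) : G → B) x =
    ((f i) a * chi ch (a : G → B) x) * star ((f i) b * chi ch (b : G → B) x)
  rw [chi_mul, ← star_chi ch hch, star_mul']
  ring

private theorem C4_base_bound [Fintype B] [Fintype E] {I : Type} [Fintype I] (ch : E → B →* ℂ)
    (hch : IsDual ch) (f : I → baseGroup B G →₀ ℂ) (C : ℝ) (hC : 0 ≤ C)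
    (h : ∀ x : G → E, ∑ i, ‖hat ch (f i) x‖ ^ 2 ≤ C)
    (π : baseGroup B G →* unitary (H →L[ℂ] H)) :
    ‖∑ i, repSum π (f i) * star (repSum π (f i))‖ ≤ C := by
  rw [← C4_rep_conv]
  refine norm_repSum_base_le ch hch π (C4_conv f) C hC ?_
  intro x
  rw [C4_hat_conv ch hch, Complex.norm_real, Real.norm_of_nonneg (by positivity)]
  exact h x

variable [Group G]

private theorem C4_bw_right (π : restrictedWreath B G →* unitary (H →L[ℂ] H))
    (f : baseGroup B G →₀ ℂ) (t : G) :
    repSum π (bw t f) = repSum (π.comp C4_base) f * (π (mkW 1 t) : H →L[ℂ] H) := by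
  unfold repSum bw
  rw [Finsupp.sum_mapDomain_index (by simp) (by intros; rw [add_smul])]
  unfold Finsupp.sum
  rw [Finset.sum_mul]
  refine Finset.sum_congr rfl fun a _ => ?_
  rw [smul_mul_assoc]
  change f a • ((π (mkW a t) : unitary (H →L[ℂ] H)) : H →L[ℂ] H) = _
  rw [← C4_mkW_right a t, map_mul]
  rfl

private theorem C4_bw_left (π : restrictedWreath B G →* unitary (H →L[ℂ] H))
    (f : baseGroup B G →₀ ℂ) (t : G) :
    repSum π (bw t f) =
      (π (mkW 1 t) : H →L[ℂ] H) * repSum (π.comp C4_base) (f.mapDomain (C4_tr t)) := by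
  unfold repSum bw
  rw [Finsupp.sum_mapDomain_index (by simp) (by intros; rw [add_smul]),
    Finsupp.sum_mapDomain_index (by simp) (by intros; rw [add_smul])]
  unfold Finsupp.sum
  rw [Finset.mul_sum]
  refine Finset.sum_congr rfl fun a _ => ?_
  rw [mul_smul_comm]
  change f a • ((π (mkW a t) : unitary (H →L[ℂ] H)) : H →L[ℂ] H) = _
  rw [← C4_mkW_left a t, map_mul]
  rfl

end

theorem row_bound {B E G : Type} [CommGroup B] [Group G] [Fintype B] [Fintype E]
    (ch : E → B →* ℂ) (hch : IsDual ch) {I : Type} [Fintype I] (f : I → baseGroup B G →₀ ℂ)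
    (t : I → G) (C : ℝ) (hC : 0 ≤ C) (h : ∀ x : G → E, ∑ i, ‖hat ch (f i) x‖ ^ 2 ≤ C)
    {H : Type} [NormedAddCommGroup H] [InnerProductSpace ℂ H] [CompleteSpace H]
    (π : restrictedWreath B G →* unitary (H →L[ℂ] H)) :
    ‖∑ i, repSum π (bw (t i) (f i)) * star (repSum π (bw (t i) (f i)))‖ ≤ C := by
  have h1 := C4_base_bound ch hch f C hC h (π.comp C4_base)
  have h2 : ∑ i, repSum π (bw (t i) (f i)) * star (repSum π (bw (t i) (f i))) =
      ∑ i, repSum (π.comp C4_base) (f i) * star (repSum (π.comp C4_base) (f i)) := by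
    refine Finset.sum_congr rfl fun i _ => ?_
    rw [C4_bw_right, star_mul]
    have h3 : (π (mkW 1 (t i)) : H →L[ℂ] H) * star (π (mkW 1 (t i)) : H →L[ℂ] H) = 1 :=
      Unitary.coe_mul_star_self _
    rw [mul_assoc, ← mul_assoc (π (mkW 1 (t i)) : H →L[ℂ] H), h3, one_mul]
  rw [h2]
  exact h1

theorem col_bound {B E G : Type} [CommGroup B] [Group G] [Fintype B] [Fintype E]
    (ch : E → B →* ℂ) (hch : IsDual ch) {I : Type} [Fintype I] (f : I → baseGroup B G →₀ ℂ)
    (t : I → G) (C : ℝ) (hC : 0 ≤ C)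
    (h : ∀ x : G → E, ∑ i, ‖hat ch (f i) (shift (t i) x)‖ ^ 2 ≤ C)
    {H : Type} [NormedAddCommGroup H] [InnerProductSpace ℂ H] [CompleteSpace H]
    (π : restrictedWreath B G →* unitary (H →L[ℂ] H)) :
    ‖∑ i, star (repSum π (bw (t i) (f i))) * repSum π (bw (t i) (f i))‖ ≤ C := by
  have h1 := C4_base_bound ch hch (fun i => (f i).mapDomain (C4_tr (t i))) C hC
    (by
      intro x
      simp only [C4_hat_tr]
      exact h x) (π.comp C4_base)
  have h2 : ∑ i, star (repSum π (bw (t i) (f i))) * repSum π (bw (t i) (f i)) =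
      ∑ i, repSum (π.comp C4_base) ((f i).mapDomain (C4_tr (t i))) *
        star (repSum (π.comp C4_base) ((f i).mapDomain (C4_tr (t i)))) := by
    refine Finset.sum_congr rfl fun i _ => ?_
    rw [C4_bw_left, star_mul]
    have h3 : star (π (mkW 1 (t i)) : H →L[ℂ] H) * (π (mkW 1 (t i)) : H →L[ℂ] H) = 1 :=
      Unitary.coe_star_mul_self _
    rw [mul_assoc, ← mul_assoc (star (π (mkW 1 (t i)) : H →L[ℂ] H)), h3, one_mul, C4_comm]
  rw [h2]
  exact h1

end Pool.Agent.Helper59.EX
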