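import Pool.Agent.Helper59.EX.Perc

/-!
EX-D1: closed paths of good edges have trivial label.
-/

namespace Pool.Agent.Helper59.EX

variable {E G J T : Type} [Group G]

/-- start of an oriented edge -/
def D1_src (tv : T → G) (s : Edge G J T × Bool) : G :=
  if s.2 then s.1.1 else s.1.1 * tv s.1.2.2

/-- end of an oriented edge -/
def D1_tgt (tv : T → G) (s : Edge G J T × Bool) : G :=
  if s.2 then s.1.1 * tv s.1.2.2 else s.1.1

/-- label of an oriented edge -/
def D1_w {Q : Type} [Group Q] (q : J × T → Q) (s : Edge G J T × Bool) : Q :=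
  if s.2 then q s.1.2 else (q s.1.2)⁻¹

theorem D1_isPath_cons (tv : T → G) (a b : G) (s : Edge G J T × Bool)
    (l : List (Edge G J T × Bool)) :
    IsPath tv a (s :: l) b ↔ D1_src tv s = a ∧ IsPath tv (D1_tgt tv s) l b := by
  obtain ⟨e, d⟩ := s
  cases d <;> simp [IsPath, D1_src, D1_tgt]

theorem D1_lbl_cons {Q : Type} [Group Q] (q : J × T → Q) (s : Edge G J T × Bool)
    (l : List (Edge G J T × Bool)) : lbl q (s :: l) = D1_w q s * lbl q l := by
  obtain ⟨e, d⟩ := s
  cases d <;> simp [lbl, D1_w]

theorem D1_isPath_append (tv : T → G) (l₁ l₂ : List (Edge G J T × Bool)) (a c : G) :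
    IsPath tv a (l₁ ++ l₂) c ↔ ∃ b, IsPath tv a l₁ b ∧ IsPath tv b l₂ c := by
  induction l₁ generalizing a with
  | nil => simp [IsPath]
  | cons s l ih =>
    rw [List.cons_append, D1_isPath_cons, ih]
    simp only [D1_isPath_cons]
    constructor
    · rintro ⟨h1, b, h2, h3⟩
      exact ⟨b, ⟨h1, h2⟩, h3⟩
    · rintro ⟨b, ⟨h1, h2⟩, h3⟩
      exact ⟨h1, b, h2, h3⟩

theorem D1_lbl_append {Q : Type} [Group Q] (q : J × T → Q) (l₁ l₂ : List (Edge G J T × Bool)) :
    lbl q (l₁ ++ l₂) = lbl q l₁ * lbl q l₂ := by
  induction l₁ with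
  | nil => simp [lbl]
  | cons s l ih => rw [List.cons_append, D1_lbl_cons, D1_lbl_cons, ih, mul_assoc]

/-- the reversed path -/
def D1_rev (l : List (Edge G J T × Bool)) : List (Edge G J T × Bool) :=
  (l.map fun s => (s.1, !s.2)).reverse

theorem D1_src_flip (tv : T → G) (s : Edge G J T × Bool) :
    D1_src tv (s.1, !s.2) = D1_tgt tv s := by
  obtain ⟨e, d⟩ := s
  cases d <;> simp [D1_src, D1_tgt]

theorem D1_tgt_flip (tv : T → G) (s : Edge G J T × Bool) :
    D1_tgt tv (s.1, !s.2) = D1_src tv s := by
  obtain ⟨e, d⟩ := s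
  cases d <;> simp [D1_src, D1_tgt]

theorem D1_isPath_rev (tv : T → G) (l : List (Edge G J T × Bool)) (a b : G)
    (h : IsPath tv a l b) : IsPath tv b (D1_rev l) a := by
  induction l generalizing a with
  | nil => exact Eq.symm h
  | cons s l ih =>
    rw [D1_isPath_cons] at h
    have h1 := ih _ h.2
    have e1 : D1_rev (s :: l) = D1_rev l ++ [(s.1, !s.2)] := by
      simp [D1_rev]
    rw [e1, D1_isPath_append]
    refine ⟨_, h1, ?_⟩
    rw [D1_isPath_cons, D1_src_flip, D1_tgt_flip]
    exact ⟨rfl, h.1⟩

theorem D1_rev_map (l : List (Edge G J T × Bool)) :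
    (D1_rev l).map Prod.fst = (l.map Prod.fst).reverse := by
  simp [D1_rev, List.map_reverse, Function.comp_def]

theorem D1_mem_rev (l : List (Edge G J T × Bool)) (s : Edge G J T × Bool) (h : s ∈ D1_rev l) :
    ∃ s' ∈ l, s'.1 = s.1 := by
  rw [D1_rev, List.mem_reverse, List.mem_map] at h
  obtain ⟨s', h1, h2⟩ := h
  exact ⟨s', h1, by rw [← h2]⟩

/-- a list with a repeated edge -/
theorem D1_dup (l : List (Edge G J T × Bool)) (h : ¬ (l.map Prod.fst).Nodup) :
    ∃ l₁ l₂ l₃ s s', l = l₁ ++ (s :: (l₂ ++ s' :: l₃)) ∧ s.1 = s'.1 := by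
  induction l with
  | nil => exact absurd List.nodup_nil h
  | cons s l ih =>
    rw [List.map_cons, List.nodup_cons] at h
    by_cases hm : s.1 ∈ l.map Prod.fst
    · rw [List.mem_map] at hm
      obtain ⟨s', h1, h2⟩ := hm
      obtain ⟨l₂, l₃, rfl⟩ := List.append_of_mem h1
      exact ⟨[], l₂, l₃, s, s', rfl, h2.symm⟩
    · have h2 : ¬ (l.map Prod.fst).Nodup := fun h2 => h ⟨hm, h2⟩
      obtain ⟨l₁, l₂, l₃, t, t', h3, h4⟩ := ih h2
      exact ⟨s :: l₁, l₂, l₃, t, t', by rw [h3]; rfl, h4⟩

theorem lbl_closed {Q : Type} [Group Q] (ψ : E → Option (J → T)) (tv : T → G) (q : J × T → Q)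
    (x : G → E) (l : List (Edge G J T × Bool)) (a : G) (hl : IsPath tv a l a)
    (hg : ∀ s ∈ l, Good ψ tv x s.1) : lbl q l = 1 := by
  suffices H : ∀ (n : ℕ) (l : List (Edge G J T × Bool)) (a : G), l.length ≤ n →
      IsPath tv a l a → (∀ s ∈ l, Good ψ tv x s.1) → lbl q l = 1 from
    H l.length l a le_rfl hl hg
  intro n
  induction n with
  | zero =>
    intro l a hn _ _
    have : l = [] := List.length_eq_zero_iff.1 (Nat.le_zero.1 hn)
    subst this
    rfl
  | succ n ih =>
    intro l a hn hl hg
    by_cases hd : (l.map Prod.fst).Nodup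
    · cases l with
      | nil => rfl
      | cons s l =>
        exfalso
        rw [List.map_cons, List.nodup_cons] at hd
        have hs := hg s List.mem_cons_self
        have hopen : ∀ t ∈ l, Open ψ x t.1 := fun t ht => (hg t (List.mem_cons_of_mem _ ht)).1
        rw [D1_isPath_cons] at hl
        obtain ⟨e, d⟩ := s
        apply hs.2
        cases d with
        | true =>
          simp only [D1_src, D1_tgt, if_true] at hl
          refine ⟨l, ?_, hopen, hd.2, hd.1⟩
          rw [hl.1]
          rw [hl.1] at hl
          exact hl.2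
        | false =>
          simp only [D1_src, D1_tgt] at hl
          refine ⟨D1_rev l, ?_, ?_, ?_, ?_⟩
          · have h1 := D1_isPath_rev tv l _ _ hl.2
            have h2 : e.1 * tv e.2.2 = a := by simpa using hl.1
            rw [h2]
            simpa using h1
          · intro t ht
            obtain ⟨t', h1, h2⟩ := D1_mem_rev l t ht
            rw [← h2]
            exact hopen t' h1
          · rw [D1_rev_map, List.nodup_reverse]
            exact hd.2
          · rw [D1_rev_map, List.mem_reverse]
            exact hd.1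
    · obtain ⟨l₁, l₂, l₃, s, s', rfl, hss⟩ := D1_dup l hd
      rw [D1_isPath_append] at hl
      obtain ⟨b, p1, hl⟩ := hl
      rw [D1_isPath_cons, D1_isPath_append] at hl
      obtain ⟨hb, c, p2, hl⟩ := hl
      rw [D1_isPath_cons] at hl
      obtain ⟨hc, p3⟩ := hl
      simp only [List.length_append, List.length_cons] at hn
      obtain ⟨e, d⟩ := s
      obtain ⟨e', d'⟩ := s'
      have he : e = e' := hss
      subst he
      have g1 : ∀ t ∈ l₁, Good ψ tv x t.1 := fun t ht => hg t (by simp [ht])
      have g2 : ∀ t ∈ l₂, Good ψ tv x t.1 := fun t ht => hg t (by simp [ht])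
      have g3 : ∀ t ∈ l₃, Good ψ tv x t.1 := fun t ht => hg t (by simp [ht])
      have ge : Good ψ tv x e := hg (e, d) (by simp)
      rw [D1_lbl_append, D1_lbl_cons, D1_lbl_append, D1_lbl_cons]
      by_cases hdd : d = d'
      · subst hdd
        have hbc : c = b := by rw [← hb, ← hc]
        subst hbc
        have h1 : lbl q ((e, d) :: l₂) = 1 := by
          refine ih _ c ?_ ?_ ?_
          · simp only [List.length_cons]; omega
          · rw [D1_isPath_cons]
            exact ⟨hc, p2⟩
          · intro t ht
            rcases List.mem_cons.1 ht with h | h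
            · rw [h]; exact ge
            · exact g2 t h
        have h2 : lbl q (l₁ ++ (e, d) :: l₃) = 1 := by
          refine ih _ a ?_ ?_ ?_
          · simp only [List.length_append, List.length_cons]; omega
          · rw [D1_isPath_append]
            refine ⟨c, p1, ?_⟩
            rw [D1_isPath_cons]
            exact ⟨hc, p3⟩
          · intro t ht
            rcases List.mem_append.1 ht with h | h
            · exact g1 t h
            · rcases List.mem_cons.1 h with h | h
              · rw [h]; exact ge
              · exact g3 t h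
        rw [D1_lbl_cons] at h1
        rw [D1_lbl_append, D1_lbl_cons] at h2
        rw [← mul_assoc (D1_w q (e, d)) (lbl q l₂), h1, one_mul]
        exact h2
      · have hd' : d' = !d := by cases d <;> cases d' <;> simp_all
        subst hd'
        have hs1 : D1_src tv (e, !d) = D1_tgt tv (e, d) := D1_src_flip tv (e, d)
        have hs2 : D1_tgt tv (e, !d) = D1_src tv (e, d) := D1_tgt_flip tv (e, d)
        have h1 : lbl q l₂ = 1 := by
          refine ih _ c (by omega) ?_ g2
          rw [← hs1, hc] at p2
          exact p2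
        have h2 : lbl q (l₁ ++ l₃) = 1 := by
          refine ih _ a ?_ ?_ ?_
          · simp only [List.length_append]; omega
          · rw [D1_isPath_append]
            refine ⟨b, p1, ?_⟩
            rw [hs2, hb] at p3
            exact p3
          · intro t ht
            rcases List.mem_append.1 ht with h | h
            · exact g1 t h
            · exact g3 t h
        rw [D1_lbl_append] at h2
        have h3 : D1_w q (e, d) * D1_w q (e, !d) = 1 := by
          cases d <;> simp [D1_w]
        rw [h1, one_mul, ← mul_assoc (D1_w q (e, d)), h3, one_mul]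
        exact h2

end Pool.Agent.Helper59.EX
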