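import Pool.Agent.Helper59.EX.Perc
import Pool.Agent.Helper59.EX.St.D1

/-!
EX-D2: the relation `Rel`.
-/

namespace Pool.Agent.Helper59.EX

variable {E G J T Q : Type} [Group G] [Group Q]

theorem D2_path_append (tv : T → G) (l l' : List (Edge G J T × Bool)) (b c : G) :
    ∀ a : G, IsPath tv a l b → IsPath tv b l' c → IsPath tv a (l ++ l') c := by
  induction l with
  | nil =>
    intro a h h'
    have h1 : a = b := h
    rw [h1]
    exact h'
  | cons s l ih =>
    obtain ⟨e, d⟩ := s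
    cases d with
    | true =>
      intro a h h'
      obtain ⟨h1, h2⟩ : e.1 = a ∧ IsPath tv (e.1 * tv e.2.2) l b := h
      exact ⟨h1, ih _ h2 h'⟩
    | false =>
      intro a h h'
      obtain ⟨h1, h2⟩ : e.1 * tv e.2.2 = a ∧ IsPath tv e.1 l b := h
      exact ⟨h1, ih _ h2 h'⟩

theorem D2_lbl_append (q : J × T → Q) (l l' : List (Edge G J T × Bool)) :
    lbl q (l ++ l') = lbl q l * lbl q l' := by
  induction l with
  | nil => simp [lbl]
  | cons s l ih =>
    obtain ⟨e, d⟩ := s
    cases d with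
    | true =>
      change q e.2 * lbl q (l ++ l') = q e.2 * lbl q l * lbl q l'
      rw [ih, mul_assoc]
    | false =>
      change (q e.2)⁻¹ * lbl q (l ++ l') = (q e.2)⁻¹ * lbl q l * lbl q l'
      rw [ih, mul_assoc]

/-- The reversed path. -/
def D2_rev : List (Edge G J T × Bool) → List (Edge G J T × Bool)
  | [] => []
  | (e, d) :: l => D2_rev l ++ [(e, !d)]

theorem D2_rev_mem (l : List (Edge G J T × Bool)) : ∀ s ∈ D2_rev l, ∃ t ∈ l, t.1 = s.1 := by
  induction l with
  | nil => intro s hs; simp [D2_rev] at hs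
  | cons s l ih =>
    obtain ⟨e, d⟩ := s
    intro s hs
    rw [D2_rev, List.mem_append, List.mem_singleton] at hs
    rcases hs with hs | rfl
    · obtain ⟨t, ht, h⟩ := ih s hs
      exact ⟨t, List.mem_cons_of_mem _ ht, h⟩
    · exact ⟨(e, d), List.mem_cons_self, rfl⟩

theorem D2_path_rev (tv : T → G) (l : List (Edge G J T × Bool)) (b : G) :
    ∀ a : G, IsPath tv a l b → IsPath tv b (D2_rev l) a := by
  induction l with
  | nil =>
    intro a h
    exact (show a = b from h).symm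
  | cons s l ih =>
    obtain ⟨e, d⟩ := s
    cases d with
    | true =>
      intro a h
      obtain ⟨h1, h2⟩ : e.1 = a ∧ IsPath tv (e.1 * tv e.2.2) l b := h
      exact D2_path_append tv _ _ _ _ _ (ih _ h2) ⟨rfl, h1⟩
    | false =>
      intro a h
      obtain ⟨h1, h2⟩ : e.1 * tv e.2.2 = a ∧ IsPath tv e.1 l b := h
      exact D2_path_append tv _ _ _ _ _ (ih _ h2) ⟨rfl, h1⟩

theorem D2_lbl_rev (q : J × T → Q) (l : List (Edge G J T × Bool)) :
    lbl q (D2_rev l) = (lbl q l)⁻¹ := by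
  induction l with
  | nil => simp [D2_rev, lbl]
  | cons s l ih =>
    obtain ⟨e, d⟩ := s
    cases d with
    | true =>
      rw [D2_rev, D2_lbl_append, ih]
      change (lbl q l)⁻¹ * ((q e.2)⁻¹ * 1) = (q e.2 * lbl q l)⁻¹
      rw [mul_one, mul_inv_rev]
    | false =>
      rw [D2_rev, D2_lbl_append, ih]
      change (lbl q l)⁻¹ * (q e.2 * 1) = ((q e.2)⁻¹ * lbl q l)⁻¹
      rw [mul_one, mul_inv_rev, inv_inv]

theorem rel_equivalence (ψ : E → Option (J → T)) (tv : T → G) (q : J × T → Q) (x : G → E) :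
    Equivalence (Rel ψ tv q x) := by
  refine ⟨fun u => ⟨[], rfl, by simp, mul_one _⟩, ?_, ?_⟩
  · rintro u v ⟨l, h1, h2, h3⟩
    refine ⟨D2_rev l, D2_path_rev tv l _ _ h1, ?_, ?_⟩
    · intro s hs
      obtain ⟨t, ht, h⟩ := D2_rev_mem l s hs
      rw [← h]
      exact h2 t ht
    · rw [D2_lbl_rev, ← h3, mul_assoc, mul_inv_cancel, mul_one]
  · rintro u v w ⟨l, h1, h2, h3⟩ ⟨l', h1', h2', h3'⟩
    refine ⟨l ++ l', D2_path_append tv _ _ _ _ _ h1 h1', ?_, ?_⟩
    · intro s hs
      rcases List.mem_append.1 hs with h | h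
      · exact h2 s h
      · exact h2' s h
    · rw [D2_lbl_append, ← mul_assoc, h3, h3']

theorem open_shift (ψ : E → Option (J → T)) (x : G → E) (g : G) (e : Edge G J T) :
    Open ψ (shift g x) (g * e.1, e.2) ↔ Open ψ x e := by
  simp [Open, shift]

/-- Translation of paths. -/
def D2_tr (g : G) (l : List (Edge G J T × Bool)) : List (Edge G J T × Bool) :=
  l.map fun s => ((g * s.1.1, s.1.2), s.2)

theorem D2_path_tr (tv : T → G) (g : G) (l : List (Edge G J T × Bool)) (b : G) :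
    ∀ a : G, IsPath tv a l b → IsPath tv (g * a) (D2_tr g l) (g * b) := by
  induction l with
  | nil =>
    intro a h
    exact congrArg (fun z => g * z) (show a = b from h)
  | cons s l ih =>
    obtain ⟨e, d⟩ := s
    cases d with
    | true =>
      intro a h
      obtain ⟨h1, h2⟩ : e.1 = a ∧ IsPath tv (e.1 * tv e.2.2) l b := h
      refine ⟨congrArg (fun z => g * z) h1, ?_⟩
      have := ih _ h2
      rw [← mul_assoc] at this
      exact this
    | false =>
      intro a h
      obtain ⟨h1, h2⟩ : e.1 * tv e.2.2 = a ∧ IsPath tv e.1 l b := h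
      refine ⟨?_, ih _ h2⟩
      change g * e.1 * tv e.2.2 = g * a
      rw [mul_assoc, h1]

theorem D2_lbl_tr (q : J × T → Q) (g : G) (l : List (Edge G J T × Bool)) :
    lbl q (D2_tr g l) = lbl q l := by
  induction l with
  | nil => rfl
  | cons s l ih =>
    obtain ⟨e, d⟩ := s
    cases d with
    | true => exact congrArg (fun z => q e.2 * z) ih
    | false => exact congrArg (fun z => (q e.2)⁻¹ * z) ih

theorem D2_tr_fst (g : G) (l : List (Edge G J T × Bool)) :
    (D2_tr g l).map Prod.fst = (l.map Prod.fst).map (fun e : Edge G J T => (g * e.1, e.2)) := by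
  simp [D2_tr, Function.comp_def]

theorem D2_tr_inj (g : G) : Function.Injective (fun e : Edge G J T => (g * e.1, e.2)) := by
  intro e e' h
  have h1 := congrArg Prod.fst h
  have h2 := congrArg Prod.snd h
  exact Prod.ext (mul_left_cancel h1) h2

theorem D2_shift_inv (g : G) (x : G → E) : shift g⁻¹ (shift g x) = x := by
  funext h
  simp [shift]

theorem D2_cycle (ψ : E → Option (J → T)) (tv : T → G) (x : G → E) (g : G) (e : Edge G J T)
    (h : ∃ l : List (Edge G J T × Bool), IsPath tv (e.1 * tv e.2.2) l e.1 ∧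
    (∀ s ∈ l, Open ψ x s.1) ∧ (l.map Prod.fst).Nodup ∧ e ∉ l.map Prod.fst) :
    ∃ l : List (Edge G J T × Bool), IsPath tv (g * e.1 * tv e.2.2) l (g * e.1) ∧
    (∀ s ∈ l, Open ψ (shift g x) s.1) ∧ (l.map Prod.fst).Nodup ∧
    ((g * e.1, e.2) : Edge G J T) ∉ l.map Prod.fst := by
  obtain ⟨l, h1, h2, h3, h4⟩ := h
  refine ⟨D2_tr g l, ?_, ?_, ?_, ?_⟩
  · rw [mul_assoc]
    exact D2_path_tr tv g l _ _ h1
  · intro s hs
    obtain ⟨t, ht, rfl⟩ := List.mem_map.1 hs
    exact (open_shift ψ x g t.1).2 (h2 t ht)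
  · rw [D2_tr_fst]
    exact h3.map (D2_tr_inj g)
  · rw [D2_tr_fst]
    intro hc
    obtain ⟨e', he', h⟩ := List.mem_map.1 hc
    rw [D2_tr_inj g h] at he'
    exact h4 he'

theorem good_shift (ψ : E → Option (J → T)) (tv : T → G) (x : G → E) (g : G) (e : Edge G J T) :
    Good ψ tv (shift g x) (g * e.1, e.2) ↔ Good ψ tv x e := by
  constructor
  · rintro ⟨h1, h2⟩
    refine ⟨(open_shift ψ x g e).1 h1, fun h => h2 ?_⟩
    exact D2_cycle ψ tv x g e h
  · rintro ⟨h1, h2⟩
    refine ⟨(open_shift ψ x g e).2 h1, fun h => h2 ?_⟩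
    have h3 := D2_cycle ψ tv (shift g x) g⁻¹ (g * e.1, e.2) h
    rw [D2_shift_inv] at h3
    simpa using h3

theorem D2_rel_shift (ψ : E → Option (J → T)) (tv : T → G) (q : J × T → Q) (x : G → E)
    (g a b : G) (p r : Q) (h : Rel ψ tv q x (a, p) (b, r)) :
    Rel ψ tv q (shift g x) (g * a, p) (g * b, r) := by
  obtain ⟨l, h1, h2, h3⟩ := h
  refine ⟨D2_tr g l, D2_path_tr tv g l _ _ h1, ?_, ?_⟩
  · intro s hs
    obtain ⟨t, ht, rfl⟩ := List.mem_map.1 hs
    exact (good_shift ψ tv x g t.1).2 (h2 t ht)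
  · rw [D2_lbl_tr]
    exact h3

theorem rel_shift (ψ : E → Option (J → T)) (tv : T → G) (q : J × T → Q) (x : G → E) (g a b : G)
    (p r : Q) : Rel ψ tv q (shift g x) (g * a, p) (g * b, r) ↔ Rel ψ tv q x (a, p) (b, r) := by
  constructor
  · intro h
    have h3 := D2_rel_shift ψ tv q (shift g x) g⁻¹ _ _ _ _ h
    rw [D2_shift_inv, inv_mul_cancel_left, inv_mul_cancel_left] at h3
    exact h3
  · exact D2_rel_shift ψ tv q x g a b p r

theorem rel_mul_left (ψ : E → Option (J → T)) (tv : T → G) (q : J × T → Q) (x : G → E) (a b : G)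
    (s p r : Q) : Rel ψ tv q x (a, s * p) (b, s * r) ↔ Rel ψ tv q x (a, p) (b, r) := by
  unfold Rel
  simp only [mul_assoc, mul_right_inj]

theorem rel_one_iff (ψ : E → Option (J → T)) (tv : T → G) (q : J × T → Q) (x : G → E) (r : Q) :
    Rel ψ tv q x (1, 1) (1, r) ↔ r = 1 := by
  constructor
  · rintro ⟨l, h1, h2, h3⟩
    have h4 := lbl_closed ψ tv q x l 1 h1 h2
    simp only [h4, mul_one] at h3
    exact h3.symm
  · rintro rfl
    exact (rel_equivalence ψ tv q x).refl _

theorem rel_of_good (ψ : E → Option (J → T)) (tv : T → G) (q : J × T → Q) (x : G → E)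
    (p : J × T) (h : Good ψ tv x (1, p)) : Rel ψ tv q x (1, 1) (tv p.2, q p) := by
  refine ⟨[((1, p), true)], ⟨rfl, ?_⟩, ?_, ?_⟩
  · exact one_mul _
  · intro s hs
    rw [List.mem_singleton] at hs
    rw [hs]
    exact h
  · change 1 * (q p * 1) = q p
    rw [mul_one, one_mul]

end Pool.Agent.Helper59.EX
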