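import Pool.Agent.Helper59.EX.Perc

/-!
EX-D3: measurability.
-/

namespace Pool.Agent.Helper59.EX

variable {E G J T Q : Type} [Group G] [Group Q] [Fintype E] [MeasurableSpace E]
  [MeasurableSingletonClass E]

theorem measurableSet_open (ψ : E → Option (J → T)) (e : Edge G J T) :
    MeasurableSet {x : G → E | Open ψ x e} := by
  have h1 : MeasurableSet {a : E | ∃ τ, ψ a = some τ ∧ τ e.2.1 = e.2.2} :=
    (Set.toFinite _).measurableSet
  exact (measurable_pi_apply (X := fun _ : G => E) e.1) h1

theorem D3_forall_list {α β : Type} [MeasurableSpace α] (P : β → Set α)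
    (hP : ∀ b, MeasurableSet (P b)) (l : List β) : MeasurableSet {x : α | ∀ s ∈ l, x ∈ P s} := by
  induction l with
  | nil => simp
  | cons b l ih =>
    have h : {x : α | ∀ s ∈ b :: l, x ∈ P s} = P b ∩ {x : α | ∀ s ∈ l, x ∈ P s} := by
      ext x
      simp
    rw [h]
    exact (hP b).inter ih

theorem measurableSet_good [Countable G] [Finite J] [Finite T] (ψ : E → Option (J → T))
    (tv : T → G) (e : Edge G J T) : MeasurableSet {x : G → E | Good ψ tv x e} := by
  have h : {x : G → E | Good ψ tv x e} = {x | Open ψ x e} ∩
      (⋃ l : List (Edge G J T × Bool), ({x | IsPath tv (e.1 * tv e.2.2) l e.1} ∩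
        ({x | ∀ s ∈ l, x ∈ {y : G → E | Open ψ y s.1}} ∩
          {x | (l.map Prod.fst).Nodup ∧ e ∉ l.map Prod.fst})))ᶜ := by
    ext x
    simp only [Good, Set.mem_setOf_eq, Set.mem_inter_iff, Set.mem_compl_iff, Set.mem_iUnion]
  rw [h]
  refine (measurableSet_open ψ e).inter (MeasurableSet.compl (MeasurableSet.iUnion fun l => ?_))
  refine (MeasurableSet.const _).inter (MeasurableSet.inter ?_ (MeasurableSet.const _))
  exact D3_forall_list (fun s : Edge G J T × Bool => {y : G → E | Open ψ y s.1})
    (fun s => measurableSet_open ψ s.1) l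

theorem measurableSet_rel [Countable G] [Finite J] [Finite T] (ψ : E → Option (J → T))
    (tv : T → G) (q : J × T → Q) (u v : G × Q) :
    MeasurableSet {x : G → E | Rel ψ tv q x u v} := by
  have h : {x : G → E | Rel ψ tv q x u v} =
      ⋃ l : List (Edge G J T × Bool), ({x | IsPath tv u.1 l v.1} ∩
        ({x | ∀ s ∈ l, x ∈ {y : G → E | Good ψ tv y s.1}} ∩ {x | u.2 * lbl q l = v.2})) := by
    ext x
    simp only [Rel, Set.mem_setOf_eq, Set.mem_inter_iff, Set.mem_iUnion]
  rw [h]
  refine MeasurableSet.iUnion fun l => ?_
  refine (MeasurableSet.const _).inter (MeasurableSet.inter ?_ (MeasurableSet.const _))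
  exact D3_forall_list (fun s : Edge G J T × Bool => {y : G → E | Good ψ tv y s.1})
    (fun s => measurableSet_good ψ tv s.1) l

theorem measurable_indeg [Fintype J] [Fintype T] (ψ : E → Option (J → T))
    (tv : T → G) (h : G) : Measurable (fun x : G → E => indeg ψ tv x h) := by
  classical
  unfold indeg
  simp only [Finset.card_filter]
  refine Finset.measurable_sum _ fun p _ => ?_
  exact Measurable.ite (measurableSet_open ψ _) measurable_const measurable_const

theorem measurable_chi {B : Type} [CommGroup B] (ch : E → B →* ℂ) (a : baseGroup B G) :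
    Measurable (fun x : G → E => chi ch (a : G → B) x) := by
  have hfin : (Function.mulSupport (a : G → B)).Finite := a.2
  have h : ∀ x : G → E, chi ch (a : G → B) x =
      ∏ g ∈ hfin.toFinset, ch (x g) ((a : G → B) g) := by
    intro x
    unfold chi
    refine finprod_eq_prod_of_mulSupport_subset _ ?_
    intro g hg
    rw [Set.Finite.coe_toFinset]
    intro h1
    apply hg
    show ch (x g) ((a : G → B) g) = 1
    rw [h1, map_one]
  simp only [h]
  refine Finset.measurable_prod _ fun g _ => ?_
  have h2 : Measurable (fun e : E => ch e ((a : G → B) g)) := Measurable.of_discrete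
  exact h2.comp (measurable_pi_apply g)

theorem measurable_shift (g : G) : Measurable (shift g : (G → E) → (G → E)) := by
  refine measurable_pi_lambda _ fun h => ?_
  exact measurable_pi_apply (g⁻¹ * h)

end Pool.Agent.Helper59.EX
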