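import Pool.Agent.Helper59.EX.Perc
import Pool.Agent.Helper59.EX.St.D3

/-!
EX-D4: the product measure.
-/

open MeasureTheory

namespace Pool.Agent.Helper59.EX

variable {E G J T : Type} [Group G] [Fintype E] [Nonempty E] [MeasurableSpace E]
  [MeasurableSingletonClass E]

instance D4_unif_prob : IsProbabilityMeasure (unif E) := by
  unfold unif
  infer_instance

instance mu_prob : IsProbabilityMeasure (mu E G) := by
  unfold mu
  infer_instance

theorem D4_unif_real (s : Set E) [DecidablePred (· ∈ s)] :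
    (unif E).real s = ((Finset.univ.filter (· ∈ s)).card : ℝ) / Fintype.card E := by
  classical
  have hs : MeasurableSet s := (Set.toFinite s).measurableSet
  have h1 : unif E s = (Fintype.card s : ENNReal) / Fintype.card E := by
    unfold unif
    exact PMF.toMeasure_uniformOfFintype_apply s hs
  rw [Measure.real, h1, ENNReal.toReal_div, ENNReal.toReal_natCast, ENNReal.toReal_natCast]
  congr 2
  exact Fintype.card_ofFinset _ (by simp)

theorem mu_shift (g : G) : MeasurePreserving (shift g) (mu E G) (mu E G) := by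
  classical
  refine ⟨measurable_shift g, ?_⟩
  have key := Measure.eq_infinitePi (fun _ : G => unif E)
    (ν := (mu E G).map (shift g)) (by
    intro s t ht
    rw [Measure.map_apply (measurable_shift g)
      (MeasurableSet.pi s.countable_toSet (fun i _ => ht i))]
    have h1 : (shift g : (G → E) → (G → E)) ⁻¹' (Set.pi (s : Set G) t) =
        Set.pi ((s.image (fun h => g⁻¹ * h) : Finset G) : Set G) (fun k => t (g * k)) := by
      ext x
      simp only [Set.mem_preimage, Set.mem_pi, Finset.coe_image, Set.mem_image, shift,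
        Finset.mem_coe]
      constructor
      · rintro hx k ⟨h, hh, rfl⟩
        rw [mul_inv_cancel_left]
        exact hx h hh
      · intro hx h hh
        have := hx (g⁻¹ * h) ⟨h, hh, rfl⟩
        rwa [mul_inv_cancel_left] at this
    rw [h1]
    unfold mu
    rw [Measure.infinitePi_pi (fun _ : G => unif E) (fun i _ => ht _)]
    rw [Finset.prod_image (fun a _ b _ hab => mul_left_cancel hab)]
    refine Finset.prod_congr rfl fun h _ => ?_
    rw [mul_inv_cancel_left])
  exact key

/-- Number of points of `E` whose image is `some τ` with `P τ`. -/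
theorem D4_card_fiber [Fintype J] [Fintype T] [DecidableEq J]
    (ψ : E → Option (J → T)) (M : ℕ)
    (hψ : ∀ τ : J → T, Nat.card {χ : E // ψ χ = some τ} = M) (P : (J → T) → Prop)
    [DecidablePred P] [DecidablePred (fun e : E => ∃ τ, ψ e = some τ ∧ P τ)] :
    (Finset.univ.filter (fun e : E => ∃ τ, ψ e = some τ ∧ P τ)).card =
      (Finset.univ.filter P).card * M := by
  classical
  have h1 : Finset.univ.filter (fun e : E => ∃ τ, ψ e = some τ ∧ P τ) =
      (Finset.univ.filter P).biUnion (fun τ => Finset.univ.filter (fun e : E => ψ e = some τ)) := by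
    ext e
    simp only [Finset.mem_filter, Finset.mem_univ, true_and, Finset.mem_biUnion]
    constructor
    · rintro ⟨τ, h, h'⟩
      exact ⟨τ, h', h⟩
    · rintro ⟨τ, h, h'⟩
      exact ⟨τ, h', h⟩
  rw [h1, Finset.card_biUnion]
  · rw [Finset.sum_const_nat (m := M)]
    intro τ _
    rw [← hψ τ, Nat.card_eq_fintype_card, Fintype.card_subtype]
  · intro τ _ τ' _ hne
    rw [Function.onFun, Finset.disjoint_left]
    intro e he he'
    simp only [Finset.mem_filter, Finset.mem_univ, true_and] at he he'
    rw [he] at he'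
    exact hne (Option.some.inj he')

/-- The number of maps prescribed on a finite set of arguments. -/
theorem D4_card_fun [Fintype J] [Fintype T] [DecidableEq J] [Nonempty T]
    (Y : Finset (J × T)) [DecidablePred (fun τ : J → T => ∀ p ∈ Y, τ p.1 = p.2)] :
    ((Finset.univ.filter (fun τ : J → T => ∀ p ∈ Y, τ p.1 = p.2)).card : ℝ) ≤
      (Fintype.card T : ℝ) ^ Fintype.card J * ((Fintype.card T : ℝ)⁻¹) ^ Y.card := by
  classical
  have hT : (0 : ℝ) < Fintype.card T := by exact_mod_cast Fintype.card_pos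
  have h1 : Finset.univ.filter (fun τ : J → T => ∀ p ∈ Y, τ p.1 = p.2) =
      Fintype.piFinset (fun j => Finset.univ.filter (fun t : T => ∀ p ∈ Y, p.1 = j → t = p.2)) := by
    ext τ
    simp only [Finset.mem_filter, Finset.mem_univ, true_and, Fintype.mem_piFinset]
    constructor
    · rintro h j p hp rfl
      exact h p hp
    · intro h p hp
      exact h p.1 p hp rfl
  have h2 : Y.card = ∑ j : J, (Y.filter (fun p => p.1 = j)).card :=
    Finset.card_eq_sum_card_fiberwise (fun p _ => Finset.mem_univ _)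
  rw [h1, Fintype.card_piFinset, h2, ← Finset.prod_pow_eq_pow_sum, Nat.cast_prod,
    ← Finset.card_univ (α := J), ← Finset.prod_const, ← Finset.prod_mul_distrib]
  refine Finset.prod_le_prod (fun j _ => Nat.cast_nonneg _) fun j _ => ?_
  rcases Nat.lt_trichotomy (Y.filter (fun p => p.1 = j)).card 1 with h | h | h
  · have h0 : (Y.filter (fun p => p.1 = j)).card = 0 := by omega
    rw [h0, pow_zero, mul_one]
    exact_mod_cast Finset.card_le_univ _
  · rw [h, pow_one, mul_inv_cancel₀ hT.ne']
    obtain ⟨p, hp⟩ := Finset.card_eq_one.mp h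
    have hp' : p ∈ Y ∧ p.1 = j := by
      have : p ∈ Y.filter (fun p => p.1 = j) := by rw [hp]; exact Finset.mem_singleton_self p
      exact Finset.mem_filter.mp this
    have h3 : (Finset.univ.filter (fun t : T => ∀ p ∈ Y, p.1 = j → t = p.2)).card ≤ 1 := by
      rw [Finset.card_le_one]
      intro a ha b hb
      rw [(Finset.mem_filter.mp ha).2 p hp'.1 hp'.2, (Finset.mem_filter.mp hb).2 p hp'.1 hp'.2]
    exact_mod_cast h3
  · obtain ⟨p, hp, p', hp', hne⟩ := Finset.one_lt_card.mp h
    rw [Finset.mem_filter] at hp hp'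
    have h3 : Finset.univ.filter (fun t : T => ∀ p ∈ Y, p.1 = j → t = p.2) = ∅ := by
      rw [Finset.filter_eq_empty_iff]
      intro t _ ht
      apply hne
      refine Prod.ext (hp.2.trans hp'.2.symm) ?_
      rw [← ht p hp.1 hp.2, ← ht p' hp'.1 hp'.2]
    rw [h3, Finset.card_empty, Nat.cast_zero]
    positivity

/-- The fibres fit into `E`. -/
theorem D4_card_le [Fintype J] [Fintype T] [DecidableEq J]
    (ψ : E → Option (J → T)) (M : ℕ)
    (hψ : ∀ τ : J → T, Nat.card {χ : E // ψ χ = some τ} = M) :
    (M : ℝ) * (Fintype.card T : ℝ) ^ Fintype.card J ≤ Fintype.card E := by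
  classical
  have h := D4_card_fiber ψ M hψ (fun _ => True)
  have h2 : (Finset.univ.filter (fun _ : J → T => True)).card =
      Fintype.card T ^ Fintype.card J := by
    rw [Finset.filter_true, Finset.card_univ, Fintype.card_fun]
  rw [h2] at h
  have h3 : (Finset.univ.filter (fun e : E => ∃ τ, ψ e = some τ ∧ True)).card ≤
      Fintype.card E := Finset.card_le_univ _
  rw [h] at h3
  rw [mul_comm]
  exact_mod_cast h3

/-- One vertex. -/
theorem D4_unif_le [Fintype J] [Fintype T] [DecidableEq J] [Nonempty T] (ψ : E → Option (J → T))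
    (M : ℕ) (hψ : ∀ τ : J → T, Nat.card {χ : E // ψ χ = some τ} = M) (Y : Finset (J × T))
    (hY : Y.Nonempty) :
    (unif E).real {e | ∀ p ∈ Y, ∃ τ, ψ e = some τ ∧ τ p.1 = p.2} ≤
      ((Fintype.card T : ℝ)⁻¹) ^ Y.card := by
  classical
  have hE : (0 : ℝ) < Fintype.card E := by exact_mod_cast Fintype.card_pos
  have h1 : {e : E | ∀ p ∈ Y, ∃ τ, ψ e = some τ ∧ τ p.1 = p.2} =
      {e : E | ∃ τ, ψ e = some τ ∧ ∀ p ∈ Y, τ p.1 = p.2} := by
    ext e
    simp only [Set.mem_setOf_eq]
    constructor
    · intro h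
      obtain ⟨p0, hp0⟩ := hY
      obtain ⟨τ, h2, _⟩ := h p0 hp0
      refine ⟨τ, h2, fun p hp => ?_⟩
      obtain ⟨τ', h3, h4⟩ := h p hp
      rw [h2] at h3
      rw [Option.some.inj h3]
      exact h4
    · rintro ⟨τ, h2, h3⟩ p hp
      exact ⟨τ, h2, h3 p hp⟩
  rw [h1, D4_unif_real, div_le_iff₀ hE]
  simp only [Set.mem_setOf_eq]
  rw [D4_card_fiber ψ M hψ (fun τ => ∀ p ∈ Y, τ p.1 = p.2), Nat.cast_mul]
  have h5 := D4_card_fun (J := J) (T := T) Y
  have h6 := D4_card_le ψ M hψ
  have h7 : (0 : ℝ) ≤ ((Fintype.card T : ℝ)⁻¹) ^ Y.card := by positivity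
  calc _ ≤ ((Fintype.card T : ℝ) ^ Fintype.card J * ((Fintype.card T : ℝ)⁻¹) ^ Y.card) * M :=
        mul_le_mul_of_nonneg_right h5 (Nat.cast_nonneg M)
    _ = ((Fintype.card T : ℝ)⁻¹) ^ Y.card * (M * (Fintype.card T : ℝ) ^ Fintype.card J) := by
        ring
    _ ≤ ((Fintype.card T : ℝ)⁻¹) ^ Y.card * Fintype.card E :=
        mul_le_mul_of_nonneg_left h6 h7

/-- Probability that a set of edges is open. -/
theorem mu_open_le [Fintype J] [Fintype T] [DecidableEq J] [Nonempty T] (ψ : E → Option (J → T))
    (M : ℕ) (hψ : ∀ τ : J → T, Nat.card {χ : E // ψ χ = some τ} = M)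
    (Z : Finset (Edge G J T)) :
    (mu E G).real {x | ∀ z ∈ Z, Open ψ x z} ≤ ((Fintype.card T : ℝ)⁻¹) ^ Z.card := by
  classical
  set Y : G → Finset (J × T) := fun g => (Z.filter (fun z => z.1 = g)).image Prod.snd with hY
  have hYcard : ∀ g, (Y g).card = (Z.filter (fun z => z.1 = g)).card := by
    intro g
    refine Finset.card_image_of_injOn ?_
    intro a ha b hb hab
    have ha' := (Finset.mem_filter.mp (Finset.mem_coe.mp ha)).2
    have hb' := (Finset.mem_filter.mp (Finset.mem_coe.mp hb)).2
    exact Prod.ext (ha'.trans hb'.symm) hab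
  set A : G → Set E := fun g => {e | ∀ p ∈ Y g, ∃ τ, ψ e = some τ ∧ τ p.1 = p.2} with hA
  have h1 : {x : G → E | ∀ z ∈ Z, Open ψ x z} =
      Set.pi ((Z.image Prod.fst : Finset G) : Set G) A := by
    ext x
    simp only [Set.mem_setOf_eq, Set.mem_pi, Finset.mem_coe, hA, hY, Finset.mem_image,
      Finset.mem_filter]
    constructor
    · rintro h g _ p ⟨z, ⟨hz, rfl⟩, rfl⟩
      exact h z hz
    · intro h z hz
      exact h z.1 ⟨z, hz, rfl⟩ z.2 ⟨z, ⟨hz, rfl⟩, rfl⟩
  have h2 : (mu E G).real {x : G → E | ∀ z ∈ Z, Open ψ x z} =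
      ∏ g ∈ Z.image Prod.fst, (unif E).real (A g) := by
    rw [h1, Measure.real]
    unfold mu
    rw [Measure.infinitePi_pi (fun _ : G => unif E)
      (fun i _ => (Set.toFinite (A i)).measurableSet), ENNReal.toReal_prod]
    rfl
  have h3 : Z.card = ∑ g ∈ Z.image Prod.fst, (Y g).card := by
    rw [Finset.card_eq_sum_card_fiberwise (f := Prod.fst) (t := Z.image Prod.fst)
      (fun z hz => Finset.mem_coe.mpr (Finset.mem_image_of_mem _ (Finset.mem_coe.mp hz)))]
    exact Finset.sum_congr rfl fun g _ => (hYcard g).symm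
  rw [h2, h3, ← Finset.prod_pow_eq_pow_sum]
  refine Finset.prod_le_prod (fun g _ => measureReal_nonneg) fun g hg => ?_
  refine D4_unif_le ψ M hψ (Y g) ?_
  obtain ⟨z, hz, rfl⟩ := Finset.mem_image.mp hg
  exact ⟨z.2, Finset.mem_image.mpr ⟨z, Finset.mem_filter.mpr ⟨hz, rfl⟩, rfl⟩⟩

/-- Probability that one edge is open. -/
theorem mu_open_eq [Fintype J] [Fintype T] [DecidableEq J] (ψ : E → Option (J → T)) (M : ℕ)
    (hψ : ∀ τ : J → T, Nat.card {χ : E // ψ χ = some τ} = M) (e : Edge G J T) :
    (mu E G).real {x | Open ψ x e} * Fintype.card T =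
      M * (Fintype.card T : ℝ) ^ Fintype.card J / Fintype.card E := by
  classical
  set A : G → Set E := fun _ => {a | ∃ τ, ψ a = some τ ∧ τ e.2.1 = e.2.2} with hA
  have h1 : {x : G → E | Open ψ x e} = Set.pi (({e.1} : Finset G) : Set G) A := by
    ext x
    simp only [Set.mem_setOf_eq, Set.mem_pi, Finset.mem_coe, hA, Finset.mem_singleton,
      forall_eq]
    rfl
  have h2 : (mu E G).real {x : G → E | Open ψ x e} = (unif E).real (A e.1) := by
    rw [h1, Measure.real]
    unfold mu
    rw [Measure.infinitePi_pi (fun _ : G => unif E)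
      (fun i _ => (Set.toFinite (A i)).measurableSet), Finset.prod_singleton]
    rfl
  have h3 : ((Finset.univ.filter (fun τ : J → T => τ e.2.1 = e.2.2)).card) * Fintype.card T =
      Fintype.card T ^ Fintype.card J := by
    have h4 : Finset.univ.filter (fun τ : J → T => τ e.2.1 = e.2.2) =
        Fintype.piFinset (fun j => if j = e.2.1 then {e.2.2} else Finset.univ) := by
      ext τ
      simp only [Finset.mem_filter, Finset.mem_univ, true_and, Fintype.mem_piFinset]
      constructor
      · intro h j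
        by_cases hj : j = e.2.1
        · rw [if_pos hj, hj, h]
          exact Finset.mem_singleton_self _
        · rw [if_neg hj]
          exact Finset.mem_univ _
      · intro h
        have := h e.2.1
        rw [if_pos rfl] at this
        exact Finset.mem_singleton.mp this
    rw [h4, Fintype.card_piFinset, ← Finset.mul_prod_erase Finset.univ _ (Finset.mem_univ e.2.1),
      if_pos rfl, Finset.card_singleton, one_mul]
    have h5 : ∀ j ∈ Finset.univ.erase e.2.1,
        (if j = e.2.1 then ({e.2.2} : Finset T) else Finset.univ).card = Fintype.card T := by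
      intro j hj
      rw [if_neg (Finset.ne_of_mem_erase hj), Finset.card_univ]
    rw [Finset.prod_congr rfl h5, Finset.prod_const, Finset.card_erase_of_mem (Finset.mem_univ _),
      Finset.card_univ, ← pow_succ]
    congr 1
    have : 0 < Fintype.card J := Fintype.card_pos_iff.mpr ⟨e.2.1⟩
    omega
  have h7 : (mu E G).real {x : G → E | Open ψ x e} =
      (unif E).real {a : E | ∃ τ, ψ a = some τ ∧ τ e.2.1 = e.2.2} := h2
  rw [h7, D4_unif_real]
  simp only [Set.mem_setOf_eq]
  rw [D4_card_fiber ψ M hψ (fun τ => τ e.2.1 = e.2.2), Nat.cast_mul]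
  have h6 : ((Finset.univ.filter (fun τ : J → T => τ e.2.1 = e.2.2)).card : ℝ) *
      Fintype.card T = (Fintype.card T : ℝ) ^ Fintype.card J := by exact_mod_cast h3
  rw [← h6]
  ring

end Pool.Agent.Helper59.EX
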