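import Pool.Agent.Helper59.EX.Perc
import Pool.Agent.Helper59.EX.St.C4
import Pool.Agent.Helper59.EX.St.D2
import Pool.Agent.Helper59.EX.St.D3
import Pool.Agent.Helper59.EX.St.D4

/-!
EX-D5: the positive definite function `PhiW`.
-/

open MeasureTheory

namespace Pool.Agent.Helper59.EX

variable {B E G J T Q : Type} [CommGroup B] [Fintype B] [Group G] [Countable G] [Group Q]
  [Fintype E] [Nonempty E] [MeasurableSpace E] [MeasurableSingletonClass E] [Finite J] [Finite T]

open Classical in
/-- The kernel of an equivalence relation is positive. -/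
private theorem D5_kernel {α β : Type*} (s : Finset α) (z : α → ℂ) (cls : α → β) :
    ∃ r : ℝ, 0 ≤ r ∧ ∑ g ∈ s, ∑ h ∈ s, star (z g) * z h * (if cls g = cls h then 1 else 0) =
      (r : ℂ) := by
  refine ⟨∑ b ∈ s.image cls, ‖∑ g ∈ s, if cls g = b then z g else 0‖ ^ 2,
    Finset.sum_nonneg fun _ _ => by positivity, ?_⟩
  have h1 : ∀ g ∈ s, ∀ h ∈ s, (star (z g) * z h * (if cls g = cls h then 1 else 0) : ℂ) =
      ∑ b ∈ s.image cls, star (if cls g = b then z g else 0) * (if cls h = b then z h else 0) := by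
    intro g hg h hh
    have hmem : cls g ∈ s.image cls := Finset.mem_image_of_mem cls hg
    rw [Finset.sum_eq_single_of_mem (cls g) hmem]
    · by_cases hc : cls g = cls h
      · simp [hc]
      · have hc' : ¬ cls h = cls g := fun h' => hc h'.symm
        simp [hc, hc']
    · intro b _ hb
      have : ¬ cls g = b := fun h' => hb h'.symm
      simp [this]
  have h2 : ∑ g ∈ s, ∑ h ∈ s, star (z g) * z h * (if cls g = cls h then 1 else 0) =
      ∑ b ∈ s.image cls, ∑ g ∈ s, ∑ h ∈ s,
        star (if cls g = b then z g else 0) * (if cls h = b then z h else 0) := by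
    rw [Finset.sum_comm]
    rw [Finset.sum_comm]
    have : ∀ g ∈ s, ∑ h ∈ s, star (z g) * z h * (if cls g = cls h then 1 else 0) =
        ∑ b ∈ s.image cls, ∑ h ∈ s,
          star (if cls g = b then z g else 0) * (if cls h = b then z h else 0) := by
      intro g hg
      rw [Finset.sum_comm]
      exact Finset.sum_congr rfl fun h hh => h1 g hg h hh
    rw [Finset.sum_congr rfl this, Finset.sum_comm]
  rw [h2, Complex.ofReal_sum]
  refine Finset.sum_congr rfl fun b _ => ?_
  have h3 : ∑ g ∈ s, ∑ h ∈ s, star (if cls g = b then z g else 0) *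
      (if cls h = b then z h else 0) =
      star (∑ g ∈ s, if cls g = b then z g else 0) * ∑ h ∈ s, (if cls h = b then z h else 0) := by
    rw [star_sum, Finset.sum_mul_sum]
  rw [h3]
  have h4 : ∀ w : ℂ, star w * w = ((‖w‖ ^ 2 : ℝ) : ℂ) := by
    intro w
    rw [mul_comm]
    have := Complex.mul_conj w
    rw [Complex.normSq_eq_norm_sq] at this
    exact this
  exact h4 _

/-- The base coordinate of an element of the wreath product. -/
private def D5_base (w : restrictedWreath B G) : baseGroup B G :=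
  ⟨(w : RegularWreathProduct B G).left, w.2⟩

open Classical in
private noncomputable def D5_F (ch : E → B →* ℂ) (ψ : E → Option (J → T)) (tv : T → G)
    (q : J × T → Q) (a : baseGroup B G) (u v : G × Q) (x : G → E) : ℂ :=
  chi ch (a : G → B) x * (if Rel ψ tv q x u v then 1 else 0)

omit [Fintype B] [Nonempty E] in
private theorem D5_meas (ch : E → B →* ℂ) (ψ : E → Option (J → T)) (tv : T → G)
    (q : J × T → Q) (a : baseGroup B G) (u v : G × Q) : Measurable (D5_F ch ψ tv q a u v) := by
  classical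
  unfold D5_F
  refine (measurable_chi ch a).mul ?_
  exact Measurable.ite (measurableSet_rel ψ tv q u v) measurable_const measurable_const

private theorem D5_int (ch : E → B →* ℂ) (hch : IsDual ch) (ψ : E → Option (J → T)) (tv : T → G)
    (q : J × T → Q) (a : baseGroup B G) (u v : G × Q) :
    Integrable (D5_F ch ψ tv q a u v) (mu E G) := by
  classical
  refine Integrable.of_bound (D5_meas ch ψ tv q a u v).aestronglyMeasurable 1
    (Filter.Eventually.of_forall fun x => ?_)
  unfold D5_F
  rw [norm_mul, norm_chi ch hch, one_mul]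
  split_ifs <;> simp

omit [Fintype B] [Countable G] [Fintype E] [Nonempty E] [MeasurableSpace E]
  [MeasurableSingletonClass E] in
private theorem D5_chi_shift (ch : E → B →* ℂ) (a : G → B) (s : G) (x : G → E) :
    chi ch (fun k => a (s * k)) x = chi ch a (shift s x) := by
  unfold chi
  rw [← finprod_comp_equiv (Equiv.mulLeft s) (f := fun g => ch (shift s x g) (a g))]
  refine finprod_congr fun k => ?_
  simp [shift]

private theorem D5_PhiW_eq (ch : E → B →* ℂ) (ψ : E → Option (J → T)) (tv : T → G)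
    (q : J × T → Q) (g h : restrictedWreath B G × Q) :
    PhiW ch ψ tv q (g⁻¹ * h) =
      ∫ x, D5_F ch ψ tv q ((D5_base g.1)⁻¹ * D5_base h.1)
        ((g.1 : RegularWreathProduct B G).right, g.2)
        ((h.1 : RegularWreathProduct B G).right, h.2) x ∂(mu E G) := by
  classical
  obtain ⟨⟨⟨a, s⟩, ha⟩, p⟩ := g
  obtain ⟨⟨⟨b, t⟩, hb⟩, r⟩ := h
  have hm := mu_shift (E := E) (G := G) s
  rw [← hm.map_eq, integral_map hm.measurable.aemeasurable
    (D5_meas ch ψ tv q _ _ _).aestronglyMeasurable]
  unfold PhiW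
  refine integral_congr_ae (Filter.Eventually.of_forall fun x => ?_)
  have h1 : ((((⟨⟨⟨a, s⟩, ha⟩, p⟩ : restrictedWreath B G × Q)⁻¹ *
      (⟨⟨⟨b, t⟩, hb⟩, r⟩ : restrictedWreath B G × Q)).1 : restrictedWreath B G) :
        RegularWreathProduct B G).left = fun k => (a⁻¹ * b) (s * k) := by
    funext k
    show ((⟨a, s⟩ : RegularWreathProduct B G)⁻¹ * ⟨b, t⟩).left k = _
    rw [RegularWreathProduct.mul_left]
    simp
  have h2 : ((((⟨⟨⟨a, s⟩, ha⟩, p⟩ : restrictedWreath B G × Q)⁻¹ *
      (⟨⟨⟨b, t⟩, hb⟩, r⟩ : restrictedWreath B G × Q)).1 : restrictedWreath B G) :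
        RegularWreathProduct B G).right = s⁻¹ * t := rfl
  have h3 : ((⟨⟨⟨a, s⟩, ha⟩, p⟩ : restrictedWreath B G × Q)⁻¹ *
      (⟨⟨⟨b, t⟩, hb⟩, r⟩ : restrictedWreath B G × Q)).2 = p⁻¹ * r := rfl
  have h4 : Rel ψ tv q x (1, 1) (s⁻¹ * t, p⁻¹ * r) ↔ Rel ψ tv q (shift s x) (s, p) (t, r) := by
    rw [← rel_mul_left ψ tv q x 1 (s⁻¹ * t) p 1 (p⁻¹ * r),
      ← rel_shift ψ tv q x s 1 (s⁻¹ * t) (p * 1) (p * (p⁻¹ * r))]
    simp
  show _ = D5_F ch ψ tv q _ _ _ (shift s x)
  unfold D5_F
  rw [h1, h2, h3]
  beta_reduce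
  rw [D5_chi_shift]
  simp only [h4]
  rfl

theorem PhiW_posDef (ch : E → B →* ℂ) (hch : IsDual ch) (ψ : E → Option (J → T)) (tv : T → G)
    (q : J × T → Q) : IsPosDef (PhiW ch ψ tv q) := by
  classical
  intro s c
  have h1 : ∀ g h : restrictedWreath B G × Q, star (c g) * c h * PhiW ch ψ tv q (g⁻¹ * h) =
      ∫ x, star (c g) * c h * D5_F ch ψ tv q ((D5_base g.1)⁻¹ * D5_base h.1)
        ((g.1 : RegularWreathProduct B G).right, g.2)
        ((h.1 : RegularWreathProduct B G).right, h.2) x ∂(mu E G) := by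
    intro g h
    rw [D5_PhiW_eq, integral_const_mul]
  simp only [h1]
  have h2 : ∀ g ∈ s, ∑ h ∈ s, ∫ x, star (c g) * c h * D5_F ch ψ tv q
      ((D5_base g.1)⁻¹ * D5_base h.1) ((g.1 : RegularWreathProduct B G).right, g.2)
        ((h.1 : RegularWreathProduct B G).right, h.2) x ∂(mu E G) =
      ∫ x, ∑ h ∈ s, star (c g) * c h * D5_F ch ψ tv q
      ((D5_base g.1)⁻¹ * D5_base h.1) ((g.1 : RegularWreathProduct B G).right, g.2)
        ((h.1 : RegularWreathProduct B G).right, h.2) x ∂(mu E G) := by
    intro g _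
    rw [integral_finsetSum]
    exact fun h _ => (D5_int ch hch ψ tv q _ _ _).const_mul _
  rw [Finset.sum_congr rfl h2, ← integral_finsetSum]
  swap
  · intro g _
    exact integrable_finsetSum _ fun h _ => (D5_int ch hch ψ tv q _ _ _).const_mul _
  have h3 : ∀ x : G → E, ∃ r : ℝ, 0 ≤ r ∧ ∑ g ∈ s, ∑ h ∈ s, star (c g) * c h * D5_F ch ψ tv q
      ((D5_base g.1)⁻¹ * D5_base h.1) ((g.1 : RegularWreathProduct B G).right, g.2)
        ((h.1 : RegularWreathProduct B G).right, h.2) x = (r : ℂ) := by
    intro x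
    let st : Setoid (G × Q) := ⟨Rel ψ tv q x, rel_equivalence ψ tv q x⟩
    obtain ⟨r, hr, hr'⟩ := D5_kernel s (fun g => c g * chi ch (D5_base g.1 : G → B) x)
      (fun g => (Quotient.mk st ((g.1 : RegularWreathProduct B G).right, g.2)))
    refine ⟨r, hr, ?_⟩
    rw [← hr']
    refine Finset.sum_congr rfl fun g _ => Finset.sum_congr rfl fun h _ => ?_
    unfold D5_F
    rw [chi_mul, ← star_chi ch hch]
    have h5 : (Quotient.mk st ((g.1 : RegularWreathProduct B G).right, g.2) =
        Quotient.mk st ((h.1 : RegularWreathProduct B G).right, h.2)) ↔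
        Rel ψ tv q x ((g.1 : RegularWreathProduct B G).right, g.2)
          ((h.1 : RegularWreathProduct B G).right, h.2) := Quotient.eq
    simp only [h5, star_mul']
    ring
  choose R hR hR' using h3
  simp only [hR']
  rw [integral_complex_ofReal]
  exact_mod_cast integral_nonneg hR

open Classical in
theorem PhiW_one (ch : E → B →* ℂ) (hch : IsDual ch) (ψ : E → Option (J → T)) (tv : T → G)
    (q : J × T → Q) (r : Q) : PhiW ch ψ tv q (1, r) = if r = 1 then 1 else 0 := by
  unfold PhiW
  have h1 : ∀ x : G → E, chi ch (((1 : restrictedWreath B G) : RegularWreathProduct B G).left) x *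
      (if Rel ψ tv q x (1, 1) (((1 : restrictedWreath B G) : RegularWreathProduct B G).right, r)
        then 1 else 0) = if r = 1 then 1 else 0 := by
    intro x
    have h2 : chi ch (((1 : restrictedWreath B G) : RegularWreathProduct B G).left) x = 1 := by
      unfold chi
      rw [← finprod_one (α := G)]
      refine finprod_congr fun g => ?_
      show ch (x g) 1 = 1
      exact map_one _
    have h3 : Rel ψ tv q x (1, 1) (((1 : restrictedWreath B G) :
        RegularWreathProduct B G).right, r) ↔ r = 1 := rel_one_iff ψ tv q x r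
    rw [h2, one_mul]
    simp only [h3]
  simp only [h1]
  rw [integral_const]
  simp

open Classical in
theorem PhiW_pairing (ch : E → B →* ℂ) (hch : IsDual ch) (ψ : E → Option (J → T)) (tv : T → G)
    (q : J × T → Q) (f : baseGroup B G →₀ ℂ) (t : G) (r : Q) :
    ((bw t f).sum fun w c => c * PhiW ch ψ tv q (w, r)) =
      ∫ x, hat ch f x * (if Rel ψ tv q x (1, 1) (t, r) then 1 else 0) ∂(mu E G) := by
  unfold bw
  rw [Finsupp.sum_mapDomain_index (fun _ => zero_mul _) (fun _ _ _ => add_mul _ _ _)]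
  have h1 : ∀ (a : baseGroup B G) (c : ℂ), c * PhiW ch ψ tv q (mkW a t, r) =
      ∫ x, c * D5_F ch ψ tv q a (1, 1) (t, r) x ∂(mu E G) := by
    intro a c
    rw [integral_const_mul]
    rfl
  simp only [h1]
  unfold Finsupp.sum
  rw [← integral_finsetSum]
  · refine integral_congr_ae (Filter.Eventually.of_forall fun x => ?_)
    show ∑ a ∈ f.support, f a * D5_F ch ψ tv q a (1, 1) (t, r) x = _
    unfold hat Finsupp.sum D5_F
    beta_reduce
    rw [Finset.sum_mul]
    refine Finset.sum_congr rfl fun a _ => ?_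
    ring
  · exact fun a _ => (D5_int ch hch ψ tv q _ _ _).const_mul _

end Pool.Agent.Helper59.EX
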