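import Pool.Agent.Helper59.EX.Perc

/-!
EX-E0: existence of the letter function.
-/

namespace Pool.Agent.Helper59.EX

theorem exists_psi (E J T : Type) [Fintype E] [Fintype J] [Fintype T] [DecidableEq J]
    [Nonempty T] :
    ∃ (ψ : E → Option (J → T)) (M : ℕ), (∀ τ : J → T, Nat.card {χ : E // ψ χ = some τ} = M) ∧
      Fintype.card E < (M + 1) * Fintype.card T ^ Fintype.card J := by
  classical
  have hN : 0 < Fintype.card T ^ Fintype.card J := pow_pos Fintype.card_pos _
  set N := Fintype.card T ^ Fintype.card J with hNdef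
  set M := Fintype.card E / N with hM
  have hcard : Fintype.card ((J → T) × Fin M) ≤ Fintype.card E := by
    rw [Fintype.card_prod, Fintype.card_fun, Fintype.card_fin, ← hNdef, hM]
    exact Nat.mul_div_le _ _
  obtain ⟨ι⟩ := Function.Embedding.nonempty_of_card_le hcard
  let ψ : E → Option (J → T) := fun χ =>
    if h : ∃ p : (J → T) × Fin M, ι p = χ then some h.choose.1 else none
  have hψ : ∀ p, ψ (ι p) = some p.1 := by
    intro p
    have h : ∃ p' : (J → T) × Fin M, ι p' = ι p := ⟨p, rfl⟩
    have h2 : h.choose = p := ι.injective h.choose_spec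
    change (if h : ∃ p' : (J → T) × Fin M, ι p' = ι p then some h.choose.1 else none) = some p.1
    rw [dif_pos h, h2]
  have hψ' : ∀ χ τ, ψ χ = some τ → ∃ i, ι (τ, i) = χ := by
    intro χ τ h
    by_cases hx : ∃ p : (J → T) × Fin M, ι p = χ
    · obtain ⟨p, rfl⟩ := hx
      rw [hψ p] at h
      have : p.1 = τ := by simpa using h
      exact ⟨p.2, by rw [← this]⟩
    · have : ψ χ = none := by
        change (if h : ∃ p' : (J → T) × Fin M, ι p' = χ then some h.choose.1 else none) = none
        rw [dif_neg hx]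
      rw [this] at h
      exact absurd h (by simp)
  refine ⟨ψ, M, ?_, ?_⟩
  · intro τ
    have e : Fin M ≃ {χ : E // ψ χ = some τ} := by
      refine Equiv.ofBijective (fun i => ⟨ι (τ, i), hψ _⟩) ⟨?_, ?_⟩
      · intro i j hij
        have h1 : ι (τ, i) = ι (τ, j) := congrArg Subtype.val hij
        have h2 := ι.injective h1
        exact (Prod.mk.inj h2).2
      · rintro ⟨χ, hχ⟩
        obtain ⟨i, hi⟩ := hψ' χ τ hχ
        exact ⟨i, Subtype.ext hi⟩
    rw [← Nat.card_congr e, Nat.card_fin]
  · rw [hM]
    have h1 := Nat.lt_mul_div_succ (Fintype.card E) hN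
    rw [mul_comm] at h1
    exact h1

end Pool.Agent.Helper59.EX
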