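import Pool.Agent.Helper59.EX.Perc
import Pool.Agent.Helper59.EX.St.D3
import Pool.Agent.Helper59.EX.St.D4

/-!
EX-E2: large in-degree is unlikely.
-/

open MeasureTheory

namespace Pool.Agent.Helper59.EX

/-- Probability that two edges are both open. -/
theorem E2_two {E G J T : Type} [Group G] [Fintype E] [Nonempty E] [MeasurableSpace E]
    [MeasurableSingletonClass E] [Fintype J] [Fintype T] [DecidableEq J] [Nonempty T]
    (ψ : E → Option (J → T)) (M : ℕ) (hψ : ∀ τ : J → T, Nat.card {χ : E // ψ χ = some τ} = M)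
    (e e' : Edge G J T) (hne : e ≠ e') :
    (mu E G).real ({x | Open ψ x e} ∩ {x | Open ψ x e'}) ≤ ((Fintype.card T : ℝ)⁻¹) ^ 2 := by
  classical
  have h := mu_open_le (E := E) ψ M hψ ({e, e'} : Finset (Edge G J T))
  rw [Finset.card_pair hne] at h
  refine le_trans (le_of_eq ?_) h
  congr 1
  ext x
  simp

theorem E2_one {E G J T : Type} [Group G] [Fintype E] [Nonempty E] [MeasurableSpace E]
    [MeasurableSingletonClass E] [Fintype J] [Fintype T] [DecidableEq J] [Nonempty T]
    (ψ : E → Option (J → T)) (M : ℕ) (hψ : ∀ τ : J → T, Nat.card {χ : E // ψ χ = some τ} = M)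
    (e : Edge G J T) :
    (mu E G).real {x | Open ψ x e} ≤ (Fintype.card T : ℝ)⁻¹ := by
  classical
  have h := mu_open_le (E := E) ψ M hψ ({e} : Finset (Edge G J T))
  rw [Finset.card_singleton, pow_one] at h
  refine le_trans (le_of_eq ?_) h
  congr 1
  ext x
  simp

theorem E2_markov {Ω P : Type} [MeasurableSpace Ω] [Fintype P] (μ : Measure Ω)
    [IsProbabilityMeasure μ] (A : Set Ω) (O : P → Set Ω) (hA : MeasurableSet A)
    (hO : ∀ p, MeasurableSet (O p)) (D : ℕ) (S : Set Ω) (hS : MeasurableSet S) (hSA : S ⊆ A)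
    (hc : ∀ x ∈ S, (D : ℝ) ≤ ∑ p, (O p).indicator (fun _ => (1 : ℝ)) x) :
    D * μ.real S ≤ ∑ p, μ.real (A ∩ O p) := by
  have h1 : ∫ x, S.indicator (fun _ => (D : ℝ)) x ∂μ ≤
      ∫ x, ∑ p, (A ∩ O p).indicator (fun _ => (1 : ℝ)) x ∂μ := by
    refine integral_mono ((integrable_const _).indicator hS)
      (integrable_finsetSum _ fun p _ => (integrable_const _).indicator (hA.inter (hO p))) ?_
    intro x
    by_cases hx : x ∈ S
    · simp only [Set.indicator_of_mem hx]
      refine le_trans (hc x hx) (le_of_eq (Finset.sum_congr rfl fun p _ => ?_))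
      by_cases hp : x ∈ O p
      · rw [Set.indicator_of_mem hp, Set.indicator_of_mem (Set.mem_inter (hSA hx) hp)]
      · rw [Set.indicator_of_notMem hp, Set.indicator_of_notMem (fun h => hp h.2)]
    · simp only [Set.indicator_of_notMem hx]
      exact Finset.sum_nonneg fun p _ => Set.indicator_nonneg (fun _ _ => zero_le_one) _
  rw [integral_indicator_const _ hS, integral_finsetSum _
    (fun p _ => (integrable_const _).indicator (hA.inter (hO p)))] at h1
  simp only [integral_indicator_const _ (hA.inter (hO _)), smul_eq_mul, mul_one] at h1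
  rw [mul_comm]
  exact h1

theorem sum_indeg_le {E G J T : Type} [Group G] [Fintype E] [Nonempty E] [MeasurableSpace E]
    [MeasurableSingletonClass E] [Fintype J] [Fintype T] [DecidableEq J] [Nonempty T]
    (ψ : E → Option (J → T)) (M : ℕ) (hψ : ∀ τ : J → T, Nat.card {χ : E // ψ χ = some τ} = M)
    (tv : T → G) (D : ℕ) (hD : 0 < D) :
    ∑ p : J × T, (mu E G).real {x | Open ψ x (1, p) ∧ D < indeg ψ tv x (tv p.2)} ≤
      (Fintype.card J : ℝ) * (Fintype.card J + 1) / D := by
  classical
  have hDpos : (0 : ℝ) < D := by exact_mod_cast hD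
  have hT : (0 : ℝ) < Fintype.card T := by exact_mod_cast Fintype.card_pos
  have key : ∀ p : J × T,
      (D : ℝ) * (mu E G).real {x | Open ψ x (1, p) ∧ D < indeg ψ tv x (tv p.2)} ≤
        (Fintype.card T : ℝ)⁻¹ * (Fintype.card J + 1) := by
    intro p
    have hmS : MeasurableSet {x : G → E | Open ψ x (1, p) ∧ D < indeg ψ tv x (tv p.2)} := by
      have h1 : MeasurableSet {x : G → E | D < indeg ψ tv x (tv p.2)} :=
        measurableSet_lt measurable_const (measurable_indeg ψ tv (tv p.2))
      exact (measurableSet_open ψ _).inter h1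
    have h := E2_markov (mu E G) {x | Open ψ x ((1 : G), p)}
      (fun p' : J × T => {x | Open ψ x (tv p.2 * (tv p'.2)⁻¹, p')})
      (measurableSet_open ψ _) (fun p' => measurableSet_open ψ _) D
      {x | Open ψ x (1, p) ∧ D < indeg ψ tv x (tv p.2)} hmS (fun x hx => hx.1) (by
        intro x hx
        have h2 : (∑ p' : J × T, ({x | Open ψ x (tv p.2 * (tv p'.2)⁻¹, p')} : Set (G → E)).indicator
            (fun _ => (1 : ℝ)) x) = (indeg ψ tv x (tv p.2) : ℝ) := by
          unfold indeg
          rw [Finset.card_filter, Nat.cast_sum]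
          refine Finset.sum_congr rfl fun p' _ => ?_
          simp only [Set.indicator_apply, Set.mem_ofPred_eq, Nat.cast_ite, Nat.cast_one,
            Nat.cast_zero]
        rw [h2]
        exact_mod_cast hx.2.le)
    refine h.trans ?_
    have h3 : ∀ p' : J × T, (mu E G).real ({x | Open ψ x ((1 : G), p)} ∩
        {x | Open ψ x (tv p.2 * (tv p'.2)⁻¹, p')}) ≤
        (if p' = p then (Fintype.card T : ℝ)⁻¹ else 0) + ((Fintype.card T : ℝ)⁻¹) ^ 2 := by
      intro p'
      by_cases hp : p' = p
      · rw [if_pos hp]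
        have h4 : (mu E G).real ({x | Open ψ x ((1 : G), p)} ∩
            {x | Open ψ x (tv p.2 * (tv p'.2)⁻¹, p')}) ≤ (mu E G).real {x | Open ψ x ((1 : G), p)} :=
          measureReal_mono Set.inter_subset_left
        have h5 := E2_one (E := E) ψ M hψ ((1 : G), p)
        have h6 : (0 : ℝ) ≤ ((Fintype.card T : ℝ)⁻¹) ^ 2 := by positivity
        linarith
      · rw [if_neg hp, zero_add]
        refine E2_two ψ M hψ _ _ ?_
        intro h
        exact hp (congrArg Prod.snd h).symm
    refine (Finset.sum_le_sum fun p' _ => h3 p').trans ?_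
    rw [Finset.sum_add_distrib, Finset.sum_ite_eq' Finset.univ p, if_pos (Finset.mem_univ p),
      Finset.sum_const, Finset.card_univ, Fintype.card_prod, nsmul_eq_mul, Nat.cast_mul]
    apply le_of_eq
    field_simp
    ring
  have h7 : (D : ℝ) * ∑ p : J × T, (mu E G).real {x | Open ψ x (1, p) ∧
      D < indeg ψ tv x (tv p.2)} ≤ (Fintype.card J : ℝ) * (Fintype.card J + 1) := by
    rw [Finset.mul_sum]
    refine (Finset.sum_le_sum fun p _ => key p).trans ?_
    rw [Finset.sum_const, Finset.card_univ, Fintype.card_prod, nsmul_eq_mul, Nat.cast_mul]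
    apply le_of_eq
    field_simp
  rw [le_div_iff₀ hDpos, mul_comm]
  exact h7

end Pool.Agent.Helper59.EX
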