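import Pool.Agent.Helper59.EX.Perc

/-!
EX-E3a: counting formal paths from `tv t` to `1`.
-/

namespace Pool.Agent.Helper59.EX

/-- Formal signed words in the letters `tv`. -/
def signedProd {G T : Type} [Group G] (tv : T → G) : List (T × Bool) → G
  | [] => 1
  | (t, true) :: l => tv t * signedProd tv l
  | (t, false) :: l => (tv t)⁻¹ * signedProd tv l

/-- The word (colours, letters, signs) of a formal path. -/
private def pword {G J T : Type} (l : List (Edge G J T × Bool)) : List ((J × T) × Bool) :=
  l.map fun s => (s.1.2, s.2)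

private theorem pword_inj {G J T : Type} [Group G] (tv : T → G) (b b' : G) :
    ∀ (l l' : List (Edge G J T × Bool)) (a : G), IsPath tv a l b → IsPath tv a l' b' →
      pword l = pword l' → l = l'
  | [], [], _, _, _, _ => rfl
  | [], _ :: _, _, _, _, h => by simp [pword] at h
  | _ :: _, [], _, _, _, h => by simp [pword] at h
  | (e, true) :: l, (e', ε') :: l', a, h1, h2, h => by
      have h' := h
      simp only [pword, List.map_cons, List.cons.injEq, Prod.mk.injEq] at h'
      obtain ⟨⟨he, hε⟩, hl⟩ := h'
      subst hε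
      obtain ⟨p1, q1⟩ := h1
      obtain ⟨p2, q2⟩ := h2
      have hee : e = e' := Prod.ext (p1.trans p2.symm) he
      subst hee
      rw [pword_inj tv b b' l l' _ q1 q2 hl]
  | (e, false) :: l, (e', ε') :: l', a, h1, h2, h => by
      have h' := h
      simp only [pword, List.map_cons, List.cons.injEq, Prod.mk.injEq] at h'
      obtain ⟨⟨he, hε⟩, hl⟩ := h'
      subst hε
      obtain ⟨p1, q1⟩ := h1
      obtain ⟨p2, q2⟩ := h2
      have hee : e = e' := by
        refine Prod.ext ?_ he
        have h3 : e.1 * tv e.2.2 = e'.1 * tv e'.2.2 := p1.trans p2.symm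
        rw [he] at h3
        exact mul_right_cancel h3
      subst hee
      rw [pword_inj tv b b' l l' _ q1 q2 hl]

private theorem path_end {G J T : Type} [Group G] (tv : T → G) (b : G) :
    ∀ (l : List (Edge G J T × Bool)) (a : G), IsPath tv a l b →
      a * signedProd tv (l.map fun s => (s.1.2.2, s.2)) = b
  | [], a, h => by
      have h' : a = b := h
      simp [signedProd, h']
  | (e, true) :: l, a, h => by
      obtain ⟨p1, q1⟩ := h
      have := path_end tv b l _ q1
      simp only [List.map_cons, signedProd]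
      rw [← this, ← p1, mul_assoc]
  | (e, false) :: l, a, h => by
      obtain ⟨p1, q1⟩ := h
      have := path_end tv b l _ q1
      simp only [List.map_cons, signedProd]
      rw [← this, ← p1]
      group

theorem finite_paths {G J T : Type} [Group G] [Finite J] [Finite T] (tv : T → G) (a b : G)
    (m : ℕ) : {l : List (Edge G J T × Bool) | IsPath tv a l b ∧ l.length = m}.Finite := by
  have hfin : {w : List ((J × T) × Bool) | w.length = m}.Finite :=
    List.finite_length_eq _ _
  refine Set.Finite.of_finite_image (f := pword) (hfin.subset ?_) ?_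
  · rintro _ ⟨l, ⟨_, hl⟩, rfl⟩
    simpa [pword] using hl
  · rintro l ⟨h1, _⟩ l' ⟨h2, _⟩ h
    exact pword_inj tv b b l l' a h1 h2 h

/-- The number of formal paths in terms of the number of closed signed words. -/
theorem path_count {G J T : Type} [Group G] [Fintype J] [Fintype T] (tv : T → G) (m : ℕ) (K : ℝ)
    (hK : ∀ σ : Fin (m + 1) → Bool, (Nat.card {τ : Fin (m + 1) → T //
      signedProd tv (List.ofFn fun i => (τ i, σ i)) = 1} : ℝ) ≤ K) :
    ∑ p : J × T, (Nat.card {l : List (Edge G J T × Bool) // IsPath tv (tv p.2) l 1 ∧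
      l.length = m} : ℝ) ≤ 2 ^ m * (Fintype.card J : ℝ) ^ (m + 1) * K := by
  have hf : ∀ p : J × T, Finite {l : List (Edge G J T × Bool) // IsPath tv (tv p.2) l 1 ∧
      l.length = m} := fun p => (finite_paths tv (tv p.2) 1 m).to_subtype
  -- the target
  let Tg : Type := (Fin (m + 1) → J) × (Σ σ : Fin m → Bool, {τ : Fin (m + 1) → T //
      signedProd tv (List.ofFn fun i => (τ i, (Fin.cons true σ : Fin (m + 1) → Bool) i)) = 1})
  have hword : ∀ (p : J × T) (l : List (Edge G J T × Bool)), IsPath tv (tv p.2) l 1 →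
      ∀ hl : l.length = m,
      signedProd tv (List.ofFn fun i => ((Fin.cons p.2 (fun j : Fin m =>
        (l.get (Fin.cast hl.symm j)).1.2.2) : Fin (m + 1) → T) i,
        (Fin.cons true (fun j : Fin m => (l.get (Fin.cast hl.symm j)).2) :
          Fin (m + 1) → Bool) i)) = 1 := by
    intro p l h hl
    subst hl
    rw [List.ofFn_succ]
    simp only [Fin.cons_zero, Fin.cons_succ, signedProd]
    have := path_end tv 1 l _ h
    rw [← this]
    congr 2
    conv_rhs => rw [← List.ofFn_get l]
    rw [List.map_ofFn]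
    rfl
  let Φ : (Σ p : J × T, {l : List (Edge G J T × Bool) // IsPath tv (tv p.2) l 1 ∧
      l.length = m}) → Tg := fun x =>
    (Fin.cons x.1.1 (fun j : Fin m => (x.2.1.get (Fin.cast x.2.2.2.symm j)).1.2.1),
      ⟨fun j : Fin m => (x.2.1.get (Fin.cast x.2.2.2.symm j)).2,
        ⟨Fin.cons x.1.2 (fun j : Fin m => (x.2.1.get (Fin.cast x.2.2.2.symm j)).1.2.2),
          hword x.1 x.2.1 x.2.2.1 x.2.2.2⟩⟩)
  have hΦ : Function.Injective Φ := by
    rintro ⟨⟨i, t⟩, l, h1, hl⟩ ⟨⟨i', t'⟩, l', h2, hl'⟩ h
    have hA : (Fin.cons i (fun j : Fin m => (l.get (Fin.cast hl.symm j)).1.2.1) :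
        Fin (m + 1) → J) =
        Fin.cons i' (fun j : Fin m => (l'.get (Fin.cast hl'.symm j)).1.2.1) :=
      congrArg (fun z : Tg => z.1) h
    have hB : (fun j : Fin m => (l.get (Fin.cast hl.symm j)).2) =
        (fun j : Fin m => (l'.get (Fin.cast hl'.symm j)).2) :=
      congrArg (fun z : Tg => z.2.1) h
    have hC : (Fin.cons t (fun j : Fin m => (l.get (Fin.cast hl.symm j)).1.2.2) :
        Fin (m + 1) → T) =
        Fin.cons t' (fun j : Fin m => (l'.get (Fin.cast hl'.symm j)).1.2.2) :=
      congrArg (fun z : Tg => z.2.2.1) h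
    have hi : i = i' := by simpa using congrFun hA 0
    have ht : t = t' := by simpa using congrFun hC 0
    subst hi ht
    have hll : l = l' := by
      refine pword_inj tv 1 1 l l' _ h1 h2 ?_
      refine List.ext_get (by simp [pword, hl, hl']) ?_
      intro n hn hn'
      have hnm : n < m := by simpa [pword, hl] using hn
      have a1 := congrFun hA (Fin.succ ⟨n, hnm⟩)
      have a2 := congrFun hB ⟨n, hnm⟩
      have a3 := congrFun hC (Fin.succ ⟨n, hnm⟩)
      simp only [Fin.cons_succ] at a1 a3
      simp only [pword, List.get_eq_getElem, List.getElem_map]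
      refine Prod.ext (Prod.ext ?_ ?_) ?_
      · exact a1
      · exact a3
      · exact a2
    subst hll
    rfl
  have hTf : Finite Tg := by
    dsimp only [Tg]
    infer_instance
  have h1 := Nat.card_le_card_of_injective Φ hΦ
  rw [Nat.card_sigma] at h1
  have h2 : Nat.card Tg = (Fintype.card J) ^ (m + 1) * ∑ σ : Fin m → Bool,
      Nat.card {τ : Fin (m + 1) → T //
        signedProd tv (List.ofFn fun i => (τ i, (Fin.cons true σ : Fin (m + 1) → Bool) i)) =
          1} := by
    dsimp only [Tg]
    rw [Nat.card_prod, Nat.card_sigma]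
    congr 1
    simp [Nat.card_eq_fintype_card]
  rw [h2] at h1
  have h3 : (∑ p : J × T, (Nat.card {l : List (Edge G J T × Bool) // IsPath tv (tv p.2) l 1 ∧
      l.length = m} : ℝ)) ≤ (Fintype.card J : ℝ) ^ (m + 1) * ∑ σ : Fin m → Bool,
      (Nat.card {τ : Fin (m + 1) → T //
        signedProd tv (List.ofFn fun i => (τ i, (Fin.cons true σ : Fin (m + 1) → Bool) i)) =
          1} : ℝ) := by
    exact_mod_cast h1
  refine h3.trans ?_
  have h4 : ∑ σ : Fin m → Bool,
      (Nat.card {τ : Fin (m + 1) → T //
        signedProd tv (List.ofFn fun i => (τ i, (Fin.cons true σ : Fin (m + 1) → Bool) i)) =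
          1} : ℝ) ≤ 2 ^ m * K := by
    refine (Finset.sum_le_sum fun σ _ => hK (Fin.cons true σ)).trans ?_
    simp [Finset.sum_const]
  calc (Fintype.card J : ℝ) ^ (m + 1) * _ ≤ (Fintype.card J : ℝ) ^ (m + 1) * (2 ^ m * K) := by
        gcongr
    _ = 2 ^ m * (Fintype.card J : ℝ) ^ (m + 1) * K := by ring

end Pool.Agent.Helper59.EX
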