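import Pool.Agent.Helper59.EX.Perc
import Pool.Agent.Helper59.EX.St.D3
import Pool.Agent.Helper59.EX.St.D4
import Pool.Agent.Helper59.EX.St.E3

/-!
EX-E4: an open edge is rarely on a cycle.
-/

open MeasureTheory

namespace Pool.Agent.Helper59.EX

/-- The event that the edges of `l` and the edge `e` are open, `l` being a list of distinct edges
avoiding `e`. -/
private def E4ev {E G J T : Type} [Group G] (ψ : E → Option (J → T)) (e : Edge G J T)
    (l : List (Edge G J T × Bool)) : Set (G → E) :=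
  {x | ((l.map Prod.fst).Nodup ∧ e ∉ l.map Prod.fst) ∧ Open ψ x e ∧ ∀ s ∈ l, Open ψ x s.1}

private theorem E4_real_le {E G J T : Type} [Group G] [Fintype E] [Nonempty E]
    [MeasurableSpace E]
    [MeasurableSingletonClass E] [Fintype J] [Fintype T] [DecidableEq J] [Nonempty T]
    (ψ : E → Option (J → T)) (M : ℕ) (hψ : ∀ τ : J → T, Nat.card {χ : E // ψ χ = some τ} = M)
    (e : Edge G J T) (l : List (Edge G J T × Bool)) :
    (mu E G).real (E4ev ψ e l) ≤ ((Fintype.card T : ℝ)⁻¹) ^ (l.length + 1) := by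
  classical
  have hN : 0 ≤ ((Fintype.card T : ℝ)⁻¹) ^ (l.length + 1) := by positivity
  by_cases h : (l.map Prod.fst).Nodup ∧ e ∉ l.map Prod.fst
  · have hcard : (insert e (l.map Prod.fst).toFinset).card = l.length + 1 := by
      rw [Finset.card_insert_of_notMem (by simpa using h.2), List.toFinset_card_of_nodup h.1,
        List.length_map]
    have := mu_open_le (G := G) ψ M hψ (insert e (l.map Prod.fst).toFinset)
    rw [hcard] at this
    refine le_trans (measureReal_mono ?_ (measure_ne_top _ _)) this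
    rintro x ⟨_, hx1, hx2⟩ z hz
    rw [Finset.mem_insert, List.mem_toFinset, List.mem_map] at hz
    rcases hz with rfl | ⟨s, hs, rfl⟩
    · exact hx1
    · exact hx2 s hs
  · have : E4ev (G := G) ψ e l = ∅ := by
      ext x
      simp only [E4ev, Set.mem_setOf_eq, Set.mem_empty_iff_false, iff_false]
      rintro ⟨h', _⟩
      exact h h'
    rw [this, measureReal_empty]
    exact hN

private theorem E4_bad_le {E G J T : Type} [Group G] [Fintype E] [Nonempty E]
    [MeasurableSpace E]
    [MeasurableSingletonClass E] [Fintype J] [Fintype T] [DecidableEq J] [Nonempty T]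
    (ψ : E → Option (J → T)) (M : ℕ) (hψ : ∀ τ : J → T, Nat.card {χ : E // ψ χ = some τ} = M)
    (tv : T → G) (p : J × T) :
    mu E G {x | Open ψ x (1, p) ∧ ¬ Good ψ tv x (1, p)} ≤
      ∑' m : ℕ, ENNReal.ofReal ((Nat.card {l : List (Edge G J T × Bool) //
        IsPath tv (tv p.2) l 1 ∧ l.length = m} : ℝ) * ((Fintype.card T : ℝ)⁻¹) ^ (m + 1)) := by
  classical
  have hfin := fun m : ℕ => finite_paths (J := J) tv (tv p.2) 1 m
  have hsub : {x : G → E | Open ψ x (1, p) ∧ ¬ Good ψ tv x (1, p)} ⊆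
      ⋃ m : ℕ, ⋃ l ∈ (hfin m).toFinset, E4ev ψ ((1 : G), p) l := by
    rintro x ⟨ho, hg⟩
    have hg' : ∃ l : List (Edge G J T × Bool), IsPath tv ((1 : G) * tv p.2) l 1 ∧
      (∀ s ∈ l, Open ψ x s.1) ∧ (l.map Prod.fst).Nodup ∧ ((1 : G), p) ∉ l.map Prod.fst := by
      by_contra hc
      exact hg ⟨ho, hc⟩
    obtain ⟨l, hl1, hl2, hl3, hl4⟩ := hg'
    rw [one_mul] at hl1
    simp only [Set.mem_iUnion]
    refine ⟨l.length, l, ?_, ⟨hl3, hl4⟩, ho, hl2⟩
    rw [Set.Finite.mem_toFinset]
    exact ⟨hl1, rfl⟩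
  refine le_trans (measure_mono hsub) (le_trans (measure_iUnion_le _) ?_)
  refine ENNReal.tsum_le_tsum fun m => ?_
  refine le_trans (measure_biUnion_finset_le _ _) ?_
  have hterm : ∀ l ∈ (hfin m).toFinset, mu E G (E4ev ψ ((1 : G), p) l) ≤
      ENNReal.ofReal (((Fintype.card T : ℝ)⁻¹) ^ (m + 1)) := by
    intro l hl
    rw [Set.Finite.mem_toFinset] at hl
    have h1 := E4_real_le (G := G) ψ M hψ ((1 : G), p) l
    rw [hl.2] at h1
    rw [← ofReal_measureReal (measure_ne_top _ _)]
    exact ENNReal.ofReal_le_ofReal h1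
  refine le_trans (Finset.sum_le_sum hterm) ?_
  rw [Finset.sum_const, nsmul_eq_mul]
  have hc : Nat.card {l : List (Edge G J T × Bool) // IsPath tv (tv p.2) l 1 ∧ l.length = m} =
      (hfin m).toFinset.card := by
    have := Nat.card_eq_card_finite_toFinset (hfin m)
    exact this
  rw [hc, ENNReal.ofReal_mul (Nat.cast_nonneg _), ENNReal.ofReal_natCast]

theorem sum_bad_le {E G J T : Type} [Group G] [Countable G] [Fintype E] [Nonempty E]
    [MeasurableSpace E]
    [MeasurableSingletonClass E] [Fintype J] [Fintype T] [DecidableEq J] [Nonempty T]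
    (ψ : E → Option (J → T)) (M : ℕ) (hψ : ∀ τ : J → T, Nat.card {χ : E // ψ χ = some τ} = M)
    (tv : T → G) (δ : ℝ) (hδ0 : 0 ≤ δ)
    (hδ : ∀ (m : ℕ) (σ : Fin (m + 1) → Bool), (Nat.card {τ : Fin (m + 1) → T //
      signedProd tv (List.ofFn fun i => (τ i, σ i)) = 1} : ℝ) ≤
        (δ * Fintype.card T) ^ (m + 1))
    (hβ : 2 * Fintype.card J * δ ≤ 1 / 2) :
    ∑ p : J × T, (mu E G).real {x | Open ψ x (1, p) ∧ ¬ Good ψ tv x (1, p)} ≤
      2 * (2 * Fintype.card J * δ) := by
  classical
  set b : ℝ := 2 * Fintype.card J * δ with hb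
  have hb0 : 0 ≤ b := by positivity
  have hN : (0 : ℝ) < Fintype.card T := by exact_mod_cast Fintype.card_pos
  have hsum : ∑ p : J × T, mu E G {x | Open ψ x (1, p) ∧ ¬ Good ψ tv x (1, p)} ≤
      ENNReal.ofReal (2 * b) := by
    calc ∑ p : J × T, mu E G {x | Open ψ x (1, p) ∧ ¬ Good ψ tv x (1, p)}
        ≤ ∑ p : J × T, ∑' m : ℕ, ENNReal.ofReal ((Nat.card {l : List (Edge G J T × Bool) //
          IsPath tv (tv p.2) l 1 ∧ l.length = m} : ℝ) *
            ((Fintype.card T : ℝ)⁻¹) ^ (m + 1)) :=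
          Finset.sum_le_sum fun p _ => E4_bad_le ψ M hψ tv p
      _ = ∑' m : ℕ, ∑ p : J × T, ENNReal.ofReal ((Nat.card {l : List (Edge G J T × Bool) //
          IsPath tv (tv p.2) l 1 ∧ l.length = m} : ℝ) *
            ((Fintype.card T : ℝ)⁻¹) ^ (m + 1)) :=
          (Summable.tsum_finsetSum fun p _ => ENNReal.summable).symm
      _ ≤ ∑' m : ℕ, ENNReal.ofReal (b * (1 / 2) ^ m) := by
          refine ENNReal.tsum_le_tsum fun m => ?_
          rw [← ENNReal.ofReal_sum_of_nonneg (fun p _ => by positivity)]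
          refine ENNReal.ofReal_le_ofReal ?_
          rw [← Finset.sum_mul]
          have h1 := path_count (G := G) (J := J) tv m ((δ * Fintype.card T) ^ (m + 1)) (hδ m)
          have h2 : ((Fintype.card T : ℝ)⁻¹) ^ (m + 1) ≥ 0 := by positivity
          refine le_trans (mul_le_mul_of_nonneg_right h1 h2) ?_
          have h3 : (2 : ℝ) ^ m * (Fintype.card J : ℝ) ^ (m + 1) *
              (δ * Fintype.card T) ^ (m + 1) * ((Fintype.card T : ℝ)⁻¹) ^ (m + 1) =
              (1 / 2) * b * b ^ m := by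
            have h4 : (δ * Fintype.card T) ^ (m + 1) * ((Fintype.card T : ℝ)⁻¹) ^ (m + 1) =
                δ ^ (m + 1) := by
              rw [← mul_pow]
              congr 1
              field_simp
            rw [mul_assoc, h4, hb, mul_pow, mul_pow]
            ring
          rw [h3]
          have h5 : b ^ m ≤ (1 / 2) ^ m := pow_le_pow_left₀ hb0 hβ m
          have h6 : (0 : ℝ) ≤ (1 / 2) ^ m := by positivity
          nlinarith [mul_le_mul_of_nonneg_left h5 hb0, mul_nonneg hb0 h6,
            mul_nonneg hb0 (pow_nonneg hb0 m)]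
      _ = ENNReal.ofReal (2 * b) := by
          rw [← ENNReal.ofReal_tsum_of_nonneg (fun m => by positivity)
            ((summable_geometric_of_lt_one (by norm_num) (by norm_num)).mul_left b),
            tsum_mul_left, tsum_geometric_of_lt_one (by norm_num) (by norm_num)]
          congr 1
          ring
  have hreal : ∑ p : J × T, (mu E G).real {x | Open ψ x (1, p) ∧ ¬ Good ψ tv x (1, p)} =
      (∑ p : J × T, mu E G {x | Open ψ x (1, p) ∧ ¬ Good ψ tv x (1, p)}).toReal := by
    rw [ENNReal.toReal_sum (fun p _ => measure_ne_top _ _)]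
    rfl
  rw [hreal]
  exact ENNReal.toReal_le_of_le_ofReal (by positivity) hsum

end Pool.Agent.Helper59.EX
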