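import Pool.Agent.Helper59.EX.Defs

/-!
EX-F1: Foelner sets give an invariant mean.
-/

namespace Pool.Agent.Helper59.EX

open Classical in
/-- The frequency of a set `A` in a finite set `F`. -/
private noncomputable def F1_freq {G : Type} (F : Finset G) (A : Set G) : ℝ :=
  ((F.filter fun x => x ∈ A).card : ℝ) / F.card

private lemma F1_freq_nonneg {G : Type} (F : Finset G) (A : Set G) : 0 ≤ F1_freq F A := by
  unfold F1_freq; positivity

private lemma F1_freq_le_one {G : Type} (F : Finset G) (A : Set G) : F1_freq F A ≤ 1 := by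
  classical
  unfold F1_freq
  apply div_le_one_of_le₀
  · exact_mod_cast Finset.card_filter_le _ _
  · positivity

private lemma F1_freq_univ {G : Type} (F : Finset G) (hF : F.Nonempty) :
    F1_freq F Set.univ = 1 := by
  unfold F1_freq
  have h : (0 : ℝ) < F.card := by exact_mod_cast hF.card_pos
  simp [h.ne']

private lemma F1_freq_union {G : Type} (F : Finset G) (A B : Set G) (h : Disjoint A B) :
    F1_freq F (A ∪ B) = F1_freq F A + F1_freq F B := by
  classical
  unfold F1_freq
  rw [← add_div, ← Nat.cast_add, ← Finset.card_union_of_disjoint]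
  · congr 2
    rw [← Finset.filter_or]
    congr 1
    ext x
    simp only [Finset.mem_filter, Set.mem_union]
  · rw [Finset.disjoint_filter]
    intro x _ hA hB
    exact Set.disjoint_left.mp h hA hB

open Classical in
private lemma F1_card_sub {G : Type} (P Q : Finset G) (A : Set G) :
    ((P.filter fun x => x ∈ A).card : ℝ) ≤ (Q.filter fun x => x ∈ A).card + (P \ Q).card := by
  have h : (P.filter fun x => x ∈ A) ⊆ (Q.filter fun x => x ∈ A) ∪ (P \ Q) := by
    intro x hx
    rw [Finset.mem_filter] at hx
    rw [Finset.mem_union, Finset.mem_filter, Finset.mem_sdiff]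
    by_cases hq : x ∈ Q
    · exact Or.inl ⟨hq, hx.2⟩
    · exact Or.inr ⟨hx.1, hq⟩
  exact_mod_cast (Finset.card_le_card h).trans (Finset.card_union_le _ _)

open Classical in
private lemma F1_freq_shift {G : Type} [Group G] (F : Finset G) (hF : F.Nonempty) (A : Set G)
    (g : G) (ε : ℝ) (h : (((F.image fun x => g⁻¹ * x) \ F).card : ℝ) ≤ ε * F.card) :
    |F1_freq F ((fun h => g * h) '' A) - F1_freq F A| ≤ ε := by
  have hpos : (0 : ℝ) < F.card := by exact_mod_cast hF.card_pos
  set P := F.image fun x => g⁻¹ * x with hP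
  have hinj : Function.Injective (fun x : G => g⁻¹ * x) := mul_right_injective _
  have hcard : P.card = F.card := Finset.card_image_of_injective _ hinj
  have h1 : (F.filter fun x => x ∈ (fun h => g * h) '' A).card = (P.filter fun x => x ∈ A).card := by
    rw [← Finset.card_image_of_injective _ hinj]
    congr 1
    ext y
    simp only [Finset.mem_image, Finset.mem_filter, Set.mem_image, hP]
    constructor
    · rintro ⟨x, ⟨hx, a, ha, rfl⟩, rfl⟩
      exact ⟨⟨_, hx, rfl⟩, by simpa using ha⟩
    · rintro ⟨⟨x, hx, rfl⟩, ha⟩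
      exact ⟨x, ⟨hx, _, ha, by simp⟩, rfl⟩
  have h2 : ((F \ P).card : ℝ) ≤ ε * F.card := by
    have : (F \ P).card = (P \ F).card := by
      have e1 := Finset.card_sdiff_add_card_inter F P
      have e2 := Finset.card_sdiff_add_card_inter P F
      rw [Finset.inter_comm] at e2
      omega
    rw [this]; exact h
  have h3 := F1_card_sub P F A
  have h4 := F1_card_sub F P A
  unfold F1_freq
  rw [h1, ← sub_div, abs_div, abs_of_pos hpos, div_le_iff₀ hpos, abs_le]
  constructor <;> linarith

open Classical in
/-- If `G` is not amenable then there are a finite set `S` and `ε > 0` such that no finite set is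
almost invariant under left multiplication by `S`. -/
theorem exists_expansion (G : Type) [Group G] (h : ¬ IsAmenable G) :
    ∃ (S : Finset G) (ε : ℝ), 0 < ε ∧ ∀ F : Finset G, F.Nonempty →
      ∃ s ∈ S, ε * F.card < ((F.image fun x => s * x) \ F).card := by
  by_contra hcon
  push Not at hcon
  apply h
  have hex : ∀ i : Finset G × ℕ, ∃ F : Finset G, F.Nonempty ∧
      ∀ s ∈ i.1, (((F.image fun x => s * x) \ F).card : ℝ) ≤ (1 / ((i.2 : ℝ) + 1)) * F.card :=
    fun i => hcon i.1 (1 / ((i.2 : ℝ) + 1)) (by positivity)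
  choose F hFne hF using hex
  let U : Ultrafilter (Finset G × ℕ) := Ultrafilter.of Filter.atTop
  have hU : (U : Filter (Finset G × ℕ)) ≤ Filter.atTop := Ultrafilter.of_le _
  have hlim : ∀ A : Set G, ∃ x ∈ Set.Icc (0 : ℝ) 1,
      Filter.Tendsto (fun i => F1_freq (F i) A) U (nhds x) := by
    intro A
    have hc : IsCompact (Set.Icc (0 : ℝ) 1) := isCompact_Icc
    obtain ⟨x, hx, hle⟩ := hc.ultrafilter_le_nhds (U.map fun i => F1_freq (F i) A) (by
      rw [Ultrafilter.coe_map, Filter.le_principal_iff, Filter.mem_map]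
      exact Filter.Eventually.of_forall
        fun i => ⟨F1_freq_nonneg _ _, F1_freq_le_one _ _⟩)
    exact ⟨x, hx, hle⟩
  choose m hm hlim using hlim
  refine ⟨m, fun s => (hm s).1, ?_, ?_, ?_⟩
  · refine tendsto_nhds_unique (hlim Set.univ) ?_
    have : (fun i => F1_freq (F i) Set.univ) = fun _ => (1 : ℝ) := by
      funext i; exact F1_freq_univ _ (hFne i)
    rw [this]; exact tendsto_const_nhds
  · intro s t hst
    refine tendsto_nhds_unique (hlim (s ∪ t)) ?_
    have : (fun i => F1_freq (F i) (s ∪ t)) = fun i => F1_freq (F i) s + F1_freq (F i) t := by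
      funext i; exact F1_freq_union _ _ _ hst
    rw [this]; exact (hlim s).add (hlim t)
  · intro g s
    have h0 : Filter.Tendsto (fun i => F1_freq (F i) ((fun h => g * h) '' s) - F1_freq (F i) s)
        U (nhds 0) := by
      have h1 : Filter.Tendsto (fun i : Finset G × ℕ => 1 / ((i.2 : ℝ) + 1)) Filter.atTop
          (nhds 0) := by
        have := tendsto_one_div_add_atTop_nhds_zero_nat (𝕜 := ℝ)
        refine this.comp ?_
        rw [← Filter.prod_atTop_atTop_eq]
        exact Filter.tendsto_snd
      refine squeeze_zero_norm' ?_ (h1.mono_left hU)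
      have h2 : ∀ᶠ i : Finset G × ℕ in Filter.atTop, ({g⁻¹}, 0) ≤ i := Filter.eventually_ge_atTop _
      filter_upwards [hU h2] with i hi
      rw [Real.norm_eq_abs]
      exact F1_freq_shift _ (hFne i) _ _ _ (hF i g⁻¹ (hi.1 (Finset.mem_singleton_self _)))
    have h3 := ((hlim ((fun h => g * h) '' s)).sub (hlim s))
    have h4 := tendsto_nhds_unique h3 h0
    linarith

end Pool.Agent.Helper59.EX
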