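import Pool.Agent.Helper59.EX.Defs

/-!
EX-F2: Kesten's theorem in the form of a bound for the number of closed words.
-/

namespace Pool.Agent.Helper59.EX

section F2

variable {G : Type} [Group G]

/-- finitely supported real functions. -/
def F2_FS (f : G → ℝ) : Prop := (Function.support f).Finite

omit [Group G] in
theorem F2_FS.summable {f : G → ℝ} (h : F2_FS f) : Summable f :=
  summable_of_hasFiniteSupport h

omit [Group G] in
theorem F2_FS.mono {f g : G → ℝ} (h : F2_FS f) (hfg : ∀ x, f x = 0 → g x = 0) : F2_FS g :=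
  Set.Finite.subset h fun x hx hfx => hx (hfg x hfx)

omit [Group G] in
theorem F2_FS.mono2 {f f' g : G → ℝ} (h : F2_FS f) (h' : F2_FS f')
    (hfg : ∀ x, f x = 0 → f' x = 0 → g x = 0) : F2_FS g := by
  refine Set.Finite.subset (Set.Finite.union h h') fun x hx => ?_
  by_contra hc
  rw [Set.mem_union, not_or] at hc
  exact hx (hfg x (by simpa using hc.1) (by simpa using hc.2))

theorem F2_FS.tr {f : G → ℝ} (h : F2_FS f) (s : G) : F2_FS (fun x => f (s⁻¹ * x)) := by
  refine Set.Finite.subset (Set.Finite.preimage (f := fun x => s⁻¹ * x)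
    (mul_right_injective _).injOn h) fun x hx => ?_
  exact hx

omit [Group G] in
theorem F2_FS.of_finset {f : G → ℝ} (F : Finset G) (h : ∀ x, x ∉ F → f x = 0) : F2_FS f := by
  refine Set.Finite.subset F.finite_toSet fun x hx => ?_
  by_contra hc
  exact hx (h x hc)

theorem F2_tr (s : G) (h : G → ℝ) : ∑' x, h (s⁻¹ * x) = ∑' x, h x :=
  (Equiv.mulLeft s⁻¹).tsum_eq h

open Classical in
theorem F2_indicator (S : Finset G) (ε : ℝ)
    (hexp : ∀ F : Finset G, F.Nonempty →
      ∃ s ∈ S, ε * F.card < ((F.image fun x => s * x) \ F).card)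
    (F : Finset G) (hF : F.Nonempty) :
    2 * ε * F.card ≤ ∑ s ∈ S, ∑' x : G,
      |(if s⁻¹ * x ∈ F then (1 : ℝ) else 0) - (if x ∈ F then 1 else 0)| := by
  obtain ⟨s, hs, hlt⟩ := hexp F hF
  have h1 : ∑' x : G, |(if s⁻¹ * x ∈ F then (1 : ℝ) else 0) - (if x ∈ F then 1 else 0)| ≤
      ∑ s ∈ S, ∑' x : G,
      |(if s⁻¹ * x ∈ F then (1 : ℝ) else 0) - (if x ∈ F then 1 else 0)| :=
    Finset.single_le_sum (f := fun s => ∑' x : G,
      |(if s⁻¹ * x ∈ F then (1 : ℝ) else 0) - (if x ∈ F then 1 else 0)|)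
      (fun i _ => tsum_nonneg fun x => abs_nonneg _) hs
  refine le_trans ?_ h1
  set sF : Finset G := F.image fun x => s * x with hsF
  have hmem : ∀ x, x ∈ sF ↔ s⁻¹ * x ∈ F := by
    intro x
    rw [hsF, Finset.mem_image]
    constructor
    · rintro ⟨y, hy, rfl⟩
      rwa [inv_mul_cancel_left]
    · intro h
      exact ⟨s⁻¹ * x, h, mul_inv_cancel_left s x⟩
  have hcard : sF.card = F.card := Finset.card_image_of_injective _ (mul_right_injective s)
  have hD : (F \ sF).card = (sF \ F).card := by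
    have e1 := Finset.card_sdiff_add_card_inter sF F
    have e2 := Finset.card_sdiff_add_card_inter F sF
    rw [Finset.inter_comm] at e2
    omega
  have hdisj : Disjoint (sF \ F) (F \ sF) := by
    rw [Finset.disjoint_left]
    intro x hx hx'
    rw [Finset.mem_sdiff] at hx hx'
    exact hx.2 hx'.1
  have hfs : F2_FS (fun x : G =>
      |(if s⁻¹ * x ∈ F then (1 : ℝ) else 0) - (if x ∈ F then 1 else 0)|) := by
    refine F2_FS.of_finset (sF ∪ F) fun x hx => ?_
    rw [Finset.mem_union, not_or, hmem] at hx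
    rw [if_neg hx.1, if_neg hx.2]
    simp
  have h2 := hfs.summable.sum_le_tsum ((sF \ F) ∪ (F \ sF)) (fun x _ => abs_nonneg _)
  refine le_trans ?_ h2
  have h3 : ∑ x ∈ (sF \ F) ∪ (F \ sF),
      |(if s⁻¹ * x ∈ F then (1 : ℝ) else 0) - (if x ∈ F then 1 else 0)| =
      ∑ x ∈ (sF \ F) ∪ (F \ sF), (1 : ℝ) := by
    refine Finset.sum_congr rfl fun x hx => ?_
    rw [Finset.mem_union, Finset.mem_sdiff, Finset.mem_sdiff, hmem] at hx
    rcases hx with hx | hx
    · rw [if_pos hx.1, if_neg hx.2]; simp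
    · rw [if_pos hx.1, if_neg hx.2]; simp
  rw [h3, Finset.sum_const, nsmul_eq_mul, mul_one, Finset.card_union_of_disjoint hdisj, hD]
  push_cast
  linarith

open Classical in
theorem F2_layer (S : Finset G) (ε : ℝ)
    (hexp : ∀ F : Finset G, F.Nonempty →
      ∃ s ∈ S, ε * F.card < ((F.image fun x => s * x) \ F).card) (n : ℕ) :
    ∀ (u : G → ℝ) (F : Finset G), F.card = n → (∀ x, x ∉ F → u x = 0) →
      (∀ x ∈ F, 0 < u x) →
      2 * ε * ∑' x, u x ≤ ∑ s ∈ S, ∑' x, |u (s⁻¹ * x) - u x| := by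
  induction n using Nat.strong_induction_on with
  | _ n ih =>
    intro u F hn h0 hpos
    rcases F.eq_empty_or_nonempty with hF | hF
    · have hu : ∀ x, u x = 0 := fun x => h0 x (by rw [hF]; simp)
      simp [hu]
    obtain ⟨x0, hx0, hmin⟩ := Finset.exists_min_image F u hF
    set t : ℝ := u x0 with ht
    have htpos : 0 < t := hpos x0 hx0
    set χ : G → ℝ := fun x => if x ∈ F then (1 : ℝ) else 0 with hχ
    set u' : G → ℝ := fun x => if x ∈ F then u x - t else 0 with hu'
    set F' : Finset G := F.filter fun x => t < u x with hF'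
    have hu : ∀ x, u x = u' x + t * χ x := by
      intro x
      by_cases hx : x ∈ F
      · simp only [hu', hχ, if_pos hx]; ring
      · simp only [hu', hχ, if_neg hx]; rw [h0 x hx]; ring
    have habs : ∀ a b, |u a - u b| = |u' a - u' b| + t * |χ a - χ b| := by
      intro a b
      by_cases ha : a ∈ F <;> by_cases hb : b ∈ F
      · simp only [hu', hχ, if_pos ha, if_pos hb]; simp
      · simp only [hu', hχ, if_pos ha, if_neg hb]
        rw [h0 b hb, sub_zero, sub_zero, sub_zero, abs_one, mul_one, abs_of_pos (hpos a ha),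
          abs_of_nonneg (sub_nonneg.2 (hmin a ha))]
        ring
      · simp only [hu', hχ, if_neg ha, if_pos hb]
        rw [h0 a ha, zero_sub, zero_sub, zero_sub, abs_neg, abs_neg, abs_neg, abs_one, mul_one,
          abs_of_pos (hpos b hb), abs_of_nonneg (sub_nonneg.2 (hmin b hb))]
        ring
      · simp only [hu', hχ, if_neg ha, if_neg hb]
        rw [h0 a ha, h0 b hb]; simp
    have hcard : F'.card < n := by
      rw [← hn]
      refine Finset.card_lt_card (Finset.filter_ssubset.2 ⟨x0, hx0, lt_irrefl _⟩)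
    have hu'0 : ∀ x, x ∉ F' → u' x = 0 := by
      intro x hx
      by_cases hxF : x ∈ F
      · simp only [hu', if_pos hxF]
        have h1 : ¬ t < u x := fun h => hx (Finset.mem_filter.2 ⟨hxF, h⟩)
        have h2 := hmin x hxF
        linarith
      · simp only [hu', if_neg hxF]
    have hu'pos : ∀ x ∈ F', 0 < u' x := by
      intro x hx
      rw [hF', Finset.mem_filter] at hx
      simp only [hu', if_pos hx.1]
      linarith [hx.2]
    have IH := ih F'.card hcard u' F' rfl hu'0 hu'pos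
    have hI := F2_indicator S ε hexp F hF
    have hfsu' : F2_FS u' := F2_FS.of_finset F' hu'0
    have hfsχ : F2_FS χ := F2_FS.of_finset F fun x hx => by simp only [hχ, if_neg hx]
    have hsumχ : ∑' x, χ x = F.card := by
      rw [tsum_eq_sum (s := F) (fun x hx => by simp only [hχ, if_neg hx])]
      rw [Finset.sum_congr rfl (g := fun _ => (1 : ℝ)) (fun x hx => by simp only [hχ, if_pos hx])]
      simp
    have hL : ∑' x, u x = ∑' x, u' x + t * F.card := by
      rw [← hsumχ, ← tsum_mul_left, ← Summable.tsum_add hfsu'.summable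
        (hfsχ.summable.mul_left t)]
      exact tsum_congr hu
    have hR : ∀ s ∈ S, ∑' x, |u (s⁻¹ * x) - u x| =
        ∑' x, |u' (s⁻¹ * x) - u' x| + t * ∑' x, |χ (s⁻¹ * x) - χ x| := by
      intro s _
      rw [← tsum_mul_left, ← Summable.tsum_add]
      · exact tsum_congr fun x => habs _ _
      · refine F2_FS.summable ((hfsu'.tr s).mono2 hfsu' fun x h1 h2 => ?_)
        rw [h1, h2]; simp
      · refine Summable.mul_left t (F2_FS.summable ((hfsχ.tr s).mono2 hfsχ fun x h1 h2 => ?_))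
        rw [h1, h2]; simp
    rw [hL, Finset.sum_congr rfl hR, Finset.sum_add_distrib, ← Finset.mul_sum]
    have hI' : 2 * ε * F.card ≤ ∑ s ∈ S, ∑' x, |χ (s⁻¹ * x) - χ x| := hI
    nlinarith [mul_le_mul_of_nonneg_left hI' htpos.le]

/-- The bilinear form of the sum of the translations by the elements of `S`. -/
noncomputable def F2_B (S : Finset G) (f g : G → ℝ) : ℝ :=
  ∑ s ∈ S, ∑' x, f (s⁻¹ * x) * g x

theorem F2_sq_tr (s : G) (f : G → ℝ) : ∑' x, f (s⁻¹ * x) ^ 2 = ∑' x, f x ^ 2 :=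
  F2_tr s fun x => f x ^ 2

theorem F2_nonneg_bound (S : Finset G) (ε : ℝ) (hε : 0 < ε) (hne : S.Nonempty)
    (hexp : ∀ F : Finset G, F.Nonempty →
      ∃ s ∈ S, ε * F.card < (open Classical in ((F.image fun x => s * x) \ F).card))
    (f : G → ℝ) (hf : F2_FS f) (hf0 : ∀ x, 0 ≤ f x) :
    F2_B S f f ≤ (S.card - ε ^ 2 / (2 * S.card)) * ∑' x, f x ^ 2 := by
  classical
  have hfs2 : F2_FS (fun x => f x ^ 2) := hf.mono fun x hx => by rw [hx]; simp
  have hcardpos : (0 : ℝ) < S.card := by exact_mod_cast hne.card_pos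
  have hlayer : 2 * ε * ∑' x, f x ^ 2 ≤ ∑ s ∈ S, ∑' x, |f (s⁻¹ * x) ^ 2 - f x ^ 2| := by
    have hfin := hf
    unfold F2_FS at hfin
    refine F2_layer S ε hexp hfin.toFinset.card (fun x => f x ^ 2) hfin.toFinset rfl ?_ ?_
    · intro x hx
      have : f x = 0 := by simpa using hx
      rw [this]; simp
    · intro x hx
      have : f x ≠ 0 := by simpa using hx
      positivity
  set c : ℝ := 2 * S.card / ε with hc
  have hcpos : 0 < c := by positivity
  set q : ℝ := ∑' x, f x ^ 2 with hq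
  have hq0 : 0 ≤ q := tsum_nonneg fun x => sq_nonneg _
  have hbound : ∀ s ∈ S, ∑' x, |f (s⁻¹ * x) ^ 2 - f x ^ 2| ≤
      c * q - c * (∑' x, f (s⁻¹ * x) * f x) + 2 * q / c := by
    intro s _
    have hft := hf.tr s
    have hsm1 : Summable fun x => f (s⁻¹ * x) ^ 2 :=
      F2_FS.summable (hft.mono fun x hx => by rw [hx]; simp)
    have hsm2 : Summable fun x => f x ^ 2 := hfs2.summable
    have hsm3 : Summable fun x => f (s⁻¹ * x) * f x :=
      F2_FS.summable (hf.mono fun x hx => by rw [hx]; simp)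
    have hpt : ∀ x, |f (s⁻¹ * x) ^ 2 - f x ^ 2| ≤
        (c / 2 + 1 / c) * f (s⁻¹ * x) ^ 2 + ((c / 2 + 1 / c) * f x ^ 2 +
          (-c) * (f (s⁻¹ * x) * f x)) := by
      intro x
      set a := f (s⁻¹ * x) with ha
      set b := f x with hb
      have ha0 : 0 ≤ a := hf0 _
      have hb0 : 0 ≤ b := hf0 _
      have e1 : |a ^ 2 - b ^ 2| = |a - b| * (a + b) := by
        rw [sq_sub_sq, abs_mul, abs_of_nonneg (add_nonneg ha0 hb0), mul_comm]
      rw [e1]
      have e2 : (a + b) ^ 2 ≤ 2 * (a ^ 2 + b ^ 2) := by nlinarith [sq_nonneg (a - b)]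
      have e3 : |a - b| * (a + b) ≤ c / 2 * |a - b| ^ 2 + 1 / (2 * c) * (a + b) ^ 2 := by
        have h5 : 0 ≤ (c * |a - b| - (a + b)) ^ 2 := sq_nonneg _
        have h6 : 0 ≤ (c * |a - b| - (a + b)) ^ 2 / (2 * c) := div_nonneg h5 (by positivity)
        have h7 : (c * |a - b| - (a + b)) ^ 2 / (2 * c) =
            c / 2 * |a - b| ^ 2 + 1 / (2 * c) * (a + b) ^ 2 - |a - b| * (a + b) := by
          field_simp
          ring
        linarith
      rw [sq_abs] at e3
      have e4 : 1 / (2 * c) * (a + b) ^ 2 ≤ 1 / (2 * c) * (2 * (a ^ 2 + b ^ 2)) :=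
        mul_le_mul_of_nonneg_left e2 (by positivity)
      have e5 : 1 / (2 * c) * (2 * (a ^ 2 + b ^ 2)) = 1 / c * (a ^ 2 + b ^ 2) := by
        field_simp
      have e6 : c / 2 * (a - b) ^ 2 = c / 2 * a ^ 2 + c / 2 * b ^ 2 + (-c) * (a * b) := by ring
      nlinarith
    have hsmR1 : Summable fun x => (c / 2 + 1 / c) * f (s⁻¹ * x) ^ 2 := hsm1.mul_left _
    have hsmR2 : Summable fun x => (c / 2 + 1 / c) * f x ^ 2 := hsm2.mul_left _
    have hsmR3 : Summable fun x => (-c) * (f (s⁻¹ * x) * f x) := hsm3.mul_left _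
    have hle : ∑' x, |f (s⁻¹ * x) ^ 2 - f x ^ 2| ≤
        ∑' x, ((c / 2 + 1 / c) * f (s⁻¹ * x) ^ 2 + ((c / 2 + 1 / c) * f x ^ 2 +
          (-c) * (f (s⁻¹ * x) * f x))) := by
      refine Summable.tsum_le_tsum hpt ?_ (hsmR1.add (hsmR2.add hsmR3))
      refine F2_FS.summable (hft.mono2 hf fun x h1 h2 => ?_)
      rw [h1, h2]; simp
    refine hle.trans (le_of_eq ?_)
    rw [Summable.tsum_add hsmR1 (hsmR2.add hsmR3), Summable.tsum_add hsmR2 hsmR3,
      tsum_mul_left, tsum_mul_left, tsum_mul_left, F2_sq_tr, ← hq]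
    field_simp
    ring
  have htot := hlayer.trans (Finset.sum_le_sum hbound)
  have hsplit : ∑ s ∈ S, (c * q - c * (∑' x, f (s⁻¹ * x) * f x) + 2 * q / c) =
      S.card * (c * q) - c * F2_B S f f + S.card * (2 * q / c) := by
    unfold F2_B
    rw [Finset.mul_sum, Finset.sum_add_distrib, Finset.sum_sub_distrib, Finset.sum_const,
      Finset.sum_const, nsmul_eq_mul, nsmul_eq_mul]
  rw [hsplit] at htot
  -- 2 ε q ≤ |S| c q - c B + 2 |S| q / c, c = 2|S|/ε
  have h1 : (S.card : ℝ) * (2 * q / c) = ε * q := by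
    rw [hc]; field_simp
  rw [h1] at htot
  have h2 : c * F2_B S f f ≤ S.card * (c * q) - ε * q := by linarith
  have h3 : F2_B S f f ≤ (S.card * (c * q) - ε * q) / c := by
    rw [le_div_iff₀ hcpos]; linarith
  refine h3.trans (le_of_eq ?_)
  rw [hc]
  field_simp

theorem F2_quad_bound (S : Finset G) (R : ℝ)
    (hR : ∀ f : G → ℝ, F2_FS f → (∀ x, 0 ≤ f x) → F2_B S f f ≤ R * ∑' x, f x ^ 2)
    (h : G → ℝ) (hh : F2_FS h) : |F2_B S h h| ≤ R * ∑' x, h x ^ 2 := by
  have h1 := hR (fun x => |h x|) (hh.mono fun x hx => by rw [hx]; simp) (fun x => abs_nonneg _)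
  have h2 : ∑' x, |h x| ^ 2 = ∑' x, h x ^ 2 := tsum_congr fun x => sq_abs _
  rw [h2] at h1
  refine le_trans ?_ h1
  unfold F2_B
  refine (Finset.abs_sum_le_sum_abs _ _).trans (Finset.sum_le_sum fun s _ => ?_)
  have hsm : Summable fun x => h (s⁻¹ * x) * h x :=
    F2_FS.summable (hh.mono fun x hx => by rw [hx]; simp)
  have hsm' : Summable fun x => |h (s⁻¹ * x) * h x| := hsm.abs
  have h3 : |∑' x, h (s⁻¹ * x) * h x| ≤ ∑' x, |h (s⁻¹ * x) * h x| := by
    have := norm_tsum_le_tsum_norm (f := fun x => h (s⁻¹ * x) * h x) hsm'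
    simpa using this
  refine h3.trans (le_of_eq (tsum_congr fun x => abs_mul _ _))

theorem F2_B_symm (S : Finset G) (hS : ∀ s ∈ S, s⁻¹ ∈ S) (f g : G → ℝ) :
    F2_B S f g = F2_B S g f := by
  unfold F2_B
  refine Finset.sum_bij' (fun s _ => s⁻¹) (fun s _ => s⁻¹) (fun s hs => hS s hs)
    (fun s hs => hS s hs) (fun s _ => inv_inv s) (fun s _ => inv_inv s) fun s _ => ?_
  rw [← F2_tr s⁻¹ (fun x => f (s⁻¹ * x) * g x)]
  refine tsum_congr fun x => ?_
  rw [inv_inv, inv_mul_cancel_left, mul_comm]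

/-- The sum of the translates. -/
noncomputable def F2_A (S : Finset G) (f : G → ℝ) : G → ℝ := fun x => ∑ s ∈ S, f (s⁻¹ * x)

theorem F2_FS_A (S : Finset G) {f : G → ℝ} (hf : F2_FS f) : F2_FS (F2_A S f) := by
  classical
  unfold F2_A
  induction S using Finset.induction_on with
  | empty => simp [F2_FS]
  | insert s S hs ih =>
    refine F2_FS.mono2 (hf.tr s) ih fun x h1 h2 => ?_
    rw [Finset.sum_insert hs, h1, h2, add_zero]

theorem F2_B_eq (S : Finset G) (f g : G → ℝ) (hg : F2_FS g) :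
    F2_B S f g = ∑' x, F2_A S f x * g x := by
  unfold F2_B F2_A
  rw [← Summable.tsum_finsetSum]
  · exact tsum_congr fun x => (Finset.sum_mul _ _ _).symm
  · intro s _
    exact F2_FS.summable (hg.mono fun x hx => by rw [hx]; simp)

theorem F2_B_add_self (S : Finset G) (hS : ∀ s ∈ S, s⁻¹ ∈ S) (f g : G → ℝ) (hf : F2_FS f)
    (hg : F2_FS g) (c : ℝ) :
    F2_B S (fun x => f x + c * g x) (fun x => f x + c * g x) =
      F2_B S f f + 2 * c * F2_B S f g + c ^ 2 * F2_B S g g := by
  have h1 : F2_B S (fun x => f x + c * g x) (fun x => f x + c * g x) =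
      F2_B S f f + c * F2_B S f g + c * F2_B S g f + c ^ 2 * F2_B S g g := by
    unfold F2_B
    rw [Finset.mul_sum, Finset.mul_sum, Finset.mul_sum, ← Finset.sum_add_distrib,
      ← Finset.sum_add_distrib, ← Finset.sum_add_distrib]
    refine Finset.sum_congr rfl fun s _ => ?_
    have hff : Summable fun x => f (s⁻¹ * x) * f x :=
      F2_FS.summable (hf.mono fun x hx => by rw [hx]; simp)
    have hfg : Summable fun x => f (s⁻¹ * x) * g x :=
      F2_FS.summable (hg.mono fun x hx => by rw [hx]; simp)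
    have hgf : Summable fun x => g (s⁻¹ * x) * f x :=
      F2_FS.summable (hf.mono fun x hx => by rw [hx]; simp)
    have hgg : Summable fun x => g (s⁻¹ * x) * g x :=
      F2_FS.summable (hg.mono fun x hx => by rw [hx]; simp)
    rw [← tsum_mul_left, ← tsum_mul_left, ← tsum_mul_left,
      ← Summable.tsum_add hff (hfg.mul_left c),
      ← Summable.tsum_add (hff.add (hfg.mul_left c)) (hgf.mul_left c),
      ← Summable.tsum_add ((hff.add (hfg.mul_left c)).add (hgf.mul_left c))
        (hgg.mul_left (c ^ 2))]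
    refine tsum_congr fun x => ?_
    ring
  rw [h1, F2_B_symm S hS g f]
  ring

omit [Group G] in
theorem F2_Q_add (f g : G → ℝ) (hf : F2_FS f) (hg : F2_FS g) (c : ℝ) :
    ∑' x, (f x + c * g x) ^ 2 =
      ∑' x, f x ^ 2 + 2 * c * ∑' x, f x * g x + c ^ 2 * ∑' x, g x ^ 2 := by
  have hff : Summable fun x => f x ^ 2 := F2_FS.summable (hf.mono fun x hx => by rw [hx]; simp)
  have hfg : Summable fun x => f x * g x := F2_FS.summable (hf.mono fun x hx => by rw [hx]; simp)
  have hgg : Summable fun x => g x ^ 2 := F2_FS.summable (hg.mono fun x hx => by rw [hx]; simp)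
  rw [← tsum_mul_left, ← tsum_mul_left, ← Summable.tsum_add hff (hfg.mul_left (2 * c)),
    ← Summable.tsum_add (hff.add (hfg.mul_left (2 * c))) (hgg.mul_left (c ^ 2))]
  refine tsum_congr fun x => ?_
  ring

theorem F2_A_bound (S : Finset G) (hS : ∀ s ∈ S, s⁻¹ ∈ S) (R : ℝ) (hRpos : 0 < R)
    (hR : ∀ f : G → ℝ, F2_FS f → (∀ x, 0 ≤ f x) → F2_B S f f ≤ R * ∑' x, f x ^ 2)
    (f : G → ℝ) (hf : F2_FS f) :
    ∑' x, F2_A S f x ^ 2 ≤ R ^ 2 * ∑' x, f x ^ 2 := by
  set g : G → ℝ := F2_A S f with hg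
  have hgfs : F2_FS g := F2_FS_A S hf
  have hBfg : F2_B S f g = ∑' x, g x ^ 2 := by
    rw [F2_B_eq S f g hgfs]
    exact tsum_congr fun x => (sq _).symm
  have hp : F2_FS (fun x => f x + R⁻¹ * g x) :=
    hf.mono2 hgfs fun x h1 h2 => by rw [h1, h2]; simp
  have hm : F2_FS (fun x => f x + (-R⁻¹) * g x) :=
    hf.mono2 hgfs fun x h1 h2 => by rw [h1, h2]; simp
  have h1 := (abs_le.1 (F2_quad_bound S R hR _ hp)).2
  have h2 := (abs_le.1 (F2_quad_bound S R hR _ hm)).1
  rw [F2_B_add_self S hS f g hf hgfs, F2_Q_add f g hf hgfs] at h1 h2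
  rw [hBfg] at h1 h2
  set a := ∑' x, g x ^ 2
  set q := ∑' x, f x ^ 2
  set m := ∑' x, f x * g x
  set u := F2_B S f f
  set v := F2_B S g g
  -- h1 : u + 2 R⁻¹ a + R⁻² v ≤ R (q + 2 R⁻¹ m + R⁻² a)
  -- h2 : -(R (q - 2 R⁻¹ m + R⁻² a)) ≤ u - 2 R⁻¹ a + R⁻² v
  have h3 : 4 * R⁻¹ * a ≤ 2 * R * (q + (R⁻¹) ^ 2 * a) := by nlinarith
  have h4 : R * R⁻¹ = 1 := mul_inv_cancel₀ hRpos.ne'
  have h5 : 4 * R⁻¹ * a * R ≤ 2 * R * (q + (R⁻¹) ^ 2 * a) * R :=
    mul_le_mul_of_nonneg_right h3 hRpos.le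
  have h6 : 4 * R⁻¹ * a * R = 4 * a := by
    calc 4 * R⁻¹ * a * R = 4 * a * (R * R⁻¹) := by ring
      _ = 4 * a := by rw [h4, mul_one]
  have h7 : 2 * R * (q + (R⁻¹) ^ 2 * a) * R = 2 * R ^ 2 * q + 2 * a := by
    calc 2 * R * (q + (R⁻¹) ^ 2 * a) * R = 2 * R ^ 2 * q + 2 * a * (R * R⁻¹) ^ 2 := by ring
      _ = 2 * R ^ 2 * q + 2 * a := by rw [h4, one_pow, mul_one]
  rw [h6, h7] at h5
  linarith

/-- Number of words of length `m` with product `x`. -/
noncomputable def F2_N (S : Finset G) : ℕ → G → ℝ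
  | 0 => fun x => open Classical in if x = 1 then 1 else 0
  | m + 1 => F2_A S (F2_N S m)

theorem F2_N_fs (S : Finset G) (m : ℕ) : F2_FS (F2_N S m) := by
  classical
  induction m with
  | zero =>
    refine F2_FS.of_finset {1} fun x hx => ?_
    have : x ≠ 1 := by simpa using hx
    simp [F2_N, this]
  | succ m ih => exact F2_FS_A S ih

theorem F2_card_words (S : Finset G) (m : ℕ) : ∀ x : G,
    (Nat.card {w : Fin m → S // (List.ofFn fun i => ((w i : S) : G)).prod = x} : ℝ) =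
      F2_N S m x := by
  classical
  induction m with
  | zero =>
    intro x
    by_cases hx : x = 1
    · subst hx
      have : Nat.card {w : Fin 0 → S // (List.ofFn fun i => ((w i : S) : G)).prod = 1} = 1 := by
        rw [Nat.card_eq_one_iff_unique]
        refine ⟨⟨fun a b => Subtype.ext (Subsingleton.elim _ _)⟩, ⟨⟨Fin.elim0, by simp⟩⟩⟩
      rw [this]; simp [F2_N]
    · have : Nat.card {w : Fin 0 → S // (List.ofFn fun i => ((w i : S) : G)).prod = x} = 0 := by
        rw [Nat.card_eq_zero]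
        left
        refine ⟨fun w => hx ?_⟩
        have := w.2
        simpa using this.symm
      rw [this]; simp [F2_N, hx]
  | succ m ih =>
    intro x
    let e : {w : Fin (m + 1) → S // (List.ofFn fun i => ((w i : S) : G)).prod = x} ≃
        Σ s : S, {w : Fin m → S // (List.ofFn fun i => ((w i : S) : G)).prod = (s : G)⁻¹ * x} :=
      { toFun := fun w => ⟨w.1 0, ⟨fun i => w.1 i.succ, by
          have h := w.2
          rw [List.ofFn_succ, List.prod_cons] at h
          rw [eq_inv_mul_iff_mul_eq]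
          exact h⟩⟩
        invFun := fun p => ⟨Fin.cons p.1 p.2.1, by
          rw [List.ofFn_succ, List.prod_cons]
          have h := p.2.2
          rw [eq_inv_mul_iff_mul_eq] at h
          simpa using h⟩
        left_inv := fun w => by
          apply Subtype.ext
          exact Fin.cons_self_tail w.1
        right_inv := fun p => by
          rcases p with ⟨s, w, hw⟩
          rfl }
    rw [Nat.card_congr e, Nat.card_sigma]
    push_cast
    have : ∀ s : S, (Nat.card {w : Fin m → S //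
        (List.ofFn fun i => ((w i : S) : G)).prod = (s : G)⁻¹ * x} : ℝ) =
        F2_N S m ((s : G)⁻¹ * x) := fun s => ih _
    rw [Finset.sum_congr rfl fun s _ => this s]
    rw [F2_N, F2_A]
    exact Finset.sum_coe_sort S (fun s => F2_N S m (s⁻¹ * x))

end F2

open Classical in
theorem closed_words_le {G : Type} [Group G] (S : Finset G) (hS : ∀ s ∈ S, s⁻¹ ∈ S)
    (hne : S.Nonempty) (ε : ℝ) (hε : 0 < ε)
    (hexp : ∀ F : Finset G, F.Nonempty →
      ∃ s ∈ S, ε * F.card < ((F.image fun x => s * x) \ F).card) :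
    ∃ ρ : ℝ, 0 < ρ ∧ ρ < 1 ∧ ∀ m : ℕ, (Nat.card {w : Fin m → S //
      (List.ofFn fun i => ((w i : S) : G)).prod = 1} : ℝ) ≤ (ρ * S.card) ^ m := by
  have hcardpos : (0 : ℝ) < S.card := by exact_mod_cast hne.card_pos
  have hcard1 : (1 : ℝ) ≤ S.card := by exact_mod_cast hne.card_pos
  have hε1 : ε < 1 := by
    obtain ⟨s, hs, h⟩ := hexp {1} (Finset.singleton_nonempty 1)
    have h2 : ((({1} : Finset G).image fun x => s * x) \ {1}).card ≤ 1 :=
      (Finset.card_le_card Finset.sdiff_subset).trans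
        (Finset.card_image_le.trans (by simp))
    have h3 : (((({1} : Finset G).image fun x => s * x) \ {1}).card : ℝ) ≤ 1 := by
      exact_mod_cast h2
    rw [Finset.card_singleton, Nat.cast_one, mul_one] at h
    linarith
  set ρ : ℝ := 1 - ε ^ 2 / (2 * S.card ^ 2) with hρ
  have hfrac : ε ^ 2 / (2 * (S.card : ℝ) ^ 2) ≤ 1 / 2 := by
    rw [div_le_div_iff₀ (by positivity) (by norm_num)]
    nlinarith
  have hρ0 : 0 < ρ := by rw [hρ]; linarith
  have hρ1 : ρ < 1 := by
    rw [hρ]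
    have : 0 < ε ^ 2 / (2 * (S.card : ℝ) ^ 2) := by positivity
    linarith
  refine ⟨ρ, hρ0, hρ1, fun m => ?_⟩
  have hRpos : 0 < ρ * S.card := mul_pos hρ0 hcardpos
  have hR : ∀ f : G → ℝ, F2_FS f → (∀ x, 0 ≤ f x) →
      F2_B S f f ≤ (ρ * S.card) * ∑' x, f x ^ 2 := by
    intro f hf hf0
    refine (F2_nonneg_bound S ε hε hne hexp f hf hf0).trans (le_of_eq ?_)
    rw [hρ]
    field_simp
  have hnorm : ∀ m, ∑' x, F2_N S m x ^ 2 ≤ ((ρ * S.card) ^ m) ^ 2 := by
    intro m
    induction m with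
    | zero =>
      rw [tsum_eq_single (1 : G) (fun x hx => by simp [F2_N, hx])]
      simp [F2_N]
    | succ m ih =>
      have h1 := F2_A_bound S hS _ hRpos hR (F2_N S m) (F2_N_fs S m)
      calc ∑' x, F2_N S (m + 1) x ^ 2 = ∑' x, F2_A S (F2_N S m) x ^ 2 := rfl
        _ ≤ (ρ * S.card) ^ 2 * ∑' x, F2_N S m x ^ 2 := h1
        _ ≤ (ρ * S.card) ^ 2 * ((ρ * S.card) ^ m) ^ 2 :=
          mul_le_mul_of_nonneg_left ih (by positivity)
        _ = ((ρ * S.card) ^ (m + 1)) ^ 2 := by ring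
  rw [F2_card_words S m 1]
  have hsm : Summable fun x => F2_N S m x ^ 2 :=
    F2_FS.summable ((F2_N_fs S m).mono fun x hx => by rw [hx]; simp)
  have h1 : F2_N S m 1 ^ 2 ≤ ((ρ * S.card) ^ m) ^ 2 :=
    (hsm.le_tsum 1 (fun x _ => sq_nonneg _)).trans (hnorm m)
  exact le_of_sq_le_sq h1 (by positivity)

end Pool.Agent.Helper59.EX
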