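import Pool.Agent.Helper59.EX.Defs
import Pool.Agent.Helper59.EX.St.E3

/-!
EX-F3: closed signed words in the letters `T = Fin k → S`.
-/

namespace Pool.Agent.Helper59.EX

private lemma f3_signedProd_eq {G T : Type} [Group G] (tv : T → G) (l : List (T × Bool)) :
    signedProd tv l = (l.map fun p => if p.2 then tv p.1 else (tv p.1)⁻¹).prod := by
  induction l with
  | nil => rfl
  | cons a l ih =>
    rcases a with ⟨t, b⟩
    cases b <;> simp [signedProd, ih]

private lemma f3_prod_rev {G : Type} [Group G] (k : ℕ) (f : Fin k → G) :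
    (List.ofFn fun j => (f (Fin.rev j))⁻¹).prod = (List.ofFn f).prod⁻¹ := by
  rw [List.prod_inv_reverse]
  congr 1
  apply List.ext_getElem
  · simp
  · intro i h1 h2
    simp only [List.getElem_ofFn, List.getElem_reverse, List.getElem_map]
    congr 2
    apply Fin.ext
    simp [Fin.rev]
    omega

theorem signed_words_le {G : Type} [Group G] (S : Finset G) (hS : ∀ s ∈ S, s⁻¹ ∈ S) (ρ : ℝ)
    (hρ : ∀ m : ℕ, (Nat.card {w : Fin m → S //
      (List.ofFn fun i => ((w i : S) : G)).prod = 1} : ℝ) ≤ (ρ * S.card) ^ m) (k m : ℕ)
    (σ : Fin m → Bool) :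
    (Nat.card {τ : Fin m → (Fin k → S) // signedProd
      (fun t : Fin k → S => (List.ofFn fun i => ((t i : S) : G)).prod)
      (List.ofFn fun i => (τ i, σ i)) = 1} : ℝ) ≤ ((ρ * S.card) ^ k) ^ m := by
  classical
  -- the letter of the long word
  set L : (Fin m → (Fin k → S)) → Fin m → Fin k → S := fun τ i j =>
    if σ i then τ i j else ⟨((τ i (Fin.rev j) : S) : G)⁻¹, hS _ (τ i (Fin.rev j)).2⟩ with hL
  have hLprod : ∀ τ : Fin m → (Fin k → S), signedProd
      (fun t : Fin k → S => (List.ofFn fun i => ((t i : S) : G)).prod)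
      (List.ofFn fun i => (τ i, σ i)) =
      (List.ofFn fun i => (List.ofFn fun j => ((L τ i j : S) : G)).prod).prod := by
    intro τ
    rw [f3_signedProd_eq, List.map_ofFn]
    congr 1
    congr 1
    funext i
    simp only [Function.comp, hL]
    cases h : σ i
    · simp only [Bool.false_eq_true, if_false]
      exact (f3_prod_rev k (fun j => ((τ i j : S) : G))).symm
    · simp
  set W : (Fin m → (Fin k → S)) → Fin (m * k) → S := fun τ x =>
    L τ (finProdFinEquiv.symm x).1 (finProdFinEquiv.symm x).2 with hW
  have hWprod : ∀ τ : Fin m → (Fin k → S),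
      (List.ofFn fun x => ((W τ x : S) : G)).prod =
      (List.ofFn fun i => (List.ofFn fun j => ((L τ i j : S) : G)).prod).prod := by
    intro τ
    rw [List.ofFn_mul, List.prod_flatten, List.map_ofFn]
    congr 1
    congr 1
    funext i
    simp only [Function.comp]
    congr 1
    congr 1
    funext j
    have : (finProdFinEquiv.symm (⟨(i : ℕ) * k + j, by
        calc (i : ℕ) * k + j < i * k + k := by omega
          _ = (i + 1) * k := by ring
          _ ≤ m * k := Nat.mul_le_mul_right _ i.2⟩ : Fin (m * k))) = (i, j) := by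
      rw [Equiv.symm_apply_eq]
      apply Fin.ext
      simp [finProdFinEquiv]
      ring
    simp only [hW]
    rw [this]
  have hWinj : Function.Injective W := by
    intro τ τ' h
    have h1 : ∀ i j, L τ i j = L τ' i j := by
      intro i j
      have := congrFun h (finProdFinEquiv (i, j))
      simp only [hW, Equiv.symm_apply_apply] at this
      exact this
    funext i
    funext j
    cases hσ : σ i
    · have := h1 i (Fin.rev j)
      simp only [hL, hσ, Bool.false_eq_true, if_false, Fin.rev_rev, Subtype.mk.injEq,
        inv_inj] at this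
      exact Subtype.ext this
    · have := h1 i j
      simpa only [hL, hσ, if_true] using this
  have hcard : Nat.card {τ : Fin m → (Fin k → S) // signedProd
      (fun t : Fin k → S => (List.ofFn fun i => ((t i : S) : G)).prod)
      (List.ofFn fun i => (τ i, σ i)) = 1} ≤ Nat.card {w : Fin (m * k) → S //
      (List.ofFn fun i => ((w i : S) : G)).prod = 1} := by
    refine Nat.card_le_card_of_injective
      (fun τ => (⟨W τ.1, by rw [hWprod, ← hLprod]; exact τ.2⟩ : {w : Fin (m * k) → S //
      (List.ofFn fun i => ((w i : S) : G)).prod = 1})) ?_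
    intro a b hab
    apply Subtype.ext
    apply hWinj
    simpa using congrArg Subtype.val hab
  calc (Nat.card {τ : Fin m → (Fin k → S) // signedProd
      (fun t : Fin k → S => (List.ofFn fun i => ((t i : S) : G)).prod)
      (List.ofFn fun i => (τ i, σ i)) = 1} : ℝ)
      ≤ (Nat.card {w : Fin (m * k) → S //
      (List.ofFn fun i => ((w i : S) : G)).prod = 1} : ℝ) := by exact_mod_cast hcard
    _ ≤ (ρ * S.card) ^ (m * k) := hρ (m * k)
    _ = ((ρ * S.card) ^ k) ^ m := by rw [← pow_mul, mul_comm m k]

end Pool.Agent.Helper59.EX
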